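import Pool.Agent.MP_3ee8cb_gt.D3RH.Kit

/-! The angle at the crossing with a fixed geodesic. -/

namespace Pool.Agent.MP_3ee8cb_gt.D3RH

open Set Filter Topology D3 D3RK D3WI
open scoped RealInnerProductSpace

namespace RANG

theorem up {f f' μ : ℝ → ℝ} {a b C : ℝ} (hab : a < b) (hμ : ContinuousOn μ (Icc a b))
    (hd : ∀ θ ∈ Ioo a b, HasDerivAt f (f' θ) θ) (hl : ∀ θ ∈ Ioo a b, μ θ ≤ f' θ)
    (hC : ∀ x y, f y - f x ≤ C) : ∫ θ in a..b, μ θ ≤ C := by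
  have hi : ∀ x ∈ Icc a b, IntervalIntegrable μ MeasureTheory.volume a x := fun x hx =>
    (hμ.mono (by rw [uIcc_of_le hx.1]; exact Icc_subset_Icc_right hx.2)).intervalIntegrable
  have hP : ContinuousOn (fun x => ∫ t in a..x, μ t) (Icc a b) := by
    have e := intervalIntegral.continuousOn_primitive_interval' (hi b ⟨hab.le, le_rfl⟩)
      left_mem_uIcc
    rwa [uIcc_of_le hab.le] at e
  have ev : ∀ᶠ r in 𝓝[>] (0 : ℝ), r ∈ Ioo 0 ((b - a) / 2) := Ioo_mem_nhdsGT (by linarith)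
  have t1 : Tendsto (fun r : ℝ => b - r) (𝓝[>] 0) (𝓝[Icc a b] b) := by
    refine tendsto_nhdsWithin_iff.2 ⟨tendsto_nhdsWithin_of_tendsto_nhds ?_,
      ev.mono fun r hr => ⟨by linarith [hr.1, hr.2], by linarith [hr.1]⟩⟩
    exact Continuous.tendsto' (by fun_prop) _ _ (by simp)
  have t2 : Tendsto (fun r : ℝ => a + r) (𝓝[>] 0) (𝓝[Icc a b] a) := by
    refine tendsto_nhdsWithin_iff.2 ⟨tendsto_nhdsWithin_of_tendsto_nhds ?_,
      ev.mono fun r hr => ⟨by linarith [hr.1], by linarith [hr.1, hr.2]⟩⟩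
    exact Continuous.tendsto' (by fun_prop) _ _ (by simp)
  have t := ((hP b ⟨hab.le, le_rfl⟩).tendsto.comp t1).sub ((hP a ⟨le_rfl, hab.le⟩).tendsto.comp t2)
  rw [intervalIntegral.integral_same, sub_zero] at t
  refine le_of_tendsto t (ev.mono fun r hr => ?_)
  have s : Icc (a + r) (b - r) ⊆ Ioo a b := Icc_subset_Ioo (by linarith [hr.1]) (by linarith [hr.1])
  have h := intervalIntegral.integral_le_sub_of_hasDeriv_right_of_le (g := f) (g' := f') (φ := μ)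
    (a := a + r) (b := b - r) (by linarith [hr.2])
    (fun x hx => (hd x (s hx)).continuousAt.continuousWithinAt)
    (fun x hx => (hd x (s (Ioo_subset_Icc_self hx))).hasDerivWithinAt)
    (hμ.mono (s.trans Ioo_subset_Icc_self)).integrableOn_Icc
    fun x hx => hl x (s (Ioo_subset_Icc_self hx))
  have e := intervalIntegral.integral_interval_sub_left
    (hi (b - r) ⟨by linarith [hr.1, hr.2], by linarith [hr.1]⟩)
    (hi (a + r) ⟨by linarith [hr.1], by linarith [hr.1, hr.2]⟩)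
  exact e.trans_le (h.trans (hC _ _))

theorem both {f f' μ : ℝ → ℝ} {a b C : ℝ} (hab : a < b) (hμ : ContinuousOn μ (Icc a b))
    (hd : ∀ θ ∈ Ioo a b, HasDerivAt f (f' θ) θ) (h0 : ∀ θ ∈ Ioo a b, 0 < μ θ)
    (hl : ∀ θ ∈ Ioo a b, μ θ ≤ |f' θ|) (hC : ∀ x y, f y - f x ≤ C) : ∫ θ in a..b, μ θ ≤ C := by
  rcases hasDerivWithinAt_forall_lt_or_forall_gt_of_forall_ne (convex_Ioo a b) (m := 0)
    (fun θ h => (hd θ h).hasDerivWithinAt)
    (fun θ h => abs_pos.1 ((h0 θ h).trans_le (hl θ h))) with h | h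
  · exact up (f := fun θ => -f θ) (f' := fun θ => -f' θ) hab hμ (fun θ e => (hd θ e).neg)
      (fun θ e => (hl θ e).trans_eq (abs_of_neg (h θ e))) fun x y => by linarith [hC y x]
  · exact up hab hμ hd (fun θ e => (hl θ e).trans_eq (abs_of_pos (h θ e))) hC

variable {m : MF}

theorem dZ (hm : m.OK) {τ : ℝ → ℝ} {σ : ℝ → V × V} {θ r : ℝ} {ξ : V × V}
    (h1 : HasDerivAt τ r θ) (h2 : HasDerivAt σ ξ θ) : HasDerivAt (fun x => m.Z (τ x) (σ x))
      (r • m.vf (m.Z (τ θ) (σ θ)) + fderiv ℝ (m.Z (τ θ)) (σ θ) ξ) θ := by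
  have d := (hm.cZ.differentiable one_ne_zero (τ θ, σ θ)).hasFDerivAt
  have h0 : HasDerivAt (fun s : ℝ => (s, σ θ)) ((1 : ℝ), (0 : V × V)) (τ θ) :=
    (hasDerivAt_id _).prodMk (hasDerivAt_const _ _)
  have k1 := (HasFDerivAt.comp_hasDerivAt (f := fun s : ℝ => (s, σ θ)) _ d h0).unique
    (hm.ode (σ θ) (τ θ))
  have k2 : fderiv ℝ (m.Z (τ θ)) (σ θ) = _ :=
    (d.comp (σ θ) ((hasFDerivAt_const (τ θ) (σ θ)).prodMk (hasFDerivAt_id (σ θ)))).fderiv
  have e : ((r, ξ) : ℝ × V × V) = r • ((1 : ℝ), (0 : V × V)) + (0, ξ) := by simp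
  have k := HasFDerivAt.comp_hasDerivAt (f := fun x => (τ x, σ x)) θ d (h1.prodMk h2)
  rw [e, map_add, map_smul, k1] at k
  rw [k2]
  exact k

theorem ver_vf (z : V × V) : m.ver z (m.vf z) = 0 := by simp [MF.ver, MF.vf]

theorem d_inner (hm : m.OK) {A B : ℝ → V × V} {A' B' : V × V} {θ : ℝ} (hA : HasDerivAt A A' θ)
    (hB : HasDerivAt B B' θ) (e : ∀ᶠ x in 𝓝 θ, (A x).1 = (B x).1) :
    HasDerivAt (fun x => ⟪(A x).2, (B x).2⟫)
      (⟪(A θ).2, m.ver (B θ) B'⟫ + ⟪m.ver (A θ) A', (B θ).2⟫) θ := by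
  have a1 : HasDerivAt (fun x => (A x).1) A'.1 θ :=
    (ContinuousLinearMap.fst ℝ V V).hasFDerivAt.comp_hasDerivAt θ hA
  have b1 : HasDerivAt (fun x => (B x).1) B'.1 θ :=
    (ContinuousLinearMap.fst ℝ V V).hasFDerivAt.comp_hasDerivAt θ hB
  have a2 : HasDerivAt (fun x => (A x).2) A'.2 θ :=
    (ContinuousLinearMap.snd ℝ V V).hasFDerivAt.comp_hasDerivAt θ hA
  have b2 : HasDerivAt (fun x => (B x).2) B'.2 θ :=
    (ContinuousLinearMap.snd ℝ V V).hasFDerivAt.comp_hasDerivAt θ hB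
  have e1 : A'.1 = B'.1 := a1.unique (b1.congr_of_eventuallyEq e)
  have e0 := e.self_of_nhds
  refine (a2.inner ℝ b2).congr_deriv ?_
  have k := hm.skew (B θ).1 B'.1 (A θ).2 (B θ).2
  simp [MF.ver, inner_add_left, inner_add_right, e0, e1, k]
  ring

end RANG

open RANG in
theorem rANG : R_ANG := by
  intro hN m lg H S hS σ ξ w τ s μ a b hab hw _ hμ h
  have key : ∀ θ ∈ Ioo a b, ∃ d, HasDerivAt
      (fun x => Real.arccos ⟪(m.Z (τ x) (σ x)).2, (m.Z (s x) w).2⟫) d θ ∧ μ θ ≤ |d| := by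
    intro θ hθ
    obtain ⟨h1, h2, h3, h4, h5, h6, h7, -, h9⟩ := h θ hθ
    have hc := d_inner H.ok (dZ H.ok h4.hasDerivAt h2)
      (HasDerivAt.scomp θ (H.ok.ode w (s θ)) h5.hasDerivAt)
      ((isOpen_Ioo.eventually_mem hθ).mono fun x hx => (h x hx).2.2.2.2.2.1)
    simp only [map_add, map_smul, ver_vf, smul_zero, zero_add, inner_zero_right,
      Function.comp_def] at hc
    have hA := H_fl H.jac hS.o1 h1 (τ θ)
    have hB := H_fl H.jac hS.o1 hw (s θ)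
    have j1 := (((hN m lg H S hS (σ θ) h1 (ξ θ)).2.2 (τ θ)).2).trans h3.2.1
    have j2 := J'_vel H.ok H.jac (σ θ) (ξ θ) (τ θ)
    rw [real_inner_comm _ (m.ver _ _), h3.2.2, real_inner_comm] at j2
    have j := perp_eq (hS.o1.unit _) hA.1 hA.2 j1 j2
    have h9' := h9 (τ θ)
    change HasDerivAt _ ⟪m.J' (σ θ) (ξ θ) (τ θ), _⟫ _ at hc
    simp only [Sp.n] at h7 h9'
    have a1 := hA.1
    have b1 := hB.1
    have a2 : ⟪S.ζ (m.Z (s θ) w).1, (m.Z (τ θ) (σ θ)).2⟫ = 0 := h6 ▸ hA.2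
    have b2 : ⟪S.ζ (m.Z (s θ) w).1, (m.Z (s θ) w).2⟫ = 0 := hB.2
    have u := hS.o1.unit (m.Z (s θ) w).1
    rw [h6] at j h9'
    have x := expand u b1 b2 (m.Z (τ θ) (σ θ)).2
    generalize hv : (m.Z (τ θ) (σ θ)).2 = v at *
    generalize hW : (m.Z (s θ) w).2 = W at *
    generalize S.ζ (m.Z (s θ) w).1 = z at *
    generalize m.J' (σ θ) (ξ θ) (τ θ) = J at *
    have n : ⟪v, W⟫ ^ 2 + ⟪cr z W, v⟫ ^ 2 = 1 := by
      have y := congrArg (fun q => ⟪v, q⟫) x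
      simp only [a2, zero_smul, zero_add, inner_add_right, inner_smul_right,
        real_inner_self_eq_norm_sq, a1, real_inner_comm (cr z W) v, real_inner_comm v W] at y
      nlinarith
    have p : 0 < ⟪cr z W, v⟫ ^ 2 := by positivity
    have q := (Real.hasDerivAt_arccos (x := ⟪v, W⟫) (fun e => by rw [e] at n; linarith)
      (fun e => by rw [e] at n; linarith)).comp_of_eq θ hc (by rw [hv, hW])
    refine ⟨_, q, h9'.trans_eq ?_⟩
    have e : ⟪J, W⟫ = ⟪cr z v, J⟫ * -⟪cr z W, v⟫ := by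
      conv_lhs => rw [j, real_inner_smul_left]
      congr 1
      simp only [inn, cr0, cr1, cr2]; ring
    rw [e, show 1 - ⟪v, W⟫ ^ 2 = ⟪cr z W, v⟫ ^ 2 by linarith, Real.sqrt_sq_eq_abs, abs_mul, abs_mul,
      abs_neg, abs_neg, abs_div, abs_abs, abs_one]
    have := abs_pos.2 h7
    field_simp
  choose! d hd using key
  exact both hab hμ (fun θ e => (hd θ e).1) (fun θ e => (h θ e).2.2.2.2.2.2.2.1)
    (fun θ e => (hd θ e).2) fun x y => by
      linarith [Real.arccos_le_pi ⟪(m.Z (τ y) (σ y)).2, (m.Z (s y) w).2⟫,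
        Real.arccos_nonneg ⟪(m.Z (τ x) (σ x)).2, (m.Z (s x) w).2⟫]

end Pool.Agent.MP_3ee8cb_gt.D3RH
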