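import Pool.Agent.MP_3ee8cb_gt.D3RH.Kit

/-! Averaging over the horizontal vectors. -/

namespace Pool.Agent.MP_3ee8cb_gt.D3RH

open Set Filter Topology D3 D3RK
open D3.SI (ac)
open scoped RealInnerProductSpace

noncomputable section

namespace RAVG

variable {m : MF} {lg : V × V → V} {S : Sp} {z : V × V} {μ : V × V → ℝ}

/-- The cut-off. -/
def chi (S : Sp) (z : V × V) : ℝ := max 0 (1 / 4 - S.s z ^ 2)

/-- The length of the horizontal part. -/
def ln (S : Sp) (z : V × V) : ℝ := ‖z.2 - S.s z • S.ζ z.1‖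

theorem perp (h : S.OK1 m lg) (z : V × V) : ⟪S.ζ z.1, z.2 - S.s z • S.ζ z.1⟫ = 0 := by
  rw [inner_sub_right, inner_smul_right, real_inner_self_eq_norm_sq, h.unit, Sp.s]
  ring

theorem ln_sq (h : S.OK1 m lg) (hz : ‖z.2‖ = 1) : ln S z ^ 2 = 1 - S.s z ^ 2 := by
  rw [ln, norm_sub_sq_real, inner_smul_right, norm_smul, hz, h.unit, real_inner_comm, mul_one,
    Real.norm_eq_abs, sq_abs, Sp.s]
  ring

theorem ln_ge (h : S.OK1 m lg) (hz : ‖z.2‖ = 1) (hs : S.s z ^ 2 < 1 / 2) : 1 / 2 ≤ ln S z :=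
  abs_le_of_sq_le_sq' (b := ln S z) (by linarith [ln_sq h hz]) (norm_nonneg _) |>.2

theorem lt_of (h : chi S z ≠ 0) : S.s z ^ 2 < 1 / 2 :=
  not_le.1 fun k => h (max_eq_left (by linarith))

theorem hd_H (h : S.OK1 m lg) (hz : ‖z.2‖ = 1) (hs : S.s z ^ 2 < 1 / 2) : S.hd z ∈ S.H :=
  ⟨norm_smul_inv_norm (norm_pos_iff.1 (one_half_pos.trans_le (ln_ge h hz hs))),
    (inner_smul_right _ _ _).trans (by rw [show (S.hd z).1 = z.1 from rfl, perp h, mul_zero])⟩

theorem hd_eq {c : ℝ} {u : V} (hc : 0 < c) (hu : ‖u‖ = 1) (e : z.2 - S.s z • S.ζ z.1 = c • u) :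
    S.hd z = (z.1, u) := by
  rw [Sp.hd, e, norm_smul, hu, mul_one, Real.norm_of_nonneg hc.le, inv_smul_smul₀ hc.ne']

theorem split (hc : 0 < ln S z) : z.2 - S.s z • S.ζ z.1 = ln S z • (S.hd z).2 :=
  (smul_inv_smul₀ hc.ne' _).symm

theorem cont (h : S.OK1 m lg) (cμ : ContinuousOn μ S.H) (p : ∀ z ∈ S.H, 0 < μ z) {f : ℝ → ℝ}
    (hf : ContinuousOn f (Ioi 0)) :
    ContinuousOn (fun z => chi S z * f (μ (S.hd z))) {z | ‖z.2‖ = 1} := by
  have c1 := h.cont.comp (continuous_fst (X := V) (Y := V))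
  have cs : Continuous S.s := c1.inner continuous_snd
  have cw := continuous_snd.sub (cs.smul c1)
  intro z hz
  rcases lt_or_ge (S.s z ^ 2) (1 / 2) with k | k
  · have mp : MapsTo S.hd ({z | ‖z.2‖ = 1} ∩ {z | S.s z ^ 2 < 1 / 2}) S.H :=
      fun z hz => hd_H h hz.1 hz.2
    have c2 : ContinuousOn S.hd ({z | ‖z.2‖ = 1} ∩ {z | S.s z ^ 2 < 1 / 2}) :=
      continuousOn_fst.prodMk ((cw.norm.continuousOn.inv₀ fun z hz =>
        (one_half_pos.trans_le (ln_ge h hz.1 hz.2)).ne').smul cw.continuousOn)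
    exact (((continuous_const.max (continuous_const.sub (cs.pow 2))).continuousOn.mul
      (hf.comp (cμ.comp c2 mp) fun z hz => p _ (mp hz))) z ⟨hz, k⟩).mono_of_mem_nhdsWithin
      (inter_mem_nhdsWithin _ ((isOpen_lt (cs.pow 2) continuous_const).mem_nhds k))
  · refine ((continuousAt_const (y := (0 : ℝ))).congr ?_).continuousWithinAt
    filter_upwards [(isOpen_lt (continuous_const (y := (1 / 4 : ℝ))) (cs.pow 2)).mem_nhds
      (show 1 / 4 < S.s z ^ 2 by linarith)] with w hw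
    rw [chi, max_eq_left (sub_nonpos.2 (show 1 / 4 < S.s w ^ 2 from hw).le), zero_mul]

theorem hd_fl (j : m.Jac) (h : S.OK m lg) (hz : ‖z.2‖ = 1) (hs : S.s z ^ 2 < 1 / 2) (t : ℝ) :
    S.hd (m.Z t z) = S.Tv m (S.s z * t) (m.Z (ln S z * t) (S.hd z)) := by
  have c0 := one_half_pos.trans_le (ln_ge h.o1 hz hs)
  have e := h.o4.dec t (S.s z) z.1 _ (perp h.o1 z)
  rw [sub_add_cancel, split c0, j.scale] at e
  rw [hd_eq c0 (H_Tv h.o4 (H_fl j h.o1 (hd_H h.o1 hz hs) (ln S z * t)) (S.s z * t)).1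
    (by rw [h.o1.sl, e, add_sub_cancel_right]; exact map_smul _ _ _), e]
  rfl

theorem hd_ac {X : Sd} {ε τ : X.G → ℝ} (d : Dk X S ε τ) (γ : X.G) (z : V × V) :
    chi S (ac X.O γ z) = chi S z ∧ S.hd (ac X.O γ z) = ac X.O γ (S.hd z) := by
  have e2 : ε γ * ε γ = 1 := by rcases d.sg γ with e | e <;> simp [e]
  have e : S.s z = ε γ * S.s (ac X.O γ z) := by
    rw [Sp.s, ← (X.O γ z.1).inner_map_map, d.ze, inner_smul_left]
    rfl
  have e3 : (ac X.O γ z).2 - S.s (ac X.O γ z) • S.ζ (ac X.O γ z).1 =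
      X.O γ z.1 (z.2 - S.s z • S.ζ z.1) := by
    rw [map_sub, map_smul, d.ze, e, smul_smul, mul_right_comm, e2, one_mul]
    rfl
  refine ⟨by rw [chi, chi, e, mul_pow, sq (ε γ), e2, one_mul], ?_⟩
  rw [Sp.hd, e3, LinearIsometryEquiv.norm_map, ← map_smul]
  rfl

theorem rot (h : S.OK1 m lg) (hz : z ∈ S.H) (θ : ℝ) :
    (z.1, Real.cos θ • z.2 + Real.sin θ • S.n z) ∈ S.H := by
  refine ⟨(pow_eq_one_iff_of_nonneg (norm_nonneg _) two_ne_zero).1 ?_, ?_⟩
  · rw [norm_add_sq_real, inner_smul_left, inner_smul_right, norm_smul, norm_smul, hz.1,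
      n_unit h hz, Sp.n, cr_right]
    simp
  · rw [Sp.s, inner_add_right, inner_smul_right, inner_smul_right, Sp.n, cr_left,
      show ⟪S.ζ z.1, z.2⟫ = 0 from hz.2]
    simp

end RAVG

open RAVG in
theorem rAVG : R_AVG := by
  intro int rt X S ε τ₀ τ μ M hX h d cμ H z hz
  have o := hX.hd.ok
  have j := hX.hd.jac
  have p := fun z hz => (H z hz).1
  have c0 : ∀ z, 0 ≤ chi S z := fun z => le_max_left _ _
  have alg : ∀ y : ℝ, 0 < y → y⁻¹ ^ 2 + 2 * y - 3 = (y - 1) ^ 2 * ((2 * y + 1) * y⁻¹ ^ 2) :=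
    fun y hy => by field_simp; ring
  have cG := cont h.o1 cμ p (f := fun y => 2 * (y - 1)) (by fun_prop)
  have k := int X.m X.G X.O (fun z => chi S z * (2 * (μ (S.hd z) - 1)))
    (fun z => chi S z * ((μ (S.hd z))⁻¹ ^ 2 + 2 * μ (S.hd z) - 3)) |M| o j hX.act hX.fd cG
    (cont h.o1 cμ p (f := fun y => y⁻¹ ^ 2 + 2 * y - 3)
      ((((continuousOn_id.inv₀ fun _ hy => ne_of_gt hy).pow 2).add (by fun_prop)).sub
        continuousOn_const)) (fun γ z hz => ?_) (fun z hz => ?_) (fun x => ?_) z hz.1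
  · have e : S.hd z = z := hd_eq one_pos hz.1 (by rw [hz.2, zero_smul, sub_zero, one_smul])
    have y0 := p z hz
    rw [e, chi, hz.2, alg _ y0] at k
    have k2 := (mul_eq_zero.1 k).resolve_left (by norm_num)
    exact sub_eq_zero.1 (pow_eq_zero_iff two_ne_zero |>.1
      ((mul_eq_zero.1 k2).resolve_right (by positivity)))
  · change chi S (ac X.O γ z) * (2 * (μ (S.hd (ac X.O γ z)) - 1)) = _ ∧
      chi S (ac X.O γ z) * ((μ (S.hd (ac X.O γ z)))⁻¹ ^ 2 + 2 * μ (S.hd (ac X.O γ z)) - 3) = _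
    rw [(hd_ac d γ z).1, (hd_ac d γ z).2]
    by_cases c : chi S z = 0
    · simp only [c, zero_mul, and_self]
    · rw [(H _ (hd_H h.o1 hz (lt_of c))).2.2.2.1]
      exact ⟨rfl, rfl⟩
  · have ec : ∀ t, chi S (X.m.Z t z) = chi S z := fun t => by rw [chi, h.o1.sl, chi]
    by_cases c : chi S z = 0
    · simp only [c, ec, zero_mul, sub_self, intervalIntegral.integral_zero, le_refl, true_and]
      exact fun _ _ => neg_nonpos.2 (abs_nonneg M)
    have hu := hd_H h.o1 hz (lt_of c)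
    have l0 := ln_ge h.o1 hz (lt_of c)
    have fl := fun t => H_fl j h.o1 hu t
    have y0 := p _ hu
    refine ⟨mul_nonneg (c0 z) (by rw [alg _ y0]; positivity), fun T _ => ?_⟩
    have cz : Continuous fun t => μ (X.m.Z (ln S z * t) (S.hd z)) := cμ.comp_continuous
      (o.cZ.continuous.comp ((continuous_const.mul continuous_id).prodMk continuous_const))
      fun t => fl _
    have ci := (cz.inv₀ fun t => (p _ (fl _)).ne').pow 2
    simp only [ec, hd_fl j h hz (lt_of c), fun t r => (H _ (fl t)).2.2.1 r]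
    rw [intervalIntegral.integral_eq_sub_of_hasDerivAt
      (f := fun t => -(chi S z / ln S z) * τ (X.m.Z (ln S z * t) (S.hd z)))
      (fun t _ => (((((H _ hu).2.2.2.2.1 _).comp t (hasDerivAt_const_mul (ln S z))).const_mul
        _).congr_deriv (by
          rw [mul_comm _ (ln S z), ← mul_assoc, neg_mul, div_mul_cancel₀ _ (by linarith)]
          ring)))
      (Continuous.intervalIntegrable (by
        exact (continuous_const.mul (continuous_const.mul (cz.sub continuous_const))).sub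
          (continuous_const.mul ((ci.add (continuous_const.mul cz)).sub continuous_const))) _ _)]
    have b1 := abs_le.1 ((H _ (fl (ln S z * T))).2.1.trans (le_abs_self M))
    have b2 := abs_le.1 ((H _ (fl (ln S z * 0))).2.1.trans (le_abs_self M))
    have b3 : chi S z / ln S z ≤ 1 / 2 := (div_le_iff₀ (by linarith)).2
      ((max_le (by norm_num) (sub_le_self _ (sq_nonneg _))).trans (by linarith))
    have b4 : 0 ≤ chi S z / ln S z := div_nonneg (c0 z) (by linarith)
    nlinarith [abs_nonneg M]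
  · refine rt (S.ζ x) _ (h.o1.unit x)
      (cG.comp (continuous_const.prodMk continuous_id).continuousOn fun _ ha => ha) fun a ha => ?_
    have es : ∀ θ, S.s (x, ⟪S.ζ x, a⟫ • S.ζ x + Real.cos θ • (a - ⟪S.ζ x, a⟫ • S.ζ x) +
        Real.sin θ • cr (S.ζ x) a) = S.s (x, a) := fun θ => by
      have := perp h.o1 (x, a)
      simp only [Sp.s] at this ⊢
      rw [inner_add_right, inner_add_right, inner_smul_right, inner_smul_right, inner_smul_right,
        this, cr_left, real_inner_self_eq_norm_sq, h.o1.unit]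
      ring
    simp only [chi, es]
    change ∫ θ in (0 : ℝ)..2 * Real.pi, chi S (x, a) * _ ≤ 0
    by_cases c : chi S (x, a) = 0
    · simp only [c, zero_mul, intervalIntegral.integral_zero, le_refl]
    have hu := hd_H h.o1 (z := (x, a)) ha (lt_of c)
    have l0 := one_half_pos.trans_le (ln_ge h.o1 (z := (x, a)) ha (lt_of c))
    have sp : a - ⟪S.ζ x, a⟫ • S.ζ x = _ := split l0
    have e : ∀ θ, S.hd (x, ⟪S.ζ x, a⟫ • S.ζ x + Real.cos θ • (a - ⟪S.ζ x, a⟫ • S.ζ x) +
        Real.sin θ • cr (S.ζ x) a) = _ := fun θ => hd_eq l0 (rot h.o1 hu θ).1 (by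
      have e2 : cr (S.ζ x) a = ln S (x, a) • S.n (S.hd (x, a)) := by
        change _ = _ • cr (S.ζ x) _
        rw [← cr_smul_right, ← sp, cr_sub_right, cr_smul_right, cr_self, smul_zero, sub_zero]
      rw [es, sp, e2]
      simp only [Sp.s, smul_add, smul_comm (ln S (x, a))]
      abel)
    have ci : Continuous fun θ => μ (x, Real.cos θ • (S.hd (x, a)).2 +
        Real.sin θ • S.n (S.hd (x, a))) := cμ.comp_continuous (by fun_prop) (rot h.o1 hu)
    simp only [e, intervalIntegral.integral_const_mul]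
    rw [intervalIntegral.integral_sub (ci.intervalIntegrable _ _) intervalIntegrable_const,
      intervalIntegral.integral_const, sub_zero, smul_eq_mul, mul_one]
    exact mul_nonpos_of_nonneg_of_nonpos (c0 _)
      (mul_nonpos_of_nonneg_of_nonpos zero_le_two (sub_nonpos.2 (H _ hu).2.2.2.2.2))

end

end Pool.Agent.MP_3ee8cb_gt.D3RH
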