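import Pool.Agent.MP_3ee8cb_gt.D3RH.Kit
import Pool.Agent.MP_3ee8cb_gt.D3LN.Al

/-! The block form of the derivative of the conjugacy. -/

namespace Pool.Agent.MP_3ee8cb_gt.D3RH

open Set Filter Topology D3 D3RK
open D3.LN (mk hor_mk ver_mk mk_hv)
open scoped RealInnerProductSpace

noncomputable section

namespace RBLK

variable {m m' : MF} {lg lg' : V × V → V} {S S' : Sp} {φ : V × V → V × V}

theorem op : IsOpen {z : V × V | z.2 ≠ 0} := isOpen_ne_fun continuous_snd continuous_const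

theorem ne0 {z : V × V} (hz : ‖z.2‖ = 1) : z.2 ≠ 0 := fun e => by simp [e] at hz

theorem dφ (hc : CH m m' φ) {z : V × V} (hz : z.2 ≠ 0) : DifferentiableAt ℝ φ z :=
  (hc.c1.contDiffAt (op.mem_nhds hz)).differentiableAt one_ne_zero

theorem dZ (h : m.OK) (t : ℝ) (z : V × V) : DifferentiableAt ℝ (m.Z t) z :=
  ((h.cZ.comp (contDiff_const.prodMk contDiff_id)).differentiable one_ne_zero z :)

theorem comm (h : m.OK) (hj : m.Jac) (h' : m'.OK) (hc : CH m m' φ) {z : V × V} (hz : z.2 ≠ 0)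
    (t : ℝ) (ξ : V × V) : fderiv ℝ (m'.Z t) (φ z) (fderiv ℝ φ z ξ) =
      fderiv ℝ φ (m.Z t z) (fderiv ℝ (m.Z t) z ξ) := by
  have h1 : (m.Z t z).2 ≠ 0 := norm_ne_zero_iff.1 (by rw [hj.norm]; exact norm_ne_zero_iff.2 hz)
  have e : m'.Z t ∘ φ =ᶠ[𝓝 z] φ ∘ m.Z t :=
    mem_of_superset (op.mem_nhds hz) fun y hy => (hc.flow t y hy).symm
  have := e.fderiv_eq (𝕜 := ℝ)
  rw [fderiv_comp _ (dZ h' t _) (dφ hc hz), fderiv_comp _ (dφ hc h1) (dZ h t _)] at this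
  exact DFunLike.congr_fun this ξ

theorem dvf (h : m.OK) (h' : m'.OK) (hc : CH m m' φ) {z : V × V} (hz : z.2 ≠ 0) :
    fderiv ℝ φ z (m.vf z) = m'.vf (φ z) := by
  have a := h.ode z 0
  have b := h'.ode (φ z) 0
  rw [h.zero] at a
  rw [h'.zero] at b
  have c := (dφ hc hz).hasFDerivAt.comp_hasDerivAt_of_eq 0 a (h.zero z).symm
  have e : (φ ∘ fun s => m.Z s z) = fun s => m'.Z s (φ z) := funext fun s => hc.flow s z hz
  rw [e] at c
  exact c.unique b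

theorem ver_eq (z ξ : V × V) : m.ver z ξ = ξ.2 + m.om z.1 ξ.1 z.2 := rfl

theorem vel_ver (h : m.OK) (z ξ : V × V) : ⟪z.2, m.ver z ξ⟫ = ⟪z.2, ξ.2⟫ := by
  rw [ver_eq, inner_add_right, real_inner_comm (m.om _ _ _), D3WI.skew_self h, add_zero]

/-- A curve of unit vectors with a given tangent. -/
theorem curve {z ξ : V × V} (hz : ‖z.2‖ = 1) (h : ⟪z.2, ξ.2⟫ = 0) :
    ∃ q : ℝ → V × V, q 0 = z ∧ (∀ r, ‖(q r).2‖ = 1) ∧ HasDerivAt q ξ 0 := by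
  have e : ∀ r : ℝ, ‖z.2 + r • ξ.2‖ = √(1 + r ^ 2 * ‖ξ.2‖ ^ 2) := fun r => by
    rw [← Real.sqrt_sq (norm_nonneg (z.2 + r • ξ.2)), norm_add_sq_real, inner_smul_right, h, hz,
      norm_smul, mul_pow, Real.norm_eq_abs, sq_abs]
    norm_num
  refine ⟨fun r => (z.1 + r • ξ.1, (√(1 + r ^ 2 * ‖ξ.2‖ ^ 2))⁻¹ • (z.2 + r • ξ.2)), by simp,
    fun r => ?_, ?_⟩
  · have p : 0 < √(1 + r ^ 2 * ‖ξ.2‖ ^ 2) := by positivity
    rw [norm_smul, e, Real.norm_eq_abs, abs_of_pos (inv_pos.2 p), inv_mul_cancel₀ p.ne']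
  · have d : ∀ a v : V, HasDerivAt (fun r : ℝ => a + r • v) v 0 := fun a v => by
      simpa using ((hasDerivAt_id (0 : ℝ)).smul_const v).const_add a
    have d1 : HasDerivAt (fun r : ℝ => 1 + r ^ 2 * ‖ξ.2‖ ^ 2) 0 0 := by
      simpa using ((hasDerivAt_pow 2 (0 : ℝ)).mul_const (‖ξ.2‖ ^ 2)).const_add 1
    have d2 := (d1.sqrt (by simp)).fun_inv (by simp)
    have d3 := d2.fun_smul (d z.2 ξ.2)
    refine (d z.1 ξ.1).prodMk (d3.congr_deriv ?_)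
    simp

/-- The derivative of the slope. -/
theorem d_s (h : m.OK) (h2 : S.OK2 m) {q : ℝ → V × V} {ξ : V × V} (hq : HasDerivAt q ξ 0) :
    HasDerivAt (fun r => S.s (q r)) ⟪S.ζ (q 0).1, m.ver (q 0) ξ⟫ 0 := by
  have a : HasDerivAt (fun r => (q r).1) ξ.1 0 :=
    (ContinuousLinearMap.fst ℝ V V).hasFDerivAt.comp_hasDerivAt 0 hq
  have b : HasDerivAt (fun r => (q r).2) ξ.2 0 :=
    (ContinuousLinearMap.snd ℝ V V).hasFDerivAt.comp_hasDerivAt 0 hq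
  have c := (h2.c1.differentiable one_ne_zero (q 0).1).hasFDerivAt.comp_hasDerivAt 0 a
  rw [h2.par] at c
  refine (c.inner ℝ b).congr_deriv ?_
  rw [ver_eq, inner_add_right, inner_neg_left, h.skew, neg_neg]
  rfl

/-- The vertical part of the image. -/
theorem vert (h : m.OK) (h' : m'.OK) (hc : CH m m' φ) (h2 : S.OK2 m) (h2' : S'.OK2 m')
    (sl : ∀ z ∈ U, S'.s (φ z) = S.s z) {z ξ : V × V} (hz : ‖z.2‖ = 1)
    (h0 : ⟪z.2, m.ver z ξ⟫ = 0) :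
    ⟪S'.ζ (φ z).1, m'.ver (φ z) (fderiv ℝ φ z ξ)⟫ = ⟪S.ζ z.1, m.ver z ξ⟫ ∧
      ⟪(φ z).2, m'.ver (φ z) (fderiv ℝ φ z ξ)⟫ = 0 := by
  rw [vel_ver h] at h0
  obtain ⟨q, rfl, q1, dq⟩ := curve hz h0
  have d : HasDerivAt (fun r => φ (q r)) (fderiv ℝ φ (q 0) ξ) 0 :=
    (dφ hc (ne0 hz)).hasFDerivAt.comp_hasDerivAt 0 dq
  refine ⟨?_, ?_⟩
  · have a := d_s h' h2' d
    rw [show (fun r => S'.s (φ (q r))) = fun r => S.s (q r) from funext fun r => sl _ (q1 r)] at a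
    exact a.unique (d_s h h2 dq)
  · have b : HasDerivAt (fun r => (φ (q r)).2) (fderiv ℝ φ (q 0) ξ).2 0 :=
      (ContinuousLinearMap.snd ℝ V V).hasFDerivAt.comp_hasDerivAt 0 d
    have a := b.norm_sq
    rw [show (fun r => ‖(φ (q r)).2‖ ^ 2) = fun _ => (1 : ℝ) from funext fun r => by
      rw [hc.norm _ (ne0 (q1 r)), q1, one_pow]] at a
    have e := a.unique (hasDerivAt_const _ _)
    rw [vel_ver h']
    linarith

/-- The component along `E` of the image of a normal vector. -/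
def pq (m m' : MF) (S : Sp) (φ : V × V → V × V) (E : V × V → V) (a b : ℝ) (z : V × V) : ℝ :=
  ⟪E (φ z), m'.hor (φ z) (fderiv ℝ φ z (mk m z (a • S.n z, b • S.n z)))⟫

theorem pq_lin (E : V × V → V) (a b : ℝ) (z : V × V) : pq m m' S φ E a b z =
    pq m m' S φ E 1 0 z * a + pq m m' S φ E 0 1 z * b := by
  have e : (a • S.n z, b • S.n z) = a • ((1 : ℝ) • S.n z, (0 : ℝ) • S.n z) +
      b • ((0 : ℝ) • S.n z, (1 : ℝ) • S.n z) := by simp
  simp only [pq]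
  rw [e, map_add, map_smul, map_smul, map_add, map_smul, map_smul, map_add, map_smul, map_smul,
    inner_add_right, inner_smul_right, inner_smul_right]
  ring

theorem pq_cont (h : m.OK) (h' : m'.OK) (hc : CH m m' φ) (hζ : Continuous S.ζ) {E : V × V → V}
    (hE : Continuous E) (a b : ℝ) : ContinuousOn (pq m m' S φ E a b) {z | z.2 ≠ 0} := by
  have cn : Continuous S.n := cr_cont.comp ((hζ.comp continuous_fst).prodMk continuous_snd)
  have c1 : Continuous fun z : V × V => m.R z.1 (a • S.n z) :=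
    (h.cR.continuous.comp continuous_fst).clm_apply (cn.const_smul a)
  have c2 : Continuous fun z : V × V => mk m z (a • S.n z, b • S.n z) :=
    c1.prodMk ((cn.const_smul b).sub
      (((h.com.continuous.comp continuous_fst).clm_apply c1).clm_apply continuous_snd))
  have c3 := hc.c1.continuousOn
  have c4 : ContinuousOn (fun z => fderiv ℝ φ z (mk m z (a • S.n z, b • S.n z))) {z | z.2 ≠ 0} :=
    (hc.c1.continuousOn_fderiv_of_isOpen op le_rfl).clm_apply c2.continuousOn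
  exact (hE.comp_continuousOn c3).inner (𝕜 := ℝ)
    ((h'.cS.continuous.comp_continuousOn c3.fst).clm_apply c4.fst)

theorem pq_bdd (h : m.OK) (h1 : S.OK1 m lg) (hc : CH m m' φ) {E : V × V → V}
    (hE : ∀ w ∈ U, ‖E w‖ = 1) : ∃ C, ∀ z ∈ S.H,
      |pq m m' S φ E 1 0 z| ≤ C ∧ |pq m m' S φ E 0 1 z| ≤ C := by
  obtain ⟨C, hC⟩ := hc.bdd
  have k : ∀ z ∈ S.H, ∀ a b : ℝ, |pq m m' S φ E a b z| ≤ C * (|a| + |b|) := fun z hz a b => by
    have e := hC z hz.1 (mk m z (a • S.n z, b • S.n z))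
    rw [hor_mk h, ver_mk, norm_smul, norm_smul, n_unit h1 hz, mul_one, mul_one] at e
    refine (abs_real_inner_le_norm _ _).trans ?_
    rw [hE _ ((hc.norm z (ne0 hz.1)).trans hz.1), one_mul]
    exact (le_add_of_nonneg_right (norm_nonneg _)).trans e
  exact ⟨C, fun z hz => ⟨by simpa using k z hz 1 0, by simpa using k z hz 0 1⟩⟩

theorem pq_reg (el : SEL) (jt : SJT) (h : Hd m lg) (h' : m'.OK) (hc : CH m m' φ)
    (s : S.OK m lg) (h2' : S'.OK2 m') (sl : ∀ z ∈ U, S'.s (φ z) = S.s z) {E : V × V → V}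
    (hE : ∀ w ∈ U, ‖E w‖ = 1)
    (hI : ∀ w ∈ S'.H, ∀ η, ⟪S'.ζ w.1, m'.ver w η⟫ = 0 → ⟪w.2, m'.ver w η⟫ = 0 →
      ∀ t, ⟪E (m'.Z t w), m'.J w η t⟫ = ⟪E w, m'.hor w η⟫)
    {z : V × V} (hz : z ∈ S.H) (hr : S.Rg m z) (a b : ℝ) : pq m m' S φ E a b z = 0 := by
  obtain ⟨C, hC⟩ := pq_bdd h.ok s.o1 hc hE
  have z0 := ne0 hz.1
  have hw : φ z ∈ S'.H := ⟨(hc.norm z z0).trans hz.1, (sl z hz.1).trans hz.2⟩
  have cf : Continuous fun t => (m.Z t z).1 :=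
    continuous_iff_continuousAt.2 fun t => (d_foot h.ok z t).continuousAt
  have key := el (fun t => S.k (m.Z t z).1) (fun t => pq m m' S φ E 1 0 (m.Z t z))
    (fun t => pq m m' S φ E 0 1 (m.Z t z)) C (s.o3.ck.comp cf) (fun t => s.o3.k0 _) hr
    (fun j j' so t => ?_) fun t => hC _ (H_fl h.jac s.o1 hz t)
  · rw [h.ok.zero] at key
    rw [pq_lin, key.1, key.2, zero_mul, zero_mul, add_zero]
  rw [← pq_lin, ← pq_lin, h.ok.zero]
  have J := jt m h.ok h.jac z (mk m z (j 0 • S.n z, j' 0 • S.n z)) (fun t => S.n (m.Z t z)) _ j j'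
    (d_n h.ok s.o2 z) (fun t => K_n s.o1 s.o3 (H_fl h.jac s.o1 hz t)) so
    (by rw [hor_mk h.ok, h.ok.zero]) (by rw [ver_mk, h.ok.zero]) t
  have e := mk_hv h.ok (m.Z t z) (fderiv ℝ (m.Z t) z (mk m z (j 0 • S.n z, j' 0 • S.n z)))
  rw [show m.hor (m.Z t z) _ = _ from J.1, show m.ver (m.Z t z) _ = _ from J.2] at e
  have v := vert h.ok h' hc s.o2 h2' sl (ξ := mk m z (j 0 • S.n z, j' 0 • S.n z)) hz.1
    (by rw [ver_mk, inner_smul_right, Sp.n, cr_right, mul_zero])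
  rw [ver_mk, inner_smul_right, show ⟪S.ζ z.1, S.n z⟫ = 0 from cr_left _ _, mul_zero] at v
  rw [pq, e, ← comm h.ok h.jac h' hc z0, hc.flow t z z0]
  exact hI _ hw _ v.1 v.2 t

/-- The horizontal part of the image. -/
theorem horz (h : m.OK) (h' : m'.OK) (hc : CH m m' φ) (h1 : S.OK1 m lg) {E : V × V → V}
    {z ξ : V × V} (hz : z ∈ S.H) (ht : S.Tan m z ξ) (h0 : ∀ a b, pq m m' S φ E a b z = 0) :
    ⟪E (φ z), m'.hor (φ z) (fderiv ℝ φ z ξ)⟫ = ⟪z.2, m.hor z ξ⟫ * ⟪E (φ z), (φ z).2⟫ := by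
  have e1 := expand (h1.unit z.1) hz.1 hz.2 (m.hor z ξ)
  have e2 := perp_eq (h1.unit z.1) hz.1 hz.2 ht.2.1 ht.2.2
  rw [ht.1, zero_smul, zero_add] at e1
  have e3 : mk m z (z.2, 0) = m.vf z := Prod.ext rfl (zero_sub _)
  have e4 : (m.hor z ξ, m.ver z ξ) = ⟪z.2, m.hor z ξ⟫ • (z.2, (0 : V)) +
      (⟪S.n z, m.hor z ξ⟫ • S.n z, ⟪S.n z, m.ver z ξ⟫ • S.n z) :=
    Prod.ext e1 (by simpa [Sp.n] using e2)
  have e5 := mk_hv h z ξ
  rw [e4, map_add, map_smul, e3] at e5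
  have e6 : m'.hor (φ z) (m'.vf (φ z)) = (φ z).2 := h'.SR _ _
  have e7 := h0 ⟪S.n z, m.hor z ξ⟫ ⟪S.n z, m.ver z ξ⟫
  rw [pq] at e7
  conv_lhs => rw [← e5]
  rw [map_add, map_smul, map_add, map_smul, dvf h h' hc (ne0 hz.1), e6, inner_add_right, e7,
    inner_smul_right, add_zero]

end RBLK

open RBLK in
theorem rBLK : R_BLK := by
  intro el jt nf den X Y c S S' ε τ ε' τ' D N sl z hz ξ ht
  have h := N.ok.x.hd
  have h' := N.ok.y.hd
  have hc := N.ok.h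
  have z0 := ne0 hz.1
  have hw : c.φ z ∈ S'.H := ⟨(hc.norm z z0).trans hz.1, (sl.sl z hz.1).trans hz.2⟩
  have k : ∀ E : V × V → V, Continuous E → (∀ w ∈ U, ‖E w‖ = 1) →
      (∀ w ∈ S'.H, ∀ η, ⟪S'.ζ w.1, Y.m.ver w η⟫ = 0 → ⟪w.2, Y.m.ver w η⟫ = 0 →
        ∀ t, ⟪E (Y.m.Z t w), Y.m.J w η t⟫ = ⟪E w, Y.m.hor w η⟫) →
      ⟪E (c.φ z), Y.m.hor (c.φ z) (fderiv ℝ c.φ z ξ)⟫ =
        ⟪z.2, X.m.hor z ξ⟫ * ⟪E (c.φ z), (c.φ z).2⟫ := fun E cE uE hI => by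
    refine horz h.ok h'.ok hc N.s.o1 hz ht fun a b => ?_
    have e : EqOn (pq X.m Y.m S c.φ E a b) (fun _ => 0) {w | w ∈ S.H ∧ S.Rg X.m w} :=
      fun w hw => pq_reg el jt h h'.ok hc N.s N.s'.o2 sl.sl uE hI hw.1 hw.2 a b
    exact e.of_subset_closure
      ((pq_cont h.ok h'.ok hc N.s.o1.cont cE a b).mono fun w (hw : w ∈ S.H) => ne0 hw.1)
      continuousOn_const (fun w hw => hw.1) (den X S ε τ N.ok.x N.s N.nf N.dk) hz
  have v := vert h.ok h'.ok hc N.s.o2 N.s'.o2 sl.sl hz.1 ht.2.2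
  have k1 := k (fun w => S'.ζ w.1) (N.s'.o1.cont.comp continuous_fst) (fun w _ => N.s'.o1.unit _)
    fun w hw η a _ t => by
      rw [((nf _ _ h' S' N.s' w hw η).2.2 t).1, a, mul_zero, add_zero]
  have k2 := k (fun w => w.2) continuous_snd (fun w hw => hw) fun w _ η _ b t => by
    rw [real_inner_comm, D3WI.J_vel h'.ok h'.jac, real_inner_comm w.2 (Y.m.ver w η)] at *
    rw [b, mul_zero, add_zero, real_inner_comm]
  rw [show ⟪S'.ζ (c.φ z).1, (c.φ z).2⟫ = 0 from hw.2, mul_zero] at k1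
  rw [real_inner_self_eq_norm_sq, hw.1, one_pow, mul_one] at k2
  exact ⟨⟨k1, v.1.trans ht.2.1, v.2⟩, k2⟩

end

end Pool.Agent.MP_3ee8cb_gt.D3RH
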