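import Pool.Agent.MP_3ee8cb_gt.D3RH.Kit
import Pool.Agent.MP_3ee8cb_gt.D3SC.Cf
import Pool.Agent.MP_3ee8cb_gt.CR.RFD

/-! The conjugacy read in frames, without the flip. -/

namespace Pool.Agent.MP_3ee8cb_gt.D3RH

open Set Filter Topology D3 D3RK D3.SC
open CR (Met UT tm)
open scoped RealInnerProductSpace

noncomputable section

namespace RCF0

variable {g h : Met 3} {C C' : TB.Chr 3} {Φ : ℝ → UT g → UT g} {Ψ : ℝ → UT h → UT h} {m m' : MF}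
  {F : UT g → UT h} {φ : V × V → V × V}

theorem ch {Γ Λ : Type} [Group Γ] [Group Λ] [MulAction Γ V] [MulAction Λ V] {ρ : Γ ≃* Λ}
    {O : Γ → V → V ≃ₗᵢ[ℝ] V} {O' : Λ → V → V ≃ₗᵢ[ℝ] V} (hm : m.OK) (hj : m.Jac) (hm' : m'.OK)
    (hj' : m'.Jac) (hl : Lk g C Φ m) (hl' : Lk h C' Ψ m') (ha : Act m Γ O) (ha' : Act m' Λ O')
    (c1 : ContDiffOn ℝ 1 φ {z | z.2 ≠ 0}) (k0 : ∀ r p, 0 < r → φ (dn m r p) = dn m' r (F p))
    (fl : ∀ t p, F (Φ t p) = Ψ t (F p)) (he : Eqv ρ O O' φ) : CH m m' φ := by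
  obtain ⟨a, -, hA⟩ := bound hm hm' c1 ha ha' he
  refine ⟨c1, fun z hz => ?_, fun t z hz => ?_, a, fun z hz ξ => hA z ξ hz⟩
  · obtain ⟨p, e⟩ := exists_dn (g := g) hm hl.orth hz
    rw [congrArg φ e, k0 _ _ (norm_pos_iff.2 hz), norm_dn hm' hl'.orth, abs_norm]
  · obtain ⟨p, e⟩ := exists_dn (g := g) hm hl.orth hz
    obtain ⟨r, hr⟩ : ∃ r, r = ‖z.2‖ := ⟨_, rfl⟩
    have r0 : 0 < r := hr ▸ norm_pos_iff.2 hz
    rw [← hr] at e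
    rw [e, Z_dn hj hl, k0 _ _ r0, k0 _ _ r0, Z_dn hj' hl', fl]

end RCF0

theorem rCF0 : SCF0 := by
  intro g h C C' Γ Λ _ _ _ _ Φ Ψ ρ F qg qh _ _ _ _ cj m m' lg lg' O O' d d' hl hl' ha ha' h1 h2
  have hm := d.ok
  have hm' := d'.ok
  have ho : Ort g m := hl.orth
  have ho' : Ort h m' := hl'.orth
  obtain ⟨φ, c1, k0⟩ := exists_ext hm ho hm' h1
  obtain ⟨ψ, c2, k2⟩ := exists_ext hm' ho' hm h2
  have pos : ∀ {a : V}, a ≠ 0 → 0 < ‖a‖ := fun h => norm_pos_iff.2 h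
  have i1 : ∀ z : V × V, z.2 ≠ 0 → ψ (φ z) = z := fun z hz => by
    obtain ⟨p, e⟩ := exists_dn hm ho hz
    rw [congrArg φ e, k0 _ _ (pos hz), k2 _ _ (pos hz), F.symm_apply_apply, ← e]
  have i2 : ∀ w : V × V, w.2 ≠ 0 → (ψ w).2 ≠ 0 ∧ φ (ψ w) = w := fun w hw => by
    obtain ⟨p, e⟩ := exists_dn hm' ho' hw
    rw [congrArg ψ e, k2 _ _ (pos hw), k0 _ _ (pos hw), F.apply_symm_apply, ← e]
    exact ⟨dn_ne hm ho (pos hw).ne' _, rfl⟩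
  have he : Eqv ρ O O' φ := fun γ z hz => by
    obtain ⟨p, e⟩ := exists_dn hm ho hz
    obtain ⟨r, hr⟩ : ∃ r, r = ‖z.2‖ := ⟨_, rfl⟩
    have r0 : 0 < r := hr ▸ pos hz
    rw [← hr] at e
    let q : UT g := ⟨tm γ p.1, (qg.rp.deck.iso γ p.1.1 p.1.2 p.1.2).trans p.2⟩
    rw [e, act_dn ha γ r (q := q) rfl, k0 _ _ r0, k0 _ _ r0, act_dn ha' _ r (cj.equi γ p q rfl)]
  have he' : Eqv ρ.symm O' O ψ := fun γ w hw => by
    obtain ⟨h3, h4⟩ := i2 w hw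
    have h5 := he (ρ.symm γ) (ψ w) h3
    rw [h4, ρ.apply_symm_apply] at h5
    rw [← h5]
    exact i1 _ fun e => h3 ((O _ _).map_eq_zero_iff.1 e)
  have fl' : ∀ t q, F.symm (Ψ t q) = Φ t (F.symm q) := fun t q => by
    rw [F.symm_apply_eq, cj.flow, F.apply_symm_apply]
  exact ⟨φ, ψ, ⟨d, ha, CR.fd 3 g Γ qg.rp.deck⟩, ⟨d', ha', CR.fd 3 h Λ qh.rp.deck⟩,
    RCF0.ch hm d.jac hm' d'.jac hl hl' ha ha' c1 k0 cj.flow he,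
    RCF0.ch hm' d'.jac hm d.jac hl' hl ha' ha c2 k2 fl' he', i1, fun w hw => (i2 w hw).2, he, he'⟩

end

end Pool.Agent.MP_3ee8cb_gt.D3RH
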