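import Pool.Agent.MP_3ee8cb_gt.D3RH.Kit

/-! The heights are intertwined after a constant shift. -/

namespace Pool.Agent.MP_3ee8cb_gt.D3RH

open Set D3 D3RK
open scoped RealInnerProductSpace

namespace RCOC

/-- A bounded cocycle is a coboundary. -/
theorem cob {G : Type} [Group G] (e d : G → ℝ) (M : ℝ) (sg : ∀ g, e g = 1 ∨ e g = -1)
    (he : ∀ g h, e (g * h) = e g * e h) (hd : ∀ g h, d (g * h) = d g + e g * d h)
    (bd : ∀ g, |d g| ≤ M) : ∃ p, ∀ g, d g = p - e g * p := by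
  have z : ∀ g, e g = 1 → d g = 0 := fun g hg => by
    have k : ∀ n : ℕ, d (g ^ (n + 1)) = (n + 1) * d g := fun n => by
      induction n with
      | zero => simp
      | succ n ih =>
        rw [pow_succ', hd, ih, hg]
        push_cast
        ring
    by_contra ne
    have p := abs_pos.2 ne
    obtain ⟨n, hn⟩ := exists_nat_gt (M / |d g|)
    have b := bd (g ^ (n + 1))
    rw [k, abs_mul, abs_of_pos (by positivity)] at b
    rw [div_lt_iff₀ p] at hn
    linarith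
  by_cases a : ∀ g, e g = 1
  · exact ⟨0, fun g => by rw [z g (a g), mul_zero, sub_zero]⟩
  · obtain ⟨g₀, h₀⟩ := not_forall.1 a
    have h1 := (sg g₀).resolve_left h₀
    refine ⟨d g₀ / 2, fun g => (sg g).elim (fun h => by rw [z g h, h]; ring) fun h => ?_⟩
    have e1 := he (g * g₀⁻¹) g₀
    have e2 := hd (g * g₀⁻¹) g₀
    rw [inv_mul_cancel_right] at e1 e2
    have e3 : e (g * g₀⁻¹) = 1 := by
      rw [h, h1] at e1
      linarith
    rw [e2, z _ e3, e3, h]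
    ring

theorem mul {X : Sd} {S : Sp} {ε τ : X.G → ℝ} (h : S.OK1 X.m X.lg) (k : Dk X S ε τ) (g g' : X.G) :
    ε (g * g') = ε g * ε g' ∧ τ (g * g') = τ g + ε g * τ g' := by
  have e : ∀ x, ε (g * g') * S.h x + τ (g * g') = ε g * (ε g' * S.h x + τ g') + τ g :=
    fun x => by rw [← k.he, mul_smul, k.he, k.he]
  have e0 := e 0
  have e1 := e (S.T X.m 1 0)
  rw [h_T h] at e1
  have e2 : ε (g * g') = ε g * ε g' := by linarith
  rw [e2] at e0
  exact ⟨e2, by linarith⟩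

theorem slope {X : Sd} {S : Sp} {ε τ : X.G → ℝ} (h : S.OK1 X.m X.lg) (k : Dk X S ε τ) (g : X.G)
    (x : V) : S.s (g • x, X.O g x (S.ζ x)) = ε g := by
  rw [Sp.s, k.ze, inner_smul_right, real_inner_self_eq_norm_sq, h.unit, one_pow, mul_one]

end RCOC

open RCOC in
theorem rCOC : SCOC := by
  intro X Y c S S' ε τ ε' τ' D N hs
  obtain ⟨C, hC⟩ := hs.ht
  have u0 : ‖S.ζ 0‖ = 1 := N.s.o1.unit 0
  have u : ∀ g : X.G, (g • (0 : V), X.O g 0 (S.ζ 0)) ∈ U := fun g =>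
    ((X.O g 0).norm_map _).trans u0
  have q : ∀ g : X.G, c.φ (g • (0 : V), X.O g 0 (S.ζ 0)) =
      (c.ρ g • (c.φ (0, S.ζ 0)).1, Y.O (c.ρ g) (c.φ (0, S.ζ 0)).1 (c.φ (0, S.ζ 0)).2) :=
    fun g => N.ok.eq g (0, S.ζ 0) (norm_ne_zero_iff.1 (by rw [u0]; exact one_ne_zero))
  have e : ∀ g, ε' (c.ρ g) = ε g := fun g => by
    have := hs.sl _ (u g)
    rwa [q, N.lz, slope N.s'.o1 N.dk', slope N.s.o1 N.dk] at this
  obtain ⟨p, hp⟩ := cob ε (fun g => τ' (c.ρ g) - τ g) (2 * C) N.dk.sg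
    (fun g g' => (mul N.s.o1 N.dk g g').1)
    (fun g g' => by
      rw [map_mul, (mul N.s'.o1 N.dk' _ _).2, (mul N.s.o1 N.dk _ _).2, e]
      ring)
    (fun g => by
      have b0 := abs_le.1 (hC (0, S.ζ 0) u0)
      have b1 := hC _ (u g)
      rw [q, N.dk'.he, N.dk.he, e, abs_le] at b1
      rw [abs_le]
      rcases N.dk.sg g with s | s <;> rw [s] at b1 <;> constructor <;>
        linarith [b0.1, b0.2, b1.1, b1.2])
  refine ⟨p, fun g x y h => ?_⟩
  have := hp g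
  rw [N.dk'.he, N.dk.he, e, h]
  linarith

end Pool.Agent.MP_3ee8cb_gt.D3RH
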