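import Pool.Agent.MP_3ee8cb_gt.D3RH.Kit

/-! A global implicit function. -/

namespace Pool.Agent.MP_3ee8cb_gt.D3RH

open Set Filter Topology

namespace RCRS

theorem loc {g : ℝ × ℝ → ℝ} (hg : ContDiff ℝ 1 g) {θ t : ℝ} (h0 : g (θ, t) = 0)
    (hd : fderiv ℝ g (θ, t) (0, 1) ≠ 0) :
    ∃ ψ : ℝ → ℝ, DifferentiableAt ℝ ψ θ ∧ ∀ᶠ x in 𝓝 θ, g (x, ψ x) = 0 := by
  have c : ContDiffAt ℝ 1 g (θ, t) := hg.contDiffAt
  have inv : (fderiv ℝ g (θ, t) ∘L .inr ℝ ℝ ℝ).IsInvertible := by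
    refine ⟨ContinuousLinearEquiv.unitsEquivAut ℝ (Units.mk0 _ hd), ?_⟩
    ext
    simp
  refine ⟨c.implicitFunction one_ne_zero inv, ?_, ?_⟩
  · exact (c.contDiffAt_implicitFunction one_ne_zero inv).differentiableAt one_ne_zero
  · have := c.eventually_apply_implicitFunction one_ne_zero inv
    simpa only [h0] using this

end RCRS

theorem rCRS : SCRS := by
  intro g a b hg hd hu hb ⟨θ₀, h₀, t₀, e₀⟩
  set A : Set ℝ := {θ | ∃ t, g (θ, t) = 0} with hA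
  have op : ∀ θ ∈ Ioo a b, θ ∈ A → ∀ᶠ x in 𝓝 θ, x ∈ A := fun θ hθ ⟨t, e⟩ => by
    obtain ⟨ψ, -, h⟩ := RCRS.loc hg e (hd θ hθ t e)
    exact h.mono fun x hx => ⟨_, hx⟩
  have cl : ∀ θ ∈ Ioo a b, θ ∉ A → ∀ᶠ x in 𝓝 θ, x ∉ A := fun θ hθ hn => by
    obtain ⟨M, hM⟩ := hb θ hθ
    have h1 : ∀ᶠ x in 𝓝 θ, ∀ t ∈ Icc (-M) M, g (x, t) ≠ 0 :=
      isCompact_Icc.eventually_forall_of_forall_eventually fun t _ =>
        hg.continuous.continuousAt.eventually_ne fun e => hn ⟨t, e⟩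
    filter_upwards [hM, h1] with x h2 h3 ⟨t, e⟩
    exact h3 t (abs_le.1 (h2 t e)) e
  have all : ∀ θ ∈ Ioo a b, θ ∈ A := by
    have := (isPreconnected_Ioo (a := a) (b := b)).subset_left_of_subset_union
      (u := interior A) (v := interior Aᶜ) isOpen_interior isOpen_interior
      (disjoint_compl_right.mono interior_subset interior_subset)
      (fun θ hθ => by
        by_cases h : θ ∈ A
        · exact Or.inl (mem_interior_iff_mem_nhds.2 (op θ hθ h))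
        · exact Or.inr (mem_interior_iff_mem_nhds.2 (cl θ hθ h)))
      ⟨θ₀, h₀, mem_interior_iff_mem_nhds.2 (op θ₀ h₀ ⟨t₀, e₀⟩)⟩
    exact fun θ hθ => interior_subset (this hθ)
  choose! τ hτ using all
  refine ⟨τ, fun θ hθ => ⟨hτ θ hθ, ?_⟩⟩
  obtain ⟨ψ, dψ, h⟩ := RCRS.loc hg (hτ θ hθ) (hd θ hθ _ (hτ θ hθ))
  refine dψ.congr_of_eventuallyEq ?_
  filter_upwards [h, isOpen_Ioo.mem_nhds hθ] with x h1 h2
  exact hu x h2 _ _ (hτ x h2) h1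

end Pool.Agent.MP_3ee8cb_gt.D3RH
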