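import Pool.Agent.MP_3ee8cb_gt.D3RH.Kit

/-! Two curves of horizontal vectors with parallel geodesics. -/

namespace Pool.Agent.MP_3ee8cb_gt.D3RH

open Set Filter Topology D3 D3RK D3WI
open scoped RealInnerProductSpace

namespace RCST

variable {m : MF} {lg : V × V → V} {S : Sp}

theorem cst {f : ℝ → ℝ} (h : ∀ s, HasDerivAt f 0 s) (t : ℝ) : f t = f 0 :=
  is_const_of_deriv_eq_zero (fun s => (h s).differentiableAt) (fun s => (h s).deriv) t 0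

theorem dZ (ho : m.OK) {a : ℝ → ℝ} {σ : ℝ → V × V} {a' θ : ℝ} {ξ : V × V}
    (ha : HasDerivAt a a' θ) (hσ : HasDerivAt σ ξ θ) :
    HasDerivAt (fun s => m.Z (a s) (σ s))
      (a' • m.vf (m.Z (a θ) (σ θ)) + fderiv ℝ (m.Z (a θ)) (σ θ) ξ) θ := by
  have hF := (ho.cZ.differentiable one_ne_zero (a θ, σ θ)).hasFDerivAt
  generalize fderiv ℝ (fun q : ℝ × V × V => m.Z q.1 q.2) (a θ, σ θ) = L at hF
  have h1 : HasDerivAt (fun s => m.Z s (σ θ)) (L (1, 0)) (a θ) :=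
    HasFDerivAt.comp_hasDerivAt (f := fun s : ℝ => (s, σ θ)) (a θ) hF
      ((hasDerivAt_id (a θ)).prodMk (hasDerivAt_const (a θ) (σ θ)))
  have h2 : HasFDerivAt (m.Z (a θ)) (L.comp (ContinuousLinearMap.inr ℝ ℝ (V × V))) (σ θ) :=
    HasFDerivAt.comp (f := fun z : V × V => (a θ, z)) (σ θ) hF (hasFDerivAt_prodMk_right _ _)
  have h3 : HasDerivAt (fun s => m.Z (a s) (σ s)) (L (a', ξ)) θ :=
    HasFDerivAt.comp_hasDerivAt (f := fun s : ℝ => (a s, σ s)) θ hF (ha.prodMk hσ)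
  refine h3.congr_deriv ?_
  rw [h2.fderiv, ← h1.unique (ho.ode _ _), ← map_smul, ContinuousLinearMap.comp_apply,
    ← map_add]
  simp

theorem T_diff (ho : m.OK) (h : S.OK2 m) (r : ℝ) : Differentiable ℝ (S.T m r) :=
  (((Z_c1 ho r).comp (contDiff_id.prodMk h.c1)).fst).differentiable one_ne_zero

theorem d_h (h : S.OK2 m) {σ : ℝ → V × V} {ξ : V × V} {θ : ℝ} (hσ : HasDerivAt σ ξ θ)
    (ht : S.Tan m (σ θ) ξ) : HasDerivAt (fun s => S.h (σ s).1) 0 θ := by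
  have e := (h.ch.differentiable one_ne_zero (σ θ).1).hasFDerivAt.comp_hasDerivAt θ hσ.fst
  rw [h.dh] at e
  exact e.congr_deriv ht.1

theorem r_eq (ho : m.OK) (h : S.OK1 m lg) {z w : V × V} {r c : ℝ} (hz : z ∈ S.H)
    (hs : S.Sh m r c z w) : r = S.h w.1 - S.h z.1 := by
  have e := hs 0
  rw [ho.zero] at e
  rw [e, h_T h, h.ht, hz.2]
  ring

theorem c_eq (hd : Hd m lg) (h : S.OK1 m lg) {z w : V × V} {r c : ℝ} (hz : z ∈ S.H)
    (hs : S.Sh m r c z w) : c = ⟪z.2, lg (z.1, S.T m (-r) w.1)⟫ := by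
  have e := hs 0
  rw [hd.ok.zero, zero_add] at e
  rw [e, ← T_add hd.ok h, neg_add_cancel, T_zero hd.ok, lg_ray hd.jac hd.had, inner_smul_right,
    real_inner_self_eq_norm_sq, hz.1]
  ring

theorem vel (ho : m.OK) (h2 : S.OK2 m) (h4 : S.OK4 m) {z w : V × V} {r c : ℝ}
    (hs : S.Sh m r c z w) (t : ℝ) :
    (m.Z t w).2 = S.P r (m.Z (t + c) z).1 (m.Z (t + c) z).2 := by
  have e1 := d_foot ho w t
  have e2 : HasDerivAt (fun s => (m.Z (s + c) z).1)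
      (m.R (m.Z (t + c) z).1 (m.Z (t + c) z).2) t := (d_foot ho z (t + c)).comp_add_const t c
  have e3 := (T_diff ho h2 r (m.Z (t + c) z).1).hasFDerivAt.comp_hasDerivAt t e2
  have e4 : (fun s => (m.Z s w).1) = S.T m r ∘ fun s => (m.Z (s + c) z).1 := funext hs
  rw [e4] at e1
  have e5 := congrArg (m.S (m.Z t w).1) (e1.unique e3)
  rw [ho.SR, hs t, h4.dT, ho.SR] at e5
  exact e5

theorem jac (ho : m.OK) (h2 : S.OK2 m) (h4 : S.OK4 m) {σ σ' : ℝ → V × V} {ξ ξ' : V × V}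
    {c : ℝ → ℝ} {r c' θ : ℝ} (hσ : HasDerivAt σ ξ θ) (hσ' : HasDerivAt σ' ξ' θ)
    (hc : HasDerivAt c c' θ) (hs : ∀ s, S.Sh m r (c s) (σ s) (σ' s)) (t : ℝ) :
    m.J (σ' θ) ξ' t = S.P r (m.Z (t + c θ) (σ θ)).1
      (c' • (m.Z (t + c θ) (σ θ)).2 + m.J (σ θ) ξ (t + c θ)) := by
  have e1 : HasDerivAt (fun s => ((m.Z t ∘ σ') s).1) (fderiv ℝ (m.Z t) (σ' θ) ξ').1 θ :=
    ((Z_diff ho t (σ' θ)).hasFDerivAt.comp_hasDerivAt θ hσ').fst
  have e2 := (dZ ho (hc.const_add t) hσ).fst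
  have e3 := (T_diff ho h2 r (m.Z (t + c θ) (σ θ)).1).hasFDerivAt.comp_hasDerivAt θ e2
  have e4 : (fun s => ((m.Z t ∘ σ') s).1) = S.T m r ∘ fun s => (m.Z (t + c s) (σ s)).1 :=
    funext fun s => hs s t
  rw [e4] at e1
  have e5 := congrArg (m.S (m.Z t (σ' θ)).1) (e1.unique e3)
  have e6 : m.J (σ' θ) ξ' t = m.S (m.Z t (σ' θ)).1 (fderiv ℝ (m.Z t) (σ' θ) ξ').1 := rfl
  rw [e6, e5, hs θ t, h4.dT, Prod.fst_add, Prod.smul_fst, map_add, map_smul]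
  have e7 : (m.vf (m.Z (t + c θ) (σ θ))).1 =
    m.R (m.Z (t + c θ) (σ θ)).1 (m.Z (t + c θ) (σ θ)).2 := rfl
  rw [e7, ho.SR]
  rfl

end RCST

open RCST in
theorem rCST : R_CST := by
  intro _ m lg hd S hS σ σ' ξ ξ' r c H
  have ho := hd.ok
  have hr : ∀ θ, r θ = r 0 := by
    have e : r = fun θ => S.h (σ' θ).1 - S.h (σ θ).1 :=
      funext fun θ => r_eq ho hS.o1 (H θ).1 (H θ).2.2.2.2.2.2.2.2
    refine cst fun θ => ?_
    obtain ⟨-, -, a, b, p, q, -⟩ := H θ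
    rw [e]
    exact ((d_h hS.o2 b q).sub (d_h hS.o2 a p)).congr_deriv (sub_zero 0)
  have hs : ∀ θ, S.Sh m (r 0) (c θ) (σ θ) (σ' θ) := fun θ => hr θ ▸ (H θ).2.2.2.2.2.2.2.2
  have hc : Differentiable ℝ c := by
    have e : c = fun θ => ⟪(σ θ).2, lg ((σ θ).1, S.T m (-r 0) (σ' θ).1)⟫ :=
      funext fun θ => c_eq hd hS.o1 (H θ).1 (hs θ)
    have d1 : Differentiable ℝ σ := fun θ => (H θ).2.2.1.differentiableAt
    have d2 : Differentiable ℝ σ' := fun θ => (H θ).2.2.2.1.differentiableAt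
    rw [e]
    exact d1.snd.inner ℝ ((hd.had.c1.differentiable one_ne_zero).comp
      (d1.fst.prodMk ((T_diff ho hS.o2 _).comp d2.fst)))
  have hj := fun θ => jac ho hS.o2 hS.o4 (H θ).2.2.1 (H θ).2.2.2.1 (hc θ).hasDerivAt hs
  have h0 : ∀ θ, deriv c θ = 0 := by
    intro θ
    obtain ⟨u, -, -, -, p, q, p', q', -⟩ := H θ
    have e1 := J_vel ho hd.jac (σ' θ) (ξ' θ) 0
    have e2 := J_vel ho hd.jac (σ θ) (ξ θ) (0 + c θ)
    rw [real_inner_comm (σ θ).2, real_inner_comm (σ θ).2, p', p.2.2] at e2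
    rw [real_inner_comm (σ' θ).2, q', hj θ 0, vel ho hS.o2 hS.o4 (hs θ) 0,
      LinearIsometryEquiv.inner_map_map, inner_add_left, e2, real_inner_smul_left,
      real_inner_self_eq_norm_sq, hd.jac.norm, u.1] at e1
    linarith
  intro θ
  have hc0 : c θ = c 0 := is_const_of_deriv_eq_zero hc h0 θ 0
  refine ⟨hc0, fun t => ?_⟩
  rw [hj θ t, LinearIsometryEquiv.norm_map, h0, zero_smul, zero_add, hc0]

end Pool.Agent.MP_3ee8cb_gt.D3RH
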