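import Pool.Agent.MP_3ee8cb_gt.D3RH.Kit
import Pool.Agent.MP_3ee8cb_gt.D3LN.Green

/-! Row DET: the normal block of the derivative has determinant one. -/

namespace Pool.Agent.MP_3ee8cb_gt.D3RH

open Set Filter Topology D3 D3RK
open scoped RealInnerProductSpace

noncomputable section

namespace RDET

theorem green2 {E F : Type} [NormedAddCommGroup E] [NormedSpace ℝ E] [NormedAddCommGroup F]
    [NormedSpace ℝ F] {α β : F → F →L[ℝ] ℝ} {α' β' : F →L[ℝ] F →L[ℝ] ℝ} {f g : E → F} {z : E}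
    (hf : ContDiffAt ℝ 1 f z) (hg : ContDiffAt ℝ 1 g z) (hα : HasFDerivAt α α' (f z))
    (hβ : HasFDerivAt β β' (g z))
    (h : ∀ᶠ w in 𝓝 z, ∀ ξ, β (g w) (fderiv ℝ g w ξ) = α (f w) (fderiv ℝ f w ξ)) (ξ η : E) :
    β' (fderiv ℝ g z ξ) (fderiv ℝ g z η) - β' (fderiv ℝ g z η) (fderiv ℝ g z ξ) =
      α' (fderiv ℝ f z ξ) (fderiv ℝ f z η) - α' (fderiv ℝ f z η) (fderiv ℝ f z ξ) := by
  have d : ∀ᶠ w in 𝓝 z, fderiv ℝ (fun w => (f w, g w)) w = (fderiv ℝ f w).prod (fderiv ℝ g w) := by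
    filter_upwards [hf.eventually (by simp), hg.eventually (by simp)] with w h1 h2
    exact (h1.differentiableAt one_ne_zero).fderiv_prodMk (h2.differentiableAt one_ne_zero)
  have h1 := (hα.comp (f z, g z) (hasFDerivAt_fst (𝕜 := ℝ))).clm_comp
    (hasFDerivAt_const (ContinuousLinearMap.fst ℝ F F) (f z, g z))
  have h2 := (hβ.comp (f z, g z) (hasFDerivAt_snd (𝕜 := ℝ))).clm_comp
    (hasFDerivAt_const (ContinuousLinearMap.snd ℝ F F) (f z, g z))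
  have k := LN.green (φ := fun w => (f w, g w)) (hf.prodMk hg)
    (hasFDerivAt_const (0 : E →L[ℝ] ℝ) z) (h2.sub h1) (by
      filter_upwards [d, h] with w e1 e2 ζ
      rw [e1]
      exact sub_eq_zero.2 (e2 ζ)) ξ η
  rw [d.self_of_nhds] at k
  simp at k
  linarith

variable {m : MF} {lg : V × V → V} {S : Sp}

theorem ver_eq (z ξ : V × V) : m.ver z ξ = ξ.2 + m.om z.1 ξ.1 z.2 := rfl

theorem d_ze (h : S.OK2 m) {y : ℝ → V} {u : V} (hy : HasDerivAt y u 0) :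
    HasDerivAt (fun t => S.ζ (y t)) (-m.om (y 0) u (S.ζ (y 0))) 0 := by
  have e := (h.c1.differentiable one_ne_zero (y 0)).hasFDerivAt.comp_hasDerivAt 0 hy
  rwa [h.par] at e

theorem d_h (h : S.OK2 m) {y : ℝ → V} {u : V} (hy : HasDerivAt y u 0) :
    HasDerivAt (fun t => S.h (y t)) ⟪S.ζ (y 0), m.S (y 0) u⟫ 0 := by
  have e := (h.ch.differentiable one_ne_zero (y 0)).hasFDerivAt.comp_hasDerivAt 0 hy
  rwa [h.dh] at e

theorem d_s (ho : m.OK) (h : S.OK2 m) {y b : ℝ → V} {u v : V} (hy : HasDerivAt y u 0)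
    (hb : HasDerivAt b v 0) : HasDerivAt (fun t => ⟪S.ζ (y t), b t⟫)
      ⟪S.ζ (y 0), m.ver (y 0, b 0) (u, v)⟫ 0 := by
  refine ((d_ze h hy).inner ℝ hb).congr_deriv ?_
  rw [ver_eq, inner_add_right, inner_neg_left, ho.skew, neg_neg]

theorem in_ver (ho : m.OK) (z ξ : V × V) : ⟪z.2, m.ver z ξ⟫ = ⟪z.2, ξ.2⟫ := by
  have := ho.skew z.1 ξ.1 z.2 z.2
  rw [real_inner_comm] at this
  rw [ver_eq, inner_add_right]
  linarith

theorem tan_curve (ho : m.OK) (h : S.OK2 m) {c : ℝ → V × V} {D : V × V} {h0 : ℝ}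
    (hc : HasDerivAt c D 0) (he : ∀ᶠ t in 𝓝 (0 : ℝ), c t ∈ S.H ∧ S.h (c t).1 = h0) :
    S.Tan m (c 0) D := by
  have c1 : HasDerivAt (fun t => (c t).1) D.1 0 :=
    (ContinuousLinearMap.fst ℝ V V).hasFDerivAt.comp_hasDerivAt 0 hc
  have c2 : HasDerivAt (fun t => (c t).2) D.2 0 :=
    (ContinuousLinearMap.snd ℝ V V).hasFDerivAt.comp_hasDerivAt 0 hc
  refine ⟨(d_h h c1).unique ((hasDerivAt_const _ h0).congr_of_eventuallyEq
    (he.mono fun t ht => ht.2)), (d_s ho h c1 c2).unique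
      ((hasDerivAt_const _ (0 : ℝ)).congr_of_eventuallyEq (he.mono fun t ht => ht.1.2)), ?_⟩
  have := c2.norm_sq.unique ((hasDerivAt_const _ ((1 : ℝ) ^ 2)).congr_of_eventuallyEq
    (he.mono fun t ht => congrArg (· ^ 2) ht.1.1))
  rw [in_ver ho]
  linarith

theorem line (w ξ : V × V) : HasDerivAt (fun t : ℝ => w + t • ξ) ξ 0 := by
  simpa using ((hasDerivAt_id (0 : ℝ)).smul_const ξ).const_add w

theorem d_line {q : V × V → V × V} {w : V × V} (hq : DifferentiableAt ℝ q w) (ξ : V × V) :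
    HasDerivAt (fun t : ℝ => q (w + t • ξ)) (fderiv ℝ q w ξ) 0 :=
  hq.hasFDerivAt.comp_hasDerivAt_of_eq 0 (line w ξ) (by simp)

theorem tan_map (ho : m.OK) (h : S.OK2 m) {q : V × V → V × V} {w : V × V} {h0 : ℝ}
    (hq : DifferentiableAt ℝ q w) (he : ∀ᶠ v in 𝓝 w, q v ∈ S.H ∧ S.h (q v).1 = h0) (ξ : V × V) :
    S.Tan m (q w) (fderiv ℝ q w ξ) := by
  have t : Tendsto (fun t : ℝ => w + t • ξ) (𝓝 0) (𝓝 w) := by
    simpa using (line w ξ).continuousAt.tendsto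
  simpa using tan_curve ho h (d_line hq ξ) (t.eventually he)

/-- The foot moved to the level `h0`. -/
def ft (m : MF) (S : Sp) (h0 : ℝ) (w : V × V) : V := S.T m (h0 - S.h w.1) w.1

/-- The horizontal part over the new foot. -/
def pr (m : MF) (S : Sp) (h0 : ℝ) (w : V × V) : V :=
  w.2 - ⟪S.ζ (ft m S h0 w), w.2⟫ • S.ζ (ft m S h0 w)

/-- The retraction onto the unit tangent bundle of the level. -/
def rt (m : MF) (S : Sp) (h0 : ℝ) (w : V × V) : V × V :=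
  (ft m S h0 w, ‖pr m S h0 w‖⁻¹ • pr m S h0 w)

theorem c_T (ho : m.OK) (h : S.OK2 m) : ContDiff ℝ 1 fun p : ℝ × V => S.T m p.1 p.2 :=
  (ho.cZ.comp (contDiff_fst.prodMk (contDiff_snd.prodMk (h.c1.comp contDiff_snd)))).fst

theorem c_ft (ho : m.OK) (h : S.OK2 m) (h0 : ℝ) : ContDiff ℝ 1 (ft m S h0) :=
  (c_T ho h).comp ((contDiff_const.sub (h.ch.comp contDiff_fst)).prodMk contDiff_fst)

theorem c_pr (ho : m.OK) (h : S.OK2 m) (h0 : ℝ) : ContDiff ℝ 1 (pr m S h0) :=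
  contDiff_snd.sub (((h.c1.comp (c_ft ho h h0)).inner ℝ contDiff_snd).smul
    (h.c1.comp (c_ft ho h h0)))

theorem c_rt (ho : m.OK) (h : S.OK2 m) {h0 : ℝ} {w : V × V} (hw : pr m S h0 w ≠ 0) :
    ContDiffAt ℝ 1 (rt m S h0) w :=
  (c_ft ho h h0).contDiffAt.prodMk (((((c_pr ho h h0).contDiffAt.norm ℝ hw)).inv
    (norm_ne_zero_iff.2 hw)).smul (c_pr ho h h0).contDiffAt)

theorem rt_mem (h : S.OK1 m lg) {h0 : ℝ} {w : V × V} (hw : pr m S h0 w ≠ 0) :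
    rt m S h0 w ∈ S.H ∧ S.h (rt m S h0 w).1 = h0 := by
  refine ⟨⟨norm_smul_inv_norm (𝕜 := ℝ) hw, ?_⟩, ?_⟩
  · change ⟪S.ζ (ft m S h0 w), ‖pr m S h0 w‖⁻¹ • pr m S h0 w⟫ = 0
    rw [inner_smul_right, pr, inner_sub_right, inner_smul_right, real_inner_self_eq_norm_sq,
      h.unit, one_pow, mul_one, sub_self, mul_zero]
  · change S.h (S.T m _ _) = _
    rw [h_T h, add_sub_cancel]

theorem ft_self (ho : m.OK) (z : V × V) : ft m S (S.h z.1) z = z.1 := by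
  rw [ft, sub_self, T_zero ho]

theorem pr_self (ho : m.OK) {z : V × V} (hz : z ∈ S.H) : pr m S (S.h z.1) z = z.2 := by
  rw [pr, ft_self ho, show ⟪S.ζ z.1, z.2⟫ = 0 from hz.2, zero_smul, sub_zero]

theorem rt_self (ho : m.OK) {z : V × V} (hz : z ∈ S.H) : rt m S (S.h z.1) z = z := by
  rw [rt, ft_self ho, pr_self ho hz, hz.1, inv_one, one_smul]

theorem d_rt (ho : m.OK) (h : S.OK2 m) {z ξ : V × V} (hz : z ∈ S.H) (ht : S.Tan m z ξ) :
    HasDerivAt (fun t : ℝ => rt m S (S.h z.1) (z + t • ξ)) ξ 0 := by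
  have e0 : z + (0 : ℝ) • ξ = z := by simp
  have c1 : HasDerivAt (fun t : ℝ => (z + t • ξ).1) ξ.1 0 :=
    (ContinuousLinearMap.fst ℝ V V).hasFDerivAt.comp_hasDerivAt 0 (line z ξ)
  have c2 : HasDerivAt (fun t : ℝ => (z + t • ξ).2) ξ.2 0 :=
    (ContinuousLinearMap.snd ℝ V V).hasFDerivAt.comp_hasDerivAt 0 (line z ξ)
  have G := ((c_T ho h).differentiable one_ne_zero (0, z.1)).hasFDerivAt
  have a1 : HasDerivAt (fun t : ℝ => S.h z.1 - S.h (z + t • ξ).1) 0 0 := by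
    refine ((d_h h c1).const_sub _).congr_deriv ?_
    rw [e0]
    exact neg_eq_zero.2 ht.1
  have y1 : HasDerivAt (fun t : ℝ => ft m S (S.h z.1) (z + t • ξ)) ξ.1 0 := by
    have k1 := G.comp_hasDerivAt_of_eq 0 (a1.prodMk c1) (by simp)
    have k2 := G.comp_hasDerivAt_of_eq 0 ((hasDerivAt_const (0 : ℝ) (0 : ℝ)).prodMk c1) (by simp)
    exact k1.congr_deriv (k2.unique (c1.congr_of_eventuallyEq (.of_forall fun t => T_zero ho _)))
  have s1 : HasDerivAt (fun t : ℝ => ⟪S.ζ (ft m S (S.h z.1) (z + t • ξ)), (z + t • ξ).2⟫) 0 0 := by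
    refine (d_s ho h y1 c2).congr_deriv ?_
    rw [e0, ft_self ho]
    exact ht.2.1
  have p1 : HasDerivAt (fun t : ℝ => pr m S (S.h z.1) (z + t • ξ)) ξ.2 0 := by
    refine (c2.sub (s1.smul (d_ze h y1))).congr_deriv ?_
    rw [e0, ft_self ho, show ⟪S.ζ z.1, z.2⟫ = 0 from hz.2, zero_smul, zero_smul, add_zero, sub_zero]
  have n1 : HasDerivAt (fun t : ℝ => ‖pr m S (S.h z.1) (z + t • ξ)‖) 0 0 := by
    have k := p1.norm_sq.sqrt (by rw [e0, pr_self ho hz, hz.1]; norm_num)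
    simp only [Real.sqrt_sq (norm_nonneg _)] at k
    refine k.congr_deriv ?_
    rw [e0, pr_self ho hz, ← in_ver ho, ht.2.2, mul_zero, zero_div]
  refine (y1.prodMk ((n1.inv (by rw [e0, pr_self ho hz, hz.1]; norm_num)).smul p1)).congr_deriv ?_
  simp [pr_self ho hz, hz.1]

theorem blk (h : S.OK1 m lg) {z : V × V} (hz : z ∈ S.H) {ξ : V × V} (ht : S.Tan m z ξ) (u : V) :
    ⟪m.ver z ξ, u⟫ = ⟪S.n z, m.ver z ξ⟫ * ⟪S.n z, u⟫ := by
  conv_lhs => rw [perp_eq (h.unit z.1) hz.1 hz.2 ht.2.1 ht.2.2, real_inner_smul_left]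
  rfl

end RDET

open RDET in
theorem rDET : R_DET := by
  intro _ X Y c S S' ε τ ε' τ' D N hs hb z hz ξ η hξ hη
  have ho := N.ok.x.hd.ok
  have ho' := N.ok.y.hd.ok
  have n0 : ∀ w ∈ S.H, w.2 ≠ 0 := fun w hw => norm_ne_zero_iff.1 (hw.1.trans_ne one_ne_zero)
  have cφ : ∀ w ∈ S.H, ContDiffAt ℝ 1 c.φ w := fun w hw =>
    N.ok.h.c1.contDiffAt (LN.ne_nhds (n0 w hw))
  have hz' : c.φ z ∈ S'.H := ⟨(N.ok.h.norm z (n0 z hz)).trans hz.1, (hs.sl z hz.1).trans hz.2⟩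
  have p0 : pr X.m S (S.h z.1) z ≠ 0 := by rw [pr_self ho hz]; exact n0 z hz
  have e1 : ∀ᶠ w in 𝓝 z, pr X.m S (S.h z.1) w ≠ 0 :=
    (c_pr ho N.s.o2 _).continuous.continuousAt.eventually_ne p0
  have r0 := rt_self (m := X.m) ho hz
  have cr0 := c_rt ho N.s.o2 p0
  have dc : ∀ w, pr X.m S (S.h z.1) w ≠ 0 → ∀ ζ, fderiv ℝ (c.φ ∘ rt X.m S (S.h z.1)) w ζ =
      fderiv ℝ c.φ (rt X.m S (S.h z.1) w) (fderiv ℝ (rt X.m S (S.h z.1)) w ζ) := fun w hw ζ => by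
    rw [fderiv_comp w ((cφ _ (rt_mem N.s.o1 hw).1).differentiableAt one_ne_zero)
      ((c_rt ho N.s.o2 hw).differentiableAt one_ne_zero)]
    rfl
  have dr : ∀ ζ, S.Tan X.m z ζ → fderiv ℝ (rt X.m S (S.h z.1)) z ζ = ζ := fun ζ hζ =>
    (d_line (cr0.differentiableAt one_ne_zero) ζ).unique (d_rt ho N.s.o2 hz hζ)
  obtain ⟨α', a1, a2⟩ := LN.d_al ho z
  obtain ⟨β', b1, b2⟩ := LN.d_al ho' (c.φ z)
  have k := green2 (g := c.φ ∘ rt X.m S (S.h z.1)) (α' := α') (β' := β') cr0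
    ((cφ _ (rt_mem N.s.o1 p0).1).comp z cr0) (by rw [r0]; exact a1)
    (by rw [Function.comp_apply, r0]; exact b1) (by
      filter_upwards [e1.eventually_nhds] with w hw ζ
      rw [dc w hw.self_of_nhds]
      exact (hb _ (rt_mem N.s.o1 hw.self_of_nhds).1 _ (tan_map ho N.s.o2
        ((c_rt ho N.s.o2 hw.self_of_nhds).differentiableAt one_ne_zero)
        (hw.mono fun v hv => rt_mem N.s.o1 hv) ζ)).2) η ξ
  rw [dc z p0, dc z p0, dr ξ hξ, dr η hη, r0, a2, b2, real_inner_comm, real_inner_comm (X.m.ver z η),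
    blk N.s.o1 hz hξ, blk N.s.o1 hz hη, blk N.s'.o1 hz' (hb z hz ξ hξ).1,
    blk N.s'.o1 hz' (hb z hz η hη).1] at k
  linarith

end

end Pool.Agent.MP_3ee8cb_gt.D3RH
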