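import Pool.Agent.MP_3ee8cb_gt.D3RH.Spec
import Pool.Agent.MP_3ee8cb_gt.D3WI.Base

/-! The conjugacy is coarsely distance non-increasing. -/

namespace Pool.Agent.MP_3ee8cb_gt.D3RH

open Set Filter Topology Metric D3 D3RK
open D3WI (ne_of_norm one_smul' dist_geo)

namespace RDI

/-- Vectors with the same foot have images at bounded distance. -/
theorem fib (hL : SLGA) {X Y : Sd} {c : Cj X Y} (hc : c.OK) : ∃ D : ℝ, ∀ x a b : V, ‖a‖ = 1 →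
    ‖b‖ = 1 → ‖Y.lg ((c.φ (x, a)).1, (c.φ (x, b)).1)‖ ≤ D := by
  have hA : LgA Y.O Y.lg := hL Y.m Y.lg Y.G Y.O hc.y.hd hc.y.act
  obtain ⟨K, hK, hcov⟩ := hc.x.act.cpt
  have hK3 : IsCompact (K ×ˢ sphere (0 : V) 1 ×ˢ sphere (0 : V) 1) :=
    hK.prod ((isCompact_sphere _ _).prod (isCompact_sphere _ _))
  have h1 : ContinuousOn (fun p : V × V × V => c.φ (p.1, p.2.1))
      (K ×ˢ sphere (0 : V) 1 ×ˢ sphere (0 : V) 1) :=
    hc.h.c1.continuousOn.comp (continuous_fst.prodMk continuous_snd.fst).continuousOn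
      fun p hp => ne_of_norm (mem_sphere_zero_iff_norm.1 hp.2.1)
  have h2 : ContinuousOn (fun p : V × V × V => c.φ (p.1, p.2.2))
      (K ×ˢ sphere (0 : V) 1 ×ˢ sphere (0 : V) 1) :=
    hc.h.c1.continuousOn.comp (continuous_fst.prodMk continuous_snd.snd).continuousOn
      fun p hp => ne_of_norm (mem_sphere_zero_iff_norm.1 hp.2.2)
  obtain ⟨D, hD⟩ := hK3.exists_bound_of_continuousOn
    (hc.y.hd.had.c1.continuous.comp_continuousOn (h1.fst.prodMk h2.fst))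
  refine ⟨D, fun x a b ha hb => ?_⟩
  obtain ⟨γ, hγ⟩ := hcov x
  have h3 : ‖Y.lg ((c.φ (γ • x, X.O γ x a)).1, (c.φ (γ • x, X.O γ x b)).1)‖ ≤ D :=
    hD (γ • x, X.O γ x a, X.O γ x b) ⟨hγ,
      mem_sphere_zero_iff_norm.2 (((X.O γ x).norm_map a).trans ha),
      mem_sphere_zero_iff_norm.2 (((X.O γ x).norm_map b).trans hb)⟩
  have ea : (c.φ (γ • x, X.O γ x a)).1 = c.ρ γ • (c.φ (x, a)).1 :=
    congrArg Prod.fst (hc.eq γ (x, a) (ne_of_norm ha))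
  have eb : (c.φ (γ • x, X.O γ x b)).1 = c.ρ γ • (c.φ (x, b)).1 :=
    congrArg Prod.fst (hc.eq γ (x, b) (ne_of_norm hb))
  rwa [ea, eb, hA, LinearIsometryEquiv.norm_map] at h3

theorem dir (v a : V) (ha : ‖a‖ = 1) : ∃ u : V, ‖u‖ = 1 ∧ ‖v‖ • u = v := by
  by_cases hv : v = 0
  · exact ⟨a, ha, by rw [hv, norm_zero, zero_smul]⟩
  · exact ⟨‖v‖⁻¹ • v, norm_smul_inv_norm hv, by
      rw [smul_smul, mul_inv_cancel₀ (norm_ne_zero_iff.2 hv), one_smul]⟩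

end RDI

theorem rDI : R_DI := by
  intro hL X Y c hc
  obtain ⟨D, hD⟩ := RDI.fib hL hc
  refine ⟨2 * D, fun z hz w hw => ?_⟩
  obtain ⟨u, hu, hv⟩ := RDI.dir (X.lg (z.1, w.1)) z.2 hz
  set t := ‖X.lg (z.1, w.1)‖ with ht
  have hx := hc.x.hd
  have hy := hc.y.hd
  have e1 : (X.m.Z t (z.1, u)).1 = w.1 := by
    have h := congrArg Prod.fst (one_smul' hx.jac t (z.1, u))
    dsimp only at h
    rw [← h, hv, hx.had.ex]
  have e2 : ‖(X.m.Z t (z.1, u)).2‖ = 1 := (hx.jac.norm t (z.1, u)).trans hu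
  have e3 : X.m.Z t (z.1, u) = (w.1, (X.m.Z t (z.1, u)).2) := Prod.ext e1 rfl
  have h1 : ‖Y.lg ((c.φ z).1, (c.φ (z.1, u)).1)‖ ≤ D := hD z.1 z.2 u hz hu
  have h2 : ‖Y.lg ((c.φ (X.m.Z t (z.1, u))).1, (c.φ w).1)‖ ≤ D := by
    rw [e3]
    exact hD w.1 _ w.2 e2 hw
  have h3 : ‖Y.lg ((c.φ (z.1, u)).1, (c.φ (X.m.Z t (z.1, u))).1)‖ = t := by
    have h := dist_geo hy.ok hy.jac hy.had (c.φ (z.1, u)) 0 t
    rw [hy.ok.zero, hc.h.norm (z.1, u) (ne_of_norm hu), hu, mul_one, sub_zero,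
      abs_of_nonneg (norm_nonneg _)] at h
    rw [hc.h.flow t (z.1, u) (ne_of_norm hu), h]
  have t1 := hy.had.tri (c.φ z).1 (c.φ (z.1, u)).1 (c.φ w).1
  have t2 := hy.had.tri (c.φ (z.1, u)).1 (c.φ (X.m.Z t (z.1, u))).1 (c.φ w).1
  linarith

end Pool.Agent.MP_3ee8cb_gt.D3RH
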