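import Pool.Agent.MP_3ee8cb_gt.D3RH.Kit

/-! The group keeps the splitting. -/

namespace Pool.Agent.MP_3ee8cb_gt.D3RH

open Set Filter Topology D3 D3RK
open scoped RealInnerProductSpace

namespace RDK

variable {m : MF} {lg : V × V → V} {S : Sp}

theorem sec (h : S.OK3 m) (x a b : V) :
    ⟪m.K x a b b, a⟫ = -(S.k x * ⟪S.ζ x, cr a b⟫ ^ 2) := by
  rw [h.KK, real_inner_smul_left, ← cr_cyc, cr_comm b a, inner_neg_right]
  ring

theorem sec1 (h1 : S.OK1 m lg) (h : S.OK3 m) {x a b : V} (ha : ‖a‖ = 1) (hb : ‖b‖ = 1)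
    (hab : ⟪a, b⟫ = 0) (za : ⟪a, S.ζ x⟫ = 0) (zb : ⟪b, S.ζ x⟫ = 0) :
    ⟪m.K x a b b, a⟫ = -S.k x := by
  have n : ⟪cr a b, cr a b⟫ = (1 : ℝ) := by
    rw [real_inner_self_eq_norm_sq, cr_norm ha hab, hb, one_pow]
  rw [sec h]
  rcases perp_pm ha hb hab za zb (h1.unit x) with e | e
  · rw [show ⟪S.ζ x, cr a b⟫ = 1 from e ▸ n]
    ring
  · rw [show ⟪S.ζ x, cr a b⟫ = -1 by rw [e, inner_neg_left, n]]
    ring

/-- Unit vectors with vanishing cross product. -/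
theorem pm {a b : V} (ha : ‖a‖ = 1) (hb : ‖b‖ = 1) (h : cr b a = 0) :
    ∃ e : ℝ, (e = 1 ∨ e = -1) ∧ b = e • a := by
  have e := cr_cr a b a
  rw [h, show cr a 0 = 0 from map_zero (crL a), real_inner_self_eq_norm_sq, ha, one_pow, one_smul,
    eq_comm, sub_eq_zero] at e
  have n := congrArg norm e
  rw [norm_smul, ha, hb, mul_one, Real.norm_eq_abs, eq_comm, abs_eq zero_le_one] at n
  exact ⟨_, n, e⟩

theorem par_smul (hj : m.Jac) {x y a b : V} (h : Par m lg (x, a) (y, b)) (e : ℝ) :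
    Par m lg (x, e • a) (y, e • b) := by
  obtain ⟨D, hD⟩ := h
  refine ⟨D, fun t => ?_⟩
  rw [ds, hj.scale, hj.scale]
  exact hD (e * t)

end RDK

theorem rDK : R_DK := by
  intro hL hK _ X S hX hS ⟨y, hy⟩
  have hA := hL X.m X.lg X.G X.O hX.hd hX.act
  have hI := hK X.m X.lg X.G X.O hX.hd hX.act
  have h1 := hS.o1
  have hj := hX.hd.jac
  have key : ∀ γ : X.G, ∃ e : ℝ, (e = 1 ∨ e = -1) ∧
      ∀ x, X.O γ x (S.ζ x) = e • S.ζ (γ • x) := fun γ => by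
    obtain ⟨x₀, rfl⟩ : ∃ x₀, y = γ • x₀ := ⟨γ⁻¹ • y, (smul_inv_smul γ y).symm⟩
    have h0 : cr (X.O γ x₀ (S.ζ x₀)) (S.ζ (γ • x₀)) = 0 := by
      obtain ⟨a, ha⟩ := (X.O γ x₀).surjective (cr (X.O γ x₀ (S.ζ x₀)) (S.ζ (γ • x₀)))
      have k := hI γ x₀ a (S.ζ x₀)
      rw [hS.o2.K0, inner_zero_left, RDK.sec hS.o3, neg_eq_zero, mul_eq_zero,
        pow_eq_zero_iff two_ne_zero, cr_comm, inner_neg_right, neg_eq_zero, cr_cyc, cr_comm,
        inner_neg_left, neg_eq_zero, ha, inner_self_eq_zero] at k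
      exact k.resolve_left hy
    obtain ⟨e, he, h2⟩ := RDK.pm (h1.unit _) (by rw [(X.O γ x₀).norm_map, h1.unit]) h0
    have ee : e * e = 1 := by rcases he with h | h <;> rw [h] <;> norm_num
    refine ⟨e, he, fun x => ?_⟩
    have p : Par X.m X.lg (γ • x, X.O γ x (S.ζ x)) (γ • x₀, X.O γ x₀ (S.ζ x₀)) := by
      refine ⟨‖X.lg (x, x₀)‖, fun t => le_of_eq ?_⟩
      rw [ds, hX.act.flow γ t (x, S.ζ x), hX.act.flow γ t (x₀, S.ζ x₀), hA,
        LinearIsometryEquiv.norm_map]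
      exact h1.iso t x x₀
    have q := RDK.par_smul hj p e
    rw [h2, smul_smul, ee, one_smul] at q
    have u : ‖e • X.O γ x (S.ζ x)‖ = 1 := by
      rw [norm_smul, (X.O γ x).norm_map, h1.unit]
      rcases he with h | h <;> simp [h]
    have r : e • X.O γ x (S.ζ x) = S.ζ (γ • x) := h1.uq (γ • x, _) u _ q
    rw [← r, smul_smul, ee, one_smul]
  choose ε h2 h3 using key
  have h4 : ∀ γ x a, ⟪X.O γ x a, S.ζ (γ • x)⟫ = ε γ * ⟪a, S.ζ x⟫ := fun γ x a => by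
    rw [← (X.O γ x).inner_map_map a, h3, real_inner_smul_right]
    rcases h2 γ with h | h <;> rw [h] <;> ring
  refine ⟨ε, fun γ => S.h (γ • 0) - ε γ * S.h 0, h2, h3, fun γ x => ?_, fun γ x => ?_,
    fun γ r x => ?_⟩
  · have a1 := h1.ht 1 (0, X.lg (0, x))
    have a2 := h1.ht 1 (γ • 0, X.lg (γ • 0, γ • x))
    rw [hX.hd.had.ex] at a1 a2
    simp only [Sp.s, one_mul] at a1 a2
    rw [hA, real_inner_comm, h4, real_inner_comm] at a2
    rw [a1, a2]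
    ring
  · obtain ⟨u, hu, zu⟩ := ex_perp (S.ζ x)
    have hn : ‖cr (S.ζ x) u‖ = 1 := (cr_norm (h1.unit x) zu).trans hu
    have z1 : ⟪u, S.ζ x⟫ = 0 := by rwa [real_inner_comm]
    have z2 : ⟪cr (S.ζ x) u, S.ζ x⟫ = 0 := by rw [real_inner_comm, cr_left]
    have k := hI γ x u (cr (S.ζ x) u)
    rw [RDK.sec1 h1 hS.o3 hu hn (cr_right _ _) z1 z2,
      RDK.sec1 h1 hS.o3 (((X.O γ x).norm_map _).trans hu) (((X.O γ x).norm_map _).trans hn)
        (((X.O γ x).inner_map_map _ _).trans (cr_right _ _)) (by rw [h4, z1, mul_zero])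
        (by rw [h4, z2, mul_zero])] at k
    exact neg_injective k
  · have k := congrArg Prod.fst (hX.act.flow γ r (x, S.ζ x))
    simp only [h3, hj.scale] at k
    exact k.symm

end Pool.Agent.MP_3ee8cb_gt.D3RH
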