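import Pool.Agent.MP_3ee8cb_gt.D3RH.Kit
import Pool.Agent.MP_3ee8cb_gt.D3RK.RSTR

/-! The end of the curved case in higher rank. -/

namespace Pool.Agent.MP_3ee8cb_gt.D3RH

open Set Filter Topology D3 D3RK D3WI
open D3.SI (ac)
open scoped RealInnerProductSpace

namespace REN

theorem angle {α β : ℝ} (h : α ^ 2 + β ^ 2 = 1) : ∃ θ, Real.cos θ = α ∧ Real.sin θ = β := by
  have h1 : -1 ≤ α := by nlinarith
  have h2 : α ≤ 1 := by nlinarith
  have h3 : Real.sin (Real.arccos α) = |β| := by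
    rw [Real.sin_arccos, show 1 - α ^ 2 = β ^ 2 by linarith, Real.sqrt_sq_eq_abs]
  rcases le_total 0 β with g | g
  · exact ⟨Real.arccos α, Real.cos_arccos h1 h2, by rw [h3, abs_of_nonneg g]⟩
  · exact ⟨-Real.arccos α, by rw [Real.cos_neg, Real.cos_arccos h1 h2], by
      rw [Real.sin_neg, h3, abs_of_nonpos g, neg_neg]⟩

variable {X Y : Sd} {c : Cj X Y} {S S' : Sp}

theorem ne0 {z : V × V} (hz : z ∈ S.H) : z.2 ≠ 0 := ne_of_norm hz.1

theorem imH (ok : c.OK) (sl : Slp c S S') {z : V × V} (hz : z ∈ S.H) : c.φ z ∈ S'.H :=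
  ⟨(ok.h.norm z (ne0 hz)).trans hz.1, (sl.sl z hz.1).trans hz.2⟩

theorem J0 (nf : SNF) (ok : c.OK) (s' : S'.OK Y.m Y.lg) (sl : Slp c S S') (bl : Blk c S S')
    {z : V × V} (hz : z ∈ S.H) {t : ℝ} (hA : A c S S' z t = 0) :
    (fderiv ℝ (Y.m.Z t) (c.φ z) (fderiv ℝ c.φ z (0, S.n z))).1 = 0 := by
  have H := ok.y.hd
  have hw := imH ok sl hz
  have e1 : X.m.hor z ((0, S.n z) : V × V) = 0 := by simp [MF.hor]
  have e2 : X.m.ver z ((0, S.n z) : V × V) = S.n z := by simp [MF.ver]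
  obtain ⟨⟨t1, t2, t3⟩, t4⟩ := bl z hz (0, S.n z) ⟨by rw [e1, inner_zero_right], by
    rw [e2]; exact cr_left _ _, by rw [e2]; exact cr_right _ _⟩
  rw [e1, inner_zero_right] at t4
  have h1 := ((nf Y.m Y.lg H S' s' _ hw (fderiv ℝ c.φ z (0, S.n z))).2.2 t).1
  rw [t1, t2, mul_zero, add_zero] at h1
  have h2 := J_vel H.ok H.jac (c.φ z) (fderiv ℝ c.φ z (0, S.n z)) t
  rw [real_inner_comm (c.φ z).2, real_inner_comm (c.φ z).2, t3, t4, mul_zero, add_zero,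
    real_inner_comm] at h2
  have ht := H_fl H.jac s'.o1 hw t
  have h3 := perp_eq (s'.o1.unit _) ht.1 ht.2 h1 h2
  have h4 : ⟪cr (S'.ζ (Y.m.Z t (c.φ z)).1) (Y.m.Z t (c.φ z)).2,
    Y.m.J (c.φ z) (fderiv ℝ c.φ z (0, S.n z)) t⟫ = 0 := hA
  rw [h4, zero_smul] at h3
  have h5 := H.ok.RS (Y.m.Z t (c.φ z)).1
    (fderiv ℝ (Y.m.Z t) (c.φ z) (fderiv ℝ c.φ z (0, S.n z))).1
  have h6 : Y.m.S (Y.m.Z t (c.φ z)).1
    (fderiv ℝ (Y.m.Z t) (c.φ z) (fderiv ℝ c.φ z (0, S.n z))).1 = 0 := h3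
  rw [h6, map_zero] at h5
  exact h5.symm

theorem circ (nf : SNF) (ok : c.OK) (s : S.OK X.m X.lg) (s' : S'.OK Y.m Y.lg) (sl : Slp c S S')
    (bl : Blk c S S') {x a b : V} {t : ℝ} (hA : ∀ a, (x, a) ∈ S.H → A c S S' (x, a) t = 0)
    (ha : (x, a) ∈ S.H) (hb : (x, b) ∈ S.H) :
    (Y.m.Z t (c.φ (x, b))).1 = (Y.m.Z t (c.φ (x, a))).1 := by
  have hζ := s.o1.unit x
  have a1 : ‖a‖ = 1 := ha.1
  have a2 : ⟪S.ζ x, a⟫ = 0 := ha.2
  obtain ⟨n, hn⟩ : ∃ n, n = cr (S.ζ x) a := ⟨_, rfl⟩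
  have n1 : ‖n‖ = 1 := by rw [hn, cr_norm hζ a2, a1]
  have n2 : ⟪S.ζ x, n⟫ = 0 := hn ▸ cr_left _ _
  have n3 : ⟪a, n⟫ = 0 := hn ▸ cr_right _ _
  have sq : ∀ α β : ℝ, ‖α • a + β • n‖ ^ 2 = α ^ 2 + β ^ 2 := fun α β => by
    rw [norm_add_sq_real, norm_smul, norm_smul, a1, n1, real_inner_smul_left,
      real_inner_smul_right, n3, Real.norm_eq_abs, Real.norm_eq_abs, mul_one, mul_one, sq_abs,
      sq_abs]
    ring
  have hH : ∀ θ, (x, Real.cos θ • a + Real.sin θ • n) ∈ S.H := fun θ => ⟨by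
    have := sq (Real.cos θ) (Real.sin θ)
    rw [Real.cos_sq_add_sin_sq] at this
    exact (sq_eq_sq₀ (norm_nonneg _) zero_le_one).1 (by rw [one_pow]; exact this), by
    simp only [Sp.s, inner_add_right, real_inner_smul_right, a2, n2, mul_zero, add_zero]⟩
  have hd : ∀ θ, HasDerivAt (fun θ => (Y.m.Z t (c.φ (x, Real.cos θ • a + Real.sin θ • n))).1)
      0 θ := fun θ => by
    have e : S.n (x, Real.cos θ • a + Real.sin θ • n) = -Real.sin θ • a + Real.cos θ • n := by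
      rw [Sp.n, cr_add_right, cr_smul_right, cr_smul_right, ← hn, hn, cr_cr, a2,
        real_inner_self_eq_norm_sq, hζ]
      simp only [zero_smul, one_pow, one_smul, zero_sub, smul_neg, neg_smul]
      abel
    have d0 : HasDerivAt (fun θ => ((x, Real.cos θ • a + Real.sin θ • n) : V × V))
        (0, S.n (x, Real.cos θ • a + Real.sin θ • n)) θ := by
      rw [e]
      exact (hasDerivAt_const θ x).prodMk (((Real.hasDerivAt_cos θ).smul_const a).add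
        ((Real.hasDerivAt_sin θ).smul_const n))
    have d1 := ((ok.h.c1.contDiffAt ((isOpen_ne_fun continuous_snd continuous_const).mem_nhds
      (ne0 (hH θ)))).differentiableAt one_ne_zero).hasFDerivAt.comp_hasDerivAt θ d0
    have d2 := (Z_diff ok.y.hd.ok t _).hasFDerivAt.comp_hasDerivAt θ d1
    have d3 := (ContinuousLinearMap.fst ℝ V V).hasFDerivAt.comp_hasDerivAt θ d2
    exact d3.congr_deriv (J0 nf ok s' sl bl (hH θ) (hA _ (hH θ)))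
  have eb := expand hζ a1 a2 b
  rw [show ⟪S.ζ x, b⟫ = 0 from hb.2, zero_smul, zero_add, ← hn] at eb
  obtain ⟨θ, h1, h2⟩ := angle (α := ⟪a, b⟫) (β := ⟪n, b⟫) (by
    rw [← sq, ← eb, show ‖b‖ = 1 from hb.1, one_pow])
  have h := is_const_of_deriv_eq_zero (fun θ => (hd θ).differentiableAt) (fun θ => (hd θ).deriv) θ 0
  simp only [h1, h2, ← eb, Real.cos_zero, Real.sin_zero, one_smul, zero_smul, add_zero] at h
  exact h

end REN

open REN in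
theorem rEN : R_EN := by
  intro nf X Y c S S' ε τ₀ ε' τ₀' D N sl bl τ M p co f1 f2 s2 inv cst
  have ok := N.ok
  have HX := ok.x.hd
  have HY := ok.y.hd
  have o := N.s.o1
  have o' := N.s'.o1
  choose a a1 a2 using fun x => ex_perp (S.ζ x)
  have aH : ∀ x, (x, a x) ∈ S.H := fun x => ⟨a1 x, a2 x⟩
  obtain ⟨G, hG⟩ : ∃ G : V → V, ∀ z ∈ S.H, G z.1 = (Y.m.Z (τ z) (c.φ z)).1 :=
    ⟨fun x => (Y.m.Z (τ (x, a x)) (c.φ (x, a x))).1, fun z hz => by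
      change (Y.m.Z (τ (z.1, a z.1)) (c.φ (z.1, a z.1))).1 = _
      rw [cst z.1 (a z.1) z.2 (aH _) hz]
      exact circ nf ok N.s N.s' sl bl
        (fun b hb => (f1.zero _ hb _).2 (cst z.1 z.2 b hz hb)) hz (aH _)⟩
  have gt : ∀ z ∈ S.H, ∀ t, G (X.m.Z t z).1 = (Y.m.Z (τ z + t) (c.φ z)).1 := fun z hz t => by
    rw [hG _ (H_fl HX.jac o hz t), inv z hz, ok.h.flow t z (ne0 hz), HY.ok.add]
  have lev : ∀ x y, S.h x = S.h y →
      ‖Y.lg (G x, G y)‖ = ‖X.lg (x, y)‖ ∧ S'.h (G x) = S'.h (G y) := fun x y h => by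
    rcases (norm_nonneg (X.lg (x, y))).eq_or_lt with h0 | h0
    · rw [RSTR.foot HX h0.symm, lg_self HX.ok HX.jac HX.had, lg_self HY.ok HY.jac HY.had]
      exact ⟨rfl, rfl⟩
    · obtain ⟨u, hu⟩ : ∃ u, u = ‖X.lg (x, y)‖⁻¹ • X.lg (x, y) := ⟨_, rfl⟩
      have u1 : ‖u‖ = 1 := hu ▸ norm_smul_inv_norm (norm_pos_iff.1 h0)
      have e : (X.m.Z ‖X.lg (x, y)‖ (x, u)).1 = y := by
        have h1 := one_smul' HX.jac ‖X.lg (x, y)‖ (x, u)
        rw [hu, smul_smul, mul_inv_cancel₀ h0.ne', one_smul, ← hu] at h1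
        exact (congrArg Prod.fst h1).symm.trans (HX.had.ex x y)
      have h2 := o.ht ‖X.lg (x, y)‖ (x, u)
      rw [e] at h2
      have uH : (x, u) ∈ S.H := ⟨u1, (mul_eq_zero.1 (by linarith)).resolve_left h0.ne'⟩
      have g1 := hG _ uH
      have g2 := gt _ uH ‖X.lg (x, y)‖
      have wH := imH ok sl uH
      rw [e] at g2
      rw [g2, show G x = _ from g1, dist_geo HY.ok HY.jac HY.had, o'.ht, o'.ht, wH.1, wH.2,
        add_sub_cancel_left, abs_norm, mul_one, mul_zero, mul_zero]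
      exact ⟨rfl, rfl⟩
  have tr : ∀ r x, ∃ r', G (S.T X.m r x) = S'.T Y.m r' (G x) := fun r x => by
    obtain ⟨b, hb⟩ := s2.tr r x
    obtain ⟨h1, -, r', h2⟩ := hb (a x) (aH x)
    refine ⟨r', ?_⟩
    have g1 := hG _ (H_Tv N.s.o4 (aH x) r)
    rw [h1, h2, sub_add_cancel, ← hG _ (aH x)] at g1
    exact g1
  obtain ⟨F, hF⟩ : ∃ F : V → V, ∀ x, F x = S'.T Y.m (S.h x + p - S'.h (G x)) (G x) :=
    ⟨_, fun _ => rfl⟩
  have hh : ∀ x, S'.h (F x) = S.h x + p := fun x => by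
    rw [hF, h_T o']
    ring
  have FT : ∀ r x, F (S.T X.m r x) = S'.T Y.m r (F x) := fun r x => by
    obtain ⟨r', h⟩ := tr r x
    rw [hF, hF, h, h_T o, h_T o', ← T_add HY.ok o', ← T_add HY.ok o']
    congr 1
    ring
  have dist : ∀ x y, ‖Y.lg (F x, F y)‖ = ‖X.lg (x, y)‖ := fun x y => by
    obtain ⟨r, hr⟩ : ∃ r, r = S.h y - S.h x := ⟨_, rfl⟩
    obtain ⟨y₀, h0⟩ : ∃ y₀, y₀ = S.T X.m (-r) y := ⟨_, rfl⟩
    have e1 : y = S.T X.m r y₀ := by rw [h0, ← T_add HX.ok o, add_neg_cancel, T_zero HX.ok]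
    have e2 : S.h x = S.h y₀ := by
      rw [h0, h_T o, hr]
      ring
    obtain ⟨l1, l2⟩ := lev x y₀ e2
    have e3 : ‖Y.lg (F x, F y₀)‖ = ‖X.lg (x, y₀)‖ := by rw [hF, hF, e2, l2, o'.iso, l1]
    refine (sq_eq_sq₀ (norm_nonneg _) (norm_nonneg _)).1 ?_
    rw [e1, FT, o.py, o'.py, e3, hh, hh, e2]
    ring
  refine ⟨F, ⟨fun x y h => ?_, fun y => ?_⟩, dist, fun γ x => ?_⟩
  · have h1 := dist x y
    rw [h, lg_self HY.ok HY.jac HY.had, norm_zero] at h1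
    exact (RSTR.foot HX h1.symm).symm
  · obtain ⟨b, b1, b2⟩ := ex_perp (S'.ζ y)
    have b0 : ((y, b) : V × V).2 ≠ 0 := ne_of_norm b1
    have z1 : ‖(c.ψ (y, b)).2‖ = 1 := (ok.h'.norm _ b0).trans b1
    have zH : c.ψ (y, b) ∈ S.H := ⟨z1, by
      rw [← sl.sl _ z1, ok.ri _ b0]
      exact b2⟩
    have g := gt _ zH (-τ (c.ψ (y, b)))
    rw [add_neg_cancel, HY.ok.zero, ok.ri _ b0] at g
    obtain ⟨x, hx⟩ : ∃ x, G x = y := ⟨_, g⟩
    refine ⟨S.T X.m (-(S.h x + p - S'.h y)) x, ?_⟩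
    rw [FT, hF, hx, ← T_add HY.ok o', neg_add_cancel, T_zero HY.ok]
  · obtain ⟨h1, h2, -⟩ := f2.gr _ (aH x) γ
    have g : G (γ • x) = c.ρ γ • G x := by
      have g1 := hG _ h1
      rw [h2] at g1
      have g2 : c.φ (ac X.O γ (x, a x)) = _ := ok.eq γ (x, a x) (ne0 (aH x))
      rw [g2, ok.y.act.flow, ← hG _ (aH x)] at g1
      exact g1
    have k := co γ x (F x) (hh x)
    rw [hF x, N.dk'.Te, h_T o'] at k
    rw [hF, hF x, N.dk'.Te, g]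
    congr 1
    linarith

end Pool.Agent.MP_3ee8cb_gt.D3RH
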