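import Pool.Agent.MP_3ee8cb_gt.D3RH.Kit

/-! Rigidity in Euclidean space. -/

namespace Pool.Agent.MP_3ee8cb_gt.D3RH

open Set Filter Topology D3
open scoped RealInnerProductSpace

namespace REUC

theorem zer {v : V} {C : ℝ} (h : ∀ t : ℝ, ‖t • v‖ ≤ C) : v = 0 := by
  by_contra hv
  have n := norm_pos_iff.2 hv
  have := h ((|C| + 1) / ‖v‖)
  rw [norm_smul, Real.norm_eq_abs, abs_of_nonneg (by positivity), div_mul_cancel₀ _ n.ne'] at this
  linarith [le_abs_self C]

theorem fix {Γ : Type} [Group Γ] (ρ : Γ → V → V) {C : ℝ}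
    (iso : ∀ γ p q, ‖ρ γ p - ρ γ q‖ = ‖p - q‖) (mul : ∀ γ δ p, ρ γ (ρ δ p) = ρ (γ * δ) p)
    (bd : ∀ γ, ‖ρ γ 0‖ ≤ C) : ∃ p, ∀ γ, ρ γ p = p := by
  let f : V → ℝ := fun p => ⨆ γ, ‖p - ρ γ 0‖
  have le : ∀ p γ, ‖p - ρ γ 0‖ ≤ f p := fun p γ => le_ciSup (f := fun γ => ‖p - ρ γ 0‖)
    ⟨‖p‖ + C, by
      rintro _ ⟨δ, rfl⟩
      exact (norm_sub_le _ _).trans (by linarith [bd δ])⟩ γ
  have lip : LipschitzWith 1 f := LipschitzWith.of_le_add fun p q => ciSup_le fun γ => by
    have := norm_sub_le_norm_sub_add_norm_sub p q (ρ γ 0)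
    rw [dist_eq_norm]
    linarith [le q γ]
  obtain ⟨p, hp⟩ := lip.continuous.exists_forall_le_of_isBounded 0
    ((Metric.isBounded_closedBall (x := (0 : V)) (r := f 0 + C)).subset fun q (hq : f q ≤ f 0) => by
      have := norm_le_norm_sub_add q (ρ 1 0)
      rw [mem_closedBall_zero_iff]
      linarith [le q 1, bd 1])
  refine ⟨p, fun δ => ?_⟩
  have inv : ∀ γ, ‖ρ δ p - ρ γ 0‖ ≤ f p := fun γ => by
    rw [show ρ γ 0 = ρ δ (ρ (δ⁻¹ * γ) 0) by rw [mul, mul_inv_cancel_left], iso]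
    exact le p _
  have par : ∀ γ, ‖(1 / 2 : ℝ) • (ρ δ p + p) - ρ γ 0‖ ^ 2 ≤ f p ^ 2 - ‖ρ δ p - p‖ ^ 2 / 4 := by
    intro γ
    have e := parallelogram_law_with_norm ℝ (ρ δ p - ρ γ 0) (p - ρ γ 0)
    have e1 : ρ δ p - ρ γ 0 + (p - ρ γ 0) = (2 : ℝ) • ((1 / 2 : ℝ) • (ρ δ p + p) - ρ γ 0) := by
      module
    rw [e1, sub_sub_sub_cancel_right, norm_smul, Real.norm_two] at e
    have a := mul_self_le_mul_self (norm_nonneg _) (inv γ)
    have b := mul_self_le_mul_self (norm_nonneg _) (le p γ)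
    nlinarith
  have h1 : f p ≤ √(f p ^ 2 - ‖ρ δ p - p‖ ^ 2 / 4) :=
    (hp _).trans (ciSup_le fun γ => Real.le_sqrt_of_sq_le (par γ))
  have h2 := (Real.le_sqrt ((norm_nonneg _).trans (le p 1)) ((sq_nonneg _).trans (par 1))).1 h1
  have h3 : ‖ρ δ p - p‖ ^ 2 ≤ 0 := by linarith
  exact sub_eq_zero.1 (norm_eq_zero.1 (pow_eq_zero_iff two_ne_zero |>.1
    (le_antisymm h3 (sq_nonneg _))))

theorem lin {F : V → V} {D : ℝ}
    (h1 : ∀ x a, ‖a‖ = 1 → ∃ b, ‖b‖ = 1 ∧ ∀ t : ℝ, ‖F (x + t • a) - F x - t • b‖ ≤ D)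
    (h2 : ∀ x y, ‖F x - F y‖ ≤ ‖x - y‖ + D) :
    ∃ L : V ≃ₗᵢ[ℝ] V, ∀ x, ‖F x - (L x + F 0)‖ ≤ D := by
  choose! b hb k using h1
  have D0 : 0 ≤ D := by simpa using h2 0 0
  have same : ∀ x a, ‖a‖ = 1 → b x a = b 0 a := fun x a ha => sub_eq_zero.1 (zer
    (C := D + D + (‖x‖ + D) + (‖x‖ + D)) fun t => by
      have e : t • (b x a - b 0 a) = F (0 + t • a) - F 0 - t • b 0 a -
          (F (x + t • a) - F x - t • b x a) + (F (x + t • a) - F (0 + t • a)) - (F x - F 0) := by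
        module
      have a1 := h2 (x + t • a) (0 + t • a)
      have a2 := h2 x 0
      rw [add_sub_add_right_eq_sub, sub_zero] at a1
      rw [sub_zero] at a2
      rw [e]
      exact (norm_sub_le _ _).trans (add_le_add ((norm_add_le _ _).trans (add_le_add
        ((norm_sub_le _ _).trans (add_le_add (k 0 a ha t) (k x a ha t))) a1)) a2))
  let om : V → V := fun v => ‖v‖ • b 0 (‖v‖⁻¹ • v)
  have un : ∀ v : V, v ≠ 0 → ‖‖v‖⁻¹ • v‖ = 1 := fun v hv => by
    rw [norm_smul, norm_inv, norm_norm, inv_mul_cancel₀ (norm_ne_zero_iff.2 hv)]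
  have key : ∀ x v (t : ℝ), ‖F (x + t • v) - F x - t • om v‖ ≤ D := fun x v t => by
    by_cases hv : v = 0
    · simpa [hv, om] using D0
    · have := k x _ (un v hv) (t * ‖v‖)
      rwa [same x _ (un v hv), smul_smul, mul_assoc, mul_inv_cancel₀ (norm_ne_zero_iff.2 hv),
        mul_one, mul_smul] at this
  have add : ∀ u v, om (u + v) = om u + om v := fun u v => sub_eq_zero.1 (zer (C := D + D + D)
    fun t => by
      have e : t • (om (u + v) - (om u + om v)) = F (0 + t • u) - F 0 - t • om u +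
          (F (0 + t • u + t • v) - F (0 + t • u) - t • om v) -
            (F (0 + t • (u + v)) - F 0 - t • om (u + v)) := by
        rw [smul_add t u v, ← add_assoc]
        module
      rw [e]
      exact (norm_sub_le _ _).trans (add_le_add ((norm_add_le _ _).trans
        (add_le_add (key _ _ _) (key _ _ _))) (key _ _ _)))
  have smul : ∀ (c : ℝ) v, om (c • v) = c • om v := fun c v => sub_eq_zero.1 (zer (C := D + D)
    fun t => by
      have e : t • (om (c • v) - c • om v) = F (0 + (t * c) • v) - F 0 - (t * c) • om v -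
          (F (0 + t • c • v) - F 0 - t • om (c • v)) := by
        rw [mul_smul t c v]
        module
      rw [e]
      exact (norm_sub_le _ _).trans (add_le_add (key _ _ _) (key _ _ _)))
  let L : V →ₗᵢ[ℝ] V := ⟨⟨⟨om, add⟩, smul⟩, fun v => by
    show ‖om v‖ = ‖v‖
    by_cases hv : v = 0
    · simp [hv, om]
    · simp only [om]
      rw [norm_smul, norm_norm, hb _ _ (un v hv), mul_one]⟩
  refine ⟨L.toLinearIsometryEquiv rfl, fun x => ?_⟩
  have := key 0 x 1
  rw [zero_add, one_smul, one_smul, sub_sub, add_comm] at this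
  exact this

end REUC

theorem rEUC : SEUC := by
  intro Γ _ α β F D h1 h2 h3
  obtain ⟨L, hL⟩ := REUC.lin h1 h2
  have af : ∀ (f : V ≃ᵢ V) x y, f (x + y) = f.toRealLinearIsometryEquiv x + f y := fun f x y => by
    have := f.toRealLinearIsometryEquiv.map_add x y
    simp only [IsometryEquiv.toRealLinearIsometryEquiv_apply] at this ⊢
    rw [sub_eq_iff_eq_add.1 this]
    abel
  have bd : ∀ γ x, ‖β γ (L x + F 0) - (L (α γ x) + F 0)‖ ≤ D + D + D := fun γ x => by
    have a1 : ‖β γ (L x + F 0) - β γ (F x)‖ ≤ D := by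
      rw [← dist_eq_norm, (β γ).dist_eq, dist_eq_norm']
      exact hL x
    exact (norm_sub_le_norm_sub_add_norm_sub _ (F (α γ x)) _).trans (add_le_add
      ((norm_sub_le_norm_sub_add_norm_sub _ (β γ (F x)) _).trans
        (add_le_add a1 ((norm_sub_rev _ _).trans_le (h3 γ x)))) (hL _))
  have li : ∀ γ x, (β γ).toRealLinearIsometryEquiv (L x) =
      L ((α γ).toRealLinearIsometryEquiv x) := fun γ x => sub_eq_zero.1 (REUC.zer
    (C := D + D + D + (D + D + D)) fun t => by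
      have a1 := bd γ (t • x + 0)
      have a2 := bd γ 0
      rw [af (α γ), add_zero, af (β γ), map_add, map_smul, map_smul, map_smul, map_smul] at a1
      rw [map_zero, zero_add] at a2
      refine le_of_eq_of_le (congrArg norm ?_) ((norm_sub_le _ _).trans (add_le_add a1 a2))
      module)
  have cst : ∀ γ x p, β γ (L x + p) - L (α γ x) = β γ p - L (α γ 0) := fun γ x p => by
    rw [af, li, ← add_zero x, af (α γ), add_zero, map_add]
    abel
  obtain ⟨p, hp⟩ := REUC.fix (fun γ p => β γ p - L (α γ 0))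
    (C := D + D + D + ‖F 0‖ + ‖F 0‖)
    (fun γ p q => by rw [sub_sub_sub_cancel_right, ← dist_eq_norm, (β γ).dist_eq, dist_eq_norm])
    (fun γ δ p => by
      rw [← cst γ (α δ 0), add_sub_cancel, map_mul, map_mul]
      rfl)
    (fun γ => by
      have a1 := bd γ 0
      have a2 : ‖β γ 0 - β γ (F 0)‖ = ‖F 0‖ := by
        rw [← dist_eq_norm, (β γ).dist_eq, dist_eq_norm, zero_sub, norm_neg]
      rw [map_zero, zero_add] at a1
      have e : β γ 0 - L (α γ 0) =
          β γ (F 0) - (L (α γ 0) + F 0) + (β γ 0 - β γ (F 0)) + F 0 := by abel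
      rw [e]
      exact (norm_add_le _ _).trans (add_le_add ((norm_add_le _ _).trans
        (add_le_add a1 a2.le)) le_rfl))
  refine ⟨L.toIsometryEquiv.trans (IsometryEquiv.addRight p), fun γ x => ?_⟩
  show L (α γ x) + p = β γ (L x + p)
  have := (cst γ x p).trans (hp γ)
  rw [sub_eq_iff_eq_add.1 this, add_comm]

end Pool.Agent.MP_3ee8cb_gt.D3RH
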