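import Pool.Agent.MP_3ee8cb_gt.D3RH.Kit

/-! The fibre inequality on a half circle. -/

namespace Pool.Agent.MP_3ee8cb_gt.D3RH

open Set Filter Topology D3 D3RK Real
open scoped RealInnerProductSpace

noncomputable section

namespace RFB

theorem sgn {f : ℝ → ℝ} {d x e : ℝ} (h : HasDerivAt f d x) (h0 : f x = 0) (he : 0 < e * d) :
    (∀ᶠ y in 𝓝[>] x, 0 < e * f y) ∧ ∀ᶠ y in 𝓝[<] x, e * f y < 0 := by
  have h1 : ∀ᶠ y in 𝓝[≠] x, 0 < e * slope f x y :=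
    ((hasDerivAt_iff_tendsto_slope.1 h).const_mul e).eventually_const_lt he
  have k (y : ℝ) (hy : y ≠ x) : e * f y = e * slope f x y * (y - x) := by
    have := sub_ne_zero.2 hy
    rw [slope_def_field, h0]
    field_simp
    ring
  constructor
  · filter_upwards [h1.filter_mono (nhdsGT_le_nhdsNE x), self_mem_nhdsWithin] with y h2 hy
    rw [k y (ne_of_gt hy)]
    exact mul_pos h2 (sub_pos.2 hy)
  · filter_upwards [h1.filter_mono (nhdsLT_le_nhdsNE x), self_mem_nhdsWithin] with y h2 hy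
    rw [k y (ne_of_lt hy)]
    exact mul_neg_of_pos_of_neg h2 (sub_neg.2 hy)

/-- The horizontal circle. -/
def p (S : Sp) (z : V × V) (θ : ℝ) : V × V := (z.1, cos θ • z.2 + sin θ • S.n z)

section One

variable {m : MF} {lg : V × V → V} {S : Sp} {z : V × V}

theorem p_zero (S : Sp) (z : V × V) : p S z 0 = z := by simp [p]

theorem p_n (h : S.OK1 m lg) (hz : z ∈ S.H) (θ : ℝ) : ⟪S.n z, (p S z θ).2⟫ = sin θ := by
  have e : ⟪S.n z, z.2⟫ = 0 := by rw [real_inner_comm]; exact cr_right _ _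
  simp only [p, inner_add_right, inner_smul_right, e, real_inner_self_eq_norm_sq, n_unit h hz]
  ring

theorem p_H (h : S.OK1 m lg) (hz : z ∈ S.H) (θ : ℝ) : p S z θ ∈ S.H := by
  have e : ⟪z.2, S.n z⟫ = 0 := cr_right _ _
  have e' : ⟪S.ζ z.1, S.n z⟫ = 0 := cr_left _ _
  have e0 : ⟪S.ζ z.1, z.2⟫ = 0 := hz.2
  refine ⟨(sq_eq_sq₀ (norm_nonneg _) zero_le_one).1 ?_, ?_⟩
  · simp only [p, norm_add_sq_real, inner_smul_left, inner_smul_right, e, norm_smul, hz.1,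
      n_unit h hz, norm_eq_abs, mul_one, sq_abs, mul_zero, add_zero, one_pow]
    exact cos_sq_add_sin_sq θ
  · simp only [Sp.s, p, inner_add_right, inner_smul_right, e', e0, mul_zero, add_zero]

theorem p_c1 (S : Sp) (z : V × V) : ContDiff ℝ 1 (p S z) :=
  contDiff_const.prodMk ((contDiff_cos.smul contDiff_const).add (contDiff_sin.smul contDiff_const))

theorem p_der (h : S.OK1 m lg) (hz : z ∈ S.H) (θ : ℝ) :
    HasDerivAt (p S z) (0, S.n (p S z θ)) θ := by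
  have e0 : ⟪S.ζ z.1, z.2⟫ = 0 := hz.2
  have e : S.n (p S z θ) = -sin θ • z.2 + cos θ • S.n z := by
    simp only [Sp.n, p, cr_add_right, cr_smul_right, cr_cr, e0, real_inner_self_eq_norm_sq, h.unit]
    module
  rw [e]
  exact (hasDerivAt_const θ z.1).prodMk
    (((hasDerivAt_cos θ).smul_const _).fun_add ((hasDerivAt_sin θ).smul_const _))

theorem tan (S : Sp) (m : MF) (z : V × V) : S.Tan m z (0, S.n z) := by
  refine ⟨by simp [MF.hor], ?_, ?_⟩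
  · simpa [MF.ver, Sp.n] using cr_left (S.ζ z.1) z.2
  · simpa [MF.ver, Sp.n] using cr_right (S.ζ z.1) z.2

end One

variable {X Y : Sd} {c : Cj X Y} {S S' : Sp} {ε τ₀ : X.G → ℝ} {ε' τ' : Y.G → ℝ} {D : ℝ}
  {z : V × V}

/-- The image of the circle. -/
def σ (c : Cj X Y) (S : Sp) (z : V × V) (θ : ℝ) : V × V := c.φ (p S z θ)

/-- Its derivative. -/
def ξ (c : Cj X Y) (S : Sp) (z : V × V) (θ : ℝ) : V × V :=
  fderiv ℝ c.φ (p S z θ) (0, S.n (p S z θ))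

/-- The side function. -/
def G (Y : Sd) (S' : Sp) (w : V × V) (y : V) : ℝ := ⟪S'.n w, Y.lg (w.1, y)⟫

/-- The side of the moving geodesic. -/
def g (c : Cj X Y) (S S' : Sp) (z : V × V) (q : ℝ × ℝ) : ℝ :=
  G Y S' (c.φ z) (Y.m.Z q.2 (σ c S z q.1)).1

theorem G_c1 (h : Y.OK) (S' : Sp) (w : V × V) : ContDiff ℝ 1 (G Y S' w) :=
  contDiff_const.inner ℝ (h.hd.had.c1.comp (contDiff_const.prodMk contDiff_id))

variable (N : NF c S S' ε τ₀ ε' τ' D) (hz : z ∈ S.H)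
include N hz

theorem p_ne (θ : ℝ) : (p S z θ).2 ≠ 0 := D3WI.ne_of_norm (p_H N.s.o1 hz θ).1

theorem σ_c1 : ContDiff ℝ 1 (σ c S z) := N.ok.h.c1.comp_contDiff (p_c1 S z) (p_ne N hz)

theorem σ_der (θ : ℝ) : HasDerivAt (σ c S z) (ξ c S z θ) θ :=
  ((N.ok.h.c1.contDiffAt ((isOpen_ne.preimage continuous_snd).mem_nhds
    (p_ne N hz θ))).differentiableAt one_ne_zero).hasFDerivAt.comp_hasDerivAt θ
    (p_der N.s.o1 hz θ)

theorem φ_H (sl : Slp c S S') : c.φ z ∈ S'.H :=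
  ⟨(N.ok.h.norm z (D3WI.ne_of_norm hz.1)).trans hz.1, (sl.sl z hz.1).trans hz.2⟩

theorem σ_H (sl : Slp c S S') (θ : ℝ) : σ c S z θ ∈ S'.H := φ_H N (p_H N.s.o1 hz θ) sl

theorem ξ_tan (bl : Blk c S S') (θ : ℝ) : S'.Tan Y.m (σ c S z θ) (ξ c S z θ) :=
  (bl _ (p_H N.s.o1 hz θ) _ (tan S X.m _)).1

theorem level (sl : Slp c S S') (bl : Blk c S S') (θ t : ℝ) :
    S'.h (Y.m.Z t (σ c S z θ)).1 = S'.h (c.φ z).1 := by
  have d (θ : ℝ) : HasDerivAt (fun θ => S'.h (σ c S z θ).1) 0 θ := by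
    have := (N.s'.o2.ch.differentiable one_ne_zero _).hasFDerivAt.comp_hasDerivAt θ
      (σ_der N hz θ).fst
    rw [N.s'.o2.dh] at this
    exact this.congr_deriv (ξ_tan N hz bl θ).1
  have e := is_const_of_deriv_eq_zero (fun θ => (d θ).differentiableAt) (fun θ => (d θ).deriv) θ 0
  rw [N.s'.o1.ht, (σ_H N hz sl θ).2, mul_zero, add_zero, e, σ, p_zero]

theorem Z_c1 : ContDiff ℝ 1 fun q : ℝ × ℝ => (Y.m.Z q.2 (σ c S z q.1)).1 :=
  (N.ok.y.hd.ok.cZ.comp (contDiff_snd.prodMk ((σ_c1 N hz).comp contDiff_fst))).fst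

theorem g_c1 : ContDiff ℝ 1 (g c S S' z) := (G_c1 N.ok.y S' _).comp (Z_c1 N hz)

/-- Crossing times are bounded. -/
theorem bd {θ t s : ℝ} (e : (Y.m.Z t (σ c S z θ)).1 = (Y.m.Z s (c.φ z)).1) :
    |t| * |sin θ| ≤ D := by
  have hx := N.ok.x.hd
  have hy := N.ok.y.hd
  have n1 := (hx.jac.norm t (p S z θ)).trans (p_H N.s.o1 hz θ).1
  have n2 := (hx.jac.norm s z).trans hz.1
  have m1 := D3WI.ne_of_norm n1
  have m2 := D3WI.ne_of_norm n2
  have h := N.di' (c.φ (X.m.Z t (p S z θ))) ((N.ok.h.norm _ m1).trans n1) (c.φ (X.m.Z s z))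
    ((N.ok.h.norm _ m2).trans n2)
  change ‖X.lg ((c.ψ _).1, (c.ψ _).1)‖ ≤ _ at h
  rw [N.ok.li _ m1, N.ok.li _ m2, N.ok.h.flow _ _ (p_ne N hz θ),
    N.ok.h.flow _ _ (D3WI.ne_of_norm hz.1), ← e, ← σ, D3WI.lg_self hy.ok hy.jac hy.had, norm_zero,
    zero_add] at h
  have h2 := D3WI.hinge' hx.had z.1 (X.m.Z t (p S z θ)).1 (X.m.Z s z).1
  rw [D3WI.lg_ray hx.jac hx.had s z, show z.1 = (p S z θ).1 from rfl,
    D3WI.lg_ray hx.jac hx.had t] at h2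
  have h3 := abs_real_inner_le_norm (S.n z) (t • (p S z θ).2 - s • z.2)
  have e0 : ⟪S.n z, z.2⟫ = 0 := by rw [real_inner_comm]; exact cr_right _ _
  rw [inner_sub_right, inner_smul_right, inner_smul_right, p_n N.s.o1 hz, e0, mul_zero, sub_zero,
    n_unit N.s.o1 hz, one_mul, abs_mul] at h3
  linarith

/-- Crossings are transversal. -/
theorem trv (sl : Slp c S S') {θ t s : ℝ} (hθ : sin θ ≠ 0)
    (e : (Y.m.Z t (σ c S z θ)).1 = (Y.m.Z s (c.φ z)).1) :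
    ⟪S'.n (Y.m.Z s (c.φ z)), (Y.m.Z t (σ c S z θ)).2⟫ ≠ 0 := by
  intro h0
  have hy := N.ok.y.hd
  have hu := H_fl hy.jac N.s'.o1 (σ_H N hz sl θ) t
  have hv := H_fl hy.jac N.s'.o1 (φ_H N hz sl) s
  have h1 := expand (N.s'.o1.unit _) hv.1 hv.2 (Y.m.Z t (σ c S z θ)).2
  have h2 : ⟪S'.ζ (Y.m.Z s (c.φ z)).1, (Y.m.Z t (σ c S z θ)).2⟫ = 0 := by rw [← e]; exact hu.2
  rw [h2, show ⟪cr _ _, _⟫ = (0 : ℝ) from h0, zero_smul, zero_smul, zero_add, add_zero] at h1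
  obtain ⟨k, hk⟩ : ∃ k : ℝ, Y.m.Z t (σ c S z θ) =
      ((Y.m.Z s (c.φ z)).1, k • (Y.m.Z s (c.φ z)).2) := ⟨_, Prod.ext e h1⟩
  have h3 (r : ℝ) : |r + t| * |sin θ| ≤ D := by
    refine bd N hz (s := k * r + s) ?_
    rw [hy.ok.add, hk, hy.jac.scale, hy.ok.add]
  have hp := abs_pos.2 hθ
  have h4 := h3 ((|D| + 1) / |sin θ| - t)
  rw [sub_add_cancel, abs_of_nonneg (by positivity), div_mul_cancel₀ _ hp.ne'] at h4
  linarith [le_abs_self D]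

theorem cross (sid : SSID) (sl : Slp c S S') (bl : Blk c S S') {θ t : ℝ}
    (h : g c S S' z (θ, t) = 0) : (Y.m.Z t (σ c S z θ)).1 =
      (Y.m.Z ⟪(c.φ z).2, Y.lg ((c.φ z).1, (Y.m.Z t (σ c S z θ)).1)⟫ (c.φ z)).1 :=
  (sid _ _ N.ok.y.hd S' N.s' _ (φ_H N hz sl)).1 _ (level N hz sl bl θ t) h

theorem dt (sid : SSID) (sl : Slp c S S') (bl : Blk c S S') {θ t : ℝ} (hθ : sin θ ≠ 0)
    (h : g c S S' z (θ, t) = 0) : fderiv ℝ (g c S S' z) (θ, t) (0, 1) ≠ 0 := by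
  have hy := N.ok.y.hd
  have e := cross N hz sid sl bl h
  generalize ⟪(c.φ z).2, Y.lg ((c.φ z).1, (Y.m.Z t (σ c S z θ)).1)⟫ = s at e
  obtain ⟨-, ρ, ρ0, hρ⟩ := (sid _ _ hy S' N.s' _ (φ_H N hz sl)).2 s
  have d1 := ((g_c1 N hz).differentiable one_ne_zero (θ, t)).hasFDerivAt.comp_hasDerivAt t
    ((hasDerivAt_const t θ).prodMk (hasDerivAt_id t))
  have d2 := ((G_c1 N.ok.y S' (c.φ z)).differentiable one_ne_zero _).hasFDerivAt.comp_hasDerivAt t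
    (d_foot hy.ok (σ c S z θ) t)
  have hu := H_fl hy.jac N.s'.o1 (σ_H N hz sl θ) t
  have h1 := hρ (Y.m.R (Y.m.Z s (c.φ z)).1 (Y.m.Z t (σ c S z θ)).2) (by
    rw [hy.ok.SR, ← e]
    exact hu.2)
  rw [hy.ok.SR] at h1
  rw [d1.unique d2, e]
  exact h1.trans_ne (mul_ne_zero ρ0.ne' (trv N hz sl hθ e))

theorem uq (sid : SSID) (sl : Slp c S S') (bl : Blk c S S') {θ t t' : ℝ} (hθ : sin θ ≠ 0)
    (h : g c S S' z (θ, t) = 0) (h' : g c S S' z (θ, t') = 0) : t = t' := by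
  have hy := N.ok.y.hd
  have e := cross N hz sid sl bl h
  have e' := cross N hz sid sl bl h'
  generalize ⟪(c.φ z).2, Y.lg ((c.φ z).1, (Y.m.Z t (σ c S z θ)).1)⟫ = s at e
  generalize ⟪(c.φ z).2, Y.lg ((c.φ z).1, (Y.m.Z t' (σ c S z θ)).1)⟫ = s' at e'
  have h1 := D3WI.lg_geo hy.ok hy.jac hy.had (σ c S z θ) t t'
  rw [e', e, D3WI.lg_geo hy.ok hy.jac hy.had] at h1
  have h2 := congrArg (fun v => ⟪S'.n (Y.m.Z s (c.φ z)), v⟫) h1
  have e0 : ⟪S'.n (Y.m.Z s (c.φ z)), (Y.m.Z s (c.φ z)).2⟫ = 0 := by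
    rw [real_inner_comm]; exact cr_right _ _
  simp only [inner_smul_right, e0, mul_zero] at h2
  have := (mul_eq_zero.1 h2.symm).resolve_right (trv N hz sl hθ e)
  linarith

theorem dθ (nf : SNF) (sid : SSID) (sl : Slp c S S') (bl : Blk c S S') (t : ℝ) :
    g c S S' z (0, t) = 0 ∧ ∃ ρ : ℝ, 0 < ρ ∧
      HasDerivAt (fun θ => g c S S' z (θ, t)) (ρ * A c S S' z t) 0 := by
  have hy := N.ok.y.hd
  obtain ⟨h0, ρ, ρ0, hρ⟩ := (sid _ _ hy S' N.s' _ (φ_H N hz sl)).2 t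
  have e0 : σ c S z 0 = c.φ z := by rw [σ, p_zero]
  refine ⟨by rw [g, e0]; exact h0, ρ, ρ0, ?_⟩
  have d1 := ((D3WI.Z_diff hy.ok t (σ c S z 0)).hasFDerivAt.comp_hasDerivAt 0
    (σ_der N hz 0)).fst
  have d2 := ((G_c1 N.ok.y S' (c.φ z)).differentiable one_ne_zero
    _).hasFDerivAt.comp_hasDerivAt 0 d1
  refine d2.congr_deriv ?_
  have T := ξ_tan N hz bl 0
  have h1 := ((nf _ _ hy S' N.s' _ (σ_H N hz sl 0) (ξ c S z 0)).2.2 t).1
  rw [T.1, T.2.1, mul_zero, add_zero, e0] at h1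
  simp only [Function.comp_apply, e0]
  refine (hρ _ h1).trans ?_
  rw [ξ, p_zero]
  rfl

theorem ex (nf : SNF) (sid : SSID) (sl : Slp c S S') (bl : Blk c S S') {τ : V × V → ℝ} {M : ℝ}
    (f : Fo1 c S S' τ M) : ∃ θ ∈ Ioo 0 π, ∃ t, g c S S' z (θ, t) = 0 := by
  have hy := N.ok.y.hd
  have dA : HasDerivAt (A c S S' z) (A' c S S' z (τ z)) (τ z) :=
    ((nf _ _ hy S' N.s' _ (φ_H N hz sl) _).2.1 (τ z)).1
  have d0 : A' c S S' z (τ z) ≠ 0 := abs_pos.1 (f.min z hz 0).1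
  obtain ⟨r1, r2⟩ := sgn dA ((f.zero z hz _).2 rfl) (mul_self_pos.2 d0)
  generalize A' c S S' z (τ z) = d at r1 r2
  obtain ⟨t1, a1⟩ := r1.exists
  obtain ⟨t2, a2⟩ := r2.exists
  obtain ⟨z1, ρ1, p1, b1⟩ := dθ N hz nf sid sl bl t1
  obtain ⟨z2, ρ2, p2, b2⟩ := dθ N hz nf sid sl bl t2
  have c1 := (sgn (e := d) b1 z1 (by nlinarith [mul_pos p1 a1])).1
  have c2 := (sgn (e := -d) b2 z2 (by nlinarith [mul_pos p2 (neg_pos.2 a2)])).1
  obtain ⟨θ, ⟨k1, k2⟩, k3⟩ := ((c1.and c2).and (Ioo_mem_nhdsGT pi_pos)).exists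
  have hc : Continuous fun t => d * g c S S' z (θ, t) :=
    continuous_const.mul ((g_c1 N hz).continuous.comp (continuous_const.prodMk continuous_id))
  obtain ⟨t, ht⟩ := mem_range_of_exists_le_of_exists_ge (c := 0) hc ⟨t2, by linarith⟩ ⟨t1, k1.le⟩
  refine ⟨θ, k3, t, (mul_eq_zero.1 ht).resolve_left fun h => ?_⟩
  rw [h, zero_mul] at k1
  exact lt_irrefl _ k1

end RFB

open RFB

theorem rFB : R_FB := by
  intro crs nf sid ang X Y c S S' ε τ₀ ε' τ' D N sl bl τ M f1 f2 z hz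
  have sp {θ : ℝ} (h : θ ∈ Ioo 0 π) : 0 < sin θ := sin_pos_of_pos_of_lt_pi h.1 h.2
  obtain ⟨T, hT⟩ := crs (g c S S' z) 0 π (g_c1 N hz)
    (fun θ h t e => dt N hz sid sl bl (sp h).ne' e)
    (fun θ h t t' e e' => uq N hz sid sl bl (sp h).ne' e e')
    (fun θ h => ⟨D / (sin θ / 2), by
      filter_upwards [continuous_sin.continuousAt.eventually_const_lt (half_lt_self (sp h))]
        with θ' h' t e
      have h1 := bd N hz (cross N hz sid sl bl e)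
      rw [le_div_iff₀ (half_pos (sp h))]
      exact (mul_le_mul_of_nonneg_left (h'.le.trans (le_abs_self _)) (abs_nonneg t)).trans h1⟩)
    (ex N hz nf sid sl bl f1)
  refine ang _ _ N.ok.y.hd S' N.s' (σ c S z) (ξ c S z) (c.φ z) T
    (fun θ => ⟪(c.φ z).2, Y.lg ((c.φ z).1, (Y.m.Z (T θ) (σ c S z θ)).1)⟫)
    (fun θ => |A' c S S' (p S z θ) (τ (p S z θ))|) 0 π pi_pos (φ_H N hz sl) (σ_c1 N hz)
    (f2.cm.comp (p_c1 S z).continuous.continuousOn fun θ _ => p_H N.s.o1 hz θ) fun θ h => ?_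
  have e := cross N hz sid sl bl (hT θ h).1
  refine ⟨σ_H N hz sl θ, σ_der N hz θ, ξ_tan N hz bl θ, (hT θ h).2, ?_, e,
    trv N hz sl (sp h).ne' e, (f1.min _ (p_H N.s.o1 hz θ) 0).1,
    fun t => (f1.min _ (p_H N.s.o1 hz θ) t).2⟩
  have d1 := ((Z_c1 N hz).differentiable one_ne_zero (θ, T θ)).comp θ
    (differentiableAt_id.prodMk (hT θ h).2)
  exact (differentiableAt_const _).inner ℝ
    ((N.ok.y.hd.had.c1.differentiable one_ne_zero _).comp θ ((differentiableAt_const _).prodMk d1))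

end

end Pool.Agent.MP_3ee8cb_gt.D3RH
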