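import Pool.Agent.MP_3ee8cb_gt.D3RH.Kit

/-! The exponential map of a flat space is an isometry. -/

namespace Pool.Agent.MP_3ee8cb_gt.D3RH

open Set D3 D3RK
open scoped RealInnerProductSpace

namespace RFL0

variable {m : MF}

theorem K0 (op : SOP) (hj : m.Jac) (hf : Flat m) (y a b c : V) : m.K y a b c = 0 := by
  obtain ⟨B, hs, hB⟩ := op m hj y
  have q : ∀ e, ⟪B e, e⟫ = 0 := fun e => by
    obtain ⟨u, hu, he⟩ := ex_perp e
    have e1 : cr u (cr e u) = e := by
      rw [cr_cr, real_inner_self_eq_norm_sq, hu, real_inner_comm, he]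
      simp
    have h := hf y u (cr e u)
    rw [hB, cr_comm (cr e u), e1, inner_neg_right] at h
    exact neg_eq_zero.1 h
  have p : ∀ e e', ⟪B e, e'⟫ = 0 := fun e e' => by
    have h := q (e + e')
    rw [map_add, inner_add_left, inner_add_right, inner_add_right, q, q, hs e' e,
      real_inner_comm (B e) e'] at h
    linarith
  exact inner_self_eq_zero.1 ((hB a b c _).trans (p _ _))

theorem nJ (jt : SJT) (ho : m.OK) (hj : m.Jac) (h0 : ∀ y a b c, m.K y a b c = 0) (z : V × V)
    (e : V) (t : ℝ) : ‖m.J z (0, e) t‖ = |t| * ‖e‖ := by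
  obtain ⟨O, o0, -, o1⟩ := hj.par z
  have h := jt m ho hj z (0, e) (fun s => O s e) (fun _ => 0) (fun s => s) (fun _ => 1) (o1 e)
    (fun s => by rw [h0, neg_zero, zero_smul])
    (fun s => ⟨hasDerivAt_id s, by rw [zero_mul]; exact hasDerivAt_const s 1⟩)
    (by simp [MF.hor]) (by simp [MF.ver, o0]) t
  rw [h.1, norm_smul, LinearIsometryEquiv.norm_map, Real.norm_eq_abs]

end RFL0

theorem rFL0 : R_FL0 := by
  intro op jt ln pl m lg H hf
  have nj := RFL0.nJ jt H.ok H.jac (RFL0.K0 op H.jac hf)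
  refine ⟨fun w hw => pl m lg H w.1 w.2 hw fun v _ t => (nj _ _ t).le, fun o a b => ?_⟩
  refine le_antisymm ?_ (H.had.hinge o a b)
  have d : ∀ s : ℝ, HasDerivAt (fun r : ℝ => (m.Z 1 (o, a + r • (b - a))).1)
      (fderiv ℝ (m.Z 1) (o, a + s • (b - a)) (0, b - a)).1 s := fun s => by
    have l : HasDerivAt (fun r : ℝ => (o, a + r • (b - a))) (0, b - a) s := by
      simpa using (hasDerivAt_const s o).prodMk
        (((hasDerivAt_id s).smul_const (b - a)).const_add a)
    exact (ContinuousLinearMap.fst ℝ V V).hasFDerivAt.comp_hasDerivAt s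
      ((D3WI.Z_diff H.ok 1 _).hasFDerivAt.comp_hasDerivAt s l)
  have h := ln m lg H _ _ ‖a - b‖ (fun s _ => (d s).continuousAt.continuousWithinAt)
    fun s _ => ⟨d s, by
      have := nj (o, a + s • (b - a)) (b - a) 1
      rw [abs_one, one_mul, norm_sub_rev] at this
      exact this.le⟩
  simpa using h

end Pool.Agent.MP_3ee8cb_gt.D3RH
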