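import Pool.Agent.MP_3ee8cb_gt.D3RH.Kit
import Pool.Agent.MP_3ee8cb_gt.D3WI.Base

/-! The flat case. -/

namespace Pool.Agent.MP_3ee8cb_gt.D3RH

open Set D3 D3RK
open scoped RealInnerProductSpace

namespace RFLT

theorem chart (h : SFL0) {m : MF} {lg : V × V → V} (hd : Hd m lg) (f : Flat m) :
    ∃ e : V ≃ V, ∀ x y, ‖lg (x, y)‖ = ‖e x - e y‖ := by
  refine ⟨⟨fun y => lg (0, y), fun a => (m.Z 1 (0, a)).1, hd.had.ex 0, hd.had.xe 0⟩,
    fun x y => ?_⟩
  have := (h m lg hd f).2 0 (lg (0, x)) (lg (0, y))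
  rwa [hd.had.ex, hd.had.ex] at this

theorem hom (Γ : Type) [Group Γ] [MulAction Γ V] (e : V ≃ V)
    (h : ∀ (γ : Γ) x y, ‖e (γ • x) - e (γ • y)‖ = ‖e x - e y‖) :
    ∃ α : Γ →* (V ≃ᵢ V), ∀ γ x, α γ (e x) = e (γ • x) := by
  let a : Γ → V ≃ᵢ V := fun γ =>
    ⟨(e.symm.trans (MulAction.toPerm γ)).trans e, Isometry.of_dist_eq fun x y => by
      have := h γ (e.symm x) (e.symm y)
      rw [e.apply_symm_apply, e.apply_symm_apply] at this
      rw [dist_eq_norm, dist_eq_norm]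
      exact this⟩
  have ha : ∀ γ x, a γ x = e (γ • e.symm x) := fun _ _ => rfl
  refine ⟨MonoidHom.mk' a fun γ δ => IsometryEquiv.ext fun x => ?_, fun γ x => ?_⟩
  · rw [IsometryEquiv.mul_apply, ha, ha, ha, e.symm_apply_apply, mul_smul]
  · rw [MonoidHom.mk'_apply, ha, e.symm_apply_apply]

theorem line {l : ℝ → V} (h : ∀ s t, ‖l s - l t‖ = |s - t|) :
    ∃ b, ‖b‖ = 1 ∧ ∀ t : ℝ, l t = t • b + l 0 := by
  have i : Isometry l := Isometry.of_dist_eq fun s t => by rw [dist_eq_norm, h, Real.dist_eq]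
  let f := i.affineIsometryOfStrictConvexSpace
  refine ⟨f.linearIsometry 1, by rw [LinearIsometry.norm_map, norm_one], fun t => ?_⟩
  have := f.map_vadd 0 t
  rw [vadd_eq_add, add_zero, vadd_eq_add] at this
  rw [← map_smul, smul_eq_mul, mul_one]
  exact this

end RFLT

theorem rFLT : R_FLT := by
  intro lga geo di fl0 euc X Y c ok fX fY
  obtain ⟨e, he⟩ := RFLT.chart fl0 ok.x.hd fX
  obtain ⟨e', he'⟩ := RFLT.chart fl0 ok.y.hd fY
  obtain ⟨α, hα⟩ := RFLT.hom X.G e fun γ x y => by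
    rw [← he, ← he, lga X.m X.lg X.G X.O ok.x.hd ok.x.act, LinearIsometryEquiv.norm_map]
  obtain ⟨β, hβ⟩ := RFLT.hom Y.G e' fun γ x y => by
    rw [← he', ← he', lga Y.m Y.lg Y.G Y.O ok.y.hd ok.y.act, LinearIsometryEquiv.norm_map]
  obtain ⟨D, hD⟩ := di X Y c ok
  obtain ⟨a₀, ha₀, -⟩ := ex_perp 0
  have dd : ∀ z w : V × V, ‖z.2‖ = 1 → ‖w.2‖ = 1 →
      ‖e' (c.φ z).1 - e' (c.φ w).1‖ ≤ ‖e z.1 - e w.1‖ + D := fun z w hz hw => by
    rw [← he, ← he']
    exact hD z hz w hw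
  have same : ∀ z w : V × V, ‖z.2‖ = 1 → ‖w.2‖ = 1 → z.1 = w.1 →
      ‖e' (c.φ z).1 - e' (c.φ w).1‖ ≤ D := fun z w hz hw q => by
    have := dd z w hz hw
    rwa [q, sub_self (e w.1), norm_zero, zero_add] at this
  have D0 : 0 ≤ D := (norm_nonneg _).trans (same (0, a₀) (0, a₀) ha₀ ha₀ rfl)
  obtain ⟨I, hI⟩ := euc X.G α (β.comp c.ρ.toMonoidHom) (fun a => e' (c.φ (e.symm a, a₀)).1)
    (2 * D) (fun x a ha => by
      obtain ⟨u, hu, hc⟩ := (geo X.m X.lg ok.x.hd).1 (fun t => e.symm (x + t • a)) fun s t => by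
        rw [he, e.apply_symm_apply, e.apply_symm_apply, add_sub_add_left_eq_sub, ← sub_smul,
          norm_smul, ha, mul_one, Real.norm_eq_abs]
      have u0 : u.2 ≠ 0 := D3WI.ne_of_norm hu
      obtain ⟨b, hb, hl⟩ := RFLT.line (l := fun t => e' (Y.m.Z t (c.φ u)).1) fun s t => by
        rw [← he', D3WI.dist_geo ok.y.hd.ok ok.y.hd.jac ok.y.hd.had, ok.h.norm u u0, hu, mul_one,
          abs_sub_comm]
      refine ⟨b, hb, fun t => ?_⟩
      have p : ∀ t : ℝ, ‖e' (c.φ (e.symm (x + t • a), a₀)).1 - e' (Y.m.Z t (c.φ u)).1‖ ≤ D :=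
        fun t => by
          rw [← ok.h.flow t u u0]
          exact same _ _ ha₀ ((ok.x.hd.jac.norm t u).trans hu) (hc t)
      have p0 := p 0
      have pt := p t
      rw [zero_smul, add_zero] at p0
      rw [hl t] at pt
      have := norm_sub_le _ _ |>.trans (add_le_add pt p0)
      rw [two_mul]
      refine le_trans (le_of_eq ?_) this
      congr 1
      abel)
    (fun x y => by
      have := dd (e.symm x, a₀) (e.symm y, a₀) ha₀ ha₀
      rw [e.apply_symm_apply, e.apply_symm_apply] at this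
      linarith)
    (fun γ x => by
      obtain ⟨y, rfl⟩ := e.surjective x
      have q := ok.eq γ (y, a₀) (D3WI.ne_of_norm ha₀)
      have := same (γ • y, a₀) (γ • y, X.O γ y a₀) ha₀
        ((LinearIsometryEquiv.norm_map _ _).trans ha₀) rfl
      rw [q] at this
      simp only [hα, e.symm_apply_apply, MonoidHom.comp_apply, MulEquiv.coe_toMonoidHom, hβ]
      linarith)
  refine ⟨fun x => e'.symm (I (e x)), e'.symm.bijective.comp (I.bijective.comp e.bijective),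
    fun x y => ?_, fun γ x => ?_⟩
  · rw [he, he', e'.apply_symm_apply, e'.apply_symm_apply, ← dist_eq_norm, ← dist_eq_norm,
      I.dist_eq]
  · have := hβ (c.ρ γ) (e'.symm (I (e x)))
    rw [e'.apply_symm_apply] at this
    simp only
    rw [← hα, hI, e'.symm_apply_eq, ← this]
    rfl

end Pool.Agent.MP_3ee8cb_gt.D3RH
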