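import Pool.Agent.MP_3ee8cb_gt.D3RH.Kit
import Pool.Agent.MP_3ee8cb_gt.D3LN.Al

/-! Row FO1: the focal time along orbits. -/

namespace Pool.Agent.MP_3ee8cb_gt.D3RH

open Set Filter Topology D3 D3RK
open scoped RealInnerProductSpace

noncomputable section

namespace RFO1

variable {m m' : MF} {φ : V × V → V × V}

theorem dφ (hc : CH m m' φ) {z : V × V} (hz : z.2 ≠ 0) : DifferentiableAt ℝ φ z :=
  (hc.c1.contDiffAt ((isOpen_ne_fun continuous_snd continuous_const).mem_nhds hz)).differentiableAt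
    one_ne_zero

theorem comm (h : m.OK) (hj : m.Jac) (h' : m'.OK) (hc : CH m m' φ) {z : V × V} (hz : z.2 ≠ 0)
    (t : ℝ) (ξ : V × V) : fderiv ℝ (m'.Z t) (φ z) (fderiv ℝ φ z ξ) =
      fderiv ℝ φ (m.Z t z) (fderiv ℝ (m.Z t) z ξ) := by
  have h1 : (m.Z t z).2 ≠ 0 := norm_ne_zero_iff.1 (by rw [hj.norm]; exact norm_ne_zero_iff.2 hz)
  have e : m'.Z t ∘ φ =ᶠ[𝓝 z] φ ∘ m.Z t :=
    mem_of_superset ((isOpen_ne_fun continuous_snd continuous_const).mem_nhds hz) fun y hy =>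
      (hc.flow t y hy).symm
  have := e.fderiv_eq (𝕜 := ℝ)
  rw [fderiv_comp _ (Dia.dZ h' t _) (dφ hc hz), fderiv_comp _ (dφ hc h1) (Dia.dZ h t _)] at this
  exact DFunLike.congr_fun this ξ

theorem mk0 (z : V × V) (n : V) : LN.mk m z (0, n) = (0, n) := by simp [LN.mk]

theorem hor0 (z : V × V) (n : V) : m.hor z (0, n) = 0 := by simp [MF.hor]

theorem ver0 (z : V × V) (n : V) : m.ver z (0, n) = n := by simp [MF.ver]

theorem shift {k k₁ j j' : ℝ → ℝ} (h : So k₁ j j') (s : ℝ) (e : ∀ t, k₁ (t - s) = k t) :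
    So k (fun t => j (t - s)) fun t => j' (t - s) := fun t =>
  ⟨(h (t - s)).1.comp_sub_const t s, by rw [← e]; exact (h (t - s)).2.comp_sub_const t s⟩

variable {X Y : Sd} {c : Cj X Y} {S S' : Sp}

/-- The normal part of the horizontal component. -/
def fa (c : Cj X Y) (S' : Sp) (z ξ : V × V) : ℝ :=
  ⟪S'.n (c.φ z), Y.m.hor (c.φ z) (fderiv ℝ c.φ z ξ)⟫

/-- The normal part of the vertical component. -/
def fb (c : Cj X Y) (S' : Sp) (z ξ : V × V) : ℝ :=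
  ⟪S'.n (c.φ z), Y.m.ver (c.φ z) (fderiv ℝ c.φ z ξ)⟫

theorem ne0 {z : V × V} (hz : z ∈ S.H) : z.2 ≠ 0 := D3WI.ne_of_norm hz.1

theorem img (h : c.OK) (hs : Slp c S S') {z : V × V} (hz : z ∈ S.H) : c.φ z ∈ S'.H :=
  ⟨(h.h.norm z (ne0 hz)).trans hz.1, (hs.sl z hz.1).trans hz.2⟩

theorem JJ (h : c.OK) {z : V × V} (hz : z.2 ≠ 0) (ξ : V × V) (t : ℝ) :
    ⟪S'.n (Y.m.Z t (c.φ z)), Y.m.J (c.φ z) (fderiv ℝ c.φ z ξ) t⟫ =
      fa c S' (X.m.Z t z) (fderiv ℝ (X.m.Z t) z ξ) ∧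
    ⟪S'.n (Y.m.Z t (c.φ z)), Y.m.J' (c.φ z) (fderiv ℝ c.φ z ξ) t⟫ =
      fb c S' (X.m.Z t z) (fderiv ℝ (X.m.Z t) z ξ) := by
  rw [MF.J, MF.J', comm h.x.hd.ok h.x.hd.jac h.y.hd.ok h.h hz, ← h.h.flow t z hz]
  exact ⟨rfl, rfl⟩

theorem bd (h : c.OK) (o' : S'.OK1 Y.m Y.lg) (hs : Slp c S S') {C : ℝ}
    (hC : ∀ z ∈ U, ∀ ξ, ‖Y.m.hor (c.φ z) (fderiv ℝ c.φ z ξ)‖ +
      ‖Y.m.ver (c.φ z) (fderiv ℝ c.φ z ξ)‖ ≤ C * (‖X.m.hor z ξ‖ + ‖X.m.ver z ξ‖))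
    {z : V × V} (hz : z ∈ S.H) (ξ : V × V) (e : ‖X.m.hor z ξ‖ + ‖X.m.ver z ξ‖ = 1) :
    |fa c S' z ξ| ≤ C ∧ |fb c S' z ξ| ≤ C := by
  have h1 := hC z hz.1 ξ
  have h2 := abs_real_inner_le_norm (S'.n (c.φ z)) (Y.m.hor (c.φ z) (fderiv ℝ c.φ z ξ))
  have h3 := abs_real_inner_le_norm (S'.n (c.φ z)) (Y.m.ver (c.φ z) (fderiv ℝ c.φ z ξ))
  rw [n_unit o' (img h hs hz), one_mul] at h2 h3
  rw [e, mul_one] at h1
  exact ⟨h2.trans ((le_add_of_nonneg_right (norm_nonneg _)).trans h1),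
    h3.trans ((le_add_of_nonneg_left (norm_nonneg _)).trans h1)⟩

theorem ck (ho : m.OK) (h3 : S.OK3 m) (z : V × V) : Continuous fun t => S.k (m.Z t z).1 :=
  h3.ck.comp (continuous_iff_continuousAt.2 fun t => (d_foot ho z t).continuousAt)

theorem orb (h2 : SJT) (h3 : SNF) (h : c.OK) (o : S.OK X.m X.lg) (o' : S'.OK Y.m Y.lg)
    (hs : Slp c S S') (hd : Det c S S') {C : ℝ}
    (hC : ∀ z ∈ U, ∀ ξ, ‖Y.m.hor (c.φ z) (fderiv ℝ c.φ z ξ)‖ +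
      ‖Y.m.ver (c.φ z) (fderiv ℝ c.φ z ξ)‖ ≤ C * (‖X.m.hor z ξ‖ + ‖X.m.ver z ξ‖))
    {z : V × V} (hz : z ∈ S.H) :
    Or1 C (fun t => S.k (X.m.Z t z).1) (fun t => S'.k (Y.m.Z t (c.φ z)).1)
      (fun t => fa c S' (X.m.Z t z) (LN.mk X.m (X.m.Z t z) (S.n (X.m.Z t z), 0)))
      (fun t => fa c S' (X.m.Z t z) (0, S.n (X.m.Z t z)))
      (fun t => fb c S' (X.m.Z t z) (LN.mk X.m (X.m.Z t z) (S.n (X.m.Z t z), 0)))
      (fun t => fb c S' (X.m.Z t z) (0, S.n (X.m.Z t z))) := by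
  have ho := h.x.hd.ok
  have zt := H_fl h.x.hd.jac o.o1 hz
  refine ⟨ck ho o.o3 z, ck h.y.hd.ok o'.o3 _, fun t => o.o3.k0 _, fun t => o'.o3.k0 _,
    fun j j' hj => ?_, fun t => ?_, fun t => ?_⟩
  · have e1 := h2 X.m ho h.x.hd.jac z (LN.mk X.m z (j 0 • S.n z, j' 0 • S.n z))
      (fun t => S.n (X.m.Z t z)) _ j j' (d_n ho o.o2 z) (fun t => K_n o.o1 o.o3 (zt t)) hj
      (by rw [LN.hor_mk ho, ho.zero]) (by rw [LN.ver_mk, ho.zero])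
    have e2 : ∀ t, fderiv ℝ (X.m.Z t) z (LN.mk X.m z (j 0 • S.n z, j' 0 • S.n z)) =
        j t • LN.mk X.m (X.m.Z t z) (S.n (X.m.Z t z), 0) + j' t • (0, S.n (X.m.Z t z)) :=
      fun t => by
      have e3 := e1 t
      rw [MF.J, MF.J'] at e3
      rw [← LN.mk_hv ho (X.m.Z t z) (fderiv ℝ (X.m.Z t) z _), e3.1, e3.2,
        ← mk0 (m := X.m) (X.m.Z t z), ← map_smul, ← map_smul, ← map_add]
      simp
    have e4 := (h3 Y.m Y.lg h.y.hd S' o' _ (img h hs hz)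
      (fderiv ℝ c.φ z (LN.mk X.m z (j 0 • S.n z, j' 0 • S.n z)))).2.1
    simp only [(JJ h (ne0 hz) _ _).1, (JJ h (ne0 hz) _ _).2, e2] at e4
    simp only [fa, fb, map_add, map_smul, inner_add_right, inner_smul_right] at e4 ⊢
    simpa only [mul_comm] using e4
  · have e := hd _ (zt t) (LN.mk X.m (X.m.Z t z) (S.n (X.m.Z t z), 0)) (0, S.n (X.m.Z t z))
      ⟨by rw [LN.hor_mk ho]; exact cr_left _ _, by rw [LN.ver_mk, inner_zero_right],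
        by rw [LN.ver_mk, inner_zero_right]⟩
      ⟨by rw [hor0, inner_zero_right], by rw [ver0]; exact cr_left _ _,
        by rw [ver0]; exact cr_right _ _⟩
    rw [LN.hor_mk ho, LN.ver_mk, hor0, ver0, inner_zero_right, real_inner_self_eq_norm_sq,
      n_unit o.o1 (zt t)] at e
    simp only [fa, fb]
    linarith
  · have e1 := bd h o'.o1 hs hC (zt t) (LN.mk X.m (X.m.Z t z) (S.n (X.m.Z t z), 0))
      (by rw [LN.hor_mk ho, LN.ver_mk, n_unit o.o1 (zt t), norm_zero, add_zero])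
    have e2 := bd h o'.o1 hs hC (zt t) (0, S.n (X.m.Z t z))
      (by rw [hor0, ver0, n_unit o.o1 (zt t), norm_zero, zero_add])
    exact ⟨e1.1, e2.1, e1.2, e2.2⟩

theorem two (h3 : SNF) (h : c.OK) (o : S.OK X.m X.lg) (o' : S'.OK Y.m Y.lg) (hs : Slp c S S')
    {z : V × V} (hz : z ∈ S.H) (s : ℝ) :
    So (fun t => S'.k (Y.m.Z t (c.φ z)).1) (fun t => A c S S' (X.m.Z s z) (t - s))
      (fun t => A' c S S' (X.m.Z s z) (t - s)) ∧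
    A c S S' (X.m.Z s z) (s - s) = fa c S' (X.m.Z s z) (0, S.n (X.m.Z s z)) ∧
    A' c S S' (X.m.Z s z) (s - s) = fb c S' (X.m.Z s z) (0, S.n (X.m.Z s z)) := by
  have zs := H_fl h.x.hd.jac o.o1 hz s
  refine ⟨shift (h3 Y.m Y.lg h.y.hd S' o' _ (img h hs zs)
    (fderiv ℝ c.φ (X.m.Z s z) (0, S.n (X.m.Z s z)))).2.1 s fun t => ?_, ?_, ?_⟩
  · rw [h.h.flow s z (ne0 hz), ← h.y.hd.ok.add, sub_add_cancel]
  · rw [sub_self, A, D3WI.J_zero h.y.hd.ok, h.y.hd.ok.zero, fa]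
  · rw [sub_self, A', D3WI.J'_zero h.y.hd.ok, h.y.hd.ok.zero, fb]

end RFO1

open RFO1 in
theorem rFO1 : R_FO1 := by
  intro _ h2 h3 h4 X Y c S S' ε τ₀ ε' τ₀' D h hs _ hd
  obtain ⟨C, hC⟩ := h.ok.h.bdd
  obtain ⟨T, hT⟩ := h4 C
  have key := fun z (hz : z ∈ S.H) => hT _ _ _ _ _ _ (orb h2 h3 h.ok h.s h.s' hs hd hC hz)
    (fun s t => A c S S' (X.m.Z s z) (t - s)) (fun s t => A' c S S' (X.m.Z s z) (t - s))
    (two h3 h.ok h.s h.s' hs hz)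
  choose! τ hτ using key
  have z0 := fun z hz => hτ z hz 0
  simp only [h.ok.x.hd.ok.zero, sub_zero] at z0
  refine ⟨fun z => τ z 0, T, fun z hz => (z0 z hz).1, fun z hz => (z0 z hz).2.1,
    fun z hz => (z0 z hz).2.2.1, fun z hz s => ?_⟩
  have e : ∀ r, τ (X.m.Z r z) 0 = τ z r - r := fun r =>
    (((z0 _ (H_fl h.ok.x.hd.jac h.s.o1 hz r)).2.1 _).1 (((hτ z hz r).2.1 _).2 rfl)).symm
  simp only [e, ← abs_inv, sq_abs]
  exact (hτ z hz s).2.2.2.sub (hasDerivAt_id' s)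

end

end Pool.Agent.MP_3ee8cb_gt.D3RH
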