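import Pool.Agent.MP_3ee8cb_gt.D3RH.Kit

/-! If no geodesic has rank one then some geodesic has a parallel through every point. -/

namespace Pool.Agent.MP_3ee8cb_gt.D3RH

open Set Filter Topology D3 D3RK
open scoped RealInnerProductSpace

namespace RFUL

variable {m : MF}

/-- `P` is a parallel field in the kernel of the curvature. -/
def Pk (m : MF) (z : V × V) (P : ℝ → V) : Prop :=
  (∀ t, HasDerivAt P (-m.w z t (P t)) t) ∧
    ∀ t, m.K (m.Z t z).1 (P t) (m.Z t z).2 (m.Z t z).2 = 0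

theorem Pk.smul (hj : m.Jac) {z : V × V} {P : ℝ → V} (h : Pk m z P) (c : ℝ) :
    Pk m z fun t => c • P t := by
  refine ⟨fun t => ?_, fun t => ?_⟩
  · have := (h.1 t).const_smul c
    rwa [smul_neg, ← map_smul] at this
  · obtain ⟨L, hL⟩ := hj.lK (m.Z t z).1
    have := h.2 t
    rw [hL] at this ⊢
    rw [map_smul, ContinuousLinearMap.smul_apply, ContinuousLinearMap.smul_apply, this, smul_zero]

theorem Pk.norm (ho : m.OK) {z : V × V} {P : ℝ → V} (h : Pk m z P) (t : ℝ) : ‖P t‖ = ‖P 0‖ := by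
  have d : ∀ s, HasDerivAt (fun s => ⟪P s, P s⟫) 0 s := fun s => by
    have := (h.1 s).inner ℝ (h.1 s)
    rwa [inner_neg_left, inner_neg_right, MF.w, ho.skew, neg_neg, neg_add_cancel] at this
  have := is_const_of_deriv_eq_zero (fun s => (d s).differentiableAt) (fun s => (d s).deriv) t 0
  rw [real_inner_self_eq_norm_sq, real_inner_self_eq_norm_sq] at this
  exact (sq_eq_sq₀ (norm_nonneg _) (norm_nonneg _)).1 this

theorem par (ho : m.OK) (hj : m.Jac) {z : V × V} (hz : ‖z.2‖ = 1) (h : ¬Reg m z) :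
    ∃ P, Pk m z P ∧ P 0 ≠ 0 ∧ ⟪z.2, P 0⟫ = 0 := by
  obtain ⟨η, h1⟩ := not_forall.1 h
  obtain ⟨h1, h2⟩ := Classical.not_imp.1 h1
  have e0 : m.J z η 0 = m.hor z η := by
    have : m.Z 0 = id := funext ho.zero
    simp [MF.J, this]
  refine ⟨fun t => m.J z η t - ⟪z.2, m.hor z η⟫ • (m.Z t z).2, ⟨fun t => ?_, fun t => ?_⟩, ?_, ?_⟩
  · have := (hj.d1 z η t).sub ((d_vel ho z t).const_smul ⟪z.2, m.hor z η⟫)
    refine this.congr_deriv ?_
    rw [h1, map_sub, map_smul, smul_neg]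
    abel
  · have d := hj.d2 z η t
    rw [show m.J' z η = fun _ => 0 from funext h1] at d
    have k := d.unique (hasDerivAt_const t 0)
    rw [map_zero, sub_zero, neg_eq_zero] at k
    have a := hj.aK (m.Z t z).1 (m.Z t z).2 (m.Z t z).2 (m.Z t z).2
    have a0 : m.K (m.Z t z).1 (m.Z t z).2 (m.Z t z).2 (m.Z t z).2 = 0 := by
      have : (2 : ℝ) • m.K (m.Z t z).1 (m.Z t z).2 (m.Z t z).2 (m.Z t z).2 = 0 := by
        rw [two_smul]
        exact add_eq_zero_iff_eq_neg.2 a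
      simpa using this
    obtain ⟨L, hL⟩ := hj.lK (m.Z t z).1
    rw [hL] at k a0 ⊢
    rw [map_sub, map_smul, ContinuousLinearMap.sub_apply, ContinuousLinearMap.sub_apply,
      ContinuousLinearMap.smul_apply, ContinuousLinearMap.smul_apply, k, a0, smul_zero, sub_zero]
  · beta_reduce
    rw [e0, ho.zero]
    exact sub_ne_zero.2 h2
  · beta_reduce
    rw [e0, ho.zero, inner_sub_right, inner_smul_right, real_inner_self_eq_norm_sq, hz]
    ring

theorem bound (jt : SJT) (ho : m.OK) (hj : m.Jac) {y w v : V} {P : ℝ → V} (h : Pk m (y, w) P)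
    (e : P 0 = v) (t : ℝ) : ‖m.J (y, w) (0, v) t‖ ≤ |t| * ‖v‖ := by
  have := (jt m ho hj (y, w) (0, v) P (fun _ => 0) (fun t => t) (fun _ => 1) h.1
    (fun t => by rw [h.2, neg_zero, zero_smul])
    (fun t => ⟨hasDerivAt_id t, by simpa using hasDerivAt_const t (1 : ℝ)⟩)
    (by simp [MF.hor]) (by simp [MF.ver, e]) t).1
  rw [this, norm_smul, h.norm ho, e, Real.norm_eq_abs]

end RFUL

open RFUL in
theorem rFUL : R_FUL := by
  intro op rk jt pln m lg hd hs
  have ho := hd.ok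
  have hj := hd.jac
  by_cases fl : ∀ y a b c, m.K y a b c = 0
  · obtain ⟨z, hz, -⟩ := ex_perp 0
    refine ⟨(0, z), hz, pln m lg hd 0 z hz fun w _ t => ?_⟩
    obtain ⟨O, o0, -, od⟩ := hj.par (0, w)
    exact bound jt ho hj (P := fun s => O s (z - ⟪w, z⟫ • w)) ⟨od _, fun _ => fl _ _ _ _⟩ (o0 _) t
  · push Not at fl
    obtain ⟨y, a, b, c, hK⟩ := fl
    obtain ⟨B, sy, hB⟩ := op m hj y
    have ker : ∀ w : V, ‖w‖ = 1 → ∃ P, Pk m (y, w) P ∧ P 0 ≠ 0 ∧ ⟪w, P 0⟫ = 0 ∧
        ⟪B (cr w (P 0)), cr w (P 0)⟫ = 0 := fun w hw => by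
      obtain ⟨P, h1, h2, h3⟩ := par ho hj (z := (y, w)) hw (hs _ hw)
      refine ⟨P, h1, h2, h3, ?_⟩
      have k := h1.2 0
      rw [ho.zero] at k
      have := hB (P 0) w w (P 0)
      rw [show m.K y (P 0) w w = 0 from k, inner_zero_left, cr_comm (P 0), map_neg,
        inner_neg_left] at this
      linarith
    obtain ⟨z, k, hz, -, hk⟩ := rk B sy
      (fun n => by
        obtain ⟨u, hu, hn⟩ := ex_perp n
        have e : cr u (cr n u) = n := by
          rw [cr_cr, real_inner_self_eq_norm_sq, hu, real_inner_comm, hn]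
          simp
        have := hd.up y u (cr n u)
        rw [hB, cr_comm (cr n u) u, inner_neg_right, e] at this
        linarith)
      fun w hw => by
        obtain ⟨P, -, h2, h3, h4⟩ := ker w hw
        exact ⟨_, norm_ne_zero_iff.1 ((cr_norm hw h3).symm ▸ norm_ne_zero_iff.2 h2),
          cr_left _ _, h4⟩
    have k0 : k ≠ 0 := fun e => hK (by
      have := hB a b c (m.K y a b c)
      rw [hk, e, zero_mul, zero_smul, inner_zero_left] at this
      exact inner_self_eq_zero.1 this)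
    refine ⟨(y, z), hz, pln m lg hd y z hz fun w hw t => ?_⟩
    obtain ⟨P, h1, h2, h3, h4⟩ := ker w hw
    rw [hk, inner_smul_left, conj_trivial, mul_assoc] at h4
    have h5 : ⟪z, cr w (P 0)⟫ = 0 := mul_self_eq_zero.1 ((mul_eq_zero.1 h4).resolve_left k0)
    have x := expand hw (norm_smul_inv_norm (𝕜 := ℝ) h2)
      (by rw [inner_smul_right, h3, mul_zero]) z
    have h6 : ⟪cr w ((‖P 0‖⁻¹ : ℝ) • P 0), z⟫ = 0 := by
      rw [cr_smul_right, inner_smul_left, real_inner_comm, h5, mul_zero]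
    refine bound jt ho hj (h1.smul hj (⟪(‖P 0‖⁻¹ : ℝ) • P 0, z⟫ * ‖P 0‖⁻¹)) ?_ t
    rw [eq_sub_iff_add_eq', mul_smul]
    simp only [RCLike.ofReal_real_eq_id, id_eq] at x
    rw [h6, zero_smul, add_zero] at x
    exact x.symm

end Pool.Agent.MP_3ee8cb_gt.D3RH
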