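import Pool.Agent.MP_3ee8cb_gt.D3RH.Kit
import Pool.Agent.MP_3ee8cb_gt.D3OD.REX

/-! Jacobi fields along a parallel eigenfield. -/

namespace Pool.Agent.MP_3ee8cb_gt.D3RH

open Set D3

theorem rJT : SJT := by
  intro m ok jac z ξ P k j j' hP hK so h0 h1 t
  choose L hL using jac.lK
  have cz : Continuous fun s => m.Z s z :=
    continuous_iff_continuousAt.2 fun s => (ok.ode z s).continuousAt
  have cw : Continuous (m.w z) :=
    (ok.com.continuous.comp cz.fst).clm_apply ((ok.cR.continuous.comp cz.fst).clm_apply cz.snd)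
  let a : ℝ → V × V →L[ℝ] V × V := fun s =>
    (ContinuousLinearMap.snd ℝ V V - (m.w z s).comp (.fst ℝ V V)).prod
      (-(((L (m.Z s z).1).flip (m.Z s z).2).flip (m.Z s z).2).comp (.fst ℝ V V) -
        (m.w z s).comp (.snd ℝ V V))
  have ea : ∀ s p, a s p = (p.2 - m.w z s p.1,
      -m.K (m.Z s z).1 p.1 (m.Z s z).2 (m.Z s z).2 - m.w z s p.2) := fun s p => by
    rw [hL]
    rfl
  have ca : Continuous a := continuous_clm_apply.2 fun p => by
    simp only [ea]
    exact (continuous_const.sub (cw.clm_apply continuous_const)).prodMk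
      ((jac.cK.comp (cz.fst.prodMk (continuous_const.prodMk (cz.snd.prodMk cz.snd)))).neg.sub
        (cw.clm_apply continuous_const))
  have e := D3OD.REX.uq ca (p := -|t| - 1) (q := |t| + 1) (s := 0)
    ⟨by linarith [abs_nonneg t], by linarith [abs_nonneg t]⟩
    (y := fun s => (m.J z ξ s, m.J' z ξ s)) (z := fun s => (j s • P s, j' s • P s))
    (fun s _ => by
      rw [ea]
      exact (jac.d1 z ξ s).prodMk (jac.d2 z ξ s))
    (fun s _ => by
      rw [ea]
      refine (((so s).1.smul (hP s)).prodMk ((so s).2.smul (hP s))).congr_deriv (Prod.ext ?_ ?_)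
      · simp only [map_smul, smul_neg]
        abel
      · simp only [map_smul, smul_neg]
        rw [hL, map_smul, ContinuousLinearMap.smul_apply, ContinuousLinearMap.smul_apply, ← hL, hK,
          smul_smul, mul_neg, neg_smul, neg_neg, mul_comm]
        abel)
    (by
      have z0 : m.Z 0 = id := funext ok.zero
      simp only [MF.J, MF.J', z0, fderiv_id, id, ContinuousLinearMap.id_apply, h0, h1])
    (⟨by linarith [neg_abs_le t], by linarith [le_abs_self t]⟩ : t ∈ Ioo (-|t| - 1) (|t| + 1))
  exact ⟨congrArg Prod.fst e, congrArg Prod.snd e⟩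

end Pool.Agent.MP_3ee8cb_gt.D3RH
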