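import Pool.Agent.MP_3ee8cb_gt.D3RH.Kit
import Pool.Agent.MP_3ee8cb_gt.D3LN.Al

/-! The curvature is invariant under the group. -/

namespace Pool.Agent.MP_3ee8cb_gt.D3RH

open Set Filter Topology D3 D3RK
open scoped RealInnerProductSpace

namespace RKI

variable {m : MF} {Λ : Type} [Group Λ] [MulAction Λ V] {O : Λ → V → V ≃ₗᵢ[ℝ] V}

theorem chain (o : m.OK) (ha : Act m Λ O) (l : Λ) (t : ℝ) (w ξ : V × V) :
    fderiv ℝ (m.Z t) (l • w.1, O l w.1 w.2)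
      (fderiv ℝ (fun w : V × V => (l • w.1, O l w.1 w.2)) w ξ) =
    fderiv ℝ (fun w : V × V => (l • w.1, O l w.1 w.2)) (m.Z t w) (fderiv ℝ (m.Z t) w ξ) := by
  have dg := (ha.c1 l).differentiable one_ne_zero
  have d1 := (D3WI.Z_diff o t (l • w.1, O l w.1 w.2)).hasFDerivAt.comp w (dg w).hasFDerivAt
  have d2 := ((dg (m.Z t w)).hasFDerivAt.comp w
    (D3WI.Z_diff o t w).hasFDerivAt).congr_of_eventuallyEq
      (f₁ := m.Z t ∘ fun w : V × V => (l • w.1, O l w.1 w.2))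
      (Eventually.of_forall fun w => ha.flow l t w)
  exact DFunLike.congr_fun (d1.unique d2) ξ

theorem der (o : m.OK) (hj : m.Jac) (z ξ : V × V) :
    HasDerivAt (fun t => ⟪m.J z ξ t, m.J' z ξ t⟫)
      (⟪m.ver z ξ, m.ver z ξ⟫ - ⟪m.K z.1 (m.hor z ξ) z.2 z.2, m.hor z ξ⟫) 0 := by
  refine ((hj.d1 z ξ 0).inner ℝ (hj.d2 z ξ 0)).congr_deriv ?_
  rw [inner_sub_right, inner_sub_left, inner_neg_right, MF.w, o.skew,
    real_inner_comm (m.K _ _ _ _), D3WI.J_zero o, D3WI.J'_zero o, o.zero]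
  ring

end RKI

theorem rKI : SKI := by
  intro m lg Λ _ _ O h ha γ y a b
  have h1 := RKI.der h.ok h.jac (y, b) (LN.mk m (y, b) (a, 0))
  have h2 := RKI.der h.ok h.jac (γ • y, O γ y b)
    (fderiv ℝ (fun w : V × V => (γ • w.1, O γ w.1 w.2)) (y, b) (LN.mk m (y, b) (a, 0)))
  have e : (fun t => ⟪m.J (γ • y, O γ y b) (fderiv ℝ (fun w : V × V => (γ • w.1, O γ w.1 w.2))
      (y, b) (LN.mk m (y, b) (a, 0))) t, m.J' (γ • y, O γ y b)
      (fderiv ℝ (fun w : V × V => (γ • w.1, O γ w.1 w.2)) (y, b) (LN.mk m (y, b) (a, 0))) t⟫) =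
      fun t => ⟪m.J (y, b) (LN.mk m (y, b) (a, 0)) t, m.J' (y, b) (LN.mk m (y, b) (a, 0)) t⟫ := by
    funext t
    have c := RKI.chain h.ok ha γ t (y, b) (LN.mk m (y, b) (a, 0))
    have f := ha.flow γ t (y, b)
    simp only [] at c f
    rw [MF.J, MF.J', c, f, ha.hor, ha.ver, LinearIsometryEquiv.inner_map_map]
    rfl
  rw [e] at h2
  have h3 := h2.unique h1
  have e1 := ha.hor γ (y, b) (LN.mk m (y, b) (a, 0))
  have e2 := ha.ver γ (y, b) (LN.mk m (y, b) (a, 0))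
  simp only [] at e1 e2 h3
  rw [e1, e2, LN.hor_mk h.ok, LN.ver_mk, LinearIsometryEquiv.inner_map_map] at h3
  simp only [] at h3
  linarith

end Pool.Agent.MP_3ee8cb_gt.D3RH
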