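import Pool.Agent.MP_3ee8cb_gt.D3RH.Kit

/-! Row LEN: the distance is at most the length. -/

namespace Pool.Agent.MP_3ee8cb_gt.D3RH

open Set Pool.Agent.MP_3ee8cb_gt.D3 Pool.Agent.MP_3ee8cb_gt.D3WI Pool.Agent.MP_3ee8cb_gt.D3RK
open scoped RealInnerProductSpace

namespace RLEN

/-- A nonnegative function with `f' ≤ M √(2 f)` and `f 0 = 0` has `√(2 f 1) ≤ M`. -/
theorem grow (r f' : ℝ → ℝ) (M : ℝ) (h0 : r 0 = 0)
    (hc : ContinuousOn (fun s => r s ^ 2 / 2) (Icc 0 1))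
    (hd : ∀ s ∈ Ioo (0 : ℝ) 1, HasDerivAt (fun s => r s ^ 2 / 2) (f' s) s ∧ f' s ≤ r s * M)
    (hM : 0 ≤ M) : r 1 ≤ M := by
  refine le_of_forall_pos_le_add fun e he => ?_
  have hp : ∀ s, 0 < 2 * (r s ^ 2 / 2) + e ^ 2 := fun s => by positivity
  have hg : ∀ s ∈ Ioo (0 : ℝ) 1, HasDerivAt
      (fun s => √(2 * (r s ^ 2 / 2) + e ^ 2) - M * s)
      ((2 * f' s) / (2 * √(2 * (r s ^ 2 / 2) + e ^ 2)) - M * 1) s := fun s hs =>
    ((((hd s hs).1.const_mul 2).add_const (e ^ 2)).sqrt (hp s).ne').sub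
      ((hasDerivAt_id s).const_mul M)
  have ha : AntitoneOn (fun s => √(2 * (r s ^ 2 / 2) + e ^ 2) - M * s) (Icc 0 1) := by
    refine antitoneOn_of_deriv_nonpos (convex_Icc 0 1) ?_ ?_ ?_
    · exact (((hc.const_mul 2).add continuousOn_const).sqrt).sub (by fun_prop)
    · intro s hs
      rw [interior_Icc] at hs
      exact (hg s hs).differentiableAt.differentiableWithinAt
    · intro s hs
      rw [interior_Icc] at hs
      rw [(hg s hs).deriv]
      have hq : 0 < √(2 * (r s ^ 2 / 2) + e ^ 2) := Real.sqrt_pos.mpr (hp s)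
      have hle : r s ≤ √(2 * (r s ^ 2 / 2) + e ^ 2) :=
        Real.le_sqrt_of_sq_le (by nlinarith [sq_nonneg e])
      have h1 := (hd s hs).2
      have h2 := mul_le_mul_of_nonneg_right hle hM
      rw [sub_nonpos, div_le_iff₀ (by positivity)]
      nlinarith
  have h := ha (left_mem_Icc.mpr zero_le_one) (right_mem_Icc.mpr zero_le_one) zero_le_one
  simp only [h0] at h
  have e0 : √(2 * ((0 : ℝ) ^ 2 / 2) + e ^ 2) = e := by
    rw [show 2 * ((0 : ℝ) ^ 2 / 2) + e ^ 2 = e ^ 2 by ring, Real.sqrt_sq he.le]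
  have hle : r 1 ≤ √(2 * (r 1 ^ 2 / 2) + e ^ 2) :=
    Real.le_sqrt_of_sq_le (by nlinarith [sq_nonneg e])
  rw [e0] at h
  linarith

end RLEN

theorem rLEN : SLEN := by
  intro m lg H c c' M hc hd
  have hl := H.had
  have hM : 0 ≤ M := (norm_nonneg _).trans (hd (1 / 2) ⟨by norm_num, by norm_num⟩).2
  have hF : ContDiff ℝ 1 fun q => ‖lg q‖ ^ 2 / 2 := (hl.c1.norm_sq ℝ).div_const 2
  refine RLEN.grow (fun s => ‖lg (c 0, c s)‖)
    (fun s => fderiv ℝ (fun q => ‖lg q‖ ^ 2 / 2) (c 0, c s) (0, c' s)) M ?_ ?_ ?_ hM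
  · simp only [lg_self H.ok H.jac hl, norm_zero]
  · exact hF.continuous.comp_continuousOn (continuousOn_const.prodMk hc)
  · intro s hs
    refine ⟨?_, ?_⟩
    · exact ((hF.differentiable one_ne_zero) (c 0, c s)).hasFDerivAt.comp_hasDerivAt s
        ((hasDerivAt_const s (c 0)).prodMk (hd s hs).1)
    · rw [hl.grad]
      simp only [map_zero, inner_zero_right, neg_zero, zero_sub, Prod.swap_prod_mk]
      have h1 := abs_real_inner_le_norm (lg (c s, c 0)) (m.S (c s) (c' s))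
      have h2 := neg_abs_le ⟪lg (c s, c 0), m.S (c s) (c' s)⟫
      rw [lg_symm H.jac hl] at h1
      have h3 := mul_le_mul_of_nonneg_left (hd s hs).2 (norm_nonneg (lg (c 0, c s)))
      linarith

end Pool.Agent.MP_3ee8cb_gt.D3RH
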