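import Pool.Agent.MP_3ee8cb_gt.D3RH.Kit
import Pool.Agent.MP_3ee8cb_gt.D3RK.RPAR
import Pool.Agent.MP_3ee8cb_gt.CZE.End

/-! A distance preserving bijection of Hadamard spaces is a smooth isometry. -/

namespace Pool.Agent.MP_3ee8cb_gt.D3RH

open Set Filter Topology D3 D3RK D3WI
open scoped RealInnerProductSpace

namespace RMS

variable {m m' : MF} {lg lg' : V × V → V} {F : V → V}

theorem ray {u v : V} {t : ℝ} (ht : 0 ≤ t) (hu : ‖u‖ = t * ‖v‖)
    (h : ‖u - v‖ ≤ |1 - t| * ‖v‖) : u = t • v := by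
  have h1 := pow_le_pow_left₀ (norm_nonneg _) h 2
  rw [mul_pow, sq_abs, norm_sub_sq_real, hu] at h1
  have h2 : ‖u - t • v‖ ^ 2 ≤ 0 := by
    rw [norm_sub_sq_real, real_inner_smul_right, norm_smul, hu, Real.norm_of_nonneg ht]
    nlinarith [mul_le_mul_of_nonneg_left h1 ht]
  exact sub_eq_zero.1 (norm_eq_zero.1 (pow_eq_zero_iff two_ne_zero |>.1
    (le_antisymm h2 (sq_nonneg _))))

theorem lim (H : Hd m lg) (x a b : V) :
    HasDerivAt (fun t => lg ((m.Z t (x, a)).1, (m.Z t (x, b)).1)) (b - a) 0 := by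
  have d := (H.had.c1.differentiable one_ne_zero (x, x)).hasFDerivAt
  have h0 : ∀ u, fderiv ℝ lg (x, x) (u, u) = 0 := fun u => by
    have a1 := d.comp (f := fun y => (y, y)) x ((hasFDerivAt_id x).prodMk (hasFDerivAt_id x))
    have a2 := a1.unique ((hasFDerivAt_const (0 : V) x).congr_of_eventuallyEq
      (.of_forall fun y => lg_self H.ok H.jac H.had y))
    exact DFunLike.congr_fun a2 u
  have h1 : ∀ u, fderiv ℝ lg (x, x) (0, u) = m.S x u := fun u => by
    have a1 := d.comp x ((hasFDerivAt_const x x).prodMk (hasFDerivAt_id x))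
    exact DFunLike.congr_fun (a1.unique (RPAR.d_lg H x)) u
  have v : ∀ c : V, HasDerivAt (fun t => (m.Z t (x, c)).1) (m.R x c) 0 := fun c => by
    have : HasDerivAt (fun t => (m.Z t (x, c)).1) (m.vf (m.Z 0 (x, c))).1 0 :=
      (H.ok.ode (x, c) 0).fst
    rwa [H.ok.zero] at this
  refine (d.comp_hasDerivAt_of_eq 0 ((v a).prodMk (v b)) (by simp only [H.ok.zero])).congr_deriv ?_
  have e : (m.R x a, m.R x b) = (m.R x a, m.R x a) + (0, m.R x (b - a)) := by simp
  rw [e, map_add, h0, h1, H.ok.SR, zero_add]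

theorem nrm (H : Hd m lg) (hF : ∀ x y, ‖lg' (F x, F y)‖ = ‖lg (x, y)‖) (x a : V) (t : ℝ) :
    ‖lg' (F x, F (m.Z t (x, a)).1)‖ = |t| * ‖a‖ := by
  rw [hF, lg_ray H.jac H.had t (x, a), norm_smul, Real.norm_eq_abs]

/-- The induced map of tangent spaces does not increase distances. -/
theorem short (H : Hd m lg) (H' : Hd m' lg') (hF : ∀ x y, ‖lg' (F x, F y)‖ = ‖lg (x, y)‖)
    (x a b : V) : ‖lg' (F x, F (m.Z 1 (x, a)).1) - lg' (F x, F (m.Z 1 (x, b)).1)‖ ≤ ‖a - b‖ := by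
  have hom : ∀ (c : V) (t : ℝ), 0 ≤ t →
      lg' (F x, F (m.Z t (x, c)).1) = t • lg' (F x, F (m.Z 1 (x, c)).1) := fun c t ht => by
    have n1 := nrm H hF x c 1
    rw [abs_one, one_mul] at n1
    refine ray ht (by rw [nrm H hF, n1, abs_of_nonneg ht]) ((hinge' H'.had _ _ _).trans_eq ?_)
    rw [hF, dist_geo H.ok H.jac H.had, n1]
  rw [norm_sub_rev a]
  refine ge_of_tendsto (lim H x a b).tendsto_slope_zero_right.norm ?_
  filter_upwards [self_mem_nhdsWithin] with t ht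
  have h0 : 0 < t := ht
  have a1 := hinge' H'.had (F x) (F (m.Z t (x, a)).1) (F (m.Z t (x, b)).1)
  rw [hF, hom a t h0.le, hom b t h0.le, ← smul_sub, norm_smul, Real.norm_of_nonneg h0.le] at a1
  simp only [zero_add, H.ok.zero, lg_self H.ok H.jac H.had, sub_zero]
  rw [norm_smul, norm_inv, Real.norm_of_nonneg h0.le, le_inv_mul_iff₀ h0]
  exact a1

end RMS

theorem rMS : SMS := by
  intro m m' lg lg' F H H' hb hF
  obtain ⟨G, g1, g2⟩ := Function.bijective_iff_has_inverse.1 hb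
  have hG : ∀ x y, ‖lg (G x, G y)‖ = ‖lg' (x, y)‖ := fun x y => by rw [← hF, g2, g2]
  have key : ∀ x, ∃ A : V →L[ℝ] V, (∀ a b, ⟪A a, A b⟫ = ⟪a, b⟫) ∧
      ∀ y, F y = (m'.Z 1 (F x, A (lg (x, y)))).1 := fun x => by
    have i : ∀ a b, ⟪lg' (F x, F (m.Z 1 (x, a)).1), lg' (F x, F (m.Z 1 (x, b)).1)⟫ = ⟪a, b⟫ := by
      intro a b
      have a1 := RMS.short H H' hF x a b
      have a2 := RMS.short H' H hG (F x) (lg' (F x, F (m.Z 1 (x, a)).1))
        (lg' (F x, F (m.Z 1 (x, b)).1))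
      rw [H'.had.ex, H'.had.ex, g1, g1, g1, H.had.xe, H.had.xe] at a2
      have a3 := congrArg (· ^ 2) (le_antisymm a1 a2)
      simp only [norm_sub_sq_real, RMS.nrm H hF, abs_one, one_mul] at a3
      linarith
    obtain ⟨A, hA⟩ := En0.lin i
    exact ⟨A, fun a b => by rw [hA, hA, i], fun y => by rw [hA, H.had.ex, H'.had.ex]⟩
  refine ⟨?_, fun x u v => ?_⟩
  · obtain ⟨A, -, e⟩ := key 0
    rw [funext e]
    exact (En0.c_ex H'.ok _).comp
      (A.contDiff.comp (H.had.c1.comp (contDiff_const.prodMk contDiff_id)))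
  · obtain ⟨A, i, e⟩ := key x
    have d1 := A.hasFDerivAt.comp x (RPAR.d_lg H x)
    have d0 : HasFDerivAt (fun b => (m'.Z 1 (F x, b)).1) (m'.R (F x)) (A (lg (x, x))) := by
      rw [lg_self H.ok H.jac H.had, map_zero]
      exact En0.d_ex H'.ok H'.jac (F x)
    have d3 := d0.comp (f := fun y => A (lg (x, y))) x d1
    have d2 := d3.congr_of_eventuallyEq (f₁ := F) (.of_forall e)
    rw [d2.fderiv]
    simp only [ContinuousLinearMap.comp_apply, H'.ok.SR, i]

end Pool.Agent.MP_3ee8cb_gt.D3RH
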