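import Pool.Agent.MP_3ee8cb_gt.D3RH.Kit
import Pool.Agent.MP_3ee8cb_gt.D3WI.Base

/-! A net of parallels gives a parallel through every point. -/

namespace Pool.Agent.MP_3ee8cb_gt.D3RH

open Set Filter Topology D3 D3RK D3WI

theorem rNET : R_NET := by
  intro cv asy stp m lg hd v hv D h x
  obtain ⟨E, hE⟩ := asy m lg hd
  have ho := hd.ok
  have hj := hd.jac
  have hl := hd.had
  have key : ∀ n : ℕ, ∃ u ∈ U, ‖lg (x, u.1)‖ ≤ 1 / (n + 1 : ℝ) * D ∧
      ∀ t, ds m lg t u t v ≤ ‖lg (v.1, x)‖ + |D| := fun n => by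
    have n0 : (0 : ℝ) < n + 1 := by positivity
    have q0 : 0 ≤ 1 / (n + 1 : ℝ) := by positivity
    have q1 : 1 / (n + 1 : ℝ) ≤ 1 := by
      rw [div_le_one n0]
      linarith [Nat.cast_nonneg (α := ℝ) n]
    set q := 1 / (n + 1 : ℝ) with hq
    obtain ⟨z, hz, ⟨B, hB⟩, hD⟩ := h (m.Z 1 (v.1, (n + 1 : ℝ) • lg (v.1, x))).1
    obtain ⟨h1, h2, -⟩ := stp m lg hd v hv z hz ⟨B, fun t => (lg_symm hj hl _ _).trans_le (hB t)⟩
    obtain ⟨u, hu, h3⟩ := h2 q ⟨q0, q1⟩
    have h4 : ∀ t, ds m lg t v t u = q * ‖lg (v.1, z.1)‖ := fun t => by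
      have := lg_ray hj hl q ((m.Z t v).1, lg ((m.Z t v).1, (m.Z t z).1))
      rw [ds, h3, this, norm_smul, Real.norm_of_nonneg q0, ← h1 t, ds]
    have h5 := h3 0
    have h6 := h4 0
    simp only [ds, ho.zero] at h5 h6
    have h7 := (cv m lg hd (v.1, (n + 1 : ℝ) • lg (v.1, x)) (v.1, lg (v.1, z.1))).2
      (mem_univ 0) (mem_univ 1) (sub_nonneg.2 q1) q0 (sub_add_cancel 1 q)
    have h8 : (m.Z q (v.1, (n + 1 : ℝ) • lg (v.1, x))).1 = x := by
      rw [hj.scale, hq, mul_one_div_cancel n0.ne', hl.ex]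
    simp only [ds, smul_eq_mul, mul_zero, mul_one, zero_add, ho.zero, lg_self ho hj hl, norm_zero,
      hl.ex, h8, ← h5] at h7
    have h9 := h7.trans (mul_le_mul_of_nonneg_left hD q0)
    refine ⟨u, hu, h9, fun t => ?_⟩
    have h10 := hl.tri v.1 x u.1
    have h11 : q * D ≤ |D| := (mul_le_mul_of_nonneg_left (le_abs_self D) q0).trans
      (mul_le_of_le_one_left (abs_nonneg D) q1)
    rw [ds, lg_symm hj hl, ← ds, h4, ← h6]
    linarith
  choose u hu h1 h2 using key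
  have t0 : Tendsto (fun n => lg (x, (u n).1)) atTop (𝓝 (lg (x, x))) := by
    rw [lg_self ho hj hl]
    refine squeeze_zero_norm h1 ?_
    simpa using (tendsto_one_div_add_atTop_nhds_zero_nat (𝕜 := ℝ)).mul_const D
  have t1 : Tendsto (fun n => (u n).1) atTop (𝓝 x) := by
    have := ((Z_c1 ho 1).continuous.fst.tendsto _).comp
      ((tendsto_const_nhds (x := x)).prodMk_nhds t0)
    simpa only [Function.comp_def, hl.ex] using this
  have t2 : Tendsto (fun n => (u n).2) atTop (𝓝 (E x v)) := by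
    have e : ∀ n, E (u n).1 v = (u n).2 := fun n =>
      (hE.uniq _ _ (hu n) v hv ⟨_, fun t _ => h2 n t⟩).symm
    have := (hE.cont (x, v) hv).tendsto.comp (tendsto_nhdsWithin_iff.2
      ⟨t1.prodMk_nhds (tendsto_const_nhds (x := v)), Eventually.of_forall fun _ => hv⟩)
    simpa only [Function.comp_def, e] using this
  refine ⟨E x v, hE.unit x v hv, ‖lg (v.1, x)‖ + |D|, fun t => ?_⟩
  have c : Continuous fun z : V × V => ds m lg t z t v :=
    (hl.c1.continuous.comp ((Z_c1 ho t).continuous.fst.prodMk continuous_const)).norm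
  exact le_of_tendsto' ((c.tendsto _).comp (t1.prodMk_nhds t2)) fun n => h2 n t

end Pool.Agent.MP_3ee8cb_gt.D3RH
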