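import Pool.Agent.MP_3ee8cb_gt.D3RH.Kit

/-! The components of a Jacobi field along a horizontal geodesic. -/

namespace Pool.Agent.MP_3ee8cb_gt.D3RH

open Set Filter Topology D3 D3RK
open scoped RealInnerProductSpace

namespace RNF

variable {m : MF} {lg : V × V → V} {S : Sp}

/-- The pairing of a parallel field with a field with covariant derivative `Y`. -/
theorem pair (ho : m.OK) {z : V × V} {P X : ℝ → V} {Y : V} {t : ℝ}
    (hP : HasDerivAt P (-m.w z t (P t)) t) (hX : HasDerivAt X (Y - m.w z t (X t)) t) :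
    HasDerivAt (fun s => ⟪P s, X s⟫) ⟪P t, Y⟫ t := by
  refine (hP.inner ℝ hX).congr_deriv ?_
  have e : ⟪m.w z t (P t), X t⟫ = -⟪P t, m.w z t (X t)⟫ := ho.skew _ _ _ _
  rw [inner_sub_right, inner_neg_left, e]
  ring

/-- The curvature term. -/
theorem curv (h3 : S.OK3 m) (z : V × V) (a : V) :
    -m.K z.1 a z.2 z.2 = (S.k z.1 * ⟪S.n z, a⟫) • S.n z := by
  rw [h3.KK, cr_comm a, inner_neg_right, cr_cyc, mul_neg, neg_smul, neg_neg]
  rfl

end RNF

open RNF in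
theorem rNF : SNF := by
  intro m lg H S hS z hz ξ
  have ho := H.ok
  have hj := H.jac
  have hf := H_fl hj hS.o1 hz
  have d2 : ∀ t, HasDerivAt (fun s => ⟪S.ζ (m.Z s z).1, m.J' z ξ s⟫) 0 t := fun t => by
    refine (pair ho (d_zeta ho hS.o2 z t) (hj.d2 z ξ t)).congr_deriv ?_
    rw [curv hS.o3, inner_smul_right, Sp.n, cr_left, mul_zero]
  have c2 : ∀ t, ⟪S.ζ (m.Z t z).1, m.J' z ξ t⟫ = ⟪S.ζ z.1, m.ver z ξ⟫ := fun t => by
    have e := is_const_of_deriv_eq_zero (fun s => (d2 s).differentiableAt)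
      (fun s => (d2 s).deriv) t 0
    rwa [ho.zero, D3WI.J'_zero ho] at e
  have d1 : ∀ t, HasDerivAt
      (fun s => ⟪S.ζ (m.Z s z).1, m.J z ξ s⟫ - s * ⟪S.ζ z.1, m.ver z ξ⟫) 0 t := fun t => by
    refine ((pair ho (d_zeta ho hS.o2 z t) (hj.d1 z ξ t)).sub
      (hasDerivAt_mul_const ⟪S.ζ z.1, m.ver z ξ⟫)).congr_deriv ?_
    rw [c2, sub_self]
  refine ⟨hf, fun t => ⟨pair ho (d_n ho hS.o2 z t) (hj.d1 z ξ t), ?_⟩, fun t => ⟨?_, c2 t⟩⟩
  · refine (pair ho (d_n ho hS.o2 z t) (hj.d2 z ξ t)).congr_deriv ?_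
    rw [curv hS.o3, inner_smul_right, real_inner_self_eq_norm_sq, n_unit hS.o1 (hf t), one_pow,
      mul_one]
  · have e := is_const_of_deriv_eq_zero (fun s => (d1 s).differentiableAt)
      (fun s => (d1 s).deriv) t 0
    rw [ho.zero, D3WI.J_zero ho, zero_mul, sub_zero] at e
    linarith

end Pool.Agent.MP_3ee8cb_gt.D3RH
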