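import Pool.Agent.MP_3ee8cb_gt.D3RH.Spec

/-! The focal time on one orbit: the scalar equation. -/

namespace Pool.Agent.MP_3ee8cb_gt.D3RH

open Set Filter Topology

noncomputable section

namespace ROD1

theorem le_d {f f' : ℝ → ℝ} (hf : ∀ t, HasDerivAt f (f' t) t) {a b : ℝ} (hab : a ≤ b)
    (h : ∀ t ∈ Icc a b, 0 ≤ f' t) : f a ≤ f b := by
  have hm : MonotoneOn f (Icc a b) := monotoneOn_of_deriv_nonneg (convex_Icc a b)
    (fun t _ => (hf t).continuousAt.continuousWithinAt)
    (fun t _ => (hf t).differentiableAt.differentiableWithinAt)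
    (fun t ht => by rw [(hf t).deriv]; exact h t (interior_subset ht))
  exact hm ⟨le_rfl, hab⟩ ⟨hab, le_rfl⟩ hab

theorem ivt {f : ℝ → ℝ} (hf : Continuous f) {a b : ℝ} (h : f a * f b ≤ 0) :
    ∃ c ∈ uIcc a b, f c = 0 := by
  refine intermediate_value_uIcc hf.continuousOn ?_
  rw [mem_uIcc]
  rcases mul_nonpos_iff.1 h with h | h
  · exact Or.inr ⟨h.2, h.1⟩
  · exact Or.inl ⟨h.1, h.2⟩

theorem sgn {f : ℝ → ℝ} (hf : Continuous f) (h : ∀ t, f t ≠ 0) (a b : ℝ) : 0 < f a * f b := by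
  by_contra hc
  obtain ⟨c, -, h0⟩ := ivt hf (not_lt.1 hc)
  exact h c h0

variable {k j j' i i' : ℝ → ℝ}

theorem cj (h : So k j j') : Continuous j :=
  continuous_iff_continuousAt.2 fun t => (h t).1.continuousAt

theorem cj' (h : So k j j') : Continuous j' :=
  continuous_iff_continuousAt.2 fun t => (h t).2.continuousAt

theorem lin (h : So k j j') (g : So k i i') (a b : ℝ) :
    So k (fun t => a * j t - b * i t) fun t => a * j' t - b * i' t := fun t =>
  ⟨((h t).1.const_mul a).sub ((g t).1.const_mul b),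
    (((h t).2.const_mul a).sub ((g t).2.const_mul b)).congr_deriv (by ring)⟩

theorem wr (h : So k j j') (g : So k i i') (a b : ℝ) :
    j a * i' a - i a * j' a = j b * i' b - i b * j' b := by
  have hd : ∀ t, HasDerivAt (fun t => j t * i' t - i t * j' t) 0 t := fun t =>
    (((h t).1.mul (g t).2).sub ((g t).1.mul (h t).2)).congr_deriv (by ring)
  exact is_const_of_deriv_eq_zero (fun t => (hd t).differentiableAt) (fun t => (hd t).deriv) a b

theorem mo (h : So k j j') (k0 : ∀ t, 0 ≤ k t) {a b : ℝ} (hab : a ≤ b) :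
    j a * j' a ≤ j b * j' b :=
  le_d (f := fun t => j t * j' t) (fun t => (h t).1.mul (h t).2) hab fun t _ => by
    have := mul_nonneg (k0 t) (mul_self_nonneg (j t))
    nlinarith [mul_self_nonneg (j' t)]

theorem up (h : So k j j') (k0 : ∀ t, 0 ≤ k t) {a b : ℝ} (hab : a ≤ b) (h0 : 0 ≤ j a * j' a) :
    |j a| ≤ |j b| ∧ |j' a| ≤ |j' b| := by
  have h1 := le_d (f := fun t => j t * j t) (fun t => (h t).1.mul (h t).1) hab fun t ht => by
    have := mo h k0 ht.1
    nlinarith
  have h2 := le_d (f := fun t => j' t * j' t) (fun t => (h t).2.mul (h t).2) hab fun t ht => by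
    have := mul_nonneg (k0 t) (h0.trans (mo h k0 ht.1))
    nlinarith
  exact ⟨abs_le_abs_of_sq h1, abs_le_abs_of_sq h2⟩
where
  abs_le_abs_of_sq {x y : ℝ} (h : x * x ≤ y * y) : |x| ≤ |y| :=
    sq_le_sq.1 (by rw [sq, sq]; exact h)

theorem dn (h : So k j j') (k0 : ∀ t, 0 ≤ k t) {a b : ℝ} (hab : a ≤ b) (h0 : j b * j' b ≤ 0) :
    |j b| ≤ |j a| ∧ |j' b| ≤ |j' a| := by
  have h1 := le_d (f := fun t => -(j t * j t)) (fun t => ((h t).1.mul (h t).1).neg) hab
    fun t ht => by
      have := mo h k0 ht.2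
      nlinarith
  have h2 := le_d (f := fun t => -(j' t * j' t)) (fun t => ((h t).2.mul (h t).2).neg) hab
    fun t ht => by
      have := mul_nonneg (k0 t) (neg_nonneg.2 ((mo h k0 ht.2).trans h0))
      nlinarith
  exact ⟨up.abs_le_abs_of_sq (neg_le_neg_iff.1 h1), up.abs_le_abs_of_sq (neg_le_neg_iff.1 h2)⟩

theorem mn (h : So k j j') (k0 : ∀ t, 0 ≤ k t) {s : ℝ} (h0 : j s = 0) (t : ℝ) :
    |j' s| ≤ |j' t| := by
  rcases le_total s t with hst | hst
  · exact (up h k0 hst (by rw [h0, zero_mul])).2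
  · exact (dn h k0 hst (by rw [h0, zero_mul])).2

theorem gr (h : So k j j') (k0 : ∀ t, 0 ≤ k t) {s : ℝ} (h0 : j s = 0) (h1 : j' s = 1) (t : ℝ) :
    (s ≤ t → t - s ≤ j t) ∧ (t ≤ s → j t ≤ t - s) := by
  have ha : ∀ r, 1 ≤ |j' r| := fun r => by
    have := mn h k0 h0 r
    rwa [h1, abs_one] at this
  have hb : ∀ r, 0 ≤ j' r - 1 := fun r => by
    have h2 := sgn (cj' h) (fun r hr => by have := ha r; rw [hr, abs_zero] at this; linarith) s r
    rw [h1, one_mul] at h2
    have := ha r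
    rw [abs_of_pos h2] at this
    linarith
  have hd : ∀ r, HasDerivAt (fun r => j r - r) (j' r - 1) r := fun r =>
    (h r).1.sub (hasDerivAt_id r)
  constructor
  · intro hst
    have := le_d hd hst fun r _ => hb r
    simp only [h0] at this
    linarith
  · intro hst
    have := le_d hd hst fun r _ => hb r
    simp only [h0] at this
    linarith

/-- Two fundamental systems. -/
structure Fs (C : ℝ) (k k' u u' v v' U U' W W' : ℝ → ℝ) : Prop where
  k0 : ∀ t, 0 ≤ k t
  k0' : ∀ t, 0 ≤ k' t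
  su : So k u u'
  sv : So k v v'
  sU : So k' U U'
  sW : So k' W W'
  w : ∀ t, u t * v' t - v t * u' t = 1
  w' : ∀ t, U t * W' t - W t * U' t = 1
  b0 : ∀ s, |u s * W s - v s * U s| ≤ C ∧ |u s * W' s - v s * U' s| ≤ C
  b1 : ∀ s t, |u s * v t - v s * u t| ≤ C * (|u s * W t - v s * U t| + |u s * W' t - v s * U' t|)

namespace Fs

variable {C : ℝ} {k' u u' v v' U U' W W' : ℝ → ℝ} (F : Fs C k k' u u' v v' U U' W W')
include F

theorem c0 : 0 ≤ C := (abs_nonneg _).trans (F.b0 0).1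

theorem gj (s t : ℝ) : (s ≤ t → t - s ≤ u s * v t - v s * u t) ∧
    (t ≤ s → u s * v t - v s * u t ≤ t - s) :=
  gr (lin F.sv F.su (u s) (v s)) F.k0 (by ring) (F.w s) t

theorem pos {s t : ℝ} (h : s + (2 * C ^ 2 + 1) ≤ t) :
    0 < (u s * W t - v s * U t) * (u s * W' t - v s * U' t) := by
  by_contra hc
  have hst : s ≤ t := by nlinarith [sq_nonneg C]
  obtain ⟨h1, h2⟩ := dn (lin F.sW F.sU (u s) (v s)) F.k0' hst (not_lt.1 hc)
  have h3 := (F.gj s t).1 hst
  have h4 := (le_abs_self _).trans (F.b1 s t)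
  have h5 := mul_le_mul_of_nonneg_left
    (add_le_add (h1.trans (F.b0 s).1) (h2.trans (F.b0 s).2)) F.c0
  nlinarith

theorem neg {s t : ℝ} (h : t + (2 * C ^ 2 + 1) ≤ s) :
    (u s * W t - v s * U t) * (u s * W' t - v s * U' t) < 0 := by
  by_contra hc
  have hst : t ≤ s := by nlinarith [sq_nonneg C]
  obtain ⟨h1, h2⟩ := up (lin F.sW F.sU (u s) (v s)) F.k0' hst (not_lt.1 hc)
  have h3 := (F.gj s t).2 hst
  have h4 := (neg_le_abs _).trans (F.b1 s t)
  have h5 := mul_le_mul_of_nonneg_left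
    (add_le_add (h1.trans (F.b0 s).1) (h2.trans (F.b0 s).2)) F.c0
  nlinarith

theorem om {a b : ℝ} (h : a < b) (t : ℝ) :
    0 < (u a * W t - v a * U t) * (u b * W' t - v b * U' t) -
      (u a * W' t - v a * U' t) * (u b * W t - v b * U t) := by
  have h1 := (F.gj a b).1 h.le
  have h2 : (u a * W t - v a * U t) * (u b * W' t - v b * U' t) -
      (u a * W' t - v a * U' t) * (u b * W t - v b * U t) =
      (u a * v b - v a * u b) * (U t * W' t - W t * U' t) := by ring
  rw [h2, F.w' t]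
  linarith

theorem inv (s t : ℝ) : u s * W' t - v s * U' t ≠ 0 := by
  intro h0
  have hT : 0 < 2 * C ^ 2 + 1 := by positivity
  have ha : min s t - (2 * C ^ 2 + 1) < s := by linarith [min_le_left s t]
  have hb : s < max s t + (2 * C ^ 2 + 1) := by linarith [le_max_left s t]
  have h1 := F.om ha t
  have h2 := F.om hb t
  have h3 := F.om (ha.trans hb) t
  have h4 := F.pos (s := min s t - (2 * C ^ 2 + 1)) (t := t) (by linarith [min_le_right s t])
  have h5 := F.neg (s := max s t + (2 * C ^ 2 + 1)) (t := t) (by linarith [le_max_right s t])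
  rw [h0] at h1 h2
  generalize u (min s t - (2 * C ^ 2 + 1)) * W t - v (min s t - (2 * C ^ 2 + 1)) * U t = p at *
  generalize u (min s t - (2 * C ^ 2 + 1)) * W' t - v (min s t - (2 * C ^ 2 + 1)) * U' t = x at *
  generalize u (max s t + (2 * C ^ 2 + 1)) * W t - v (max s t + (2 * C ^ 2 + 1)) * U t = q at *
  generalize u (max s t + (2 * C ^ 2 + 1)) * W' t - v (max s t + (2 * C ^ 2 + 1)) * U' t = y at *
  generalize u s * W t - v s * U t = w at *
  have h6 : 0 < -(x * w) := by linarith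
  have h7 : 0 < w * y := by linarith
  have h8 : x * y < 0 := by
    by_contra hc
    nlinarith [mul_pos h6 h7, mul_nonneg (not_lt.1 hc) (mul_self_nonneg w)]
  nlinarith [mul_pos h3 (neg_pos.2 h8), mul_nonneg h4.le (mul_self_nonneg y),
    mul_nonneg (neg_pos.2 h5).le (mul_self_nonneg x)]

theorem inj (s : ℝ) {a b : ℝ} (h : u s * W a - v s * U a = u s * W b - v s * U b) : a = b := by
  have hs := lin F.sW F.sU (u s) (v s)
  by_contra hc
  rcases lt_or_gt_of_ne hc with hab | hab
  · obtain ⟨c, -, h0⟩ := exists_hasDerivAt_eq_zero hab (cj hs).continuousOn h fun t _ => (hs t).1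
    exact F.inv s c h0
  · obtain ⟨c, -, h0⟩ :=
      exists_hasDerivAt_eq_zero hab (cj hs).continuousOn h.symm fun t _ => (hs t).1
    exact F.inv s c h0

theorem ex (s : ℝ) : ∃ t, |t - s| ≤ 2 * C ^ 2 + 1 ∧ u s * W t - v s * U t = 0 := by
  have hs := lin F.sW F.sU (u s) (v s)
  have hT : 0 < 2 * C ^ 2 + 1 := by positivity
  have h1 := F.pos (s := s) (t := s + (2 * C ^ 2 + 1)) le_rfl
  have h2 := F.neg (s := s) (t := s - (2 * C ^ 2 + 1)) (by linarith)
  have h3 := sgn (cj' hs) (F.inv s) (s - (2 * C ^ 2 + 1)) (s + (2 * C ^ 2 + 1))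
  obtain ⟨c, hc, h0⟩ := ivt (cj hs) (a := s - (2 * C ^ 2 + 1)) (b := s + (2 * C ^ 2 + 1)) (by
    by_contra hc
    nlinarith [mul_pos (not_le.1 hc) h3, mul_pos h1 (neg_pos.2 h2)])
  rw [uIcc_of_le (by linarith)] at hc
  exact ⟨c, abs_le.2 ⟨by linarith [hc.1], by linarith [hc.2]⟩, h0⟩

theorem cont {τ : ℝ → ℝ} (hτ : ∀ s, u s * W (τ s) - v s * U (τ s) = 0) (s : ℝ) :
    ContinuousAt τ s := by
  have hs := lin F.sW F.sU (u s) (v s)
  rw [Metric.continuousAt_iff']
  intro ε hε
  have h1 : (u s * W (τ s - ε / 2) - v s * U (τ s - ε / 2)) *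
      (u s * W (τ s + ε / 2) - v s * U (τ s + ε / 2)) < 0 := by
    have hd : ∀ t, HasDerivAt (fun t => (u s * W' 0 - v s * U' 0) * (u s * W t - v s * U t))
        ((u s * W' 0 - v s * U' 0) * (u s * W' t - v s * U' t)) t := fun t =>
      (hs t).1.const_mul _
    have ha := le_d hd (a := τ s - ε / 2) (b := τ s) (by linarith)
      fun t _ => (sgn (cj' hs) (F.inv s) 0 t).le
    have hb := le_d hd (a := τ s) (b := τ s + ε / 2) (by linarith)
      fun t _ => (sgn (cj' hs) (F.inv s) 0 t).le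
    simp only [hτ s, mul_zero] at ha hb
    have hn : (u s * W (τ s - ε / 2) - v s * U (τ s - ε / 2)) *
        (u s * W (τ s + ε / 2) - v s * U (τ s + ε / 2)) ≠ 0 := mul_ne_zero
      (fun h => by linarith [F.inj s (h.trans (hτ s).symm)])
      (fun h => by linarith [F.inj s (h.trans (hτ s).symm)])
    refine lt_of_le_of_ne ?_ hn
    by_contra hc
    nlinarith [mul_pos (not_le.1 hc) (mul_self_pos.2 (F.inv s 0)), mul_nonneg (neg_nonneg.2 ha) hb]
  have hu := cj F.su
  have hv := cj F.sv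
  have hc : Continuous fun r => (u r * W (τ s - ε / 2) - v r * U (τ s - ε / 2)) *
      (u r * W (τ s + ε / 2) - v r * U (τ s + ε / 2)) := by fun_prop
  filter_upwards [hc.continuousAt.eventually_lt continuousAt_const h1] with r hr
  obtain ⟨c, hc, h0⟩ := ivt (cj (lin F.sW F.sU (u r) (v r))) hr.le
  rw [uIcc_of_le (by linarith)] at hc
  rw [← F.inj r (h0.trans (hτ r).symm), Real.dist_eq, abs_lt]
  exact ⟨by linarith [hc.1], by linarith [hc.2]⟩

theorem der {τ : ℝ → ℝ} (hτ : ∀ s, u s * W (τ s) - v s * U (τ s) = 0) (s : ℝ) :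
    HasDerivAt τ ((u s * W' (τ s) - v s * U' (τ s))⁻¹ ^ 2) s := by
  have hP := (lin F.sW F.sU (u s) (v s) (τ s)).1
  have hQ := (lin F.sU F.sW (v' s) (u' s) (τ s)).1
  have hj := (lin F.sv F.su (u s) (v s) s).1
  have hi := (lin F.su F.sv (v' s) (u' s) s).1
  have hc := F.cont hτ s
  have h1 : (v' s * U (τ s) - u' s * W (τ s)) * (u s * W' (τ s) - v s * U' (τ s)) = 1 := by
    have h2 : (v' s * U (τ s) - u' s * W (τ s)) * (u s * W' (τ s) - v s * U' (τ s)) =
        (u s * v' s - v s * u' s) * (U (τ s) * W' (τ s) - W (τ s) * U' (τ s)) +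
        (v' s * U' (τ s) - u' s * W' (τ s)) * (u s * W (τ s) - v s * U (τ s)) := by ring
    rw [h2, F.w, F.w', hτ]
    ring
  have hQ0 : v' s * U (τ s) - u' s * W (τ s) ≠ 0 := left_ne_zero_of_mul_eq_one h1
  have hi1 : v' s * u s - u' s * v s = 1 := by linarith [F.w s]
  have hi0 : v' s * u s - u' s * v s ≠ 0 := by rw [hi1]; exact one_ne_zero
  have hP0 := F.inv s (τ s)
  have hQ1 : v' s * U (τ s) - u' s * W (τ s) = (u s * W' (τ s) - v s * U' (τ s))⁻¹ :=
    eq_inv_of_mul_eq_one_left h1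
  have hR : HasDerivAt (fun t => (u s * W t - v s * U t) / (v' s * U t - u' s * W t))
      ((u s * W' (τ s) - v s * U' (τ s)) ^ 2) (τ s) := (hP.div hQ hQ0).congr_deriv (by
    simp only [hτ s, hQ1]
    field_simp
    ring)
  have hr : HasDerivAt (fun t => (u s * v t - v s * u t) / (v' s * u t - u' s * v t)) 1 s :=
    (hj.div hi hi0).congr_deriv (by
      simp only [hi1, F.w s]
      ring)
  refine (HasDerivAt.of_comp_left hc hR hr (pow_ne_zero 2 hP0) ?_).congr_deriv (by
    rw [one_div, inv_pow])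
  filter_upwards [(hQ.continuousAt.comp hc).eventually_ne hQ0, hi.continuousAt.eventually_ne hi0]
    with r h3 h4
  simp only [Function.comp] at h3 ⊢
  rw [div_eq_div_iff h3 h4]
  have h5 : (u s * W (τ r) - v s * U (τ r)) * (v' s * u r - u' s * v r) -
      (u s * v r - v s * u r) * (v' s * U (τ r) - u' s * W (τ r)) =
      (u s * v' s - v s * u' s) * (u r * W (τ r) - v r * U (τ r)) := by ring
  rw [hτ r] at h5
  linarith

end Fs

end ROD1

open ROD1 in
theorem rOD1 : R_OD1 := by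
  intro hE C
  refine ⟨2 * C ^ 2 + 1, fun k k' hh hv vh vv O A A' hA => ?_⟩
  obtain ⟨u, u', su, u0, u1⟩ := (hE k O.ck).1 0 1 0
  obtain ⟨v, v', sv, v0, v1⟩ := (hE k O.ck).1 0 0 1
  have w : ∀ t, u t * v' t - v t * u' t = 1 := fun t => by
    rw [wr su sv t 0, u0, u1, v0, v1]
    ring
  have e0 : ∀ s, u s * (hh s * v s + hv s * v' s) - v s * (hh s * u s + hv s * u' s) = hv s :=
    fun s => by linear_combination hv s * w s
  have e1 : ∀ s, u s * (vh s * v s + vv s * v' s) - v s * (vh s * u s + vv s * u' s) = vv s :=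
    fun s => by linear_combination vv s * w s
  have F : Fs C k k' u u' v v' (fun t => hh t * u t + hv t * u' t)
      (fun t => vh t * u t + vv t * u' t) (fun t => hh t * v t + hv t * v' t)
      fun t => vh t * v t + vv t * v' t := by
    refine ⟨O.k0, O.k0', su, sv, O.map _ _ su, O.map _ _ sv, w, fun t => ?_, fun s => ?_,
      fun s t => ?_⟩
    · linear_combination (u t * v' t - v t * u' t) * O.det t + w t
    · rw [e0, e1]
      exact ⟨(O.up s).2.1, (O.up s).2.2.2⟩
    · have h1 : u s * v t - v s * u t =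
          vv t * (u s * (hh t * v t + hv t * v' t) - v s * (hh t * u t + hv t * u' t)) -
          hv t * (u s * (vh t * v t + vv t * v' t) - v s * (vh t * u t + vv t * u' t)) := by
        linear_combination (v s * u t - u s * v t) * O.det t
      rw [h1, mul_add C]
      refine (abs_sub _ _).trans (add_le_add ?_ ?_) <;> rw [abs_mul]
      · exact mul_le_mul_of_nonneg_right (O.up t).2.2.2 (abs_nonneg _)
      · exact mul_le_mul_of_nonneg_right (O.up t).2.1 (abs_nonneg _)
  have hid : ∀ s t,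
      A s t = u s * (hh t * v t + hv t * v' t) - v s * (hh t * u t + hv t * u' t) ∧
      A' s t = u s * (vh t * v t + vv t * v' t) - v s * (vh t * u t + vv t * u' t) := by
    intro s t
    have h1 := (hE k' O.ck').2 _ _ s (lin (hA s).1 (lin F.sW F.sU (u s) (v s)) 1 1)
      (by simp only [e0, (hA s).2.1]; ring) (by simp only [e1, (hA s).2.2]; ring) t
    exact ⟨by linarith [h1.1], by linarith [h1.2]⟩
  choose τ hτ hz using F.ex
  refine ⟨τ, fun s => ⟨hτ s, fun t => ⟨fun h => ?_, fun h => ?_⟩, fun t => ⟨?_, ?_⟩, ?_⟩⟩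
  · exact F.inj s (((hid s t).1.symm.trans h).trans (hz s).symm)
  · rw [h, (hid s _).1]
    exact hz s
  · rw [(hid s _).2]
    exact abs_pos.2 (F.inv s _)
  · exact mn (hA s).1 O.k0' ((hid s _).1.trans (hz s)) t
  · rw [(hid s _).2]
    exact F.der hz s

end

end Pool.Agent.MP_3ee8cb_gt.D3RH
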