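import Pool.Agent.MP_3ee8cb_gt.D3RH.Kit

/-! An odd invariant function on the horizontal vectors vanishes. -/

namespace Pool.Agent.MP_3ee8cb_gt.D3RH

open Set Filter Topology D3 D3RK
open D3.SI (ac)
open scoped RealInnerProductSpace

noncomputable section

namespace RODD

theorem lim0 {g : V × V → ℝ} {A B : Set (V × V)} {v : V × V} (hA : A ⊆ B) (hv : v ∈ closure A)
    (hc : ContinuousWithinAt g B v) (he : ∀ᶠ w in 𝓝[B] v, w ∈ A → g w ≤ 0) : g v ≤ 0 := by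
  have : (𝓝[A] v).NeBot := mem_closure_iff_nhdsWithin_neBot.1 hv
  refine le_of_tendsto (hc.mono hA) ?_
  filter_upwards [nhdsWithin_mono v hA he, self_mem_nhdsWithin] with w h1 h2 using h1 h2

/-- The vector with horizontal direction `w` and slope `σ`. -/
def mv (S : Sp) (w : V × V) (c σ : ℝ) : V × V := (w.1, c • w.2 + σ • S.ζ w.1)

/-- The unit vectors that are not vertical. -/
def W0 (S : Sp) : Set (V × V) := {v | v ∈ U ∧ S.s v ^ 2 < 1}

variable {m : MF} {lg : V × V → V} {S : Sp} {w v : V × V} {c σ : ℝ}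

theorem zz (h : S.OK1 m lg) (x : V) : ⟪S.ζ x, S.ζ x⟫ = (1 : ℝ) := by
  rw [real_inner_self_eq_norm_sq, h.unit, one_pow]

theorem s_mk (h : S.OK1 m lg) (hw : w ∈ S.H) : S.s (mv S w c σ) = σ := by
  show ⟪S.ζ w.1, c • w.2 + σ • S.ζ w.1⟫ = σ
  rw [inner_add_right, inner_smul_right, inner_smul_right, zz h,
    show ⟪S.ζ w.1, w.2⟫ = 0 from hw.2, mul_zero, mul_one, zero_add]

theorem hd_mk (h : S.OK1 m lg) (hw : w ∈ S.H) (hc : 0 < c) : S.hd (mv S w c σ) = w := by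
  have e : (mv S w c σ).2 - σ • S.ζ (mv S w c σ).1 = c • w.2 := add_sub_cancel_right _ _
  rw [Sp.hd, s_mk h hw, e, norm_smul, hw.1, mul_one, Real.norm_of_nonneg hc.le,
    inv_smul_smul₀ hc.ne']
  rfl

theorem nsq (h : S.OK1 m lg) (x a : V) (ha : ⟪S.ζ x, a⟫ = 0) (σ : ℝ) :
    ‖a + σ • S.ζ x‖ ^ 2 = ‖a‖ ^ 2 + σ ^ 2 := by
  rw [norm_add_sq_real, inner_smul_right, real_inner_comm, ha, norm_smul, h.unit, mul_one,
    Real.norm_eq_abs, sq_abs, mul_zero, mul_zero, add_zero]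

theorem mv_mem (h : S.OK1 m lg) (hw : w ∈ S.H) (hc : 0 < c) (e : c ^ 2 + σ ^ 2 = 1) :
    mv S w c σ ∈ W0 S := by
  refine ⟨?_, by rw [s_mk h hw]; nlinarith⟩
  have := nsq h w.1 (c • w.2)
    (by rw [inner_smul_right, show ⟪S.ζ w.1, w.2⟫ = 0 from hw.2, mul_zero]) σ
  rw [norm_smul, hw.1, mul_one, Real.norm_eq_abs, sq_abs, e] at this
  exact (pow_eq_one_iff_of_nonneg (norm_nonneg _) two_ne_zero).1 this

theorem split (h : S.OK1 m lg) (hv : v ∈ W0 S) :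
    ∃ w c, w ∈ S.H ∧ 0 < c ∧ c ^ 2 + S.s v ^ 2 = 1 ∧ v = mv S w c (S.s v) := by
  have p : ⟪S.ζ v.1, v.2 - S.s v • S.ζ v.1⟫ = 0 := by
    rw [inner_sub_right, inner_smul_right, zz h, mul_one]
    exact sub_self _
  have e := nsq h v.1 _ p (S.s v)
  rw [sub_add_cancel, show ‖v.2‖ = 1 from hv.1, one_pow] at e
  have n0 : ‖v.2 - S.s v • S.ζ v.1‖ ≠ 0 := fun z => by
    rw [z] at e
    linarith [hv.2]
  refine ⟨S.hd v, _, ⟨norm_smul_inv_norm (norm_ne_zero_iff.1 n0), ?_⟩,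
    (norm_nonneg _).lt_of_ne' n0, e.symm, Prod.ext rfl ?_⟩
  · show ⟪S.ζ v.1, _ • _⟫ = 0
    rw [inner_smul_right, p, mul_zero]
  · show v.2 = _ • _ • _ + _ • S.ζ v.1
    rw [smul_inv_smul₀ n0, sub_add_cancel]

theorem hd_H (h : S.OK1 m lg) (hv : v ∈ W0 S) : S.hd v ∈ S.H := by
  obtain ⟨w, c, hw, hc, -, e⟩ := split h hv
  rwa [e, hd_mk h hw hc]

theorem s_cont (h : S.OK1 m lg) : Continuous S.s :=
  (h.cont.comp continuous_fst).inner continuous_snd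

theorem W0_nhds (h : S.OK1 m lg) (hv : v ∈ W0 S) : W0 S ∈ 𝓝[U] v :=
  inter_mem self_mem_nhdsWithin (mem_nhdsWithin_of_mem_nhds
    ((isOpen_lt ((s_cont h).pow 2) continuous_const).mem_nhds hv.2))

theorem hd_cont (h : S.OK1 m lg) : ContinuousOn S.hd (W0 S) := by
  have c1 : Continuous fun z : V × V => z.2 - S.s z • S.ζ z.1 :=
    continuous_snd.sub ((s_cont h).smul (h.cont.comp continuous_fst))
  refine continuousOn_fst.prodMk ((c1.norm.continuousOn.inv₀ fun z hz z0 => ?_).smul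
    c1.continuousOn)
  have := (hd_H h hz).1
  rw [Sp.hd, z0, inv_zero, zero_smul, norm_zero] at this
  exact zero_ne_one this

theorem fl_mk (hj : m.Jac) (h4 : S.OK4 m) (hw : w ∈ S.H) (t : ℝ) :
    m.Z t (mv S w c σ) = mv S (S.Tv m (σ * t) (m.Z (c * t) w)) c σ := by
  rw [mv, h4.dec t σ w.1 (c • w.2)
    (by rw [inner_smul_right, show ⟪S.ζ w.1, w.2⟫ = 0 from hw.2, mul_zero]), hj.scale]
  simp only [mv, Sp.Tv, map_smul]

theorem lip (H : Hd m lg) (h : S.OK1 m lg) (x y : V) : |S.h y - S.h x| ≤ ‖lg (x, y)‖ := by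
  have e := h.ht 1 (x, lg (x, y))
  rw [H.had.ex, one_mul] at e
  rw [e, add_sub_cancel_left]
  exact (abs_real_inner_le_norm _ _).trans (by rw [h.unit, one_mul])

theorem s_asy {E : V → V × V → V} (H : Hd m lg) (h : S.OK1 m lg) (A : Asy m lg E) (y : V)
    (hv : v ∈ U) : S.s (y, E y v) = S.s v := by
  by_contra ne
  have d0 : 0 < |S.s v - S.s (y, E y v)| := abs_pos.2 (sub_ne_zero.2 (Ne.symm ne))
  set t := (2 * ‖lg (y, v.1)‖ + 1) / |S.s v - S.s (y, E y v)|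
  have t0 : 0 ≤ t := by positivity
  have b1 := (lip H h _ _).trans (A.bdd y v hv t t0)
  have b2 := lip H h y v.1
  rw [h.ht, h.ht] at b1
  have e : t * |S.s v - S.s (y, E y v)| = 2 * ‖lg (y, v.1)‖ + 1 := div_mul_cancel₀ _ d0.ne'
  have b3 : |t * (S.s v - S.s (y, E y v))| ≤ ‖lg (y, v.1)‖ + ‖lg (y, v.1)‖ := by
    refine le_trans (le_of_eq ?_) ((abs_sub _ _).trans (add_le_add b1 b2))
    exact congrArg abs (by ring)
  rw [abs_mul, abs_of_nonneg t0, e] at b3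
  linarith

variable {X : Sd} {ε τ : X.G → ℝ}

theorem gr_H (D : Dk X S ε τ) (hw : w ∈ S.H) (γ : X.G) : ac X.O γ w ∈ S.H := by
  refine ⟨((X.O γ w.1).norm_map _).trans hw.1, ?_⟩
  have e := (X.O γ w.1).inner_map_map (S.ζ w.1) w.2
  rw [D.ze, real_inner_smul_left, show ⟪S.ζ w.1, w.2⟫ = 0 from hw.2] at e
  refine (mul_eq_zero.1 e).resolve_left ?_
  rcases D.sg γ with a | a <;> rw [a] <;> norm_num

theorem gr_mk (D : Dk X S ε τ) (γ : X.G) :
    ac X.O γ (mv S w c σ) = mv S (ac X.O γ w) c (σ * ε γ) := by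
  simp only [mv, ac, map_add, map_smul, D.ze, smul_smul]

/-- An invariant function on the vectors that are not vertical. -/
structure Iv (X : Sd) (S : Sp) (f : V × V → ℝ) : Prop where
  ct : ContinuousOn f (W0 S)
  fl : ∀ t, ∀ z ∈ W0 S, X.m.Z t z ∈ W0 S ∧ f (X.m.Z t z) = f z
  gr : ∀ γ, ∀ z ∈ W0 S, ac X.O γ z ∈ W0 S ∧ f (ac X.O γ z) = f z

theorem Iv.neg {f : V × V → ℝ} (I : Iv X S f) : Iv X S fun z => -f z :=
  ⟨I.ct.neg, fun t z hz => ⟨(I.fl t z hz).1, congrArg Neg.neg (I.fl t z hz).2⟩,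
    fun γ z hz => ⟨(I.gr γ z hz).1, congrArg Neg.neg (I.gr γ z hz).2⟩⟩

theorem iv {θ : V × V → ℝ} (hX : X.OK) (h : S.OK X.m X.lg) (D : Dk X S ε τ)
    (ct : ContinuousOn θ S.H) (inv : ∀ z ∈ S.H, (∀ t, θ (X.m.Z t z) = θ z) ∧
      (∀ r, θ (S.Tv X.m r z) = θ z) ∧ (∀ γ, θ (ac X.O γ z) = θ z) ∧ θ (z.1, -z.2) = -θ z) :
    Iv X S fun z => θ (S.hd z) := by
  refine ⟨ct.comp (hd_cont h.o1) fun z hz => hd_H h.o1 hz, fun t z hz => ?_, fun γ z hz => ?_⟩
  · obtain ⟨w, c, hw, hc, e1, e⟩ := split h.o1 hz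
    have a := H_fl hX.hd.jac h.o1 hw (c * t)
    have b := H_Tv h.o4 a (S.s z * t)
    rw [e, fl_mk hX.hd.jac h.o4 hw, hd_mk h.o1 b hc, hd_mk h.o1 hw hc, (inv _ a).2.1,
      (inv _ hw).1]
    exact ⟨mv_mem h.o1 b hc e1, rfl⟩
  · obtain ⟨w, c, hw, hc, e1, e⟩ := split h.o1 hz
    have a := gr_H D hw γ
    rw [e, gr_mk D, hd_mk h.o1 a hc, hd_mk h.o1 hw hc, (inv _ hw).2.2.1]
    refine ⟨mv_mem h.o1 a hc ?_, rfl⟩
    rcases D.sg γ with b | b <;> rw [b] <;> linarith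

variable {E : V → V × V → V} {f : V × V → ℝ}

theorem asy_mem (hX : X.OK) (h : S.OK1 X.m X.lg) (A : Asy X.m X.lg E) (y : V) (hv : v ∈ W0 S) :
    (y, E y v) ∈ W0 S := ⟨A.unit y v hv.1, by rw [s_asy hX.hd h A y hv.1]; exact hv.2⟩

theorem asy_rec (la : SLA) (hX : X.OK) (h : S.OK1 X.m X.lg) (A : Asy X.m X.lg E) (I : Iv X S f)
    (y : V) (hv : v ∈ W0 S) (r : Rec X.m X.O atTop v) : f (y, E y v) ≤ f v := by
  have cw : ∀ z ∈ W0 S, ContinuousWithinAt f U z := fun z hz =>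
    (I.ct z hz).mono_of_mem_nhdsWithin (W0_nhds h hz)
  refine le_of_forall_lt_imp_le_of_dense fun q hq => ?_
  have J : Inv X.m X.O {w | w ∈ W0 S ∧ q < f w} :=
    ⟨fun z hz => hz.1.1, fun z hz => inter_mem (W0_nhds h hz.1) (cw z hz.1 (Ioi_mem_nhds hz.2)),
      fun t z hz => ⟨(I.fl t z hz.1).1, by rw [(I.fl t z hz.1).2]; exact hz.2⟩,
      fun γ z hz => ⟨(I.gr γ z hz.1).1, by rw [(I.gr γ z hz.1).2]; exact hz.2⟩⟩
  have := la X.m X.lg X.G X.O hX.hd hX.act E A _ J v hv.1 r y ⟨asy_mem hX h A y hv, hq⟩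
  exact sub_nonpos.1 (lim0 (g := fun z => q - f z) J.unit this
    (continuousWithinAt_const.sub (cw v hv)) (.of_forall fun w hw => sub_nonpos.2 hw.2.le))

theorem asy_le (la : SLA) (hX : X.OK) (h : S.OK1 X.m X.lg) (A : Asy X.m X.lg E) (I : Iv X S f)
    (den : Den fun z => Rec X.m X.O atTop z ∧ Rec X.m X.O atBot z) (y : V) (hv : v ∈ W0 S) :
    f (y, E y v) ≤ f v := by
  have c1 : ContinuousOn (fun z => (y, E y z)) (W0 S) := continuousOn_const.prodMk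
    (A.cont.comp (continuousOn_const.prodMk continuousOn_id) fun z hz => hz.1)
  have c2 : ContinuousOn (fun z => f (y, E y z) - f z) (W0 S) :=
    (I.ct.comp c1 fun z hz => asy_mem hX h A y hz).sub I.ct
  refine sub_nonpos.1 (lim0 (g := fun z => f (y, E y z) - f z) (fun z hz => hz.1) (den v hv.1)
    ((c2 v hv).mono_of_mem_nhdsWithin (W0_nhds h hv)) ?_)
  filter_upwards [W0_nhds h hv] with w hw r using sub_nonpos.2 (asy_rec la hX h A I y hw r.2.1)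

end RODD

open RODD in
theorem rODD : R_ODD := by
  intro asy _ la nw bai den ns X S ε τ θ hX h hk D ct inv
  obtain ⟨E, A⟩ := asy X.m X.lg hX.hd
  have dn := bai X.m X.lg X.G X.O hX.hd hX.act (nw X.m X.lg X.G X.O hX.hd hX.act hX.fd)
  have I := iv hX h D ct inv
  have h1 := h.o1
  have ae : ∀ y, ∀ v ∈ W0 S, θ (S.hd (y, E y v)) = θ (S.hd v) := fun y v hv =>
    le_antisymm (asy_le la hX h1 A I dn y hv) (neg_le_neg_iff.1 (asy_le la hX h1 A I.neg dn y hv))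
  have z1 : ∀ u ∈ W0 S, S.Rg X.m u → S.s u ≠ 0 → Rec X.m X.O atTop u → Rec X.m X.O atBot u →
      θ (S.hd u) = 0 := by
    intro u hu rg s0 r1 r2
    obtain ⟨w, c, hw, hc, e1, e⟩ := split h1 hu
    have ex : u.1 = w.1 := (congrArg Prod.fst e :)
    have key : ∀ b, (w.1, b) ∈ S.H → ⟪w.2, b⟫ = 0 → θ (w.1, b) = θ (S.hd u) := by
      intro b hb ob
      have ma := mv_mem h1 hb hc e1
      have ea : mv S (w.1, b) c (S.s u) = (u.1, (mv S (w.1, b) c (S.s u)).2) :=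
        Prod.ext ex.symm rfl
      obtain ⟨γ, hγ⟩ := ns X S ε τ E hX h D A u hu.1 rg s0 r1 r2 _ ma.1
        (by rw [← ea, s_mk h1 hb]) (by
          have e2 : u.2 = c • w.2 + S.s u • S.ζ w.1 := (congrArg Prod.snd e :)
          have p1 : ⟪w.2, S.ζ w.1⟫ = 0 := by rw [real_inner_comm]; exact hw.2
          have p2 : ⟪S.ζ w.1, b⟫ = 0 := hb.2
          have : ⟪u.2, (mv S (w.1, b) c (S.s u)).2⟫ = S.s u ^ 2 := by
            rw [e2]
            simp only [mv, inner_add_left, inner_add_right, inner_smul_right,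
              real_inner_smul_left, ob, p1, p2, zz h1]
            ring
          linarith [hu.2])
      rw [← ea] at hγ
      have t1 : Tendsto (fun n => (u.1, E u.1 (ac X.O (γ n) (mv S (w.1, b) c (S.s u))))) atTop
          (𝓝[W0 S] u) := tendsto_nhdsWithin_iff.2 ⟨tendsto_const_nhds.prodMk_nhds hγ,
        .of_forall fun n => asy_mem hX h1 A _ (I.gr _ _ ma).1⟩
      have t2 := (I.ct u hu).tendsto.comp t1
      refine tendsto_nhds_unique (tendsto_const_nhds.congr fun n => ?_) t2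
      show _ = θ (S.hd _)
      rw [ae _ _ (I.gr _ _ ma).1]
      exact ((I.gr (γ n) _ ma).2.trans (congrArg θ (hd_mk h1 hb hc))).symm
    have n1 : (w.1, S.n w) ∈ S.H := ⟨n_unit h1 hw, cr_left _ _⟩
    have n2 : (w.1, -S.n w) ∈ S.H := ⟨(norm_neg _).trans n1.1, by
      show ⟪S.ζ w.1, -S.n w⟫ = 0
      rw [inner_neg_right, show ⟪S.ζ w.1, S.n w⟫ = 0 from n1.2, neg_zero]⟩
    have k1 := key _ n1 (cr_right _ _)
    have k2 := key _ n2 (by rw [inner_neg_right, Sp.n, cr_right, neg_zero])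
    have k3 : θ (w.1, -S.n w) = -θ (w.1, S.n w) := (inv _ n1).2.2.2
    linarith
  have z2 : ∀ w ∈ S.H, S.Rg X.m w → θ w = 0 := by
    rintro w hw ⟨t, ht⟩
    have c0 : (0 : ℝ) < 3 / 5 := by norm_num
    have hmv : mv S w (3 / 5) (4 / 5) ∈ W0 S := mv_mem h1 hw c0 (by norm_num)
    have o1 : ∀ᶠ u in 𝓝 (mv S w (3 / 5) (4 / 5)), S.k (X.m.Z (5 / 3 * t) u).1 ≠ 0 := by
      refine (h.o3.ck.comp (hX.hd.ok.cZ.continuous.comp
        (continuous_const.prodMk continuous_id)).fst).continuousAt.eventually_ne ?_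
      show S.k (X.m.Z (5 / 3 * t) (mv S w (3 / 5) (4 / 5))).1 ≠ 0
      rw [fl_mk hX.hd.jac h.o4 hw, show 3 / 5 * (5 / 3 * t) = t by ring]
      exact (h.kT _ _).trans_ne ht
    have o2 : ∀ᶠ u in 𝓝 (mv S w (3 / 5) (4 / 5)), S.s u ≠ 0 :=
      (s_cont h1).continuousAt.eventually_ne (by rw [s_mk h1 hw]; norm_num)
    rw [← hd_mk (σ := 4 / 5) h1 hw c0]
    refine abs_nonpos_iff.1 (lim0 (g := fun z => |θ (S.hd z)|) (fun z hz => hz.1) (dn _ hmv.1)
      ((I.ct _ hmv).mono_of_mem_nhdsWithin (W0_nhds h1 hmv)).abs ?_)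
    filter_upwards [W0_nhds h1 hmv, nhdsWithin_le_nhds o1, nhdsWithin_le_nhds o2]
      with u a b c r using abs_nonpos_iff.2 (z1 u a ⟨_, b⟩ c r.2.1 r.2.2)
  intro z hz
  exact abs_nonpos_iff.1 (lim0 (g := fun z => |θ z|) (fun w hw => hw.1)
    (den X S ε τ hX h hk D z hz) (ct z hz).abs
    (.of_forall fun w hw => abs_nonpos_iff.2 (z2 w hw.1 hw.2)))

end

end Pool.Agent.MP_3ee8cb_gt.D3RH
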