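import Pool.Agent.MP_3ee8cb_gt.D3RH.Kit

/-! Flat planes through a vector give parallels through every point. -/

namespace Pool.Agent.MP_3ee8cb_gt.D3RH

open Set Filter Topology D3 D3RK D3WI
open scoped RealInnerProductSpace

namespace RPLN

variable {m : MF} {lg : V × V → V}

/-- The exponential map at `y`. -/
def ex (m : MF) (y b : V) : V := (m.Z 1 (y, b)).1

theorem dZ (ho : m.OK) (r : ℝ) (y b : V) : HasFDerivAt (fun b => (m.Z r (y, b)).1)
    ((ContinuousLinearMap.fst ℝ V V).comp ((fderiv ℝ (m.Z r) (y, b)).comp (.inr ℝ V V))) b :=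
  (HasFDerivAt.comp (f := fun e : V => (y, e)) b (Z_diff ho r (y, b)).hasFDerivAt
    (hasFDerivAt_prodMk_right (𝕜 := ℝ) y b)).fst

theorem dex (ho : m.OK) (y b : V) : HasFDerivAt (ex m y) (fderiv ℝ (ex m y) b) b :=
  (dZ ho 1 y b).differentiableAt.hasFDerivAt

theorem line (ho : m.OK) (y p v : V) (s : ℝ) :
    HasDerivAt (fun s : ℝ => ex m y (p + s • v)) (fderiv ℝ (ex m y) (p + s • v) v) s := by
  have h : HasDerivAt (fun s : ℝ => p + s • v) v s := by
    simpa using ((hasDerivAt_id s).smul_const v).const_add p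
  exact (dex ho y (p + s • v)).comp_hasDerivAt s h

theorem ex_smul (hj : m.Jac) (y w : V) (r : ℝ) : ex m y (r • w) = (m.Z r (y, w)).1 := by
  rw [ex, one_smul' hj r (y, w)]

theorem rad (ho : m.OK) (hj : m.Jac) (y w : V) (r : ℝ) :
    m.S (ex m y (r • w)) (fderiv ℝ (ex m y) (r • w) w) = (m.Z r (y, w)).2 := by
  have h := line ho y 0 w r
  simp only [zero_add, ex_smul hj] at h
  rw [h.unique (d_foot ho (y, w) r), ex_smul hj, ho.SR]

theorem tan (ho : m.OK) (hj : m.Jac) (y w e : V) (r : ℝ) :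
    m.S (ex m y (r • w)) (fderiv ℝ (ex m y) (r • w) (r • e)) = m.J (y, w) (0, e) r := by
  have h := HasFDerivAt.comp (f := fun b : V => r • b) w (dex ho y (r • w))
    ((hasFDerivAt_id w).const_smul r)
  have h2 : ex m y ∘ (fun b : V => r • b) = fun b => (m.Z r (y, b)).1 :=
    funext fun b => ex_smul hj y b r
  rw [h2] at h
  have h3 : fderiv ℝ (ex m y) (r • w) (r • e) = (fderiv ℝ (m.Z r) (y, w) (0, e)).1 :=
    DFunLike.congr_fun (h.unique (dZ ho r y w)) e
  rw [h3, ex_smul hj]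
  rfl

theorem key (ho : m.OK) (hj : m.Jac) {y z : V}
    (H : ∀ w : V, ‖w‖ = 1 → ∀ t, ‖m.J (y, w) (0, z - ⟪w, z⟫ • w) t‖ ≤ |t| * ‖z - ⟪w, z⟫ • w‖)
    (b : V) (α β : ℝ) :
    ‖m.S (ex m y b) (fderiv ℝ (ex m y) b (α • b + β • z))‖ ≤ ‖α • b + β • z‖ := by
  by_cases hb : b = 0
  · have h := rad ho hj y (α • b + β • z) 0
    rw [zero_smul, ho.zero] at h
    rw [hb] at h ⊢
    rw [h]
  obtain ⟨r, w, r0, hw, rfl⟩ : ∃ (r : ℝ) (w : V), 0 < r ∧ ‖w‖ = 1 ∧ b = r • w :=
    ⟨‖b‖, ‖b‖⁻¹ • b, norm_pos_iff.2 hb, norm_smul_inv_norm hb,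
      (smul_inv_smul₀ (norm_ne_zero_iff.2 hb) b).symm⟩
  have h1 := H w hw r
  have o1 : ⟪w, z - ⟪w, z⟫ • w⟫ = 0 := by
    rw [inner_sub_right, inner_smul_right, real_inner_self_eq_norm_sq, hw]; ring
  have e1 : α • r • w + β • z = (α * r + β * ⟪w, z⟫) • w + β • (z - ⟪w, z⟫ • w) := by module
  rw [e1]
  generalize z - ⟪w, z⟫ • w = e at h1 o1 ⊢
  generalize α * r + β * ⟪w, z⟫ = k
  have o2 := J_vel ho hj (y, w) (0, e) r
  have o3 : m.hor (y, w) (0, e) = 0 := (m.S y).map_zero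
  have o4 : m.ver (y, w) (0, e) = e := by simp [MF.ver]
  rw [o3, o4, inner_zero_left, real_inner_comm w e, o1, mul_zero, add_zero] at o2
  have e2 : β • e = (β / r) • r • e := by rw [smul_smul, div_mul_cancel₀ _ r0.ne']
  have n1 : ‖(m.Z r (y, w)).2‖ = 1 := (hj.norm r _).trans hw
  have e3 : m.S (ex m y (r • w)) (fderiv ℝ (ex m y) (r • w) (k • w + β • e)) =
      k • (m.Z r (y, w)).2 + (β / r) • m.J (y, w) (0, e) r := by
    rw [e2, map_add, map_add, map_smul, map_smul, rad ho hj, map_smul _ (β / r), map_smul,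
      tan ho hj]
  rw [e3]
  refine (sq_le_sq₀ (norm_nonneg _) (norm_nonneg _)).1 ?_
  rw [norm_add_sq_real, norm_add_sq_real, inner_smul_left, inner_smul_right, inner_smul_left,
    inner_smul_right, real_inner_comm, o2, o1, norm_smul, norm_smul, norm_smul, norm_smul, n1, hw]
  have h2 : ‖β / r‖ * ‖m.J (y, w) (0, e) r‖ ≤ ‖β‖ * ‖e‖ := by
    rw [norm_div, Real.norm_eq_abs r, div_mul_eq_mul_div, div_le_iff₀ (abs_pos.2 r0.ne')]
    nlinarith [mul_le_mul_of_nonneg_left h1 (norm_nonneg β)]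
  have h3 := pow_le_pow_left₀ (by positivity) h2 2
  simpa using h3

end RPLN

open RPLN in
theorem rPLN : R_PLN := by
  intro geo len m lg hd y z hz H x
  have seg : ∀ p v : V, (∀ s ∈ Ioo (0 : ℝ) 1, ∃ α β : ℝ, v = α • (p + s • v) + β • z) →
      ‖lg (ex m y p, ex m y (p + v))‖ ≤ ‖v‖ := fun p v hv => by
    have h := len m lg hd (fun s => ex m y (p + s • v))
      (fun s => fderiv ℝ (ex m y) (p + s • v) v) ‖v‖
      (fun s _ => (line hd.ok y p v s).continuousAt.continuousWithinAt) fun s hs =>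
        ⟨line hd.ok y p v s, by
          obtain ⟨α, β, e⟩ := hv s hs
          have k := key hd.ok hd.jac H (p + s • v) α β
          rwa [← e] at k⟩
    simpa using h
  obtain ⟨a, ha⟩ : ∃ a, ex m y a = x := ⟨_, hd.had.ex y x⟩
  obtain ⟨u, hu, e⟩ := (geo m lg hd).1 (fun t => ex m y (a + t • z)) fun s t => by
    have n : ‖(t - s) • z‖ = |s - t| := by
      rw [norm_smul, hz, mul_one, Real.norm_eq_abs, abs_sub_comm]
    have h1 := seg (a + s • z) ((t - s) • z) fun _ _ => ⟨0, t - s, by rw [zero_smul, zero_add]⟩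
    have h2 := hd.had.hinge y (a + s • z) (a + t • z)
    rw [show a + s • z + (t - s) • z = a + t • z by module, n] at h1
    rw [show a + s • z - (a + t • z) = -((t - s) • z) by module, norm_neg, n] at h2
    exact le_antisymm h1 h2
  have e0 := e 0
  simp only [zero_smul, add_zero, ha, hd.ok.zero] at e0
  refine ⟨u.2, hu, ‖a‖, fun t => ?_⟩
  have h := seg (t • z) a fun s hs => ⟨s⁻¹, -(s⁻¹ * t), by
    rw [smul_add, inv_smul_smul₀ hs.1.ne']; module⟩
  rw [ds, e0, lg_symm hd.jac hd.had, ← e t, ← ex_smul hd.jac, add_comm a]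
  exact h

end Pool.Agent.MP_3ee8cb_gt.D3RH
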