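import Pool.Agent.MP_3ee8cb_gt.D3RH.Kit

/-! The integral over the sphere of a function with nonpositive means on the circles. -/

namespace Pool.Agent.MP_3ee8cb_gt.D3RH

open Set Filter Topology D3 MeasureTheory Metric
open scoped RealInnerProductSpace Pointwise

noncomputable section

namespace RRT

/-- A linear isometry acts on the sphere. -/
def sm (L : V ≃ₗᵢ[ℝ] V) : sphere (0 : V) 1 ≃ₜ sphere (0 : V) 1 where
  toFun a := ⟨L a, by simp⟩
  invFun a := ⟨L.symm a, by simp⟩
  left_inv a := Subtype.ext (L.symm_apply_apply a)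
  right_inv a := Subtype.ext (L.apply_symm_apply a)
  continuous_toFun := (L.continuous.comp continuous_subtype_val).subtype_mk _
  continuous_invFun := (L.symm.continuous.comp continuous_subtype_val).subtype_mk _

theorem sm_mp (L : V ≃ₗᵢ[ℝ] V) :
    MeasurePreserving (sm L) (volume : Measure V).toSphere (volume : Measure V).toSphere := by
  refine ⟨(sm L).continuous.measurable, Measure.ext fun s hs => ?_⟩
  rw [Measure.map_apply (sm L).continuous.measurable hs, Measure.toSphere_apply' _ hs,
    Measure.toSphere_apply' _ ((sm L).continuous.measurable hs),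
    ← L.measurePreserving.measure_preimage_emb L.toHomeomorph.measurableEmbedding
      (Ioo (0 : ℝ) 1 • (Subtype.val '' s))]
  refine congrArg _ (congrArg _ (Set.ext fun x => ⟨?_, ?_⟩))
  · rintro ⟨r, hr, _, ⟨a, ha, rfl⟩, rfl⟩
    exact ⟨r, hr, _, ⟨sm L a, ha, rfl⟩, (L.map_smul r a).symm⟩
  · rintro ⟨r, hr, _, ⟨a, ha, rfl⟩, e⟩
    refine ⟨r, hr, _, ⟨(sm L).symm a, by simpa using ha, rfl⟩, L.injective ?_⟩
    rw [← e]
    exact (L.map_smul r _).trans (congrArg _ (L.apply_symm_apply _))

theorem sph_iso (L : V ≃ₗᵢ[ℝ] V) (G : V → ℝ) : sph (fun a => G (L a)) = sph G :=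
  (sm_mp L).integral_comp (sm L).measurableEmbedding fun a => G a

/-- The rotation about `ζ`. -/
def rot (ζ : V) (θ : ℝ) (a : V) : V :=
  ⟪ζ, a⟫ • ζ + Real.cos θ • (a - ⟪ζ, a⟫ • ζ) + Real.sin θ • cr ζ a

theorem rot_norm {ζ : V} (h : ‖ζ‖ = 1) (θ : ℝ) (a : V) : ‖rot ζ θ a‖ = ‖a‖ := by
  have e1 : ⟪ζ, ζ⟫ = (1 : ℝ) := by rw [real_inner_self_eq_norm_sq, h]; norm_num
  have e2 := cr_inner ζ a ζ a
  have e3 := cr_left ζ a
  have e4 := cr_right ζ a
  have e5 := Real.sin_sq_add_cos_sq θ
  refine (sq_eq_sq₀ (norm_nonneg _) (norm_nonneg _)).1 ?_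
  rw [← real_inner_self_eq_norm_sq, ← real_inner_self_eq_norm_sq]
  simp only [rot, inner_add_left, inner_add_right, inner_sub_left, inner_sub_right,
    real_inner_smul_left, real_inner_smul_right, e1, e2, e3, e4, real_inner_comm ζ (cr ζ a),
    real_inner_comm a (cr ζ a), real_inner_comm ζ a]
  linear_combination (⟪a, a⟫ - ⟪ζ, a⟫ ^ 2) * e5

/-- The rotation as a linear isometry. -/
def rotL {ζ : V} (h : ‖ζ‖ = 1) (θ : ℝ) : V ≃ₗᵢ[ℝ] V :=
  LinearIsometry.toLinearIsometryEquiv
    { toFun := rot ζ θ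
      map_add' := fun a b => by
        simp only [rot, inner_add_right, cr_add_right]; module
      map_smul' := fun r a => by
        simp only [rot, real_inner_smul_right, cr_smul_right, RingHom.id_apply]; module
      norm_map' := rot_norm h θ } rfl

theorem rotL_apply {ζ : V} (h : ‖ζ‖ = 1) (θ : ℝ) (a : V) : rotL h θ a = rot ζ θ a :=
  LinearIsometry.toLinearIsometryEquiv_apply _ _ _

theorem rot_cont (ζ : V) : Continuous fun p : ℝ × sphere (0 : V) 1 => rot ζ p.1 p.2 := by
  have c : Continuous fun p : ℝ × sphere (0 : V) 1 => cr ζ p.2 :=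
    (crL ζ).continuous.comp (continuous_subtype_val.comp continuous_snd)
  unfold rot
  fun_prop

theorem sph_rot {ζ : V} (h : ‖ζ‖ = 1) (θ : ℝ) (G : V → ℝ) :
    ∫ a : sphere (0 : V) 1, G (rot ζ θ a) ∂(volume : Measure V).toSphere = sph G := by
  rw [← sph_iso (rotL h θ) G]
  simp only [rotL_apply, sph]

theorem int_of {f : ℝ × sphere (0 : V) 1 → ℝ} (c : Continuous f) (b : ℝ) :
    Integrable f ((volume.restrict (Ioc 0 b)).prod (volume : Measure V).toSphere) := by
  have j : IntegrableOn f (Icc 0 b ×ˢ univ) (volume.prod (volume : Measure V).toSphere) :=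
    c.continuousOn.integrableOn_compact (isCompact_Icc.prod isCompact_univ)
  have k := j.mono_set (prod_mono Ioc_subset_Icc_self subset_rfl)
  rwa [IntegrableOn, ← Measure.prod_restrict, Measure.restrict_univ] at k

end RRT

open RRT

theorem rRT : SRT := by
  intro ζ G hz hG h
  have p : (0 : ℝ) ≤ 2 * Real.pi := by positivity
  have c : Continuous (G ∘ fun q : ℝ × sphere (0 : V) 1 => rot ζ q.1 q.2) :=
    hG.comp_continuous (rot_cont ζ) fun q => (rot_norm hz _ _).trans (by simp)
  have e := integral_integral_swap (f := fun θ (a : sphere (0 : V) 1) => G (rot ζ θ a))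
    (int_of c (2 * Real.pi))
  have r : ∫ a : sphere (0 : V) 1, (∫ θ in Ioc 0 (2 * Real.pi), G (rot ζ θ a))
      ∂(volume : Measure V).toSphere ≤ 0 :=
    integral_nonpos fun a => by
      have k := h a (by simp)
      rw [intervalIntegral.integral_of_le p] at k
      exact k
  rw [← e] at r
  simp only [sph_rot hz, integral_const, smul_eq_mul, Measure.restrict_apply_univ,
    measureReal_def, Real.volume_Ioc, sub_zero, ENNReal.toReal_ofReal p] at r
  by_contra n
  exact absurd r (not_le.2 (mul_pos (by positivity) (not_le.1 n)))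

end

end Pool.Agent.MP_3ee8cb_gt.D3RH
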