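import Pool.Agent.MP_3ee8cb_gt.D3RH.Kit
import Pool.Agent.MP_3ee8cb_gt.D3RK.RSTR

/-! The metric part of the splitting. -/

namespace Pool.Agent.MP_3ee8cb_gt.D3RH

open Set Filter Topology D3 D3RK D3WI
open scoped RealInnerProductSpace

namespace RS1

variable {m : MF} {lg : V × V → V}

theorem par_symm (H : Hd m lg) {z w : V × V} (h : Par m lg z w) : Par m lg w z :=
  h.imp fun _ hD t => (lg_symm H.jac H.had _ _).trans_le (hD t)

theorem par_trans (H : Hd m lg) {z w u : V × V} (h : Par m lg z w) (k : Par m lg w u) :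
    Par m lg z u := by
  obtain ⟨D, hD⟩ := h
  obtain ⟨D', hD'⟩ := k
  exact ⟨D + D', fun t => (H.had.tri _ (m.Z t w).1 _).trans (add_le_add (hD t) (hD' t))⟩

theorem par_fl (H : Hd m lg) (r : ℝ) (z : V × V) : Par m lg (m.Z r z) z :=
  ⟨|r| * ‖z.2‖, fun t => by
    rw [ds, ← H.ok.add, dist_geo H.ok H.jac H.had, sub_add_cancel_left, abs_neg]⟩

theorem der (H : Hd m lg) {c c' : ℝ → V} {u u' : V} {r : ℝ} (h : HasDerivAt c u r)
    (h' : HasDerivAt c' u' r) : HasDerivAt (fun s => ‖lg (c s, c' s)‖ ^ 2 / 2)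
      (-⟪lg (c r, c' r), m.S (c r) u⟫ - ⟪lg (c' r, c r), m.S (c' r) u'⟫) r := by
  have d : Differentiable ℝ fun q => ‖lg q‖ ^ 2 / 2 :=
    ((H.had.c1.norm_sq ℝ).div_const 2).differentiable one_ne_zero
  exact ((d (c r, c' r)).hasFDerivAt.comp_hasDerivAt r (h.prodMk h')).congr_deriv
    (H.had.grad (c r, c' r) (u, u'))

theorem sq (H : Hd m lg) (x y q : V) :
    ‖lg (x, q)‖ ^ 2 - 2 * ⟪lg (x, y), lg (x, q)⟫ ≤ ‖lg (y, q)‖ ^ 2 := by
  have h := pow_le_pow_left₀ (norm_nonneg _) (hinge' H.had x y q) 2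
  rw [norm_sub_sq_real] at h
  linarith [sq_nonneg ‖lg (x, y)‖]

end RS1

open RS1 in
theorem rS1 : R_S1 := by
  intro cv asy stp m lg H v hv fu
  obtain ⟨E, hE⟩ := asy m lg H
  obtain ⟨ζ, hζ⟩ : ∃ ζ : V → V, ∀ x, ζ x = E x v := ⟨_, fun _ => rfl⟩
  have un : ∀ x, ‖ζ x‖ = 1 := fun x => hζ x ▸ hE.unit x v hv
  have p0 : ∀ x, Par m lg (x, ζ x) v := fun x => by
    obtain ⟨a, ha, D, hD⟩ := fu x
    rw [hζ, ← hE.uniq x a ha v hv ⟨D, fun t _ => hD t⟩]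
    exact ⟨D, hD⟩
  have uq : ∀ z, Par m lg z v → z.2 = ζ z.1 := fun z h => by
    obtain ⟨D, hD⟩ := par_trans H h (par_symm H (p0 z.1))
    exact (congrArg Prod.snd (RSTR.same cv H (z := z) (w := (z.1, ζ z.1)) rfl hD)).symm
  have fl : ∀ r x, (m.Z r (x, ζ x)).2 = ζ (m.Z r (x, ζ x)).1 := fun r x =>
    uq _ (par_trans H (par_fl H r _) (p0 x))
  have iso : ∀ r x y, ‖lg ((m.Z r (x, ζ x)).1, (m.Z r (y, ζ y)).1)‖ = ‖lg (x, y)‖ := fun r x y =>
    (stp m lg H (x, ζ x) (un x) (y, ζ y) (un y) (par_trans H (p0 x) (par_symm H (p0 y)))).1 r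
  have an : ∀ x y, ⟪lg (y, x), ζ y⟫ = -⟪lg (x, y), ζ x⟫ := fun x y => by
    have h := der H (d_foot H.ok (x, ζ x) 0) (d_foot H.ok (y, ζ y) 0)
    simp only [iso, H.ok.SR, H.ok.zero] at h
    linarith [h.unique (hasDerivAt_const _ _)]
  have cy : ∀ x y p, 0 ≤ ⟪lg (x, y), ζ x⟫ + ⟪lg (y, p), ζ y⟫ + ⟪lg (p, x), ζ p⟫ := fun x y p => by
    have l : ∀ a b, Tendsto (fun T : ℝ => ⟪lg (a, b), T⁻¹ • lg (a, (m.Z T v).1)⟫) atTop
        (𝓝 ⟪lg (a, b), ζ a⟫) := fun a b => tendsto_const_nhds.inner (hζ a ▸ hE.lim a v hv)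
    refine ge_of_tendsto (((l x y).add (l y p)).add (l p x))
      ((eventually_gt_atTop 0).mono fun T hT => ?_)
    simp only [real_inner_smul_right, ← mul_add]
    refine mul_nonneg (inv_pos.2 hT).le ?_
    linarith [sq H x y (m.Z T v).1, sq H y p (m.Z T v).1, sq H p x (m.Z T v).1]
  obtain ⟨h, hh⟩ : ∃ h : V → ℝ, ∀ x, h x = ⟪lg (v.1, x), ζ v.1⟫ := ⟨_, fun _ => rfl⟩
  have gh : ∀ x y, ⟪lg (x, y), ζ x⟫ = h y - h x := fun x y => by
    rw [hh, hh]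
    linarith [cy v.1 x y, cy v.1 y x, an x y, an v.1 x, an v.1 y]
  have ht : ∀ t (z : V × V), h (m.Z t z).1 = h z.1 + t * ⟪ζ z.1, z.2⟫ := fun t z => by
    have := gh z.1 (m.Z t z).1
    rw [lg_ray H.jac H.had, real_inner_smul_left, real_inner_comm] at this
    linarith
  refine ⟨ζ, h, (uq v ⟨0, fun t => ?_⟩).symm, fun k P => ⟨un, ?_, fl,
    fun z _ x hp => uq z (par_trans H hp (p0 x)), iso, fun t z => ?_, ht, fun r x y => ?_⟩⟩
  · rw [ds, lg_self H.ok H.jac H.had, norm_zero]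
  · rw [show ζ = fun x => E x v from funext hζ]
    exact hE.cont.comp_continuous (continuous_id.prodMk continuous_const) fun _ => hv
  · have h1 := ht 1 (m.Z t z)
    rw [← H.ok.add, ht, ht] at h1
    show ⟪ζ (m.Z t z).1, (m.Z t z).2⟫ = ⟪ζ z.1, z.2⟫
    linarith
  · have d : ∀ s, HasDerivAt (fun s => ‖lg (x, (m.Z s (y, ζ y)).1)‖ ^ 2 / 2 -
        (s * (h y - h x) + s ^ 2 / 2)) 0 s := fun s => by
      have h1 := der H (hasDerivAt_const s x) (d_foot H.ok (y, ζ y) s)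
      have h2 := ht s (y, ζ y)
      rw [real_inner_self_eq_norm_sq, un] at h2
      rw [map_zero, inner_zero_right, H.ok.SR, fl, gh, h2] at h1
      refine (h1.sub (((hasDerivAt_id' s).mul_const _).add
        ((hasDerivAt_pow 2 s).div_const 2))).congr_deriv ?_
      simp only [Nat.cast_ofNat, Nat.add_one_sub_one, pow_one]
      ring
    have := is_const_of_deriv_eq_zero (fun s => (d s).differentiableAt) (fun s => (d s).deriv) r 0
    rw [H.ok.zero] at this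
    show ‖lg (x, (m.Z r (y, ζ y)).1)‖ ^ 2 = ‖lg (x, y)‖ ^ 2 + 2 * r * (h y - h x) + r ^ 2
    linarith

end Pool.Agent.MP_3ee8cb_gt.D3RH
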