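import Pool.Agent.MP_3ee8cb_gt.D3RH.Kit

/-! The field of a metric splitting is parallel. -/

namespace Pool.Agent.MP_3ee8cb_gt.D3RH

open Set Filter Topology D3 D3RK
open scoped RealInnerProductSpace

namespace RS2

variable {m : MF} {lg : V × V → V} {S : Sp}

theorem key (hl : m.Had lg) (h : S.OK1 m lg) (x p : V) :
    ⟪S.ζ x, lg (x, p)⟫ = S.h p - S.h x := by
  have e := h.ht 1 (x, lg (x, p))
  rw [hl.ex, one_mul] at e
  rw [e, add_sub_cancel_left]
  rfl

theorem ch (hl : m.Had lg) (h : S.OK1 m lg) : ContDiff ℝ 1 S.h := by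
  have e : S.h = fun p => ⟪S.ζ 0, lg (0, p)⟫ + S.h 0 :=
    funext fun p => by rw [key hl h, sub_add_cancel]
  rw [e]
  exact (contDiff_const.inner ℝ (hl.c1.comp (contDiff_const.prodMk contDiff_id))).add
    contDiff_const

theorem foot0 (ho : m.OK) (x a : V) : HasDerivAt (fun s => (m.Z s (x, a)).1) (m.R x a) 0 := by
  have e := d_foot ho (x, a) 0
  rwa [ho.zero] at e

theorem dh (ho : m.OK) (hl : m.Had lg) (h : S.OK1 m lg) (x u : V) :
    fderiv ℝ S.h x u = ⟪S.ζ x, m.S x u⟫ := by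
  have d1 := ((ch hl h).differentiable one_ne_zero x).hasFDerivAt.comp_hasDerivAt_of_eq 0
    (foot0 ho x (m.S x u)) (by rw [ho.zero])
  rw [ho.RS] at d1
  have d2 : HasDerivAt (fun t : ℝ => S.h x + t * ⟪S.ζ x, m.S x u⟫) (1 * ⟪S.ζ x, m.S x u⟫) 0 :=
    ((hasDerivAt_id (0 : ℝ)).mul_const _).const_add _
  rw [one_mul] at d2
  exact d1.unique (d2.congr_of_eventuallyEq (Eventually.of_forall fun t => h.ht t (x, m.S x u)))

theorem c1 (hl : m.Had lg) (h : S.OK1 m lg) : ContDiff ℝ 1 S.ζ := by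
  refine contDiff_iff_contDiffAt.2 fun x₀ => ?_
  let e : Fin 3 → V := fun i => EuclideanSpace.single i 1
  let p : Fin 3 → V := fun i => (m.Z 1 (x₀, e i)).1
  let M : V → V →L[ℝ] V := fun x => ∑ i, (innerSL ℝ (lg (x, p i))).smulRight (e i)
  let b : V → V := fun x => ∑ i, (S.h (p i) - S.h x) • e i
  have cM : ContDiff ℝ 1 M := ContDiff.sum fun i _ =>
    ((innerSL ℝ).contDiff.comp (hl.c1.comp (contDiff_id.prodMk contDiff_const))).smulRight
      contDiff_const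
  have cb : ContDiff ℝ 1 b := ContDiff.sum fun i _ =>
    (contDiff_const.sub (ch hl h)).smul contDiff_const
  have Mb : ∀ x, M x (S.ζ x) = b x := fun x => by
    simp only [M, b, sum_apply, ContinuousLinearMap.smulRight_apply,
      innerSL_apply_apply]
    exact Finset.sum_congr rfl fun i _ => by rw [real_inner_comm, key hl h]
  have M0 : M x₀ = 1 := by
    refine ContinuousLinearMap.ext fun v => ?_
    simp only [M, p, hl.xe, sum_apply, ContinuousLinearMap.smulRight_apply,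
      innerSL_apply_apply, one_apply_eq_self]
    exact ext3 (by simp [e, Fin.sum_univ_three, inn]) (by simp [e, Fin.sum_univ_three, inn])
      (by simp [e, Fin.sum_univ_three, inn])
  have ci : ContDiffAt ℝ 1 (fun x => Ring.inverse (M x)) x₀ := by
    have k := contDiffAt_ringInverse ℝ (n := 1) (1 : (V →L[ℝ] V)ˣ)
    rw [Units.val_one, ← M0] at k
    exact k.comp x₀ cM.contDiffAt
  have hu : ∀ᶠ x in 𝓝 x₀, IsUnit (M x) :=
    cM.continuous.continuousAt.eventually (Units.isOpen.mem_nhds (M0 ▸ isUnit_one))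
  refine (ci.clm_apply cb.contDiffAt).congr_of_eventuallyEq (hu.mono fun x hx => ?_)
  have k := Ring.inverse_mul_cancel _ hx
  show S.ζ x = Ring.inverse (M x) (b x)
  rw [← Mb, ← mul_apply_eq_comp, k, one_apply_eq_self]

theorem par (h : S.OK1 m lg) (x y : V) : Par m lg (x, S.ζ x) (y, S.ζ y) :=
  ⟨_, fun t => (h.iso t x y).le⟩

/-- The translates of a segment. -/
theorem seg (hd : Hd m lg) (h : S.OK1 m lg) (x y : V) (q : ℝ) (v : V × V) (hv : v ∈ U)
    (s4 : ∀ t, (m.Z t v).1 = (m.Z q (S.T m t x, lg (S.T m t x, S.T m t y))).1) :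
    v = ((m.Z q (x, lg (x, y))).1, S.ζ (m.Z q (x, lg (x, y))).1) := by
  have v1 := s4 0
  rw [hd.ok.zero, T_zero hd.ok, T_zero hd.ok] at v1
  have v2 := h.uq v hv x ⟨|q| * ‖lg (x, y)‖, fun t => by
    have k := D3WI.lg_ray hd.jac hd.had q (S.T m t x, lg (S.T m t x, S.T m t y))
    show ‖lg ((m.Z t v).1, S.T m t x)‖ ≤ _
    rw [s4, D3WI.lg_symm hd.jac hd.had, k, norm_smul, Real.norm_eq_abs, h.iso]⟩
  rw [← v1, ← v2]

theorem jac (hd : Hd m lg) (h : S.OK1 m lg) (x u y : V) (hy : lg (x, y) = m.S x u)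
    (s2 : ∀ q ∈ Icc (0 : ℝ) 1, ∃ v ∈ U, ∀ t,
      (m.Z t v).1 = (m.Z q (S.T m t x, lg (S.T m t x, S.T m t y))).1) (t : ℝ) :
    m.J (x, S.ζ x) (u, fderiv ℝ S.ζ x u) t = lg (S.T m t x, S.T m t y) := by
  have ho := hd.ok
  have dp := foot0 ho x (m.S x u)
  rw [ho.RS] at dp
  have dz : HasDerivAt (fun q => S.ζ (m.Z q (x, m.S x u)).1) (fderiv ℝ S.ζ x u) 0 :=
    ((c1 hd.had h).differentiable one_ne_zero x).hasFDerivAt.comp_hasDerivAt_of_eq 0 dp
      (by rw [ho.zero])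
  have d1 : HasDerivAt (fun q => (m.Z t ((m.Z q (x, m.S x u)).1, S.ζ (m.Z q (x, m.S x u)).1)).1)
      (fderiv ℝ (m.Z t) (x, S.ζ x) (u, fderiv ℝ S.ζ x u)).1 0 :=
    ((D3WI.Z_diff ho t (x, S.ζ x)).hasFDerivAt.comp_hasDerivAt_of_eq 0 (dp.prodMk dz)
      (by rw [ho.zero])).fst
  have d2 := foot0 ho (S.T m t x) (lg (S.T m t x, S.T m t y))
  have k := (uniqueDiffOn_Icc zero_lt_one 0 ⟨le_rfl, zero_le_one⟩).eq_deriv _
    d1.hasDerivWithinAt (d2.hasDerivWithinAt.congr_of_mem (fun q hq => by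
      obtain ⟨v, hv, s4⟩ := s2 q hq
      rw [← s4, seg hd h x y q v hv s4, hy]) ⟨le_rfl, zero_le_one⟩)
  show m.S (S.T m t x) (fderiv ℝ (m.Z t) (x, S.ζ x) (u, fderiv ℝ S.ζ x u)).1 = _
  rw [k, ho.SR]

end RS2

theorem rS2 : R_S2 := by
  intro hS m lg hd S h
  have ho := hd.ok
  have hj := hd.jac
  have hl := hd.had
  have st := fun x y : V => hS m lg hd (x, S.ζ x) (h.unit x) (y, S.ζ y) (h.unit y) (RS2.par h x y)
  refine ⟨RS2.c1 hl h, RS2.ch hl h, RS2.dh ho hl h, fun x u => ?_, fun x a => ?_⟩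
  · obtain ⟨-, s2, η, s3⟩ := st x (m.Z 1 (x, m.S x u)).1
    have e : m.J (x, S.ζ x) (u, fderiv ℝ S.ζ x u) = m.J (x, S.ζ x) η := funext fun t =>
      (RS2.jac hd h x u _ (hl.xe _ _) s2 t).trans (s3 t).1.symm
    have d1 := hj.d1 (x, S.ζ x) (u, fderiv ℝ S.ζ x u) 0
    rw [e] at d1
    have k := d1.unique (hj.d1 (x, S.ζ x) η 0)
    rw [sub_left_inj, (s3 0).2, D3WI.J'_zero ho] at k
    exact eq_neg_of_add_eq_zero_left k
  · obtain ⟨-, -, η, s3⟩ := st x (m.Z 1 (x, a)).1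
    have d2 := hj.d2 (x, S.ζ x) η 0
    have e : m.J' (x, S.ζ x) η = fun _ => 0 := funext fun t => (s3 t).2
    rw [(s3 0).1, e] at d2
    have k := d2.unique (hasDerivAt_const 0 0)
    simp only [ho.zero, hl.xe, map_zero, sub_zero, neg_eq_zero] at k
    exact k

end Pool.Agent.MP_3ee8cb_gt.D3RH
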