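import Pool.Agent.MP_3ee8cb_gt.D3RH.Kit

/-! The curvature tensor of a space with a flat direction field. -/

namespace Pool.Agent.MP_3ee8cb_gt.D3RH

open Set Filter Topology D3 D3RK
open scoped RealInnerProductSpace

namespace RS3

theorem null {B : V →L[ℝ] V} (sy : ∀ a b, ⟪B a, b⟫ = ⟪a, B b⟫) (ps : ∀ a, 0 ≤ ⟪B a, a⟫) {e : V}
    (he : ⟪B e, e⟫ = 0) (v : V) : ⟪B e, v⟫ = 0 := by
  by_contra h
  have k := ps (v + (-(⟪B v, v⟫ + 1) / (2 * ⟪B e, v⟫)) • e)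
  have s : ⟪B v, e⟫ = ⟪B e, v⟫ := by rw [sy, real_inner_comm]
  rw [map_add, map_smul, inner_add_left, inner_add_right, inner_add_right, real_inner_smul_left,
    real_inner_smul_left, inner_smul_right, inner_smul_right, he, s] at k
  have e1 : -(⟪B v, v⟫ + 1) / (2 * ⟪B e, v⟫) * ⟪B e, v⟫ = -(⟪B v, v⟫ + 1) / 2 := by field_simp
  rw [e1] at k
  linarith

theorem rank {B : V →L[ℝ] V} (sy : ∀ a b, ⟪B a, b⟫ = ⟪a, B b⟫) (ps : ∀ a, 0 ≤ ⟪B a, a⟫) {z : V}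
    (hz : ‖z‖ = 1) (h : ∀ a, ⟪B (cr a z), cr a z⟫ = 0) (u v : V) :
    ⟪B u, v⟫ = ⟪B z, z⟫ * ⟪z, u⟫ * ⟪z, v⟫ := by
  have z1 : ⟪z, z⟫ = (1 : ℝ) := by rw [real_inner_self_eq_norm_sq, hz]; norm_num
  have d : ∀ u : V, u = ⟪z, u⟫ • z + cr (cr z u) z := fun u => by
    rw [cr_comm, cr_cr, z1, one_smul]; abel
  have k : ∀ u v : V, ⟪B u, v⟫ = ⟪z, u⟫ * ⟪B z, v⟫ := fun u v => by
    conv_lhs => rw [d u]
    rw [map_add, map_smul, inner_add_left, real_inner_smul_left, null sy ps (h _), add_zero]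
  rw [k u v, sy z v, real_inner_comm (B v) z, k v z]
  ring

theorem onto (e : V) : ∃ a b, e = cr a b := by
  obtain ⟨b, hb, h⟩ := ex_perp e
  refine ⟨cr b e, b, ?_⟩
  rw [cr_comm, cr_cr, real_inner_comm, h, real_inner_self_eq_norm_sq, hb]
  simp

end RS3

open RS3 in
theorem rS3 : R_S3 := by
  intro sop m lg hd ζ _ hu h0
  have key : ∀ x, ∃ k : ℝ, 0 ≤ k ∧ ∀ a b c d,
      ⟪m.K x a b c, d⟫ = k * ⟪ζ x, cr a b⟫ * ⟪ζ x, cr c d⟫ := fun x => by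
    obtain ⟨B, sy, hB⟩ := sop m hd.jac x
    have ps : ∀ e, 0 ≤ ⟪B e, e⟫ := fun e => by
      obtain ⟨a, b, rfl⟩ := onto e
      have := hd.up x a b
      rwa [zero_mul, hB, cr_comm b a, inner_neg_right, neg_neg] at this
    refine ⟨⟪B (ζ x), ζ x⟫, ps _, fun a b c d => ?_⟩
    rw [hB]
    refine rank sy ps (hu x) (fun a => ?_) _ _
    have := hB a (ζ x) (ζ x) a
    rw [h0, inner_zero_left, cr_comm (ζ x) a, inner_neg_right] at this
    linarith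
  choose k k0 hk using key
  have cK : ∀ a b : V, Continuous fun x => ⟪m.K x a b b, a⟫ := fun a b =>
    (hd.jac.cK.comp (continuous_id.prodMk (continuous_const (y := (a, b, b))))).inner
      continuous_const
  refine ⟨k, fun h P => ⟨?_, k0, fun x a b c => ext_inner_right ℝ fun d => ?_⟩⟩
  · have e : k = fun x => -(⟪m.K x !₂[1, 0, 0] !₂[0, 1, 0] !₂[0, 1, 0], !₂[1, 0, 0]⟫ +
        ⟪m.K x !₂[1, 0, 0] !₂[0, 0, 1] !₂[0, 0, 1], !₂[1, 0, 0]⟫ +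
        ⟪m.K x !₂[0, 1, 0] !₂[0, 0, 1] !₂[0, 0, 1], !₂[0, 1, 0]⟫) := by
      funext x
      have n : ζ x 0 * ζ x 0 + ζ x 1 * ζ x 1 + ζ x 2 * ζ x 2 = 1 := by
        rw [← inn, real_inner_self_eq_norm_sq, hu]; norm_num
      rw [hk, hk, hk]
      simp only [inn, cr0, cr1, cr2]
      simp
      linear_combination (-k x) * n
    show Continuous k
    rw [e]
    exact (((cK _ _).add (cK _ _)).add (cK _ _)).neg
  · show ⟪m.K x a b c, d⟫ = ⟪(k x * ⟪ζ x, cr a b⟫) • cr (ζ x) c, d⟫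
    rw [hk, real_inner_smul_left, cr_cyc (ζ x) c d]

end Pool.Agent.MP_3ee8cb_gt.D3RH
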