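import Pool.Agent.MP_3ee8cb_gt.D3RH.Kit

/-! The translations of a splitting act on geodesics. -/

namespace Pool.Agent.MP_3ee8cb_gt.D3RH

open Set Filter Topology D3 D3RK
open scoped RealInnerProductSpace

namespace RS4

variable {m : MF} {lg : V × V → V} {S : Sp}

/-- A curve that realises the distance at a constant rate is a geodesic. -/
theorem line (hg : SGEO) (H : Hd m lg) {x v : ℝ → V} {l : ℝ} (hl : 0 ≤ l)
    (hd : ∀ s t, ‖lg (x s, x t)‖ = |t - s| * l) (hv : ∀ t, HasDerivAt x (m.R (x t) (v t)) t)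
    (t : ℝ) : m.Z t (x 0, v 0) = (x t, v t) := by
  obtain ⟨w, hw⟩ : ∃ w, ∀ t, x t = (m.Z t w).1 := by
    rcases hl.eq_or_lt with rfl | hl
    · refine ⟨(x 0, (0 : ℝ) • (0 : V)), fun t => ?_⟩
      have e := H.had.ex (x 0) (x t)
      have e0 : lg (x 0, x t) = (0 : ℝ) • (0 : V) := by
        rw [zero_smul, ← norm_eq_zero, hd, mul_zero]
      rw [e0, H.jac.scale, zero_mul] at e
      rw [H.jac.scale, zero_mul, e]
    · obtain ⟨u, -, hu⟩ := (hg m lg H).1 (fun s => x (l⁻¹ * s)) fun s t => by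
        rw [hd, ← mul_sub, abs_mul, abs_of_pos (inv_pos.2 hl), abs_sub_comm]
        field_simp
      refine ⟨(u.1, l • u.2), fun t => ?_⟩
      rw [H.jac.scale, ← hu, inv_mul_cancel_left₀ hl.ne']
  have k : ∀ t, (x t, v t) = m.Z t w := fun t => by
    refine Prod.ext (hw t) ?_
    have e := d_foot H.ok w t
    rw [← hw t, ← funext hw] at e
    have e2 := congrArg (m.S (x t)) ((hv t).unique e)
    rwa [H.ok.SR, H.ok.SR] at e2
  rw [k t, k 0, H.ok.zero]

/-- The translations depend differentiably on both variables. -/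
theorem T_diff (ho : m.OK) (h : S.OK2 m) :
    Differentiable ℝ fun q : ℝ × V => S.T m q.1 q.2 :=
  ((ho.cZ.comp (contDiff_fst.prodMk (contDiff_snd.prodMk
    (h.c1.comp contDiff_snd)))).fst).differentiable one_ne_zero

theorem T_diff' (ho : m.OK) (h : S.OK2 m) (r : ℝ) : Differentiable ℝ (S.T m r) :=
  (T_diff ho h).comp ((differentiable_const r).prodMk differentiable_id)

/-- The chain rule. -/
theorem T_chain (ho : m.OK) (h1 : S.OK1 m lg) (h : S.OK2 m) {y : ℝ → V} {y' : V} {c t : ℝ}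
    (hy : HasDerivAt y y' t) : HasDerivAt (fun s => S.T m (c * s) (y s))
      (fderiv ℝ (S.T m (c * t)) (y t) y' +
        c • m.R (S.T m (c * t) (y t)) (S.ζ (S.T m (c * t) (y t)))) t := by
  have D := (T_diff ho h (c * t, y t)).hasFDerivAt
  generalize fderiv ℝ (fun q : ℝ × V => S.T m q.1 q.2) (c * t, y t) = L at D
  have a1 : HasDerivAt (fun s => (c * s, y s)) (c, y') t := by
    simpa using ((hasDerivAt_id t).const_mul c).prodMk hy
  have a0 : HasDerivAt (fun r : ℝ => (r, y t)) (1, 0) (c * t) :=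
    (hasDerivAt_id (c * t)).prodMk (hasDerivAt_const (c * t) (y t))
  have a2 := HasFDerivAt.comp_hasDerivAt (f := fun r : ℝ => (r, y t)) (c * t) D a0
  have a3 := a2.unique (d_foot ho (y t, S.ζ (y t)) (c * t))
  rw [h1.fl] at a3
  have a4 : HasFDerivAt (S.T m (c * t)) (L.comp (.inr ℝ ℝ V)) (y t) :=
    D.comp (y t) (hasFDerivAt_prodMk_right (c * t) (y t))
  refine (D.comp_hasDerivAt t a1).congr_deriv ?_
  rw [a4.fderiv, show (c, y') = (0, y') + c • ((1 : ℝ), (0 : V)) by simp, map_add, map_smul, a3]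
  rfl

/-- The derivative of a translation is the parallel transport. -/
theorem dT (hj : SJT) (H : Hd m lg) (h1 : S.OK1 m lg) (h : S.OK2 m) {x : V}
    {O : ℝ → V ≃ₗᵢ[ℝ] V} (o0 : ∀ a, O 0 a = a)
    (o : ∀ a t, HasDerivAt (fun s => O s a) (-m.w (x, S.ζ x) t (O t a)) t) (r : ℝ) (u : V) :
    m.S (S.T m r x) (fderiv ℝ (S.T m r) x u) = O r (m.S x u) := by
  have e := (hj m H.ok H.jac (x, S.ζ x) (u, fderiv ℝ S.ζ x u) (fun t => O t (m.S x u))
    (fun _ => 0) (fun _ => 1) (fun _ => 0) (o _) (fun t => by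
      rw [h1.fl, neg_zero, zero_smul]; exact h.K0 _ _)
    (fun t => ⟨hasDerivAt_const _ _, by simpa using hasDerivAt_const t (0 : ℝ)⟩)
    (by rw [one_smul, o0]; rfl) (by simp [MF.ver, h.par]) r).1
  have d : HasFDerivAt (S.T m r) _ x :=
    ((D3WI.Z_diff H.ok r (x, S.ζ x)).hasFDerivAt.comp x ((hasFDerivAt_id x).prodMk
      (h.c1.differentiable one_ne_zero x).hasFDerivAt)).fst
  rw [one_smul] at e
  rw [d.fderiv, ← e]
  rfl

end RS4

theorem rS4 : R_S4 := by
  intro hg hj m lg H S h1 h _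
  choose O o0 oz o using fun x => H.jac.par (x, S.ζ x)
  have dT := fun r x u => RS4.dT hj H h1 h (o0 x) (o x) r u
  have dR : ∀ r x a, fderiv ℝ (S.T m r) x (m.R x a) = m.R (S.T m r x) (O x r a) :=
    fun r x a => by rw [← H.ok.RS (S.T m r x) (fderiv ℝ _ _ _), dT, H.ok.SR]
  refine ⟨fun r x => O x r, fun r x => (oz x r).trans (h1.fl r x), dT, fun r t z => ?_,
    fun t c x u hu => ?_⟩
  · have e := RS4.line hg H (x := fun s => S.T m r (m.Z s z).1)
      (v := fun s => O (m.Z s z).1 r (m.Z s z).2) (norm_nonneg z.2)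
      (fun s t => by rw [h1.iso, D3WI.dist_geo H.ok H.jac H.had])
      (fun t => by
        rw [← dR]
        exact (RS4.T_diff' H.ok h r _).hasFDerivAt.comp_hasDerivAt t (d_foot H.ok z t)) t
    rw [H.ok.zero] at e
    exact e
  · have e := RS4.line hg H (x := fun s => S.T m (c * s) (m.Z s (x, u)).1)
      (v := fun s => O (m.Z s (x, u)).1 (c * s) (m.Z s (x, u)).2 +
        c • S.ζ (S.T m (c * s) (m.Z s (x, u)).1)) (Real.sqrt_nonneg (‖u‖ ^ 2 + c ^ 2))
      (fun s t => by
        refine (sq_eq_sq₀ (norm_nonneg _) (by positivity)).1 ?_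
        rw [show c * t = c * s + c * (t - s) by ring, T_add H.ok h1, h1.iso, h1.py,
          D3WI.dist_geo H.ok H.jac H.had, h1.ht, h1.ht, mul_pow |t - s|, mul_pow |t - s|, sq_abs,
          Real.sq_sqrt (by positivity), show S.s (x, u) = 0 from hu]
        ring)
      (fun t => by
        rw [map_add, map_smul, ← dR]
        exact RS4.T_chain H.ok h1 h (d_foot H.ok (x, u) t)) t
    rw [H.ok.zero, mul_zero, T_zero H.ok, o0] at e
    exact e

end Pool.Agent.MP_3ee8cb_gt.D3RH
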