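import Pool.Agent.MP_3ee8cb_gt.D3RH.Kit

/-! The curvature of the levels is invariant under the translations. -/

namespace Pool.Agent.MP_3ee8cb_gt.D3RH

open Set Filter Topology D3 D3RK
open scoped RealInnerProductSpace

noncomputable section

namespace RS5

/-- Two solutions with the same square have the same coefficient at a simple zero. -/
theorem key {k k₂ j j' i i' : ℝ → ℝ} (hk : Continuous k) (hk₂ : Continuous k₂) (h : So k j j')
    (h₂ : So k₂ i i') (h1 : j' 0 ≠ 0) (e : ∀ t, i t ^ 2 = j t ^ 2) :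
    k₂ 0 = k 0 := by
  have e1 : ∀ t, i t * i' t = j t * j' t := fun t => by
    have a := ((h₂ t).1.mul (h₂ t).1)
    have b := ((h t).1.mul (h t).1)
    have c : (i * i) = (j * j) := funext fun s => by simpa [sq] using e s
    rw [c] at a
    have := a.unique b
    linarith
  have e2 : ∀ t, i' t ^ 2 + k₂ t * i t ^ 2 = j' t ^ 2 + k t * j t ^ 2 := fun t => by
    have a := ((h₂ t).1.mul (h₂ t).2)
    have b := ((h t).1.mul (h t).2)
    have c : (i * i') = (j * j') := funext e1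
    rw [c] at a
    have := a.unique b
    linarith
  have e3 : ∀ t, j t ≠ 0 → k₂ t = k t := fun t ht => by
    have p : 0 < j t ^ 2 := by positivity
    have q : i' t ^ 2 * j t ^ 2 = j' t ^ 2 * j t ^ 2 := by
      have := congrArg (· ^ 2) (e1 t)
      simp only [mul_pow] at this
      rw [e t] at this
      linarith
    have q1 := mul_right_cancel₀ p.ne' q
    have q2 := e2 t
    rw [e t, q1] at q2
    exact mul_right_cancel₀ p.ne' (by linarith)
  have ev : ∀ᶠ t in 𝓝[≠] (0 : ℝ), k₂ t = k t :=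
    ((h 0).1.eventually_ne (c := 0) h1).mono e3
  exact tendsto_nhds_unique_of_eventuallyEq
    (hk₂.continuousAt.tendsto.mono_left nhdsWithin_le_nhds)
    (hk.continuousAt.tendsto.mono_left nhdsWithin_le_nhds) ev

variable {m : MF} {lg : V × V → V} {S : Sp}

theorem dZ (ho : m.OK) (t : ℝ) : Differentiable ℝ (m.Z t) :=
  (ho.cZ.comp (contDiff_const.prodMk contDiff_id)).differentiable one_ne_zero

theorem dT (ho : m.OK) (h : S.OK2 m) (r : ℝ) : Differentiable ℝ (S.T m r) :=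
  ((dZ ho r).comp (differentiable_id.prodMk (h.c1.differentiable one_ne_zero))).fst

/-- The foot of the flow along a vertical line. -/
theorem d_ver (ho : m.OK) (t : ℝ) (x u a : V) :
    HasDerivAt (fun θ : ℝ => (m.Z t (x, u + θ • a)).1) (fderiv ℝ (m.Z t) (x, u) (0, a)).1 0 := by
  have c : HasDerivAt (fun θ : ℝ => ((x, u + θ • a) : V × V)) (0, a) 0 := by
    have := ((hasDerivAt_id (0 : ℝ)).smul_const a).const_add u
    rw [one_smul] at this
    exact (hasDerivAt_const _ x).prodMk this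
  have d : HasFDerivAt (m.Z t) (fderiv ℝ (m.Z t) (x, u)) (x, u + (0 : ℝ) • a) := by
    rw [zero_smul, add_zero]; exact (dZ ho t _).hasFDerivAt
  exact (ContinuousLinearMap.fst ℝ V V).hasFDerivAt.comp_hasDerivAt 0 (d.comp_hasDerivAt 0 c)

/-- The translation carries vertical Jacobi fields. -/
theorem J_T (ho : m.OK) (h2 : S.OK2 m) (h4 : S.OK4 m) (r t : ℝ) (x u a : V) :
    m.J (S.Tv m r (x, u)) (0, S.P r x a) t = S.P r (m.Z t (x, u)).1 (m.J (x, u) (0, a) t) := by
  have d1 := d_ver ho t (S.T m r x) (S.P r x u) (S.P r x a)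
  have d : HasFDerivAt (S.T m r) (fderiv ℝ (S.T m r) (m.Z t (x, u)).1)
      (m.Z t (x, u + (0 : ℝ) • a)).1 := by
    rw [zero_smul, add_zero]; exact (dT ho h2 r _).hasFDerivAt
  have d2 := d.comp_hasDerivAt (0 : ℝ) (d_ver ho t x u a)
  have e : (fun θ : ℝ => (m.Z t (S.T m r x, S.P r x u + θ • S.P r x a)).1) =
      S.T m r ∘ fun θ : ℝ => (m.Z t (x, u + θ • a)).1 := funext fun θ => by
    have g := congrArg Prod.fst (h4.geo r t (x, u + θ • a))
    rw [Sp.Tv, map_add, map_smul] at g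
    exact g
  rw [e] at d1
  have q := d1.unique d2
  have g : (m.Z t (S.Tv m r (x, u))).1 = S.T m r (m.Z t (x, u)).1 := by
    rw [h4.geo]; rfl
  change m.S (m.Z t (S.Tv m r (x, u))).1
    (fderiv ℝ (m.Z t) (S.T m r x, S.P r x u) (0, S.P r x a)).1 = _
  rw [q, g, h4.dT]
  rfl

/-- The vertical field in the normal direction. -/
theorem J_n (hJ : SJT) (ho : m.OK) (hj : m.Jac) (h1 : S.OK1 m lg) (h2 : S.OK2 m) (h3 : S.OK3 m)
    {z : V × V} (hz : z ∈ S.H) {j j' : ℝ → ℝ} (h : So (fun t => S.k (m.Z t z).1) j j')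
    (h0 : j 0 = 0) (t : ℝ) : ‖m.J z (0, j' 0 • S.n z) t‖ ^ 2 = j t ^ 2 := by
  have e := (hJ m ho hj z (0, j' 0 • S.n z) (fun t => S.n (m.Z t z)) _ j j' (d_n ho h2 z)
    (fun t => K_n h1 h3 (H_fl hj h1 hz t)) h (by simp [MF.hor, h0])
    (by simp [MF.ver, ho.zero]) t).1
  rw [e, norm_smul, n_unit h1 (H_fl hj h1 hz t), mul_one, Real.norm_eq_abs, sq_abs]

end RS5

open RS5 in
theorem rS5 : R_S5 := by
  intro hE hJ m lg hd S h1 h2 h3 h4 r x
  have ho := hd.ok
  obtain ⟨u, hu, hp⟩ := ex_perp (S.ζ x)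
  have hz : (x, u) ∈ S.H := ⟨hu, hp⟩
  have hz' := H_Tv h4 hz r
  have ck : ∀ z, Continuous fun t => S.k (m.Z t z).1 := fun z =>
    h3.ck.comp (continuous_iff_continuousAt.2 fun t => (d_foot ho z t).continuousAt)
  obtain ⟨ε, he⟩ : ∃ ε : ℝ, S.P r x (S.n (x, u)) = ε • S.n (S.Tv m r (x, u)) := by
    have c := cr_iso (S.P r x) (h1.unit x) hu hp
    rw [h4.Pz] at c
    rcases c with c | c
    · exact ⟨1, by rw [one_smul]; exact c⟩
    · exact ⟨-1, by rw [neg_one_smul]; exact c⟩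
  obtain ⟨j, j', hs, j0, j1⟩ := (hE _ (ck (x, u))).1 0 0 1
  obtain ⟨i, i', hs', i0, i1⟩ := (hE _ (ck (S.Tv m r (x, u)))).1 0 0 ε
  have e := key (ck _) (ck _) hs hs' (by rw [j1]; exact one_ne_zero) fun t => by
    rw [← J_n hJ ho hd.jac h1 h2 h3 hz' hs' i0 t, ← J_n hJ ho hd.jac h1 h2 h3 hz hs j0 t, i1, j1,
      ← he, J_T ho h2 h4, one_smul, LinearIsometryEquiv.norm_map]
  simp only [ho.zero] at e
  exact e

end

end Pool.Agent.MP_3ee8cb_gt.D3RH
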