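import Pool.Agent.MP_3ee8cb_gt.D3RH.Kit

/-! Flips and translations move the image of a horizontal vector along its flat. -/

namespace Pool.Agent.MP_3ee8cb_gt.D3RH

open Set Filter Topology D3 D3RK D3WI
open scoped RealInnerProductSpace

noncomputable section

namespace RSH1

variable {m : MF} {lg : V × V → V} {S : Sp}

theorem cT (ho : m.OK) (h : S.OK1 m lg) : Continuous fun p : ℝ × V => S.T m p.1 p.2 :=
  continuous_fst.comp (ho.cZ.continuous.comp
    (continuous_fst.prodMk (continuous_snd.prodMk (h.cont.comp continuous_snd))))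

theorem cTv (hd : Hd m lg) (h : S.OK m lg) (r : ℝ) : Continuous (S.Tv m r) := by
  have e : S.Tv m r = fun z => (S.T m r z.1, lg (S.T m r z.1, S.T m r (m.Z 1 z).1)) := by
    funext z
    have k := lg_ray hd.jac hd.had 1 (S.Tv m r z)
    rw [h.o4.geo, one_smul] at k
    exact Prod.ext rfl k.symm
  have c1 : Continuous (S.T m r) := (cT hd.ok h.o1).comp (continuous_const.prodMk continuous_id)
  have c2 : Continuous (m.Z 1) := (Z_c1 hd.ok 1).continuous
  rw [e]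
  exact (c1.comp continuous_fst).prodMk (hd.had.c1.continuous.comp
    ((c1.comp continuous_fst).prodMk (c1.comp (continuous_fst.comp c2))))

/-- The shifts are determined by the two vectors. -/
theorem uniq (hd : Hd m lg) (h : S.OK1 m lg) {r b : ℝ} {w v : V × V} (hw : w ∈ S.H)
    (hs : S.Sh m r b w v) : S.h v.1 - S.h w.1 = r ∧ ⟪w.2, lg (w.1, S.T m (-r) v.1)⟫ = b := by
  have e := hs 0
  rw [hd.ok.zero, zero_add] at e
  constructor
  · rw [e, h_T h, h.ht, hw.2]; ring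
  · rw [e, ← T_add hd.ok h, neg_add_cancel, T_zero hd.ok, lg_ray hd.jac hd.had, inner_smul_right,
      real_inner_self_eq_norm_sq, hw.1]
    ring

/-- The relation is closed. -/
theorem closed (hd : Hd m lg) (h : S.OK m lg) {A : Set (V × V)} {f g : V × V → V × V}
    (hf : ContinuousOn f A) (hg : ContinuousOn g A) (hH : ∀ z ∈ A, f z ∈ S.H)
    (hD : ∀ z ∈ A, z ∈ closure {w | w ∈ A ∧ ∃ r b, S.Sh m r b (f w) (g w)}) :
    ∀ z ∈ A, ∃ r b, S.Sh m r b (f z) (g z) := by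
  intro z hz
  have ch : Continuous S.h := h.o2.ch.continuous
  have cr : ContinuousOn (fun z => S.h (g z).1 - S.h (f z).1) A :=
    (ch.comp_continuousOn hg.fst).sub (ch.comp_continuousOn hf.fst)
  have cb : ContinuousOn (fun z => ⟪(f z).2, lg ((f z).1,
      S.T m (-(S.h (g z).1 - S.h (f z).1)) (g z).1)⟫) A :=
    ContinuousOn.inner (𝕜 := ℝ) hf.snd (hd.had.c1.continuous.comp_continuousOn (hf.fst.prodMk
      ((cT hd.ok h.o1).comp_continuousOn (cr.neg.prodMk hg.fst))))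
  refine ⟨S.h (g z).1 - S.h (f z).1, ⟪(f z).2, lg ((f z).1,
      S.T m (-(S.h (g z).1 - S.h (f z).1)) (g z).1)⟫, fun t => ?_⟩
  have c1 : ContinuousOn (fun z => (m.Z t (g z)).1) A :=
    ((Z_c1 hd.ok t).continuous.comp_continuousOn hg).fst
  have c2 : ContinuousOn (fun z => S.T m (S.h (g z).1 - S.h (f z).1) (m.Z (t + ⟪(f z).2,
      lg ((f z).1, S.T m (-(S.h (g z).1 - S.h (f z).1)) (g z).1)⟫) (f z)).1) A :=
    (cT hd.ok h.o1).comp_continuousOn (cr.prodMk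
      (hd.ok.cZ.continuous.comp_continuousOn ((continuousOn_const.add cb).prodMk hf)).fst)
  refine EqOn.of_subset_closure (s := {w | w ∈ A ∧ ∃ r b, S.Sh m r b (f w) (g w)}) ?_ c1 c2
    (fun w hw => hw.1) hD hz
  rintro w ⟨hw, r, b, hs⟩
  obtain ⟨e1, e2⟩ := uniq hd h.o1 (hH w hw) hs
  simp only [e1, e2]
  exact hs t

variable {X Y : Sd} {c : Cj X Y} {S' : Sp} {ε τ : X.G → ℝ} {ε' τ' : Y.G → ℝ} {D : ℝ}

theorem op : IsOpen {z : V × V | z.2 ≠ 0} := isOpen_ne_fun continuous_snd continuous_const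

theorem phiU (h : c.OK) {z : V × V} (hz : z ∈ U) : c.φ z ∈ U :=
  (h.h.norm z (ne_of_norm hz)).trans hz

theorem phiH (h : c.OK) (hs : Slp c S S') {z : V × V} (hz : z ∈ S.H) : c.φ z ∈ S'.H :=
  ⟨phiU h hz.1, (hs.sl z hz.1).trans hz.2⟩

theorem dense (hden : SDEN) (h : NF c S S' ε τ ε' τ' D) (hs : Slp c S S') {z : V × V}
    (hz : z ∈ S.H) : z ∈ closure {w | w ∈ S.H ∧ S'.Rg Y.m (c.φ w)} := by
  have k := hden Y S' ε' τ' h.ok.y h.s' h.nf' h.dk' _ (phiH h.ok hs hz)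
  have cψ : ContinuousAt c.ψ (c.φ z) :=
    h.ok.h'.c1.continuousOn.continuousAt (op.mem_nhds (ne_of_norm (phiU h.ok hz.1)))
  have k2 := cψ.continuousWithinAt.mem_closure_image k
  rw [h.ok.li z (ne_of_norm hz.1)] at k2
  refine closure_mono ?_ k2
  rintro _ ⟨w, ⟨hw, hr⟩, rfl⟩
  have u : c.ψ w ∈ U := (h.ok.h'.norm w (ne_of_norm hw.1)).trans hw.1
  have e := h.ok.ri w (ne_of_norm hw.1)
  refine ⟨⟨u, ?_⟩, by rwa [e]⟩
  rw [← hs.sl _ u, e]; exact hw.2

theorem main (hden : SDEN) (hst : SST2) (h : NF c S S' ε τ ε' τ' D) (hs : Slp c S S')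
    {g : V × V → V × V} (hg : ContinuousOn g S.H) (hU : ∀ z ∈ S.H, g z ∈ U)
    (hP : ∀ z ∈ S.H, Par Y.m Y.lg (c.φ z) (g z)) :
    ∀ z ∈ S.H, ∃ r b, S'.Sh Y.m r b (c.φ z) (g z) := by
  refine closed h.ok.y.hd h.s' (h.ok.h.c1.continuousOn.mono fun z hz => ne_of_norm hz.1) hg
    (fun z hz => phiH h.ok hs hz) fun z hz => closure_mono ?_ (dense hden h hs hz)
  rintro w ⟨hw, hr⟩
  exact ⟨hw, (hst Y.m Y.lg h.ok.y.hd S' h.s' _ (phiU h.ok hw.1) hr _ (hU w hw) (hP w hw)).2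
    (phiH h.ok hs hw)⟩

end RSH1

open RSH1 in
theorem rSH1 : R_SH1 := by
  intro hden hst X Y c S S' ε τ ε' τ' D h hs
  have hx := h.ok.x.hd
  have hy := h.ok.y.hd
  have cφ := h.ok.h.c1.continuousOn
  have nU : ∀ z : V × V, z ∈ U → (z.1, -z.2) ∈ U := fun z hz => (norm_neg _).trans hz
  have zU : ∀ t, ∀ z ∈ U, X.m.Z t z ∈ U := fun t z hz => (hx.jac.norm t z).trans hz
  refine ⟨main hden hst h hs ?_ (fun z hz => nU _ (phiU h.ok (nU z hz.1))) fun z hz => ?_,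
    fun r₀ => main hden hst h hs ?_ (fun z hz => phiU h.ok (H_Tv h.s.o4 hz r₀).1) fun z hz => ?_⟩
  · have k : ContinuousOn (fun z : V × V => c.φ (z.1, -z.2)) S.H :=
      cφ.comp (continuous_fst.prodMk continuous_snd.neg).continuousOn
        fun z hz => ne_of_norm (nU z hz.1)
    exact k.fst.prodMk k.snd.neg
  · refine ⟨D, fun t => ?_⟩
    have e1 := h.ok.h.flow (-t) (z.1, -z.2) (ne_of_norm (nU z hz.1))
    rw [flipZ hx.jac, neg_neg] at e1
    have k := h.di _ (zU t z hz.1) _ (nU _ (zU t z hz.1))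
    rw [lg_self hx.ok hx.jac hx.had, norm_zero, zero_add, e1,
      h.ok.h.flow t z (ne_of_norm hz.1)] at k
    rw [ds, flipZ hy.jac]
    exact k
  · exact cφ.comp (cTv hx h.s r₀).continuousOn fun z hz => ne_of_norm (H_Tv h.s.o4 hz r₀).1
  · refine ⟨|r₀| + D, fun t => ?_⟩
    have hz' := H_fl hx.jac h.s.o1 hz t
    have k := h.di _ hz'.1 _ (H_Tv h.s.o4 hz' r₀).1
    have e : X.lg ((X.m.Z t z).1, (S.Tv X.m r₀ (X.m.Z t z)).1) = r₀ • S.ζ (X.m.Z t z).1 :=
      lg_ray hx.jac hx.had r₀ ((X.m.Z t z).1, S.ζ (X.m.Z t z).1)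
    rw [e, norm_smul, h.s.o1.unit, mul_one, Real.norm_eq_abs, ← h.s.o4.geo,
      h.ok.h.flow t z (ne_of_norm hz.1),
      h.ok.h.flow t _ (ne_of_norm (H_Tv h.s.o4 hz r₀).1)] at k
    exact k

end

end Pool.Agent.MP_3ee8cb_gt.D3RH
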