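import Pool.Agent.MP_3ee8cb_gt.D3RH.Kit

/-! The shifts depend on the foot only. -/

namespace Pool.Agent.MP_3ee8cb_gt.D3RH

open Set Filter Topology D3 D3RK
open scoped RealInnerProductSpace

noncomputable section

namespace RSH2

variable {m : MF} {lg : V × V → V} {S : Sp}

/-- The horizontal circle. -/
theorem circ (h : S.OK1 m lg) (x : V) : ∃ α : ℝ → V,
    (∀ θ, (x, α θ) ∈ S.H ∧ HasDerivAt α (S.n (x, α θ)) θ) ∧ ∀ a, (x, a) ∈ S.H → ∃ θ, α θ = a := by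
  obtain ⟨b, b1, b2⟩ := ex_perp (S.ζ x)
  have u := h.unit x
  have n1 : ‖cr (S.ζ x) b‖ = 1 := (cr_norm u b2).trans b1
  have nn : ∀ p q : ℝ, ‖p • b + q • cr (S.ζ x) b‖ ^ 2 = p ^ 2 + q ^ 2 := fun p q => by
    rw [norm_add_sq_real, norm_smul, norm_smul, b1, n1, inner_smul_left, inner_smul_right, cr_right]
    simp
  refine ⟨fun θ => Real.cos θ • b + Real.sin θ • cr (S.ζ x) b, fun θ => ⟨⟨?_, ?_⟩, ?_⟩,
    fun a ha => ?_⟩
  · have := nn (Real.cos θ) (Real.sin θ)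
    rw [Real.cos_sq_add_sin_sq] at this
    exact (pow_eq_one_iff_of_nonneg (norm_nonneg _) two_ne_zero).1 this
  · simp only [Sp.s, inner_add_right, inner_smul_right, b2, cr_left, mul_zero, add_zero]
  · refine (((Real.hasDerivAt_cos θ).smul_const b).add
      ((Real.hasDerivAt_sin θ).smul_const (cr (S.ζ x) b))).congr_deriv ?_
    simp only [Sp.n, cr_add_right, cr_smul_right, cr_cr, b2, real_inner_self_eq_norm_sq, u]
    module
  · have e := expand u b1 b2 a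
    rw [show ⟪S.ζ x, a⟫ = 0 from ha.2, zero_smul, zero_add] at e
    have e2 := nn ⟪b, a⟫ ⟪cr (S.ζ x) b, a⟫
    rw [← e, show ‖a‖ = 1 from ha.1] at e2
    let w : ℂ := ⟨⟪b, a⟫, ⟪cr (S.ζ x) b, a⟫⟩
    have w1 : ‖w‖ = 1 := by
      rw [Complex.norm_eq_sqrt_sq_add_sq, ← e2]
      simp
    have w0 : w ≠ 0 := norm_ne_zero_iff.1 (w1 ▸ one_ne_zero)
    refine ⟨w.arg, ?_⟩
    simp only [Complex.cos_arg w0, Complex.sin_arg, w1, div_one]
    exact e.symm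

/-- A field with a normal part only. -/
theorem nrm (snf : SNF) (hd : Hd m lg) (h : S.OK m lg) {w ξ : V × V} (hw : w ∈ S.H)
    (ht : S.Tan m w ξ) (h0 : ⟪w.2, m.hor w ξ⟫ = 0) (t : ℝ) :
    ‖m.J w ξ t‖ = |⟪S.n (m.Z t w), m.J w ξ t⟫| := by
  obtain ⟨a1, -, a3⟩ := snf m lg hd S h w hw ξ
  have e := perp_eq (v := m.J w ξ t) (h.o1.unit _) (a1 t).1 (a1 t).2
    (by rw [(a3 t).1, ht.1, ht.2.1, mul_zero, add_zero])
    (by rw [real_inner_comm, D3WI.J_vel hd.ok hd.jac, real_inner_comm, h0, real_inner_comm,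
      ht.2.2, mul_zero, add_zero])
  have n := congrArg norm e
  rwa [norm_smul, show ‖cr _ _‖ = 1 from n_unit h.o1 (a1 t), mul_one, Real.norm_eq_abs] at n

/-- The flip. -/
def F : V × V →L[ℝ] V × V := (ContinuousLinearMap.fst ℝ V V).prod (-ContinuousLinearMap.snd ℝ V V)

theorem F_apply (w : V × V) : F w = (w.1, -w.2) := rfl

theorem J_flip (hd : Hd m lg) (w η : V × V) (t : ℝ) : m.J (F w) (F η) t = m.J w η (-t) := by
  have e : m.Z t ∘ F = F ∘ m.Z (-t) := funext fun z => D3WI.flipZ hd.jac t z.1 z.2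
  have d1 := (D3WI.Z_diff hd.ok t (F w)).hasFDerivAt.comp w F.hasFDerivAt
  have d2 := F.hasFDerivAt.comp w (D3WI.Z_diff hd.ok (-t) w).hasFDerivAt
  rw [e] at d1
  have k : fderiv ℝ (m.Z t) (F w) (F η) = F (fderiv ℝ (m.Z (-t)) w η) :=
    DFunLike.congr_fun (d1.unique d2) η
  rw [MF.J, k, show m.Z t (F w) = F (m.Z (-t) w) from congrFun e w]
  rfl

theorem flip {w ξ : V × V} (hw : w ∈ S.H) (ht : S.Tan m w ξ) (h0 : ⟪w.2, m.hor w ξ⟫ = 0) :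
    F w ∈ S.H ∧ S.Tan m (F w) (F ξ) ∧ ⟪(F w).2, m.hor (F w) (F ξ)⟫ = 0 := by
  have e1 : m.hor (F w) (F ξ) = m.hor w ξ := rfl
  have e2 : m.ver (F w) (F ξ) = -m.ver w ξ := by simp [MF.ver, F_apply, add_comm]
  refine ⟨⟨(norm_neg _).trans hw.1, ?_⟩, ⟨ht.1, ?_, ?_⟩, ?_⟩
  · exact (inner_neg_right _ _).trans (neg_eq_zero.2 hw.2)
  · rw [e2, inner_neg_right]
    exact neg_eq_zero.2 ht.2.1
  · rw [e2]
    exact (inner_neg_neg _ _).trans ht.2.2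
  · rw [e1]
    exact (inner_neg_left _ _).trans (neg_eq_zero.2 h0)

theorem absd {f g : ℝ → ℝ} {p q s : ℝ} (hf : HasDerivAt f p s) (hg : HasDerivAt g q s)
    (h0 : f s = 0) (h : ∀ t, |f t| = |g t|) : |p| = |q| := by
  have g0 : g s = 0 := abs_eq_zero.1 (by rw [← h, h0, abs_zero])
  refine tendsto_nhds_unique (hasDerivAt_iff_tendsto_slope.1 hf).abs
    ((hasDerivAt_iff_tendsto_slope.1 hg).abs.congr fun t => ?_)
  simp only [slope_def_field, h0, g0, sub_zero, abs_div, h]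

variable {X Y : Sd} {c : Cj X Y} {S' : Sp} {ε τ : X.G → ℝ} {ε' τ' : Y.G → ℝ} {D : ℝ}

/-- The image of a vertical normal field. -/
theorem img (snf : SNF) (N : NF c S S' ε τ ε' τ' D) (sl : Slp c S S') (bl : Blk c S S')
    {z : V × V} (hz : z ∈ S.H) {e : V} (he : e = S.n z ∨ e = -S.n z) :
    c.φ z ∈ S'.H ∧ S'.Tan Y.m (c.φ z) (fderiv ℝ c.φ z (0, e)) ∧
      ⟪(c.φ z).2, Y.m.hor (c.φ z) (fderiv ℝ c.φ z (0, e))⟫ = 0 ∧
      ∀ t, ‖Y.m.J (c.φ z) (fderiv ℝ c.φ z (0, e)) t‖ = |A c S S' z t| := by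
  have hw : c.φ z ∈ S'.H :=
    ⟨(N.ok.h.norm z (D3WI.ne_of_norm hz.1)).trans hz.1, (sl.sl z hz.1).trans hz.2⟩
  have e1 : X.m.hor z (0, e) = 0 := by simp [MF.hor]
  have e2 : X.m.ver z (0, e) = e := by simp [MF.ver]
  obtain ⟨b1, b2⟩ := bl z hz (0, e) (by
    rw [Sp.Tan, e1, e2, inner_zero_right]
    rcases he with rfl | rfl <;> simp [Sp.n, cr_left, cr_right])
  rw [e1, inner_zero_right] at b2
  refine ⟨hw, b1, b2, fun t => ?_⟩
  rw [nrm snf N.ok.y.hd N.s' hw b1 b2]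
  rcases he with rfl | rfl
  · rfl
  · rw [show ((0 : V), -S.n z) = -(0, S.n z) by simp, map_neg, MF.J, map_neg, map_neg,
      inner_neg_right, abs_neg]
    rfl

theorem chain (h : c.OK) {α : ℝ → V} {e x : V} {θ : ℝ} (hα : HasDerivAt α e θ) (h1 : ‖α θ‖ = 1) :
    HasDerivAt (fun s => c.φ (x, α s)) (fderiv ℝ c.φ (x, α θ) (0, e)) θ := by
  have o : {z : V × V | z.2 ≠ 0} ∈ 𝓝 (x, α θ) :=
    (isOpen_ne_fun continuous_snd continuous_const).mem_nhds (D3WI.ne_of_norm h1)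
  have d : HasFDerivAt c.φ (fderiv ℝ c.φ (x, α θ)) (x, α θ) :=
    ((h.h.c1.contDiffAt o).differentiableAt one_ne_zero).hasFDerivAt
  exact HasFDerivAt.comp_hasDerivAt (l := c.φ) (f := fun s => (x, α s)) θ d
    ((hasDerivAt_const θ x).prodMk hα)

end RSH2

open RSH2 in
theorem rSH2 : R_SH2 := by
  intro snf cst X Y c S S' ε τ₀ ε' τ' D N sl bl sh τ M fo
  refine ⟨fun x => ?_, fun r₀ x => ?_⟩
  · obtain ⟨α, hα, on⟩ := circ N.s.o1 x
    choose r b hb using fun θ => sh.fp _ (hα θ).1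
    have hn : ∀ θ, (x, -α θ) ∈ S.H := fun θ => ⟨(norm_neg _).trans (hα θ).1.1,
      (inner_neg_right _ _).trans (neg_eq_zero.2 (hα θ).1.2)⟩
    have i1 := fun θ => img snf N sl bl (hα θ).1 (.inl rfl)
    have i2 := fun θ => img snf N sl bl (hn θ) (e := -S.n (x, α θ)) (.inl (cr_neg_right _ _).symm)
    have k := cst Y.m Y.lg N.ok.y.hd S' N.s' (fun θ => c.φ (x, α θ)) (fun θ => F (c.φ (x, -α θ)))
      (fun θ => fderiv ℝ c.φ (x, α θ) (0, S.n (x, α θ)))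
      (fun θ => F (fderiv ℝ c.φ (x, -α θ) (0, -S.n (x, α θ)))) r b fun θ => by
        obtain ⟨f1, f2, f3⟩ := flip (i2 θ).1 (i2 θ).2.1 (i2 θ).2.2.1
        exact ⟨(i1 θ).1, f1, chain N.ok (hα θ).2 (hα θ).1.1,
          F.hasFDerivAt.comp_hasDerivAt θ (chain N.ok (hα θ).2.neg (hn θ).1), (i1 θ).2.1, f2,
          (i1 θ).2.2.1, f3, hb θ⟩
    refine ⟨b 0, fun a ha => ?_⟩
    obtain ⟨θ, rfl⟩ := on a ha
    have e := (k θ).2 (-τ (x, -α θ))
    rw [J_flip N.ok.y.hd, neg_neg, (i1 θ).2.2.2, (i2 θ).2.2.2, (fo.zero _ (hn θ) _).2 rfl,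
      abs_zero, eq_comm, abs_eq_zero, fo.zero _ ha] at e
    linarith
  · obtain ⟨α, hα, on⟩ := circ N.s.o1 x
    choose r b hb using fun θ => sh.tr r₀ _ (hα θ).1
    have hn := fun θ => H_Tv N.s.o4 (hα θ).1 r₀
    have i1 := fun θ => img snf N sl bl (hα θ).1 (.inl rfl)
    have i2 := fun θ => img snf N sl bl (hn θ) (e := S.P r₀ x (S.n (x, α θ))) (by
      have := cr_iso (S.P r₀ x) (N.s.o1.unit x) (hα θ).1.1 (hα θ).1.2
      rwa [N.s.o4.Pz] at this)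
    have k := cst Y.m Y.lg N.ok.y.hd S' N.s' (fun θ => c.φ (x, α θ))
      (fun θ => c.φ (S.Tv X.m r₀ (x, α θ))) (fun θ => fderiv ℝ c.φ (x, α θ) (0, S.n (x, α θ)))
      (fun θ => fderiv ℝ c.φ (S.Tv X.m r₀ (x, α θ)) (0, S.P r₀ x (S.n (x, α θ)))) r b fun θ =>
        ⟨(i1 θ).1, (i2 θ).1, chain N.ok (hα θ).2 (hα θ).1.1, chain (x := S.T X.m r₀ x) N.ok
          ((S.P r₀ x).toContinuousLinearEquiv.hasFDerivAt.comp_hasDerivAt θ (hα θ).2) (hn θ).1,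
          (i1 θ).2.1, (i2 θ).2.1, (i1 θ).2.2.1, (i2 θ).2.2.1, hb θ⟩
    refine ⟨b 0, fun a ha => ?_⟩
    obtain ⟨θ, rfl⟩ := on a ha
    have e : ∀ t, |A c S S' (S.Tv X.m r₀ (x, α θ)) t| = |A c S S' (x, α θ) (t + b 0)| :=
      fun t => by rw [← (i1 θ).2.2.2, ← (i2 θ).2.2.2, (k θ).2]
    have z0 := (fo.zero _ (hn θ) _).2 rfl
    have e1 := e (τ (S.Tv X.m r₀ (x, α θ)))
    rw [z0, abs_zero, eq_comm, abs_eq_zero, fo.zero _ ha] at e1
    have d := fun z (hz : c.φ z ∈ S'.H) t =>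
      ((snf Y.m Y.lg N.ok.y.hd S' N.s' _ hz (fderiv ℝ c.φ z (0, S.n z))).2.1 t).1
    refine ⟨by linarith, ?_, r θ, (k θ).1 ▸ hb θ⟩
    rw [← e1]
    exact absd (d _ (i2 θ).1 _) (HasDerivAt.comp_add_const _ _ (d _ (i1 θ).1 _)) z0 e

end

end Pool.Agent.MP_3ee8cb_gt.D3RH
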