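import Pool.Agent.MP_3ee8cb_gt.D3RH.Kit
import Pool.Agent.MP_3ee8cb_gt.D3WI.Base

/-! The conjugacy keeps slopes and, up to a bounded error, heights. -/

namespace Pool.Agent.MP_3ee8cb_gt.D3RH

open Set Filter Topology D3 D3RK
open scoped RealInnerProductSpace

noncomputable section

namespace RSLP

theorem lin0 {a b C : ℝ} (h : ∀ t, 0 ≤ t → |a + t * b| ≤ C) : b = 0 := by
  by_contra hb
  have hp : 0 < |b| := abs_pos.2 hb
  have h0 : |a| ≤ C := by simpa using h 0 le_rfl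
  have hC : 0 ≤ C := (abs_nonneg a).trans h0
  have h1 := h ((2 * C + 1) / |b|) (by positivity)
  have h2 : |(2 * C + 1) / |b| * b| = 2 * C + 1 := by
    rw [abs_mul, abs_of_nonneg (by positivity : 0 ≤ (2 * C + 1) / |b|), div_mul_cancel₀ _ hp.ne']
  have h3 := abs_sub (a + (2 * C + 1) / |b| * b) a
  rw [add_sub_cancel_left, h2] at h3
  linarith

theorem hlip {m : MF} {lg : V × V → V} {S : Sp} (hl : m.Had lg) (h : S.OK1 m lg) (y y' : V) :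
    |S.h y' - S.h y| ≤ ‖lg (y, y')‖ := by
  have e := h.ht 1 (y, lg (y, y'))
  rw [hl.ex, one_mul] at e
  have e2 : S.h y' - S.h y = ⟪S.ζ y, lg (y, y')⟫ := by rw [e, add_sub_cancel_left]; rfl
  rw [e2]
  simpa [h.unit] using abs_real_inner_le_norm (S.ζ y) (lg (y, y'))

variable {X Y : Sd} {c : Cj X Y} {S S' : Sp} {ε τ : X.G → ℝ} {ε' τ' : Y.G → ℝ} {D : ℝ}

/-- The foot of the image of the parallel field. -/
def F0 (c : Cj X Y) (S : Sp) (x : V) : V := (c.φ (x, S.ζ x)).1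

theorem F0_T (n : NF c S S' ε τ ε' τ' D) (r : ℝ) (x : V) :
    F0 c S (S.T X.m r x) = S'.T Y.m r (F0 c S x) := by
  have e : (S.T X.m r x, S.ζ (S.T X.m r x)) = X.m.Z r (x, S.ζ x) :=
    Prod.ext rfl (n.s.o1.fl r x).symm
  have e2 : c.φ (x, S.ζ x) = (F0 c S x, S'.ζ (F0 c S x)) := Prod.ext rfl (n.lz x)
  have e3 := n.ok.h.flow r (x, S.ζ x) (D3WI.ne_of_norm (n.s.o1.unit x))
  rw [F0, e, e3, e2]
  rfl

theorem near (n : NF c S S' ε τ ε' τ' D) {z : V × V} (hz : z ∈ U) :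
    ‖Y.lg ((c.φ z).1, F0 c S z.1)‖ ≤ D := by
  have h := n.di z hz (z.1, S.ζ z.1) (n.s.o1.unit z.1)
  rw [D3WI.lg_self n.ok.x.hd.ok n.ok.x.hd.jac n.ok.x.hd.had, norm_zero, zero_add] at h
  exact h

theorem fl_U {m : MF} (hj : m.Jac) {z : V × V} (hz : z ∈ U) (t : ℝ) : m.Z t z ∈ U :=
  (hj.norm t z).trans hz

theorem close (n : NF c S S' ε τ ε' τ' D) {x u : V} {a s : ℝ} (hu : ‖u‖ = 1)
    (h0 : ⟪S.ζ x, u⟫ = 0) (hv : ‖a • u + s • S.ζ x‖ = 1) (t : ℝ) :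
    ‖Y.lg ((Y.m.Z t (c.φ (x, a • u + s • S.ζ x))).1,
      S'.T Y.m (s * t) (Y.m.Z (a * t) (c.φ (x, u))).1)‖ ≤ 2 * D := by
  have hx := n.ok.x.hd
  have hy := n.ok.y.hd
  have e1 : (X.m.Z t (x, a • u + s • S.ζ x)).1 = S.T X.m (s * t) (X.m.Z (a * t) (x, u)).1 := by
    rw [n.s.o4.dec t s x (a • u) (by rw [inner_smul_right, h0, mul_zero]), hx.jac.scale]
  have h1 := near n (fl_U hx.jac (z := (x, a • u + s • S.ζ x)) hv t)
  have h2 := near n (fl_U hx.jac (z := (x, u)) hu (a * t))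
  rw [n.ok.h.flow t (x, a • u + s • S.ζ x) (D3WI.ne_of_norm hv), e1, F0_T n] at h1
  rw [n.ok.h.flow (a * t) (x, u) (D3WI.ne_of_norm hu), ← D3WI.lg_symm hy.jac hy.had,
    ← n.s'.o1.iso (s * t)] at h2
  have h3 := hy.had.tri (Y.m.Z t (c.φ (x, a • u + s • S.ζ x))).1
    (S'.T Y.m (s * t) (F0 c S (X.m.Z (a * t) (x, u)).1))
    (S'.T Y.m (s * t) (Y.m.Z (a * t) (c.φ (x, u))).1)
  linarith

theorem slope (n : NF c S S' ε τ ε' τ' D) {x u : V} {a s : ℝ} (hu : ‖u‖ = 1)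
    (h0 : ⟪S.ζ x, u⟫ = 0) (hv : ‖a • u + s • S.ζ x‖ = 1) :
    S'.s (c.φ (x, a • u + s • S.ζ x)) = s + a * S'.s (c.φ (x, u)) := by
  have key : s + a * S'.s (c.φ (x, u)) - S'.s (c.φ (x, a • u + s • S.ζ x)) = 0 := by
    refine lin0 (a := S'.h (c.φ (x, u)).1 - S'.h (c.φ (x, a • u + s • S.ζ x)).1) (C := 2 * D)
      fun t _ => ?_
    have h := (hlip n.ok.y.hd.had n.s'.o1 _ _).trans (close n hu h0 hv t)
    rw [h_T n.s'.o1, n.s'.o1.ht, n.s'.o1.ht] at h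
    refine le_of_eq_of_le (congrArg _ ?_) h
    ring
  linarith

theorem unit {ζ u : V} {a s : ℝ} (hζ : ‖ζ‖ = 1) (hu : ‖u‖ = 1) (h0 : ⟪ζ, u⟫ = 0)
    (h : a ^ 2 + s ^ 2 = 1) : ‖a • u + s • ζ‖ = 1 := by
  have e : ‖a • u + s • ζ‖ ^ 2 = 1 := by
    rw [norm_add_sq_real, norm_smul, norm_smul, inner_smul_left, inner_smul_right,
      real_inner_comm, h0, hζ, hu, Real.norm_eq_abs, Real.norm_eq_abs, mul_one, mul_one, sq_abs,
      sq_abs]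
    linarith
  exact (sq_eq_sq₀ (norm_nonneg _) zero_le_one).1 (by rw [e, one_pow])

theorem hor0 (n : NF c S S' ε τ ε' τ' D) {x u : V} (hu : ‖u‖ = 1) (h0 : ⟪S.ζ x, u⟫ = 0) :
    S'.s (c.φ (x, u)) = 0 := by
  have hy := n.ok.y.hd
  have hv : ‖(3 / 5 : ℝ) • u + (4 / 5 : ℝ) • S.ζ x‖ = 1 := unit (n.s.o1.unit x) hu h0 (by norm_num)
  have hw : ‖(c.φ (x, u)).2‖ = 1 := (n.ok.h.norm (x, u) (D3WI.ne_of_norm hu)).trans hu
  have hw' : ‖(c.φ (x, (3 / 5 : ℝ) • u + (4 / 5 : ℝ) • S.ζ x)).2‖ = 1 :=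
    (n.ok.h.norm (x, (3 / 5 : ℝ) • u + (4 / 5 : ℝ) • S.ζ x) (D3WI.ne_of_norm hv)).trans hv
  have hc := close n hu h0 hv
  generalize c.φ (x, (3 / 5 : ℝ) • u + (4 / 5 : ℝ) • S.ζ x) = w' at hw' hc
  generalize c.φ (x, u) = w at hw hc
  obtain ⟨ρ, hρ⟩ : ∃ ρ : ℝ → ℝ, ∀ t, ρ t =
      ‖Y.lg (w.1, S'.T Y.m (4 / 5 * t) (Y.m.Z (3 / 5 * t) w).1)‖ := ⟨_, fun _ => rfl⟩
  have sq : ∀ t, ρ t ^ 2 = t ^ 2 * (1 + 24 / 25 * S'.s w) := fun t => by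
    rw [hρ, n.s'.o1.py, n.s'.o1.ht, D3WI.lg_ray hy.jac hy.had, norm_smul, hw, Real.norm_eq_abs,
      mul_one, sq_abs]
    ring
  have nn : ∀ t, 0 ≤ ρ t := fun t => by rw [hρ]; exact norm_nonneg _
  have ho : ∀ t, 0 ≤ t → ρ t = t * ρ 1 := fun t ht =>
    (sq_eq_sq₀ (nn t) (mul_nonneg ht (nn 1))).1 (by rw [mul_pow, sq t, sq 1]; ring)
  have key : ρ 1 - 1 = 0 := by
    refine lin0 (a := 0) (C := 2 * D + ‖Y.lg (w.1, w'.1)‖) fun t ht => ?_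
    have d0 : ‖Y.lg (w'.1, (Y.m.Z t w').1)‖ = t := by
      rw [D3WI.lg_ray hy.jac hy.had, norm_smul, hw', Real.norm_eq_abs, mul_one, abs_of_nonneg ht]
    have h1 := hc t
    have h2 := hρ t
    generalize S'.T Y.m (4 / 5 * t) (Y.m.Z (3 / 5 * t) w).1 = p at h1 h2
    generalize (Y.m.Z t w').1 = q at h1 d0
    have t1 := hy.had.tri w.1 w'.1 p
    have t2 := hy.had.tri w'.1 q p
    have t3 := hy.had.tri w'.1 w.1 q
    have t4 := hy.had.tri w.1 p q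
    have s1 := D3WI.lg_symm hy.jac hy.had w.1 w'.1
    have s2 := D3WI.lg_symm hy.jac hy.had q p
    have h3 := ho t ht
    rw [zero_add, abs_le]
    constructor <;> nlinarith
  have h4 := sq 1
  rw [sub_eq_zero.1 key] at h4
  linarith

theorem sl (n : NF c S S' ε τ ε' τ' D) (z : V × V) (hz : z ∈ U) : S'.s (c.φ z) = S.s z := by
  obtain ⟨x, v⟩ := z
  have hζ := n.s.o1.unit x
  obtain ⟨u, a, hu, h0, e⟩ : ∃ (u : V) (a : ℝ), ‖u‖ = 1 ∧ ⟪S.ζ x, u⟫ = 0 ∧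
      v = a • u + ⟪S.ζ x, v⟫ • S.ζ x := by
    by_cases h : v - ⟪S.ζ x, v⟫ • S.ζ x = 0
    · obtain ⟨u, hu, h0⟩ := ex_perp (S.ζ x)
      exact ⟨u, 0, hu, h0, by rw [zero_smul, zero_add]; exact sub_eq_zero.1 h⟩
    · refine ⟨‖v - ⟪S.ζ x, v⟫ • S.ζ x‖⁻¹ • (v - ⟪S.ζ x, v⟫ • S.ζ x), ‖v - ⟪S.ζ x, v⟫ • S.ζ x‖,
        norm_smul_inv_norm h, ?_, ?_⟩
      · rw [inner_smul_right, inner_sub_right, inner_smul_right, real_inner_self_eq_norm_sq, hζ]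
        ring
      · rw [smul_inv_smul₀ (norm_ne_zero_iff.2 h), sub_add_cancel]
  have hv : ‖a • u + ⟪S.ζ x, v⟫ • S.ζ x‖ = 1 := by rw [← e]; exact hz
  have h := slope n hu h0 hv
  rw [← e, hor0 n hu h0, mul_zero, add_zero] at h
  exact h

theorem hnear (n : NF c S S' ε τ ε' τ' D) {z : V × V} (hz : z ∈ U) :
    |S'.h (F0 c S z.1) - S'.h (c.φ z).1| ≤ D :=
  (hlip n.ok.y.hd.had n.s'.o1 _ _).trans (near n hz)

theorem level (n : NF c S S' ε τ ε' τ' D) {x y : V} (h : S.h x = S.h y) :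
    |S'.h (F0 c S x) - S'.h (F0 c S y)| ≤ 2 * D := by
  have hx := n.ok.x.hd
  have hD : 0 ≤ D := (norm_nonneg _).trans (near n (z := (x, S.ζ x)) (n.s.o1.unit x))
  by_cases ha : X.lg (x, y) = 0
  · have e := hx.had.ex x y
    have e2 := D3WI.one_smul' hx.jac 0 (x, 0)
    rw [hx.ok.zero, smul_zero] at e2
    rw [ha, e2] at e
    dsimp only at e
    rw [e, sub_self, abs_zero]
    linarith
  · obtain ⟨r, hr⟩ : ∃ r, r = ‖X.lg (x, y)‖ := ⟨_, rfl⟩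
    have r0 : r ≠ 0 := by rw [hr]; exact norm_ne_zero_iff.2 ha
    have hu : (x, r⁻¹ • X.lg (x, y)) ∈ U := by rw [hr]; exact norm_smul_inv_norm ha
    have e : (X.m.Z r (x, r⁻¹ • X.lg (x, y))).1 = y := by
      have e2 := D3WI.one_smul' hx.jac r (x, r⁻¹ • X.lg (x, y))
      rw [smul_inv_smul₀ r0] at e2
      have e3 := hx.had.ex x y
      rw [e2] at e3
      exact e3
    have e4 := n.s.o1.ht r (x, r⁻¹ • X.lg (x, y))
    rw [e] at e4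
    have s0 : S.s (x, r⁻¹ • X.lg (x, y)) = 0 :=
      (mul_eq_zero.1 (by dsimp only at e4; linarith)).resolve_left r0
    have e5 := n.s'.o1.ht r (c.φ (x, r⁻¹ • X.lg (x, y)))
    rw [sl n _ hu, s0, mul_zero, add_zero,
      ← n.ok.h.flow r (x, r⁻¹ • X.lg (x, y)) (D3WI.ne_of_norm hu)] at e5
    have h1 := hnear n hu
    have h2 := hnear n (fl_U hx.jac hu r)
    rw [e, e5] at h2
    dsimp only at h1
    rw [abs_le] at h1 h2 ⊢
    constructor <;> linarith [h1.1, h1.2, h2.1, h2.2]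

end RSLP

theorem rSLP : SSLP := by
  intro X Y c S S' ε τ ε' τ' D n
  refine ⟨RSLP.sl n, |S'.h (RSLP.F0 c S 0) - S.h 0| + 3 * D, fun z hz => ?_⟩
  have h1 := RSLP.hnear n hz
  have h2 := RSLP.level n (x := S.T X.m (S.h 0 - S.h z.1) z.1) (y := 0)
    (by rw [h_T n.s.o1]; ring)
  rw [RSLP.F0_T n, h_T n.s'.o1] at h2
  have h3 := le_abs_self (S'.h (RSLP.F0 c S 0) - S.h 0)
  have h4 := neg_abs_le (S'.h (RSLP.F0 c S 0) - S.h 0)
  rw [abs_le] at h1 h2 ⊢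
  constructor <;> linarith [h1.1, h1.2, h2.1, h2.2]

end

end Pool.Agent.MP_3ee8cb_gt.D3RH
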