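import Pool.Agent.MP_3ee8cb_gt.D3RH.Kit

/-! Parallels to a geodesic that meets the curved part. -/

namespace Pool.Agent.MP_3ee8cb_gt.D3RH

open Set Filter Topology D3 D3RK
open scoped RealInnerProductSpace

namespace RST2

/-- Two parallel fields have a constant inner product. -/
theorem cst {m : MF} (ho : m.OK) (z : V × V) {P Q : ℝ → V}
    (hP : ∀ t, HasDerivAt P (-m.w z t (P t)) t) (hQ : ∀ t, HasDerivAt Q (-m.w z t (Q t)) t)
    (s t : ℝ) : ⟪P s, Q s⟫ = ⟪P t, Q t⟫ := by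
  have hd : ∀ s, HasDerivAt (fun s => ⟪P s, Q s⟫) 0 s := fun s => by
    have h := (hP s).inner ℝ (hQ s)
    have e : ⟪m.w z s (P s), Q s⟫ = -⟪P s, m.w z s (Q s)⟫ := ho.skew _ _ _ _
    rw [inner_neg_right, inner_neg_left, e, neg_neg, neg_add_cancel] at h
    exact h
  exact is_const_of_deriv_eq_zero (fun s => (hd s).differentiableAt) (fun s => (hd s).deriv) s t

end RST2

theorem rST2 : R_ST2 := by
  intro hS _ m lg hd S hK z hz ⟨t₀, h₀⟩ w hw hp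
  obtain ⟨-, -, η, hη⟩ := hS m lg hd z hz w hw hp
  have ho := hd.ok
  have hj := hd.jac
  have hJ : ∀ t, HasDerivAt (m.J z η) (-m.w z t (m.J z η t)) t := fun t => by
    have h := hj.d1 z η t
    rwa [(hη t).2, zero_sub] at h
  have hk : m.K (m.Z t₀ z).1 (m.J z η t₀) (m.Z t₀ z).2 (m.Z t₀ z).2 = 0 := by
    have h := hj.d2 z η t₀
    rw [(hη t₀).2, map_zero, sub_zero, show m.J' z η = fun _ => 0 from funext fun t => (hη t).2]
      at h
    exact neg_eq_zero.1 (h.unique (hasDerivAt_const t₀ 0))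
  have hn₀ : ⟪S.n (m.Z t₀ z), m.J z η t₀⟫ = 0 := by
    rw [hK.o3.KK, smul_eq_zero, mul_eq_zero] at hk
    rcases hk with (hk | hk) | hk
    · exact absurd hk h₀
    · rwa [cr_comm, inner_neg_right, neg_eq_zero, cr_cyc] at hk
    · rw [Sp.n, hk, inner_zero_left]
  have hn : ∀ t, ⟪S.n (m.Z t z), m.J z η t⟫ = 0 := fun t =>
    (RST2.cst ho z (d_n ho hK.o2 z) hJ t t₀).trans hn₀
  refine ⟨?_, fun hH => ⟨⟪S.ζ (m.Z 0 z).1, m.J z η 0⟫, ⟪(m.Z 0 z).2, m.J z η 0⟫, fun t => ?_⟩⟩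
  · have h := hn 0
    rwa [(hη 0).1, ho.zero, ho.zero] at h
  · have hH' := H_fl hj hK.o1 hH t
    have e := expand (hK.o1.unit (m.Z t z).1) hH'.1 hH'.2 (m.J z η t)
    have e0 : ⟪cr (S.ζ (m.Z t z).1) (m.Z t z).2, m.J z η t⟫ = 0 := hn t
    rw [e0, zero_smul, add_zero, RST2.cst ho z (d_zeta ho hK.o2 z) hJ t 0,
      RST2.cst ho z (d_vel ho z) hJ t 0, add_comm] at e
    have h1 := hd.had.ex (m.Z t z).1 (m.Z t w).1
    have h2 : ⟪S.ζ (m.Z t z).1, ⟪(m.Z 0 z).2, m.J z η 0⟫ • (m.Z t z).2⟫ = 0 := by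
      rw [inner_smul_right, show ⟪S.ζ (m.Z t z).1, (m.Z t z).2⟫ = 0 from hH'.2, mul_zero]
    rw [← (hη t).1, e, hK.o4.dec 1 _ _ _ h2, mul_one, D3WI.one_smul' hj, ← ho.add,
      add_comm] at h1
    exact h1.symm

end Pool.Agent.MP_3ee8cb_gt.D3RH
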