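import Pool.Agent.MP_3ee8cb_gt.D3RH.Kit
import Pool.Agent.MP_3ee8cb_gt.D3RK.RSTR
import Pool.Agent.MP_3ee8cb_gt.D3RK.RPAR

/-! The strip between two parallel geodesics. -/

namespace Pool.Agent.MP_3ee8cb_gt.D3RH

open Set Filter Topology D3 D3RK D3WI
open D3RK.RSTR (cst vel)

namespace RSTP

variable {m : MF} {lg : V × V → V}

theorem two (h1 : SCV) (h2 : SGEO) (H : Hd m lg) {z w : V × V} (hz : z ∈ U) {r q : ℝ}
    (hr : ∀ t, ds m lg t z t w = r) (q0 : 0 ≤ q) (q1 : q ≤ 1) :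
    ∃ u ∈ U, ∀ t, (m.Z t u).1 = (m.Z q ((m.Z t z).1, lg ((m.Z t z).1, (m.Z t w).1))).1 := by
  obtain ⟨u, hu, a1, a2⟩ := RSTR.mid h1 h2 H hz hr q0 q1
  have e : u.1 = (m.Z q (z.1, lg (z.1, w.1))).1 := by
    have := H.had.ex z.1 u.1
    rw [a2] at this
    rw [← this, one_smul' H.jac q (z.1, lg (z.1, w.1))]
  have b0 : ds m lg 0 u 0 w = (1 - q) * r := by
    have e' := dist_geo H.ok H.jac H.had (z.1, lg (z.1, w.1)) q 1
    rw [H.had.ex, ← e, abs_of_nonneg (sub_nonneg.2 q1)] at e'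
    rw [ds, H.ok.zero, H.ok.zero, e', ← hr 0, ds, H.ok.zero, H.ok.zero]
  have bD : ∀ t, ds m lg t u t w ≤ q * r + r := fun t => by
    have t1 := H.had.tri (m.Z t u).1 (m.Z t z).1 (m.Z t w).1
    have t2 := lg_symm H.jac H.had (m.Z t z).1 (m.Z t u).1
    have t3 := a1 t
    have t4 := hr t
    simp only [ds] at t3 t4 ⊢
    linarith
  refine ⟨u, hu, fun t => (h2 m lg H).2 _ _ _ q q0 q1 ?_ ?_⟩
  · have t3 := a1 t
    rw [← hr t] at t3
    exact t3.le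
  · have t3 := cst (h1 m lg H u w) bD t 0
    rw [b0, ← hr t] at t3
    exact t3

theorem jac (H : Hd m lg) {z : V × V} {b : ℝ → V}
    (h : ∀ q ∈ Icc (0 : ℝ) 1, ∃ u : V × V, ∀ t, (m.Z t u).1 = (m.Z q ((m.Z t z).1, b t)).1) :
    ∃ η, ∀ t, m.J z η t = b t := by
  obtain ⟨p, hp⟩ : ∃ p : ℝ → ℝ → V, ∀ t q, p t q = (m.Z q ((m.Z t z).1, b t)).1 :=
    ⟨_, fun _ _ => rfl⟩
  have dp : ∀ t, HasDerivAt (p t) (m.R (m.Z t z).1 (b t)) 0 := fun t => by
    have : HasDerivAt (fun q => (m.Z q ((m.Z t z).1, b t)).1)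
        (m.vf (m.Z 0 ((m.Z t z).1, b t))).1 0 := (H.ok.ode ((m.Z t z).1, b t) 0).fst
    rw [H.ok.zero] at this
    exact this.congr_of_eventuallyEq (.of_forall (hp t))
  obtain ⟨u, hu⟩ : ∃ u : ℝ → V × V, ∀ q, u q = (p 0 q, lg (p 0 q, p 1 q)) := ⟨_, fun _ => rfl⟩
  have du : DifferentiableAt ℝ u 0 := by
    have a := (dp 0).differentiableAt
    have c := (H.had.c1.differentiable one_ne_zero _).comp 0 (a.prodMk (dp 1).differentiableAt)
    exact (a.prodMk c).congr_of_eventuallyEq (.of_forall hu)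
  have u0 : u 0 = z := by
    rw [hu, hp, hp, H.ok.zero, H.ok.zero, H.ok.zero]
    exact Prod.ext rfl (vel H z).symm
  have e : ∀ t, ∀ q ∈ Icc (0 : ℝ) 1, (m.Z t (u q)).1 = p t q := fun t q hq => by
    obtain ⟨v, hv⟩ := h q hq
    have v0 := hv 0
    rw [H.ok.zero v, ← hp] at v0
    have : u q = v := by
      rw [hu, ← v0, hp, ← hv]
      exact Prod.ext rfl (vel H v).symm
    rw [this, hv, hp]
  refine ⟨deriv u 0, fun t => ?_⟩
  have a : HasDerivAt (fun q => (m.Z t (u q)).1) (fderiv ℝ (m.Z t) z (deriv u 0)).1 0 :=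
    ((Z_diff H.ok t z).hasFDerivAt.comp_hasDerivAt_of_eq 0 du.hasDerivAt u0.symm).fst
  have i := left_mem_Icc.2 (zero_le_one' ℝ)
  have c := (uniqueDiffOn_Icc zero_lt_one 0 i).eq_deriv _ a.hasDerivWithinAt
    ((dp t).hasDerivWithinAt.congr (e t) (e t 0 i))
  rw [← H.ok.SR (m.Z t z).1 (b t), ← c]
  rfl

theorem par (H : Hd m lg) {z η : V × V} {r : ℝ} (h : ∀ t, ‖m.J z η t‖ = r) (t : ℝ) :
    m.J' z η t = 0 := by
  rcases eq_or_ne r 0 with rfl | r0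
  · have e : ∀ s, m.J z η s = 0 := fun s => norm_eq_zero.1 (h s)
    have := (H.jac.d1 z η t).unique ((hasDerivAt_const t 0).congr_of_eventuallyEq (.of_forall e))
    simpa [e] using this
  · have r1 : 0 ≤ r := h 0 ▸ norm_nonneg _
    have := RPAR.par H (u := z) (ξ := r⁻¹ • η) (fun s => by
      have e := h s
      simp only [MF.J, map_smul] at e ⊢
      rw [norm_smul, e, norm_inv, Real.norm_of_nonneg r1, inv_mul_cancel₀ r0]) t
    simp only [MF.J', map_smul] at this ⊢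
    exact (smul_eq_zero.1 this).resolve_left (inv_ne_zero r0)

end RSTP

open RSTP

theorem rSTP : R_STP := by
  intro h1 h2 m lg H z hz w _ ⟨D, hD⟩
  have hr : ∀ t, ds m lg t z t w = ‖lg (z.1, w.1)‖ := fun t => by
    have e : ds m lg 0 z 0 w = ‖lg (z.1, w.1)‖ := by rw [ds, H.ok.zero, H.ok.zero]
    rw [← e]
    exact le_antisymm (cst (h1 m lg H z w) hD t 0) (cst (h1 m lg H z w) hD 0 t)
  have h := fun q (hq : q ∈ Icc (0 : ℝ) 1) => two h1 h2 H hz hr hq.1 hq.2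
  obtain ⟨η, hη⟩ := jac H (z := z) (b := fun t => lg ((m.Z t z).1, (m.Z t w).1)) fun q hq =>
    (h q hq).imp fun _ h => h.2
  exact ⟨hr, h, η, fun t => ⟨hη t, par H (fun s => (congrArg norm (hη s)).trans (hr s)) t⟩⟩

end Pool.Agent.MP_3ee8cb_gt.D3RH
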