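import Pool.Agent.MP_3ee8cb_gt.D3RH.Kit

/-! A conjugacy keeps the vectors whose parallels fill the space. -/

namespace Pool.Agent.MP_3ee8cb_gt.D3RH

open D3 D3RK

theorem rTRF : R_TRF := by
  intro hD hN X Y c hc v hv hF
  obtain ⟨D, hD⟩ := hD X Y c hc
  have ne : ∀ z ∈ U, z.2 ≠ 0 := fun z hz h => by
    have h1 : ‖z.2‖ = 1 := hz
    rw [h, norm_zero] at h1
    exact zero_ne_one h1
  have hU : ∀ z ∈ U, c.φ z ∈ U := fun z hz => (hc.h.norm z (ne z hz)).trans hz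
  have hZ : ∀ t, ∀ z ∈ U, X.m.Z t z ∈ U := fun t z hz => (hc.x.hd.jac.norm t z).trans hz
  refine hN Y.m Y.lg hc.y.hd _ (hU v hv) D fun y => ?_
  have hb : (y, v.2) ∈ U := hv
  have hz : c.ψ (y, v.2) ∈ U := (hc.h'.norm _ (ne _ hb)).trans hb
  obtain ⟨a, ha, E, hE⟩ := hF (c.ψ (y, v.2)).1
  have ha' : ((c.ψ (y, v.2)).1, a) ∈ U := ha
  refine ⟨c.φ ((c.ψ (y, v.2)).1, a), hU _ ha', ⟨E + D, fun t => ?_⟩, ?_⟩
  · have h := hD _ (hZ t _ ha') _ (hZ t _ hv)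
    rw [hc.h.flow t _ (ne _ ha'), hc.h.flow t _ (ne _ hv)] at h
    exact h.trans (add_le_add_left (hE t) D)
  · have h := hD _ hz _ ha'
    rw [hc.ri _ (ne _ hb), D3WI.lg_self hc.x.hd.ok hc.x.hd.jac hc.x.hd.had, norm_zero,
      zero_add] at h
    exact h

end Pool.Agent.MP_3ee8cb_gt.D3RH
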