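import Pool.Agent.MP_3ee8cb_gt.D3RH.Kit

/-! Rigidity in higher rank, from the blocks. -/

namespace Pool.Agent.MP_3ee8cb_gt.D3RH

open Set Filter Topology D3 D3RK
open D3.SI (ac)
open scoped RealInnerProductSpace

theorem spl (s1 : SS1) (s2 : SS2) (s3 : SS3) (s4 : SS4) (s5 : SS5) : SSPL := by
  intro m lg H v hv hf
  obtain ⟨ζ, h, e, o1⟩ := s1 m lg H v hv hf
  have o2 := fun k P => s2 m lg H _ (o1 k P)
  obtain ⟨k, o3⟩ := s3 m lg H ζ (o1 0 fun _ _ => .refl ℝ V).cont (o1 0 fun _ _ => .refl ℝ V).unit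
    (o2 0 fun _ _ => .refl ℝ V).K0
  obtain ⟨P, o4⟩ := s4 m lg H _ (o1 k fun _ _ => .refl ℝ V) (o2 k _) (o3 h _)
  exact ⟨⟨ζ, h, k, P⟩, ⟨o1 k P, o2 k P, o3 h P, o4, s5 m lg H _ (o1 k P) (o2 k P) (o3 h P) o4⟩, e⟩

theorem H_neg {S : Sp} {z : V × V} (hz : z ∈ S.H) : (z.1, -z.2) ∈ S.H :=
  ⟨(norm_neg _).trans hz.1, by
    rw [Sp.s, inner_neg_right, show ⟪S.ζ z.1, z.2⟫ = 0 from hz.2, neg_zero]⟩

theorem H_circ {m : MF} {lg : V × V → V} {S : Sp} (h : S.OK1 m lg) {z : V × V} (hz : z ∈ S.H)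
    (θ : ℝ) : (z.1, Real.cos θ • z.2 + Real.sin θ • S.n z) ∈ S.H := by
  refine ⟨(sq_eq_sq₀ (norm_nonneg _) zero_le_one).1 ?_, ?_⟩
  · rw [norm_add_sq_real, norm_smul, norm_smul, inner_smul_left, inner_smul_right, hz.1,
      n_unit h hz, Sp.n, cr_right]
    simp
  · rw [Sp.s, inner_add_right, inner_smul_right, inner_smul_right, Sp.n, cr_left,
      show ⟪S.ζ z.1, z.2⟫ = 0 from hz.2]
    simp

theorem nfc (slp : SSLP) (coc : SCOC) (blk : SBLK) (det : SDET) (fo1 : SFO1) (fo2 : SFO2)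
    (sh1 : SSH1) (sh2 : SSH2) (fb : SFB) (avg : SAVG) (odd : SODD) (en : SEN) : SNFC := by
  intro X Y c S S' ε τ₀ ε' τ₀' D N
  have a := slp X Y c S S' ε τ₀ ε' τ₀' D N
  obtain ⟨p, b⟩ := coc X Y c S S' ε τ₀ ε' τ₀' D N a
  have B := blk X Y c S S' ε τ₀ ε' τ₀' D N a
  obtain ⟨τ, M, f1⟩ := fo1 X Y c S S' ε τ₀ ε' τ₀' D N a B (det X Y c S S' ε τ₀ ε' τ₀' D N a B)
  have f2 := fo2 X Y c S S' ε τ₀ ε' τ₀' D N a τ M f1
  have g := sh2 X Y c S S' ε τ₀ ε' τ₀' D N a B (sh1 X Y c S S' ε τ₀ ε' τ₀' D N a) τ M f1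
  have F := fb X Y c S S' ε τ₀ ε' τ₀' D N a B τ M f1 f2
  have j := N.ok.x.hd.jac
  have m1 := avg X S ε τ₀ τ (fun z => |A' c S S' z (τ z)|) M N.ok.x N.s N.dk f2.cm fun z hz =>
    ⟨(f1.min z hz 0).1, f1.bdd z hz, fun r => by
      obtain ⟨b, hb⟩ := g.tr r z.1
      exact (hb z.2 hz).2.1, fun γ => by
      obtain ⟨-, e1, e2⟩ := f2.gr z hz γ
      simp only [e1, e2], f1.der z hz, by
      have ct : Continuous fun θ : ℝ => |A' c S S' (z.1, Real.cos θ • z.2 + Real.sin θ • S.n z)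
          (τ (z.1, Real.cos θ • z.2 + Real.sin θ • S.n z))| :=
        f2.cm.comp_continuous (by fun_prop) (H_circ N.s.o1 hz)
      have e1 := F z hz
      have e2 := F _ (H_neg hz)
      have e3 := intervalIntegral.integral_comp_add_right (a := 0) (b := Real.pi)
        (fun θ : ℝ => |A' c S S' (z.1, Real.cos θ • z.2 + Real.sin θ • S.n z)
          (τ (z.1, Real.cos θ • z.2 + Real.sin θ • S.n z))|) Real.pi
      simp only [Real.cos_add_pi, Real.sin_add_pi, neg_smul, zero_add] at e3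
      simp only [Sp.n, cr_neg_right, smul_neg] at e1 e2 e3 ct ⊢
      rw [← intervalIntegral.integral_add_adjacent_intervals (ct.intervalIntegrable 0 Real.pi)
        (ct.intervalIntegrable Real.pi _), two_mul, ← e3]
      exact add_le_add e1 e2⟩
  have fl : ∀ z ∈ S.H, ∀ t, τ (X.m.Z t z) = τ z := fun z hz t => by
    have d : ∀ s, HasDerivAt (fun s => τ (X.m.Z s z)) 0 s := fun s => by
      simpa [m1 _ (H_fl j N.s.o1 hz s)] using f1.der z hz s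
    simpa [N.ok.x.hd.ok.zero] using is_const_of_deriv_eq_zero (fun s => (d s).differentiableAt)
      (fun s => (d s).deriv) t 0
  have od := odd X S ε τ₀ (fun z => τ z - τ (z.1, -z.2)) N.ok.x N.s N.nf N.dk
    (f2.ct.sub (f2.ct.comp (by fun_prop) fun z hz => H_neg hz)) fun z hz =>
    ⟨fun t => by
      have e := D3WI.flipZ j (-t) z.1 z.2
      rw [neg_neg] at e
      simp only [← e, fl z hz, fl _ (H_neg hz)], fun r => by
      obtain ⟨b, hb⟩ := g.tr r z.1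
      have e1 := (hb z.2 hz).1
      have e2 := (hb _ (H_neg hz)).1
      simp only [Sp.Tv, map_neg] at e1 e2 ⊢
      rw [e1, e2]; ring, fun γ => by
      have e1 := (f2.gr z hz γ).2.1
      have e2 := (f2.gr _ (H_neg hz) γ).2.1
      simp only [ac, map_neg] at e1 e2 ⊢
      rw [e1, e2], by simp⟩
  refine en X Y c S S' ε τ₀ ε' τ₀' D N a B τ M p b f1 f2 g fl fun x u v hu hv => ?_
  obtain ⟨b, hb⟩ := g.fp x
  have e1 := od _ hu
  have e2 := od _ hv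
  simp only [hb u hu, hb v hv] at e1 e2
  linarith

theorem phi_U {X Y : Sd} {c : Cj X Y} (h : c.OK) {z : V × V} (hz : z ∈ U) : c.φ z ∈ U :=
  (h.h.norm z (D3WI.ne_of_norm hz)).trans hz

theorem par_phi {X Y : Sd} {c : Cj X Y} (h : c.OK) {D : ℝ} (d : Di c D) {z w : V × V}
    (hz : z ∈ U) (hw : w ∈ U) (p : Par X.m X.lg z w) : Par Y.m Y.lg (c.φ z) (c.φ w) := by
  obtain ⟨E, hE⟩ := p
  refine ⟨E + D, fun t => ?_⟩
  rw [ds, ← h.h.flow t z (D3WI.ne_of_norm hz), ← h.h.flow t w (D3WI.ne_of_norm hw)]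
  exact (d _ ((h.x.hd.jac.norm t z).trans hz) _ ((h.x.hd.jac.norm t w).trans hw)).trans
    (add_le_add_left (hE t) D)

theorem flat_of (fl0 : SFL0) (trf : STRF) (sp : SSPL) {X Y : Sd} {c : Cj X Y} (h : c.OK)
    (f : Flat Y.m) : Flat X.m := by
  intro y a b
  obtain ⟨L, hL⟩ := h.x.hd.jac.lK y
  by_cases b0 : b = 0
  · simp [hL, b0]
  have u : (y, ‖b‖⁻¹ • b) ∈ U := norm_smul_inv_norm b0
  have e := trf Y X c.symm h.symm _ (phi_U h u) ((fl0 _ _ h.y.hd f).1 _ (phi_U h u))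
  rw [show c.symm.φ (c.φ (y, ‖b‖⁻¹ • b)) = _ from h.li _ (D3WI.ne_of_norm u)] at e
  obtain ⟨S, s, hs⟩ := sp _ _ h.x.hd _ u e
  have k := s.o2.K0 y a
  rw [show S.ζ y = _ from hs, hL] at k
  simp only [map_smul, smul_apply, smul_eq_zero, inv_eq_zero, norm_eq_zero, b0, false_or] at k
  simp [hL, k]

theorem flat_iff {m : MF} {lg : V × V → V} {S : Sp} (s : S.OK m lg) :
    Flat m ↔ ∀ x, S.k x = 0 := by
  constructor
  · intro f x
    have k : ∀ z ∈ S.H, S.k z.1 = 0 := fun z hz => by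
      have e := f z.1 (S.n z) z.2
      rw [K_n s.o1 s.o3 hz, real_inner_smul_left, real_inner_self_eq_norm_sq,
        n_unit s.o1 hz] at e
      linarith
    obtain ⟨u, u1, u2⟩ := ex_perp (S.ζ x)
    exact k (x, u) (And.intro u1 u2)
  · intro k y a b
    rw [s.o3.KK, k, zero_mul, zero_smul, inner_zero_left]

theorem hr0 (ful : SFUL) (fl0 : SFL0) (trf : STRF) (sp : SSPL) (di : SDI) (dk : SDK) (flt : SFLT)
    (nf : SNFC) : SHR0 := by
  intro X Y c h nr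
  by_cases f : Flat Y.m
  · exact flt X Y c h (flat_of fl0 trf sp h f) f
  have f' : ¬Flat X.m := fun k => f (flat_of fl0 trf sp h.symm k)
  obtain ⟨w, hw, fw⟩ := ful _ _ h.y.hd nr
  have hv : c.ψ w ∈ U := phi_U h.symm hw
  obtain ⟨S, s, e⟩ := sp _ _ h.x.hd _ hv (trf Y X c.symm h.symm w hw fw)
  obtain ⟨S', s', e'⟩ := sp _ _ h.y.hd w hw fw
  have k : ∃ x, S.k x ≠ 0 := not_forall.1 fun k => f' ((flat_iff s).2 k)
  have k' : ∃ x, S'.k x ≠ 0 := not_forall.1 fun k => f ((flat_iff s').2 k)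
  obtain ⟨ε, τ, d⟩ := dk X S h.x s k
  obtain ⟨ε', τ', d'⟩ := dk Y S' h.y s' k'
  obtain ⟨D, hD⟩ := di X Y c h
  obtain ⟨D', hD'⟩ := di Y X c.symm h.symm
  refine nf X Y c S S' ε τ ε' τ' (max D D') ⟨h, s, s', k, k', d, d',
    fun z hz w hw => (hD z hz w hw).trans (add_le_add_right (le_max_left _ _) _),
    fun z hz w hw => (hD' z hz w hw).trans (add_le_add_right (le_max_right _ _) _), fun x => ?_⟩
  have ux : (x, S.ζ x) ∈ U := s.o1.unit x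
  have p := par_phi h hD ux hv ⟨‖X.lg (x, (c.ψ w).1)‖, fun t => by
    have := s.o1.iso t x (c.ψ w).1
    rw [Sp.T, Sp.T, e] at this
    exact this.le⟩
  rw [h.ri w (D3WI.ne_of_norm hw)] at p
  refine s'.o1.uq _ (phi_U h ux) w.1 ?_
  rwa [e']

theorem mainH_of (act : SACT) (cf0 : SCF0) (hr : SHR0) (ms : SMS) : MainH := by
  intro g h C C' Γ Λ _ _ _ _ Φ Ψ ρ F qg qh cg ch dΓ dΛ cj m m' lg lg' H H' l l' f1 f2 nr
  obtain ⟨O, aO⟩ := act g C Γ Φ qg cg m H.ok l dΓ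
  obtain ⟨O', aO'⟩ := act h C' Λ Ψ qh ch m' H'.ok l' dΛ
  obtain ⟨φ, ψ, k⟩ := cf0 g h C C' Γ Λ Φ Ψ ρ F qg qh cg ch dΓ dΛ cj m m' lg lg' O O' H H' l l'
    aO aO' f1 f2
  obtain ⟨G, b, d, e⟩ := hr _ _ _ k nr
  obtain ⟨c1, i⟩ := ms m m' lg lg' G H H' b d
  refine ⟨G, b, c1, fun x u v => ?_, e⟩
  have e1 := l.orth x (m.S x u) (m.S x v)
  have e2 := l'.orth (G x) (m'.S (G x) (fderiv ℝ G x u)) (m'.S (G x) (fderiv ℝ G x v))
  rw [H.ok.RS, H.ok.RS] at e1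
  rw [H'.ok.RS, H'.ok.RS] at e2
  rw [e1, e2, i]

end Pool.Agent.MP_3ee8cb_gt.D3RH
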