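import Pool.Agent.MP_3ee8cb_gt.D3RK.All
import Pool.Agent.MP_3ee8cb_gt.D3RH.Top
import Pool.Agent.MP_3ee8cb_gt.D3RH.RANG
import Pool.Agent.MP_3ee8cb_gt.D3RH.RAVG
import Pool.Agent.MP_3ee8cb_gt.D3RH.RBLK
import Pool.Agent.MP_3ee8cb_gt.D3RH.RCF0
import Pool.Agent.MP_3ee8cb_gt.D3RH.RCOC
import Pool.Agent.MP_3ee8cb_gt.D3RH.RCRS
import Pool.Agent.MP_3ee8cb_gt.D3RH.RCST
import Pool.Agent.MP_3ee8cb_gt.D3RH.RDEN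
import Pool.Agent.MP_3ee8cb_gt.D3RH.RDET
import Pool.Agent.MP_3ee8cb_gt.D3RH.RDI
import Pool.Agent.MP_3ee8cb_gt.D3RH.RDK
import Pool.Agent.MP_3ee8cb_gt.D3RH.REN
import Pool.Agent.MP_3ee8cb_gt.D3RH.REUC
import Pool.Agent.MP_3ee8cb_gt.D3RH.RFB
import Pool.Agent.MP_3ee8cb_gt.D3RH.RFL0
import Pool.Agent.MP_3ee8cb_gt.D3RH.RFLT
import Pool.Agent.MP_3ee8cb_gt.D3RH.RFO1
import Pool.Agent.MP_3ee8cb_gt.D3RH.RFO2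
import Pool.Agent.MP_3ee8cb_gt.D3RH.RFUL
import Pool.Agent.MP_3ee8cb_gt.D3RH.RJT
import Pool.Agent.MP_3ee8cb_gt.D3RH.RKI
import Pool.Agent.MP_3ee8cb_gt.D3RH.RLEN
import Pool.Agent.MP_3ee8cb_gt.D3RH.RMS
import Pool.Agent.MP_3ee8cb_gt.D3RH.RNET
import Pool.Agent.MP_3ee8cb_gt.D3RH.RNF
import Pool.Agent.MP_3ee8cb_gt.D3RH.ROD1
import Pool.Agent.MP_3ee8cb_gt.D3RH.RODD
import Pool.Agent.MP_3ee8cb_gt.D3RH.ROP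
import Pool.Agent.MP_3ee8cb_gt.D3RH.RPLN
import Pool.Agent.MP_3ee8cb_gt.D3RH.RRT
import Pool.Agent.MP_3ee8cb_gt.D3RH.RS1
import Pool.Agent.MP_3ee8cb_gt.D3RH.RS2
import Pool.Agent.MP_3ee8cb_gt.D3RH.RS3
import Pool.Agent.MP_3ee8cb_gt.D3RH.RS4
import Pool.Agent.MP_3ee8cb_gt.D3RH.RS5
import Pool.Agent.MP_3ee8cb_gt.D3RH.RSH1
import Pool.Agent.MP_3ee8cb_gt.D3RH.RSH2
import Pool.Agent.MP_3ee8cb_gt.D3RH.RSID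
import Pool.Agent.MP_3ee8cb_gt.D3RH.RSLP
import Pool.Agent.MP_3ee8cb_gt.D3RH.RST2
import Pool.Agent.MP_3ee8cb_gt.D3RH.RSTP
import Pool.Agent.MP_3ee8cb_gt.D3RH.RTRF

/-! Rigidity in higher rank: the blocks together. -/

namespace Pool.Agent.MP_3ee8cb_gt.D3RH

open D3 D3RK

theorem sSTP : SSTP := rSTP rCV rGEO

theorem sPLN : SPLN := rPLN rGEO rLEN

theorem sFL0 : SFL0 := rFL0 rOP rJT rLEN sPLN

theorem sDI : SDI := rDI rLGA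

theorem sDEN : SDEN := rDEN rLGA

theorem sST2 : SST2 := rST2 sSTP rNF

theorem sSPL (ex : SEX) : SSPL :=
  spl (rS1 rCV sASY sSTP) (rS2 sSTP) (rS3 rOP) (rS4 rGEO rJT) (rS5 ex rJT)

theorem sNFC (ex : SEX) (el : R_EL) (ns : R_NS2) : SNFC :=
  nfc rSLP rCOC (rBLK (el ex) rJT rNF sDEN) (rDET rNF) (rFO1 ex rJT rNF (rOD1 ex)) rFO2
    (rSH1 sDEN sST2) (rSH2 rNF (rCST rNF)) (rFB rCRS rNF (rSID ex rJT rNF) (rANG rNF))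
    (rAVG D3NP.sINT2 rRT) (rODD sASY sAQ sLA sNW rBAI sDEN (ns rCV rGEO sAQ sST2)) (rEN rNF)

theorem mainH' (ex : SEX) (el : R_EL) (ns : R_NS2) : MainH :=
  mainH_of sACT rCF0 (hr0 (rFUL rOP rRK rJT sPLN) sFL0 (rTRF sDI (rNET rCV sASY sSTP)) (sSPL ex)
    sDI (rDK rLGA rKI (sSPL ex)) (rFLT rLGA rGEO sDI sFL0 rEUC) (sNFC ex el ns)) rMS

theorem mainF_of (h : MainH) : MainF fun m' => ¬∃ z ∈ U, Reg m' z := by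
  intro g h' C C' Γ Λ _ _ _ _ Φ Ψ ρ F qg qh cg ch dΓ dΛ cj m m' _ _ lg lg' H H' l l' _ _ _ _ _ _ _
    f1 f2 nr
  exact h g h' C C' Γ Λ Φ Ψ ρ F qg qh cg ch dΓ dΛ cj m m' lg lg' H H' l l' f1 f2
    fun z hz k => nr ⟨z, hz, k⟩

end Pool.Agent.MP_3ee8cb_gt.D3RH
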