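import Pool.Agent.MP_3ee8cb_gt.D3RH.Kit
import Pool.Agent.MP_3ee8cb_gt.D3OD.REX

/-! The scalar equation `j'' = k j`: existence, uniqueness and bounded first integrals. -/

namespace Pool.Agent.MP_3ee8cb_gt.D3RH

open Set Filter Topology

namespace REX

/-- The first order system. -/
noncomputable def sys (k : ℝ) : (ℝ × ℝ) →L[ℝ] (ℝ × ℝ) :=
  (ContinuousLinearMap.snd ℝ ℝ ℝ).prod (k • ContinuousLinearMap.fst ℝ ℝ ℝ)

theorem sys_apply (k : ℝ) (p : ℝ × ℝ) : sys k p = (p.2, k * p.1) := rfl

theorem sys_cont {k : ℝ → ℝ} (hk : Continuous k) : Continuous fun t => sys (k t) := by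
  refine continuous_clm_apply.2 fun p => ?_
  simp only [sys_apply]
  exact continuous_const.prodMk (hk.mul continuous_const)

/-- A bounded function with monotone derivative is constant. -/
theorem flat {f g : ℝ → ℝ} {B : ℝ} (hf : ∀ t, HasDerivAt f (g t) t) (hg : Monotone g)
    (hB : ∀ s t, f s - f t ≤ B) (t : ℝ) : g t = 0 := by
  have hc : Continuous f := continuous_iff_continuousAt.2 fun t => (hf t).continuousAt
  have B0 : 0 ≤ B := by simpa using hB 0 0
  by_contra h0
  have ha : 0 < |g t| := abs_pos.2 h0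
  have hT : 0 < (B + 1) / |g t| := by positivity
  have e : |g t| * ((B + 1) / |g t|) = B + 1 := by field_simp
  generalize (B + 1) / |g t| = T at hT e
  rcases le_total 0 (g t) with h | h
  · obtain ⟨c, hc, k⟩ := exists_hasDerivAt_eq_slope f g (show t < t + T by linarith)
      hc.continuousOn fun s _ => hf s
    rw [add_sub_cancel_left, eq_div_iff hT.ne'] at k
    rw [abs_of_nonneg h] at e
    nlinarith [hg hc.1.le, hB (t + T) t]
  · obtain ⟨c, hc, k⟩ := exists_hasDerivAt_eq_slope f g (show t - T < t by linarith)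
      hc.continuousOn fun s _ => hf s
    rw [sub_sub_cancel, eq_div_iff hT.ne'] at k
    rw [abs_of_nonpos h] at e
    nlinarith [hg hc.2.le, hB (t - T) t]

/-- A bounded solution vanishes. -/
theorem bdd {k j j' : ℝ → ℝ} {C : ℝ} (k0 : ∀ t, 0 ≤ k t) (hk : ∃ t, k t ≠ 0) (h : So k j j')
    (hC : ∀ t, |j t| ≤ C) : j 0 = 0 ∧ j' 0 = 0 := by
  have d1 : ∀ t, HasDerivAt (fun t => j t * j t) (2 * (j t * j' t)) t := fun t =>
    ((h t).1.mul (h t).1).congr_deriv (by ring)
  have d2 : ∀ t, HasDerivAt (fun t => 2 * (j t * j' t)) (2 * (j' t ^ 2 + k t * j t ^ 2)) t :=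
    fun t => (((h t).1.mul (h t).2).const_mul 2).congr_deriv (by ring)
  have z := flat (B := C ^ 2) d1 (monotone_of_deriv_nonneg (fun t => (d2 t).differentiableAt)
    fun t => by rw [(d2 t).deriv]; have := k0 t; positivity) fun s t => by
      nlinarith [pow_le_pow_left₀ (abs_nonneg _) (hC s) 2, sq_abs (j s), mul_self_nonneg (j t)]
  have z2 : ∀ t, j' t ^ 2 + k t * j t ^ 2 = 0 := fun t => by
    have e := d2 t
    rw [funext z] at e
    linarith [e.unique (hasDerivAt_const t (0 : ℝ))]
  have z3 : ∀ t, j' t = 0 := fun t => pow_eq_zero_iff two_ne_zero |>.1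
    (by nlinarith [z2 t, mul_nonneg (k0 t) (sq_nonneg (j t)), sq_nonneg (j' t)])
  obtain ⟨t, ht⟩ := hk
  have z4 := z2 t
  rw [z3, zero_pow two_ne_zero, zero_add, mul_eq_zero, or_iff_right ht,
    pow_eq_zero_iff two_ne_zero] at z4
  exact ⟨(is_const_of_deriv_eq_zero (fun t => (h t).1.differentiableAt)
    (fun t => (h t).1.deriv.trans (z3 t)) 0 t).trans z4, z3 0⟩

end REX

theorem rEX : SEX := by
  refine fun k hk => ⟨fun s a b => ?_, fun j j' s h h1 h2 t => ?_⟩
  · obtain ⟨y, h0, hy⟩ := D3OD.REX.glob (REX.sys_cont hk) s (a, b)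
    exact ⟨fun t => (y t).1, fun t => (y t).2, fun t =>
      ⟨(ContinuousLinearMap.fst ℝ ℝ ℝ).hasFDerivAt.comp_hasDerivAt t (hy t),
        (ContinuousLinearMap.snd ℝ ℝ ℝ).hasFDerivAt.comp_hasDerivAt t (hy t)⟩,
      congrArg Prod.fst h0, congrArg Prod.snd h0⟩
  · have e := D3OD.REX.uq (REX.sys_cont hk) (p := min s t - 1) (q := max s t + 1) (s := s)
      ⟨by linarith [min_le_left s t], by linarith [le_max_left s t]⟩
      (y := fun u => (j u, j' u)) (z := fun _ => 0)
      (fun u _ => (h u).1.prodMk (h u).2) (fun u _ => by rw [map_zero]; exact hasDerivAt_const _ _)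
      (Prod.ext h1 h2) (x := t) ⟨by linarith [min_le_right s t], by linarith [le_max_right s t]⟩
    exact ⟨congrArg Prod.fst e, congrArg Prod.snd e⟩

theorem rEL : R_EL := by
  intro hE k p q C hk k0 k1 hI hC
  obtain ⟨u, u', hu, u0, u1⟩ := (hE k hk).1 0 1 0
  obtain ⟨v, v', hv, v0, v1⟩ := (hE k hk).1 0 0 1
  have dW : ∀ t, HasDerivAt (fun t => u t * v' t - u' t * v t) 0 t := fun t =>
    (((hu t).1.mul (hv t).2).sub ((hu t).2.mul (hv t).1)).congr_deriv (by ring)
  have e := REX.bdd (j := fun t => q 0 * u t - p 0 * v t) (j' := fun t => q 0 * u' t - p 0 * v' t)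
    (C := C) k0 k1 (fun t => ⟨((hu t).1.const_mul _).sub ((hv t).1.const_mul _),
      (((hu t).2.const_mul _).sub ((hv t).2.const_mul _)).congr_deriv (by ring)⟩) fun t => by
      have W := is_const_of_deriv_eq_zero (fun t => (dW t).differentiableAt)
        (fun t => (dW t).deriv) t 0
      have a := hI u u' hu t
      have b := hI v v' hv t
      simp only [u0, u1, v0, v1] at W a b
      rw [show q 0 * u t - p 0 * v t = q t by linear_combination v t * a - u t * b + q t * W]
      exact (hC t).2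
  simp only [u0, u1, v0, v1] at e
  exact ⟨by linarith [e.2], by linarith [e.1]⟩

end Pool.Agent.MP_3ee8cb_gt.D3RH
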