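import Pool.Agent.MP_3ee8cb_gt.D3RH.Kit
import Pool.Agent.MP_3ee8cb_gt.D3RK.RNS

/-! North south behaviour among vectors of one slope. -/

namespace Pool.Agent.MP_3ee8cb_gt.D3RH

open Set Filter Topology D3 D3WI D3RK
open D3.SI (ac)
open scoped RealInnerProductSpace

noncomputable section

namespace RNS2

variable {m : MF} {lg : V × V → V} {E : V → V × V → V} {S : Sp}

theorem gram (a b c : V) : ⟪cr a b, c⟫ ^ 2 = ⟪a, a⟫ * ⟪b, b⟫ * ⟪c, c⟫ +
    2 * ⟪a, b⟫ * ⟪b, c⟫ * ⟪a, c⟫ - ⟪a, a⟫ * ⟪b, c⟫ ^ 2 - ⟪b, b⟫ * ⟪a, c⟫ ^ 2 -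
      ⟪c, c⟫ * ⟪a, b⟫ ^ 2 := by
  simp only [inn, cr0, cr1, cr2]; ring

theorem hlip (h : S.OK1 m lg) (x y : V) : |S.h y - S.h x| ≤ ‖lg (x, y)‖ := by
  have e := h.py (-(S.h y - S.h x)) x y
  refine abs_le_of_sq_le_sq ?_ (norm_nonneg _)
  nlinarith [sq_nonneg ‖lg (x, S.T m (-(S.h y - S.h x)) y)‖]

theorem slE (h : S.OK1 m lg) (A : Asy m lg E) (y : V) {w : V × V} (hw : w ∈ U) :
    S.s (y, E y w) = S.s w := by
  by_contra ne
  have p : 0 < |S.s w - S.s (y, E y w)| := abs_pos.2 (sub_ne_zero.2 (Ne.symm ne))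
  set t := (2 * ‖lg (y, w.1)‖ + 1) / |S.s w - S.s (y, E y w)| with ht
  have t0 : 0 ≤ t := by positivity
  have h1 := (hlip h _ _).trans (A.bdd y w hw t t0)
  have h2 := hlip h y w.1
  rw [h.ht, h.ht] at h1
  have h3 : |t * (S.s w - S.s (y, E y w))| = 2 * ‖lg (y, w.1)‖ + 1 := by
    rw [abs_mul, abs_of_nonneg t0, ht, div_mul_cancel₀ _ p.ne']
  have h4 := abs_le.1 h1
  have h5 := abs_le.1 h2
  rcases abs_cases (t * (S.s w - S.s (y, E y w))) with e | e <;> linarith [e.1]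

theorem sac {X : Sd} {ε τ} (d : Dk X S ε τ) (γ : X.G) (w : V × V) :
    S.s (ac X.O γ w) = ε γ * S.s w := by
  have e := (X.O γ w.1).inner_map_map (S.ζ w.1) w.2
  rw [d.ze, real_inner_smul_left] at e
  have e2 : S.s (ac X.O γ w) = ⟪S.ζ (γ • w.1), X.O γ w.1 w.2⟫ := rfl
  rw [e2, Sp.s, ← e]
  rcases d.sg γ with k | k <;> rw [k] <;> ring

theorem geo (H : Hd m lg) (cv : ∀ z w, ConvexOn ℝ univ fun t => ds m lg t z t w)
    (ge : ∀ x : ℝ → V, (∀ s t, ‖lg (x s, x t)‖ = |s - t|) → ∃ u ∈ U, ∀ t, x t = (m.Z t u).1)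
    (A : Asy m lg E) {u w : V × V} (hu : u ∈ U) (hw : w ∈ U) {L : ℝ}
    (hL : ∀ s, RNS.F E (m.Z s u) w = L) : ∃ z ∈ U, Par m lg u z ∧ lg (u.1, z.1) = E u.1 w := by
  obtain ⟨z, hz, hx⟩ := ge (fun s => (m.Z 1 ((m.Z s u).1, E (m.Z s u).1 w)).1)
    (RNS.flat H cv A hu hw hL)
  obtain ⟨ho, hj, -, hl⟩ := H
  have r : ∀ t, lg ((m.Z t u).1, (m.Z t z).1) = E (m.Z t u).1 w := fun t => by
    rw [← hx t]
    exact (lg_ray hj hl 1 ((m.Z t u).1, E (m.Z t u).1 w)).trans (one_smul ℝ _)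
  refine ⟨z, hz, ⟨1, fun t => by rw [ds, r, A.unit _ w hw]⟩, ?_⟩
  have r0 := r 0
  rwa [ho.zero, ho.zero] at r0

end RNS2

open RNS RNS2 in
theorem rNS2 : R_NS2 := by
  intro cv ge aq st X S ε τ E hX hS dk A u hu rg _ ⟨t, g, ht, hg⟩ ⟨s, h, hs, hh⟩ a a1 sa ne
  have H := hX.hd
  have ha := hX.act
  set m := X.m
  set lg := X.lg
  set O := X.O
  have Q := aq m lg X.G O H ha E A
  have ho := H.ok
  have hj := H.jac
  have w0 : (u.1, a) ∈ U := a1
  have acU : ∀ (γ : X.G) {z : V × V}, z ∈ U → ac O γ z ∈ U := fun γ z hz =>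
    ((O γ z.1).norm_map z.2).trans hz
  have ZU : ∀ (r : ℝ) {z : V × V}, z ∈ U → m.Z r z ∈ U := fun r z hz => (hj.norm r z).trans hz
  have fl : ∀ (γ : X.G) r z, m.Z r (ac O γ z) = ac O γ (m.Z r z) := fun γ r z => ha.flow γ r z
  have gr : ∀ (γ : X.G) z, ∀ w ∈ U, F E (ac O γ z) (ac O γ w) = F E z w := fun γ z w hw => by
    rw [F, F, show (ac O γ z).1 = γ • z.1 from rfl, Q.gr γ z.1 w hw]
    exact (O γ z.1).inner_map_map _ _
  have iv : ∀ (γ : X.G) w, ac O γ (ac O γ⁻¹ w) = w := fun γ w => by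
    simp only [ac, smul_inv_smul, ← ha.mul, mul_inv_cancel, ha.one]
  have cz : ∀ r, Continuous (m.Z r) := fun r => (Z_c1 ho r).continuous
  refine ⟨fun n => (g n)⁻¹, conv (fun n => A.unit _ _ (acU _ w0)) hu fun θ h1 => ?_⟩
  by_contra hc
  rw [not_eventually] at hc
  have b1 : ∀ r, F E (m.Z r u) (u.1, a) ≤ θ := fun r => by
    refine isClosed_Iic.mem_of_frequently_of_tendsto ((hc.and_eventually
      (ht.eventually_ge_atTop (-r))).mono fun n hn => ?_)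
      (lim A (((cz r).tendsto u).comp hg) tendsto_const_nhds (fun _ => w0) w0)
    have h2 := Q.mono _ (acU (g n) (ZU (t n) hu)) _ w0 (show -t n ≤ r by linarith [hn.2])
    refine le_trans h2 (le_trans (le_of_eq ?_) (not_lt.1 hn.1))
    have h3 := gr (g n) u _ (acU (g n)⁻¹ w0)
    rw [iv] at h3
    refine Eq.trans ?_ h3
    simp only [fl, ← ho.add, neg_add_cancel, ho.zero, F]
  have bd : BddAbove (range fun r => F E (m.Z r u) (u.1, a)) :=
    ⟨θ, by rintro _ ⟨r, rfl⟩; exact b1 r⟩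
  have tl := tendsto_atBot_ciSup (f := fun r => F E (m.Z r u) (u.1, a)) (Q.mono u hu _ w0) bd
  have l0 := le_ciSup bd 0
  have l1 := ciSup_le b1
  generalize (⨆ r, F E (m.Z r u) (u.1, a)) = L at tl l0 l1
  have vU := fun n => A.unit (ac O (h n) (m.Z (s n) u)).1 _ (acU (h n) w0)
  obtain ⟨b, hb, ψ, hψ, hl⟩ := (isCompact_sphere (0 : V) 1).tendsto_subseq
    fun n => mem_sphere_zero_iff_norm.2 (vU n)
  have w1 : (u.1, b) ∈ U := mem_sphere_zero_iff_norm.1 hb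
  have hv := hh.comp hψ.tendsto_atTop
  have hL : ∀ r, F E (m.Z r u) (u.1, b) = L := fun r => by
    refine tendsto_nhds_unique (lim A (((cz r).tendsto u).comp hv) (hv.fst_nhds.prodMk_nhds hl)
      (fun n => vU (ψ n)) w1) ((tl.comp (tendsto_atBot_add_const_left _ r
        (hs.comp hψ.tendsto_atTop))).congr fun n => ?_)
    simp only [Function.comp]
    rw [← gr (h (ψ n)) _ _ w0, ho.add, ← fl, F, F, Q.sat _ _ _ (acU _ w0)]
  have cs : Continuous S.s := (hS.o1.cont.comp continuous_fst).inner continuous_snd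
  have sb : S.s (u.1, b) = S.s u := by
    refine tendsto_nhds_unique ((cs.tendsto _).comp (hv.fst_nhds.prodMk_nhds hl))
      (((cs.tendsto _).comp hv).congr fun n => ?_)
    simp only [Function.comp]
    rw [slE hS.o1 A _ (acU _ w0), sac dk, sac dk, hS.o1.sl, sa]
  obtain ⟨z, hz, pz, lz⟩ := RNS2.geo H (cv m lg H) (ge m lg H).1 A hu w1 hL
  have k := (st m lg H S hS u hu rg z hz pz).1
  have e0 : E u.1 (u.1, a) = a := Q.self _ w0
  have e1 : E u.1 (u.1, b) = b := Q.self _ w1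
  have L0 := hL 0
  simp only [ho.zero, F, e0, e1] at l0 L0
  have G := gram (S.ζ u.1) u.2 b
  have sb' : ⟪S.ζ u.1, b⟫ = S.s u := sb
  have su : ⟪S.ζ u.1, u.2⟫ = S.s u := rfl
  rw [lz, e1, Sp.n] at k
  rw [k, sb', su, L0, real_inner_self_eq_norm_sq, real_inner_self_eq_norm_sq,
    real_inner_self_eq_norm_sq, hS.o1.unit, show ‖u.2‖ = 1 from hu,
    show ‖b‖ = 1 from w1] at G
  nlinarith [mul_pos (show 0 < 1 - L by linarith) (show 0 < L - (2 * S.s u ^ 2 - 1) by linarith)]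

end

end Pool.Agent.MP_3ee8cb_gt.D3RH
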