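import Pool.Agent.MP_3ee8cb_gt.D3RH.All
import Pool.Agent.MP_3ee8cb_gt.D3RH.REX
import Pool.Agent.MP_3ee8cb_gt.D3RH.RNS2

/-! Rigidity in nonpositive curvature, dimension three, any rank. -/

namespace Pool.Agent.MP_3ee8cb_gt.D3RH

open D3 D3RK

theorem mainH : MainH := mainH' rEX rEL rNS2

theorem hr : MainF fun m' => ¬∃ z ∈ U, Reg m' z := mainF_of mainH

theorem mainAll (fib : D3NP.SFIB0) : MainP fun _ _ _ => True := allA1 fib hr

end Pool.Agent.MP_3ee8cb_gt.D3RH
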