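import Pool.Agent.MP_3ee8cb_gt.D3RH.Spec
import Pool.Agent.MP_3ee8cb_gt.D3WI.Base

/-! The cross product, and parallel fields of a splitting. -/

namespace Pool.Agent.MP_3ee8cb_gt.D3RH

open Set Filter Topology D3 D3RK
open scoped RealInnerProductSpace

noncomputable section

theorem inn (a b : V) : ⟪a, b⟫ = a 0 * b 0 + a 1 * b 1 + a 2 * b 2 := by
  simp [PiLp.inner_apply, Fin.sum_univ_three]; ring

theorem ext3 {a b : V} (h0 : a 0 = b 0) (h1 : a 1 = b 1) (h2 : a 2 = b 2) : a = b := by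
  ext i; fin_cases i <;> assumption

theorem cr0 (a b : V) : cr a b 0 = a 1 * b 2 - a 2 * b 1 := by simp [cr]
theorem cr1 (a b : V) : cr a b 1 = a 2 * b 0 - a 0 * b 2 := by simp [cr]
theorem cr2 (a b : V) : cr a b 2 = a 0 * b 1 - a 1 * b 0 := by simp [cr]

theorem cr_comm (a b : V) : cr a b = -cr b a :=
  ext3 (by simp [cr0]; ring) (by simp [cr1]; ring) (by simp [cr2]; ring)

theorem cr_self (a : V) : cr a a = 0 :=
  ext3 (by simp [cr0]; ring) (by simp [cr1]; ring) (by simp [cr2]; ring)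

theorem cr_add_left (a b c : V) : cr (a + b) c = cr a c + cr b c :=
  ext3 (by simp [cr0]; ring) (by simp [cr1]; ring) (by simp [cr2]; ring)

theorem cr_add_right (a b c : V) : cr a (b + c) = cr a b + cr a c :=
  ext3 (by simp [cr0]; ring) (by simp [cr1]; ring) (by simp [cr2]; ring)

theorem cr_sub_right (a b c : V) : cr a (b - c) = cr a b - cr a c :=
  ext3 (by simp [cr0]; ring) (by simp [cr1]; ring) (by simp [cr2]; ring)

theorem cr_smul_left (r : ℝ) (a b : V) : cr (r • a) b = r • cr a b :=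
  ext3 (by simp [cr0]; ring) (by simp [cr1]; ring) (by simp [cr2]; ring)

theorem cr_smul_right (r : ℝ) (a b : V) : cr a (r • b) = r • cr a b :=
  ext3 (by simp [cr0]; ring) (by simp [cr1]; ring) (by simp [cr2]; ring)

theorem cr_neg_left (a b : V) : cr (-a) b = -cr a b :=
  ext3 (by simp [cr0]; ring) (by simp [cr1]; ring) (by simp [cr2]; ring)

theorem cr_neg_right (a b : V) : cr a (-b) = -cr a b :=
  ext3 (by simp [cr0]; ring) (by simp [cr1]; ring) (by simp [cr2]; ring)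

theorem cr_left (a b : V) : ⟪a, cr a b⟫ = 0 := by rw [inn, cr0, cr1, cr2]; ring

theorem cr_right (a b : V) : ⟪b, cr a b⟫ = 0 := by rw [inn, cr0, cr1, cr2]; ring

theorem cr_cyc (a b c : V) : ⟪a, cr b c⟫ = ⟪cr a b, c⟫ := by
  simp only [inn, cr0, cr1, cr2]; ring

theorem cr_cr (a b c : V) : cr a (cr b c) = ⟪a, c⟫ • b - ⟪a, b⟫ • c :=
  ext3 (by simp [cr0, cr1, cr2, inn]; ring) (by simp [cr0, cr1, cr2, inn]; ring)
    (by simp [cr0, cr1, cr2, inn]; ring)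

theorem cr_inner (a b c d : V) : ⟪cr a b, cr c d⟫ = ⟪a, c⟫ * ⟪b, d⟫ - ⟪a, d⟫ * ⟪b, c⟫ := by
  simp only [inn, cr0, cr1, cr2]; ring

theorem cr_norm {a b : V} (ha : ‖a‖ = 1) (h : ⟪a, b⟫ = 0) : ‖cr a b‖ = ‖b‖ := by
  have e := cr_inner a b a b
  rw [real_inner_self_eq_norm_sq, real_inner_self_eq_norm_sq, real_inner_self_eq_norm_sq, h,
    ha] at e
  exact (sq_eq_sq₀ (norm_nonneg _) (norm_nonneg _)).1 (by linarith)

/-- Expansion in the frame `a, b, a × b`. -/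
theorem expand {a b : V} (ha : ‖a‖ = 1) (hb : ‖b‖ = 1) (h : ⟪a, b⟫ = 0) (v : V) :
    v = ⟪a, v⟫ • a + ⟪b, v⟫ • b + ⟪cr a b, v⟫ • cr a b := by
  have e1 : ⟪a, a⟫ = (1 : ℝ) := by rw [real_inner_self_eq_norm_sq, ha]; norm_num
  have e2 : ⟪b, b⟫ = (1 : ℝ) := by rw [real_inner_self_eq_norm_sq, hb]; norm_num
  have k : (⟪a, a⟫ * ⟪b, b⟫ - ⟪a, b⟫ ^ 2) • v = (⟪a, v⟫ * ⟪b, b⟫ - ⟪b, v⟫ * ⟪a, b⟫) • a +
      (⟪b, v⟫ * ⟪a, a⟫ - ⟪a, v⟫ * ⟪a, b⟫) • b + ⟪cr a b, v⟫ • cr a b :=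
    by
    simp only [inn]
    refine ext3 ?_ ?_ ?_ <;> simp [cr0, cr1, cr2] <;> ring
  rw [e1, e2, h] at k
  simpa using k

/-- A vector orthogonal to `a` and `b` is a multiple of `a × b`. -/
theorem perp_eq {a b v : V} (ha : ‖a‖ = 1) (hb : ‖b‖ = 1) (h : ⟪a, b⟫ = 0) (h1 : ⟪a, v⟫ = 0)
    (h2 : ⟪b, v⟫ = 0) : v = ⟪cr a b, v⟫ • cr a b := by
  simpa [h1, h2] using expand ha hb h v

/-- A unit vector orthogonal to `a` and `b` is `± a × b`. -/
theorem perp_pm {a b v : V} (ha : ‖a‖ = 1) (hb : ‖b‖ = 1) (h : ⟪a, b⟫ = 0) (h1 : ⟪a, v⟫ = 0)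
    (h2 : ⟪b, v⟫ = 0) (hv : ‖v‖ = 1) : v = cr a b ∨ v = -cr a b := by
  have e := perp_eq ha hb h h1 h2
  have n := congrArg norm e
  rw [norm_smul, cr_norm ha h, hb, hv, mul_one, Real.norm_eq_abs, eq_comm,
    abs_eq zero_le_one] at n
  rcases n with n | n <;> rw [n] at e
  · exact .inl (by simpa using e)
  · exact .inr (by simpa using e)

/-- An isometry keeps the normal up to sign. -/
theorem cr_iso (L : V ≃ₗᵢ[ℝ] V) {a b : V} (ha : ‖a‖ = 1) (hb : ‖b‖ = 1) (h : ⟪a, b⟫ = 0) :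
    L (cr a b) = cr (L a) (L b) ∨ L (cr a b) = -cr (L a) (L b) :=
  perp_pm (by simpa using ha) (by simpa using hb) (by simpa using h) (by simp [cr_left])
    (by simp [cr_right]) (by rw [L.norm_map, cr_norm ha h, hb])

/-- There is a unit vector orthogonal to `a`. -/
theorem ex_perp (a : V) : ∃ b : V, ‖b‖ = 1 ∧ ⟪a, b⟫ = 0 := by
  obtain ⟨c, c0, hc⟩ : ∃ c : V, c ≠ 0 ∧ ⟪a, c⟫ = 0 := by
    by_cases h : a 0 = 0
    · exact ⟨!₂[1, 0, 0], fun e => by simpa using congrArg (· 0) e, by simp [inn, h]⟩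
    · exact ⟨!₂[-a 1, a 0, 0], fun e => h (by simpa using congrArg (· 1) e), by simp [inn]; ring⟩
  exact ⟨‖c‖⁻¹ • c, norm_smul_inv_norm c0, by rw [inner_smul_right, hc, mul_zero]⟩

/-- The cross product as a bilinear map. -/
def crL : V →L[ℝ] V →L[ℝ] V := LinearMap.toContinuousLinearMap
  { toFun := fun a => LinearMap.toContinuousLinearMap
      { toFun := cr a, map_add' := cr_add_right a, map_smul' := fun r b => cr_smul_right r a b }
    map_add' := fun a b => ContinuousLinearMap.ext fun c => cr_add_left a b c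
    map_smul' := fun r a => ContinuousLinearMap.ext fun b => cr_smul_left r a b }

theorem crL_apply (a b : V) : crL a b = cr a b := rfl

theorem cr_deriv {f g : ℝ → V} {f' g' : V} {t : ℝ} (hf : HasDerivAt f f' t)
    (hg : HasDerivAt g g' t) : HasDerivAt (fun s => cr (f s) (g s)) (cr f' (g t) + cr (f t) g') t :=
  (crL.hasFDerivAt.comp_hasDerivAt t hf).clm_apply hg

theorem cr_contDiff {n : WithTop ℕ∞} : ContDiff ℝ n fun p : V × V => cr p.1 p.2 :=
  (crL.contDiff.comp contDiff_fst).clm_apply contDiff_snd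

theorem cr_cont : Continuous fun p : V × V => cr p.1 p.2 := (cr_contDiff (n := 0)).continuous

/-- A skew map is a derivation of the cross product. -/
theorem cr_skew (w : V →L[ℝ] V) (h : ∀ a b, ⟪w a, b⟫ = -⟪a, w b⟫) (a b : V) :
    w (cr a b) = cr (w a) b + cr a (w b) := by
  have e : ∀ v : V, v = v 0 • !₂[1, 0, 0] + v 1 • !₂[0, 1, 0] + v 2 • !₂[0, 0, 1] := fun v =>
    ext3 (by simp) (by simp) (by simp)
  have k : ∀ v : V, w v = v 0 • w !₂[1, 0, 0] + v 1 • w !₂[0, 1, 0] + v 2 • w !₂[0, 0, 1] :=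
    fun v => by conv_lhs => rw [e v, map_add, map_add, map_smul, map_smul, map_smul]
  have h00 := h !₂[1, 0, 0] !₂[1, 0, 0]
  have h11 := h !₂[0, 1, 0] !₂[0, 1, 0]
  have h22 := h !₂[0, 0, 1] !₂[0, 0, 1]
  have h01 := h !₂[1, 0, 0] !₂[0, 1, 0]
  have h02 := h !₂[1, 0, 0] !₂[0, 0, 1]
  have h12 := h !₂[0, 1, 0] !₂[0, 0, 1]
  rw [k a, k b, k (cr a b)]
  generalize w !₂[1, 0, 0] = p at *
  generalize w !₂[0, 1, 0] = q at *
  generalize w !₂[0, 0, 1] = r at *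
  simp [inn] at h00 h11 h22 h01 h02 h12
  have p0 : p 0 = 0 := by linarith
  have q1 : q 1 = 0 := by linarith
  have r2 : r 2 = 0 := by linarith
  refine ext3 ?_ ?_ ?_ <;> simp [cr0, cr1, cr2, p0, q1, r2, h01, h02, h12] <;> ring

variable {m : MF} {lg : V × V → V} {S : Sp}

theorem T_add (ho : m.OK) (h : S.OK1 m lg) (r s : ℝ) (x : V) :
    S.T m (r + s) x = S.T m r (S.T m s x) := by
  have e : m.Z s (x, S.ζ x) = (S.T m s x, S.ζ (S.T m s x)) := Prod.ext rfl (h.fl s x)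
  rw [Sp.T, ho.add, e]; rfl

theorem T_zero (ho : m.OK) (x : V) : S.T m 0 x = x := by rw [Sp.T, ho.zero]

theorem h_T (h : S.OK1 m lg) (r : ℝ) (x : V) : S.h (S.T m r x) = S.h x + r := by
  have e := h.ht r (x, S.ζ x)
  rwa [Sp.s, real_inner_self_eq_norm_sq, h.unit, one_pow, mul_one] at e

theorem d_foot (ho : m.OK) (z : V × V) (t : ℝ) :
    HasDerivAt (fun s => (m.Z s z).1) (m.R (m.Z t z).1 (m.Z t z).2) t :=
  (ContinuousLinearMap.fst ℝ V V).hasFDerivAt.comp_hasDerivAt t (ho.ode z t)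

theorem d_vel (ho : m.OK) (z : V × V) (t : ℝ) :
    HasDerivAt (fun s => (m.Z s z).2) (-m.w z t (m.Z t z).2) t :=
  (ContinuousLinearMap.snd ℝ V V).hasFDerivAt.comp_hasDerivAt t (ho.ode z t)

/-- The field is parallel along geodesics. -/
theorem d_zeta (ho : m.OK) (h : S.OK2 m) (z : V × V) (t : ℝ) :
    HasDerivAt (fun s => S.ζ (m.Z s z).1) (-m.w z t (S.ζ (m.Z t z).1)) t := by
  have e := (h.c1.differentiable one_ne_zero (m.Z t z).1).hasFDerivAt.comp_hasDerivAt t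
    (d_foot ho z t)
  rwa [h.par] at e

/-- The normal is parallel along geodesics. -/
theorem d_n (ho : m.OK) (h : S.OK2 m) (z : V × V) (t : ℝ) :
    HasDerivAt (fun s => S.n (m.Z s z)) (-m.w z t (S.n (m.Z t z))) t := by
  have e := cr_deriv (d_zeta ho h z t) (d_vel ho z t)
  rw [cr_neg_left, cr_neg_right, ← neg_add, ← cr_skew (m.w z t) (ho.skew _ _)] at e
  exact e

theorem H_fl (hj : m.Jac) (h : S.OK1 m lg) {z : V × V} (hz : z ∈ S.H) (t : ℝ) : m.Z t z ∈ S.H :=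
  ⟨(hj.norm t z).trans hz.1, (h.sl t z).trans hz.2⟩

theorem n_unit (h : S.OK1 m lg) {z : V × V} (hz : z ∈ S.H) : ‖S.n z‖ = 1 :=
  (cr_norm (h.unit _) hz.2).trans hz.1

/-- The curvature on the normal. -/
theorem K_n (h : S.OK1 m lg) (h3 : S.OK3 m) {z : V × V} (hz : z ∈ S.H) :
    m.K z.1 (S.n z) z.2 z.2 = -S.k z.1 • S.n z := by
  have e : ⟪S.ζ z.1, cr (S.n z) z.2⟫ = -1 := by
    rw [cr_comm, inner_neg_right, Sp.n, cr_cr, inner_sub_right, inner_smul_right, inner_smul_right,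
      real_inner_self_eq_norm_sq, real_inner_self_eq_norm_sq, hz.1, h.unit,
      show ⟪S.ζ z.1, z.2⟫ = 0 from hz.2]
    norm_num
  rw [h3.KK, e, mul_neg_one]; rfl

/-- The translations keep the horizontal vectors. -/
theorem H_Tv (h : S.OK4 m) {z : V × V} (hz : z ∈ S.H) (r : ℝ) : S.Tv m r z ∈ S.H :=
  ⟨((S.P r z.1).norm_map _).trans hz.1, by
    rw [Sp.s, Sp.Tv, ← h.Pz, LinearIsometryEquiv.inner_map_map]; exact hz.2⟩

end

end Pool.Agent.MP_3ee8cb_gt.D3RH
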