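import Pool.Agent.MP_3ee8cb_gt.D3RH.Kit

/-! Horizontal geodesics that meet the curved part are dense in every horizontal circle. -/

namespace Pool.Agent.MP_3ee8cb_gt.D3RH

open Set Filter Topology D3 D3RK
open scoped RealInnerProductSpace

theorem rDEN : R_DEN := by
  intro lga X S ε τ hX hS ⟨p₀, hp₀⟩ dk z hz
  have ho := hX.hd.ok
  have hj := hX.hd.jac
  have hl := hX.hd.had
  have la := lga X.m X.lg X.G X.O hX.hd hX.act
  obtain ⟨K, hK, hc⟩ := hX.act.cpt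
  have cn : Continuous fun x : V => X.lg (x, p₀) :=
    hl.c1.continuous.comp (continuous_id.prodMk continuous_const)
  obtain ⟨D, hD⟩ := hK.exists_bound_of_continuousOn cn.continuousOn
  have near : ∀ y : V, ∃ p, S.k p ≠ 0 ∧ S.h p = S.h y ∧ ‖X.lg (y, p)‖ ≤ D := by
    intro y
    obtain ⟨γ, hγ⟩ := hc y
    have e1 : ‖X.lg (y, γ⁻¹ • p₀)‖ ≤ D := by
      have h1 := la γ y (γ⁻¹ • p₀)
      rw [smul_inv_smul] at h1
      have h2 := hD _ hγ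
      rwa [h1, LinearIsometryEquiv.norm_map] at h2
    refine ⟨S.T X.m (S.h y - S.h (γ⁻¹ • p₀)) (γ⁻¹ • p₀), by rw [hS.kT, dk.ke]; exact hp₀,
      by rw [h_T hS.o1]; ring, le_trans ?_ e1⟩
    refine (abs_le_of_sq_le_sq' ?_ (norm_nonneg _)).2
    rw [hS.o1.py]
    nlinarith [sq_nonneg (S.h y - S.h (γ⁻¹ • p₀))]
  rw [Metric.mem_closure_iff]
  intro e he
  obtain ⟨p₁, -, -, h0⟩ := near z.1
  have D0 : 0 ≤ D := (norm_nonneg _).trans h0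
  obtain ⟨T, hT⟩ : ∃ T : ℝ, T = D + 2 * D / e + 1 := ⟨_, rfl⟩
  have q0 : 0 ≤ 2 * D / e := by positivity
  obtain ⟨p, hk, hh, hd⟩ := near (X.m.Z T z).1
  obtain ⟨l, hl'⟩ : ∃ l, l = X.lg (z.1, p) := ⟨_, rfl⟩
  have a1 : ‖T • z.2 - l‖ ≤ D := by
    have := D3WI.hinge' hl z.1 (X.m.Z T z).1 p
    rw [D3WI.lg_ray hj hl, ← hl'] at this
    exact this.trans hd
  have a2 : |T - ‖l‖| ≤ D := by
    have := abs_norm_sub_norm_le (T • z.2) l
    rw [norm_smul, hz.1, mul_one, Real.norm_eq_abs, abs_of_nonneg (by linarith : 0 ≤ T)] at this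
    exact this.trans a1
  have a3 : 2 * D / e < ‖l‖ := by linarith [(abs_le.1 a2).2]
  have l0 : 0 < ‖l‖ := q0.trans_lt a3
  have ep : (X.m.Z 1 (z.1, l)).1 = p := hl' ▸ hl.ex z.1 p
  have a4 : ⟪S.ζ z.1, l⟫ = 0 := by
    have b1 := hS.o1.ht 1 (z.1, l)
    have b2 := hS.o1.ht T z
    rw [ep, hh, b2, hz.2] at b1
    have : S.s (z.1, l) = 0 := by linarith
    exact this
  have el : ‖l‖ • ‖l‖⁻¹ • l = l := by rw [smul_smul, mul_inv_cancel₀ l0.ne', one_smul]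
  refine ⟨(z.1, ‖l‖⁻¹ • l), ⟨⟨?_, ?_⟩, ‖l‖, ?_⟩, ?_⟩
  · change ‖‖l‖⁻¹ • l‖ = 1
    rw [norm_smul, norm_inv, norm_norm, inv_mul_cancel₀ l0.ne']
  · change ⟪S.ζ z.1, ‖l‖⁻¹ • l⟫ = 0
    rw [real_inner_smul_right, a4, mul_zero]
  · have := congrArg Prod.fst (D3WI.one_smul' hj ‖l‖ (z.1, ‖l‖⁻¹ • l))
    simp only [el, ep] at this
    rwa [← this]
  · rw [Prod.dist_eq, dist_self, max_lt_iff, dist_eq_norm]
    refine ⟨he, ?_⟩
    have b1 : ‖l‖ * ‖z.2 - ‖l‖⁻¹ • l‖ ≤ 2 * D := by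
      have b2 : ‖l‖ • (z.2 - ‖l‖⁻¹ • l) = (T • z.2 - l) - (T - ‖l‖) • z.2 := by
        rw [smul_sub, el, sub_smul]; abel
      have b3 := norm_sub_le (T • z.2 - l) ((T - ‖l‖) • z.2)
      rw [← b2, norm_smul, norm_smul, norm_norm, hz.1, mul_one, Real.norm_eq_abs] at b3
      linarith
    rw [div_lt_iff₀ he] at a3
    exact lt_of_mul_lt_mul_left (b1.trans_lt a3) l0.le

end Pool.Agent.MP_3ee8cb_gt.D3RH
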