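import Pool.Agent.MP_3ee8cb_gt.D3RH.Kit
import Pool.Agent.MP_3ee8cb_gt.D3OD.DiaG

/-! The focal time is continuous and invariant. -/

namespace Pool.Agent.MP_3ee8cb_gt.D3RH

open Set Filter Topology D3 D3RK
open D3.SI (ac)
open scoped RealInnerProductSpace

namespace RFO2

/-- A bounded function with a closed graph is continuous. -/
theorem graph {X : Type} [TopologicalSpace X] {s : Set X} {F : X × ℝ → ℝ} {τ : X → ℝ} {M : ℝ}
    (hF : ContinuousOn F (s ×ˢ univ)) (hb : ∀ z ∈ s, |τ z| ≤ M)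
    (h0 : ∀ z ∈ s, ∀ t, F (z, t) = 0 ↔ t = τ z) : ContinuousOn τ s := by
  intro z hz
  refine (isCompact_Icc (a := -M) (b := M)).tendsto_nhds_of_unique_mapClusterPt
    (eventually_mem_nhdsWithin.mono fun w hw => abs_le.1 (hb w hw)) fun t _ ht => ?_
  rw [← h0 z hz]
  have ne : NeBot (𝓝[s] z ⊓ comap τ (𝓝 t)) := by
    rw [mapClusterPt_def, ClusterPt, inf_comm, ← Filter.push_pull] at ht
    exact ht.of_map
  have ev : ∀ᶠ w in 𝓝[s] z ⊓ comap τ (𝓝 t), w ∈ s :=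
    eventually_mem_nhdsWithin.filter_mono inf_le_left
  have t1 : Tendsto (fun w => (w, τ w)) (𝓝[s] z ⊓ comap τ (𝓝 t)) (𝓝[s ×ˢ univ] (z, t)) := by
    refine tendsto_nhdsWithin_iff.2 ⟨?_, ev.mono fun w hw => ⟨hw, trivial⟩⟩
    exact ((tendsto_id'.2 nhdsWithin_le_nhds).mono_left inf_le_left).prodMk_nhds
      (tendsto_comap.mono_left inf_le_right)
  exact tendsto_nhds_unique_of_eventuallyEq ((hF (z, t) ⟨hz, trivial⟩).tendsto.comp t1)
    tendsto_const_nhds (ev.mono fun w hw => (h0 w hw _).2 rfl)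

variable {m : MF}

theorem c_dZ (o : m.OK) : Continuous fun q : ℝ × V × V => fderiv ℝ (m.Z q.1) q.2 :=
  ((o.cZ.continuous_fderiv one_ne_zero).clm_comp continuous_const).congr fun q =>
    (((o.cZ.differentiable one_ne_zero) (q.1, q.2)).hasFDerivAt.comp q.2
      (hasFDerivAt_prodMk_right q.1 q.2)).fderiv.symm

theorem c_Z (o : m.OK) : Continuous fun q : ((V × V) × V × V) × ℝ => m.Z q.2 q.1.1 :=
  o.cZ.continuous.comp (continuous_snd.prodMk continuous_fst.fst)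

theorem c_D (o : m.OK) :
    Continuous fun q : ((V × V) × V × V) × ℝ => fderiv ℝ (m.Z q.2) q.1.1 q.1.2 :=
  ((c_dZ o).comp (continuous_snd.prodMk continuous_fst.fst)).clm_apply continuous_fst.snd

theorem c_J (o : m.OK) : Continuous fun q : ((V × V) × V × V) × ℝ => m.J q.1.1 q.1.2 q.2 :=
  (o.cS.continuous.comp (c_Z o).fst).clm_apply (c_D o).fst

theorem c_J' (o : m.OK) : Continuous fun q : ((V × V) × V × V) × ℝ => m.J' q.1.1 q.1.2 q.2 :=
  (c_D o).snd.add (((o.com.continuous.comp (c_Z o).fst).clm_apply (c_D o).fst).clm_apply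
    (c_Z o).snd)

theorem c_n {S : Sp} (h : Continuous S.ζ) : Continuous S.n :=
  cr_cont.comp ((h.comp continuous_fst).prodMk continuous_snd)

theorem ne {S : Sp} {z : V × V} (hz : z ∈ S.H) : z.2 ≠ 0 := fun e => by
  have := hz.1
  rw [e, norm_zero] at this
  exact zero_ne_one this

theorem op : IsOpen {z : V × V | z.2 ≠ 0} := isOpen_ne_fun continuous_snd continuous_const

section Grp

variable {Λ : Type} [Group Λ] [MulAction Λ V] {O : Λ → V → V ≃ₗᵢ[ℝ] V}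

/-- Jacobi fields are equivariant. -/
theorem J_ac (h : m.OK) (A : Act m Λ O) (γ : Λ) (z η : V × V) (t : ℝ) :
    m.J (ac O γ z) (fderiv ℝ (ac O γ) z η) t = O γ (m.Z t z).1 (m.J z η t) ∧
      m.J' (ac O γ z) (fderiv ℝ (ac O γ) z η) t = O γ (m.Z t z).1 (m.J' z η t) := by
  have d : Differentiable ℝ (ac O γ) := (A.c1 γ).differentiable one_ne_zero
  have e : m.Z t ∘ ac O γ = ac O γ ∘ m.Z t := funext (A.flow γ t)
  have e1 := congrArg (fun f => fderiv ℝ f z η) e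
  simp only [fderiv_comp _ (Dia.dZ h t _) (d _), fderiv_comp _ (d _) (Dia.dZ h t _),
    ContinuousLinearMap.comp_apply] at e1
  have e2 : m.Z t (ac O γ z) = ac O γ (m.Z t z) := A.flow γ t z
  rw [MF.J, MF.J', e1, e2]
  exact ⟨A.hor γ _ _, A.ver γ _ _⟩

/-- The action on vertical vectors. -/
theorem d_ac (h : m.OK) (A : Act m Λ O) (γ : Λ) (z : V × V) (n : V) :
    fderiv ℝ (ac O γ) z (0, n) = (0, O γ z.1 n) := by
  have e1 : m.hor (ac O γ z) (fderiv ℝ (ac O γ) z (0, n)) = _ := A.hor γ z (0, n)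
  have e2 : m.ver (ac O γ z) (fderiv ℝ (ac O γ) z (0, n)) = _ := A.ver γ z (0, n)
  refine sub_eq_zero.1 (Dia.hv_inj h (z := ac O γ z) ?_ ?_)
  · rw [map_sub, e1]; simp [MF.hor]
  · rw [map_sub, e2]; simp [MF.ver]

end Grp

/-- The group keeps the horizontal vectors and the normal up to sign. -/
theorem H_ac {X : Sd} {S : Sp} {ε τ : X.G → ℝ} (h : S.OK1 X.m X.lg) (d : Dk X S ε τ) (γ : X.G)
    {z : V × V} (hz : z ∈ S.H) : ac X.O γ z ∈ S.H ∧ ∃ σ : ℝ, |σ| = 1 ∧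
      S.n (ac X.O γ z) = σ • X.O γ z.1 (S.n z) := by
  have e := d.ze γ z.1
  have e0 : ⟪X.O γ z.1 (S.ζ z.1), X.O γ z.1 z.2⟫ = 0 :=
    ((X.O γ z.1).inner_map_map _ _).trans hz.2
  have k := cr_iso (X.O γ z.1) (h.unit z.1) hz.1 hz.2
  rw [e] at e0 k
  rw [inner_smul_left] at e0
  rw [cr_smul_left] at k
  refine ⟨⟨((X.O γ z.1).norm_map _).trans hz.1, ?_⟩, ?_⟩
  · rcases d.sg γ with s | s <;> rw [s] at e0 <;> simpa [Sp.s, ac] using e0
  · rcases d.sg γ with s | s <;> rw [s] at k <;> rcases k with k | k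
    · exact ⟨1, abs_one, by rw [Sp.n, Sp.n, k]; simp [ac]⟩
    · exact ⟨-1, by simp, by rw [Sp.n, Sp.n, k]; simp [ac]⟩
    · exact ⟨-1, by simp, by rw [Sp.n, Sp.n, k]; simp [ac]⟩
    · exact ⟨1, abs_one, by rw [Sp.n, Sp.n, k]; simp [ac]⟩

variable {X Y : Sd} {c : Cj X Y} {S S' : Sp}

theorem c_pt (o : c.OK) (h : Continuous S.ζ) : ContinuousOn
    (fun q : (V × V) × ℝ => ((c.φ q.1, fderiv ℝ c.φ q.1 (0, S.n q.1)), q.2)) (S.H ×ˢ univ) := by
  have mp : MapsTo (fun q : (V × V) × ℝ => q.1) (S.H ×ˢ univ) {z | z.2 ≠ 0} :=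
    fun _ hq => ne hq.1
  refine ((o.h.c1.continuousOn.comp continuousOn_fst mp).prodMk ?_).prodMk continuousOn_snd
  exact ((o.h.c1.continuousOn_fderiv_of_isOpen op le_rfl).comp continuousOn_fst mp).clm_apply
    (continuous_const.prodMk ((c_n h).comp continuous_fst)).continuousOn

theorem c_A (o : c.OK) (h : Continuous S.ζ) (h' : Continuous S'.ζ) :
    ContinuousOn (fun q : (V × V) × ℝ => A c S S' q.1 q.2) (S.H ×ˢ univ) :=
  ((((c_n h').comp (c_Z o.y.hd.ok)).inner (𝕜 := ℝ) (c_J o.y.hd.ok)).comp_continuousOn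
    (c_pt o h) :)

theorem c_A' (o : c.OK) (h : Continuous S.ζ) (h' : Continuous S'.ζ) :
    ContinuousOn (fun q : (V × V) × ℝ => A' c S S' q.1 q.2) (S.H ×ˢ univ) :=
  ((((c_n h').comp (c_Z o.y.hd.ok)).inner (𝕜 := ℝ) (c_J' o.y.hd.ok)).comp_continuousOn
    (c_pt o h) :)

/-- The derivative of the conjugacy is equivariant. -/
theorem d_phi (o : c.OK) (γ : X.G) {z : V × V} (hz : z.2 ≠ 0) (n : V) :
    fderiv ℝ c.φ (ac X.O γ z) (0, X.O γ z.1 n) =
      fderiv ℝ (ac Y.O (c.ρ γ)) (c.φ z) (fderiv ℝ c.φ z (0, n)) := by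
  have dφ : ∀ w : V × V, w.2 ≠ 0 → DifferentiableAt ℝ c.φ w := fun w hw =>
    (o.h.c1.contDiffAt (op.mem_nhds hw)).differentiableAt one_ne_zero
  have d : Differentiable ℝ (ac X.O γ) := (o.x.act.c1 γ).differentiable one_ne_zero
  have d' : Differentiable ℝ (ac Y.O (c.ρ γ)) := (o.y.act.c1 _).differentiable one_ne_zero
  have z' : (ac X.O γ z).2 ≠ 0 := by simpa [ac] using hz
  have e : c.φ ∘ ac X.O γ =ᶠ[𝓝 z] ac Y.O (c.ρ γ) ∘ c.φ :=
    (op.eventually_mem hz).mono fun w hw => o.eq γ w hw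
  have e1 := congrArg (fun L : V × V →L[ℝ] V × V => L (0, n)) (e.fderiv_eq (𝕜 := ℝ))
  simp only [fderiv_comp _ (dφ _ z') (d _), fderiv_comp _ (d' _) (dφ _ hz),
    ContinuousLinearMap.comp_apply] at e1
  rwa [d_ac o.x.hd.ok o.x.act] at e1

theorem A_ac {ε τ : X.G → ℝ} {ε' τ' : Y.G → ℝ} {D : ℝ} (N : NF c S S' ε τ ε' τ' D)
    (sl : Slp c S S') (γ : X.G) {z : V × V} (hz : z ∈ S.H) (t : ℝ) :
    |A c S S' (ac X.O γ z) t| = |A c S S' z t| ∧ |A' c S S' (ac X.O γ z) t| = |A' c S S' z t| := by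
  have o := N.ok
  obtain ⟨-, σ, s1, e1⟩ := H_ac N.s.o1 N.dk γ hz
  have w : c.φ z ∈ S'.H := ⟨(o.h.norm z (ne hz)).trans hz.1, (sl.sl z hz.1).trans hz.2⟩
  obtain ⟨-, σ', s2, e2⟩ := H_ac N.s'.o1 N.dk' (c.ρ γ) (H_fl o.y.hd.jac N.s'.o1 w t)
  have e3 : c.φ (ac X.O γ z) = ac Y.O (c.ρ γ) (c.φ z) := o.eq γ z (ne hz)
  have e4 : Y.m.Z t (ac Y.O (c.ρ γ) (c.φ z)) = ac Y.O (c.ρ γ) (Y.m.Z t (c.φ z)) :=
    o.y.act.flow _ t _
  have e5 : fderiv ℝ c.φ (ac X.O γ z) (0, S.n (ac X.O γ z)) =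
      fderiv ℝ (ac Y.O (c.ρ γ)) (c.φ z) (σ • fderiv ℝ c.φ z (0, S.n z)) := by
    rw [e1, ← map_smul, d_phi o γ (ne hz), ← map_smul, Prod.smul_mk, smul_zero]
  obtain ⟨j1, j2⟩ := J_ac o.y.hd.ok o.y.act (c.ρ γ) (c.φ z) (σ • fderiv ℝ c.φ z (0, S.n z)) t
  constructor
  · rw [A, A, e5, e3, e4, e2, j1, real_inner_smul_left, LinearIsometryEquiv.inner_map_map, MF.J,
      map_smul, map_smul, real_inner_smul_right, abs_mul, abs_mul, s1, s2, one_mul, one_mul, MF.J]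
  · rw [A', A', e5, e3, e4, e2, j2, real_inner_smul_left, LinearIsometryEquiv.inner_map_map, MF.J',
      map_smul, map_smul, real_inner_smul_right, abs_mul, abs_mul, s1, s2, one_mul, one_mul, MF.J']

end RFO2

open RFO2 in
theorem rFO2 : SFO2 := by
  intro X Y c S S' ε τ₀ ε' τ₀' D N sl τ M F
  have ct : ContinuousOn τ S.H := graph (c_A N.ok N.s.o1.cont N.s'.o1.cont) F.bdd F.zero
  refine ⟨ct, ?_, fun z hz γ => ?_⟩
  · exact ((c_A' N.ok N.s.o1.cont N.s'.o1.cont).comp (continuousOn_id.prodMk ct)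
      fun _ hz => ⟨hz, trivial⟩).abs
  · have h := (H_ac N.s.o1 N.dk γ hz).1
    refine ⟨h, ((F.zero _ h _).1 ?_).symm, (A_ac N sl γ hz _).2⟩
    rw [← abs_eq_zero, (A_ac N sl γ hz _).1, abs_eq_zero]
    exact (F.zero z hz _).2 rfl

end Pool.Agent.MP_3ee8cb_gt.D3RH
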