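import Pool.Agent.MP_3ee8cb_gt.D3RH.Kit

/-! The curvature operator in dimension three and its rank. -/

namespace Pool.Agent.MP_3ee8cb_gt.D3RH

open Set D3 D3RK
open scoped RealInnerProductSpace

namespace ROP

/-- An alternating bilinear map factors through the cross product. -/
theorem alt {F : Type} [NormedAddCommGroup F] [NormedSpace ℝ F] (f : V →L[ℝ] V →L[ℝ] F)
    (h : ∀ a b, f a b = -f b a) (a b : V) : f a b = cr a b 0 • f !₂[0, 1, 0] !₂[0, 0, 1] +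
      cr a b 1 • f !₂[0, 0, 1] !₂[1, 0, 0] + cr a b 2 • f !₂[1, 0, 0] !₂[0, 1, 0] := by
  have e : ∀ v : V, v = v 0 • !₂[1, 0, 0] + v 1 • !₂[0, 1, 0] + v 2 • !₂[0, 0, 1] := fun v =>
    ext3 (by simp) (by simp) (by simp)
  have z : ∀ v, f v v = 0 := fun v => by
    have k : (2 : ℝ) • f v v = 0 := by
      rw [two_smul]
      exact add_eq_zero_iff_eq_neg.2 (h v v)
    exact (smul_eq_zero.1 k).resolve_left two_ne_zero
  rw [cr0, cr1, cr2]
  have ea := e a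
  have eb := e b
  generalize (!₂[1, 0, 0] : V) = p at *
  generalize (!₂[0, 1, 0] : V) = q at *
  generalize (!₂[0, 0, 1] : V) = r at *
  have k : f a b = f (a 0 • p + a 1 • q + a 2 • r) (b 0 • p + b 1 • q + b 2 • r) := by
    rw [← ea, ← eb]
  rw [k]
  simp only [map_add, map_smul, add_apply, smul_apply, z]
  rw [h q p, h p r, h r q]
  module

theorem ker (B : V →L[ℝ] V) (hs : ∀ a b, ⟪B a, b⟫ = ⟪a, B b⟫) (hp : ∀ a, 0 ≤ ⟪B a, a⟫) {e : V}
    (h : ⟪B e, e⟫ = 0) : B e = 0 := by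
  have k := discrim_le_zero (a := ⟪B (B e), B e⟫) (b := 2 * ⟪B e, B e⟫) (c := 0) fun x => by
    have h1 := hp (e + x • B e)
    simp only [map_add, map_smul, inner_add_left, inner_add_right, real_inner_smul_left,
      real_inner_smul_right, h] at h1
    rw [hs (B e) e] at h1
    linarith
  rw [discrim, mul_zero, sub_zero] at k
  have k2 : 2 * ⟪B e, B e⟫ = 0 := pow_eq_zero_iff two_ne_zero |>.1 (le_antisymm k (sq_nonneg _))
  exact inner_self_eq_zero.1 ((mul_eq_zero.1 k2).resolve_left two_ne_zero)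

end ROP

theorem rOP : SOP := by
  intro m j y
  obtain ⟨L, hL⟩ := j.lK y
  have a1 : ∀ a b, L a b = -L b a := fun a b => ContinuousLinearMap.ext fun c => by
    rw [neg_apply, ← hL, ← hL]
    exact j.aK y a b c
  have a2 : ∀ a b c d, ⟪L a b c, d⟫ = cr c d 0 * ⟪L a b !₂[0, 1, 0], !₂[0, 0, 1]⟫ +
      cr c d 1 * ⟪L a b !₂[0, 0, 1], !₂[1, 0, 0]⟫ +
      cr c d 2 * ⟪L a b !₂[1, 0, 0], !₂[0, 1, 0]⟫ := fun a b c d =>
    ROP.alt ((innerSL ℝ).comp (L a b)) (fun c d => by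
      change ⟪L a b c, d⟫ = -⟪L a b d, c⟫
      rw [← hL, ← hL, j.sK, real_inner_comm]) c d
  have a3 : ∀ a b c d, ⟪L a b c, d⟫ = ⟪L c d a, b⟫ := fun a b c d => by
    rw [← hL, ← hL]
    exact j.pK y a b c d
  have a4 := ROP.alt L a1
  simp only [hL]
  generalize (!₂[1, 0, 0] : V) = p at *
  generalize (!₂[0, 1, 0] : V) = q at *
  generalize (!₂[0, 0, 1] : V) = r at *
  have ex : ∀ u v w : V, ∃ B : V →L[ℝ] V, ∀ a, B a = a 0 • u + a 1 • v + a 2 • w := fun u v w =>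
    ⟨(EuclideanSpace.proj (0 : Fin 3)).smulRight u + (EuclideanSpace.proj (1 : Fin 3)).smulRight v
      + (EuclideanSpace.proj (2 : Fin 3)).smulRight w, fun a => rfl⟩
  obtain ⟨B, hB⟩ := ex !₂[⟪L q r q, r⟫, ⟪L q r r, p⟫, ⟪L q r p, q⟫]
    !₂[⟪L r p q, r⟫, ⟪L r p r, p⟫, ⟪L r p p, q⟫] !₂[⟪L p q q, r⟫, ⟪L p q r, p⟫, ⟪L p q p, q⟫]
  refine ⟨B, fun a b => ?_, fun a b c d => ?_⟩
  · rw [hB, hB, a3 r p q r, a3 p q q r, a3 p q r p]
    generalize ⟪L q r q, r⟫ = x1, ⟪L q r r, p⟫ = x2, ⟪L q r p, q⟫ = x3, ⟪L r p r, p⟫ = x4,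
      ⟪L r p p, q⟫ = x5, ⟪L p q p, q⟫ = x6
    simp [inn]
    ring
  · rw [hB, a4 a b]
    simp only [add_apply, smul_apply, inner_add_left, real_inner_smul_left]
    rw [a2 q r c d, a2 r p c d, a2 p q c d]
    generalize ⟪L q r q, r⟫ = x1, ⟪L q r r, p⟫ = x2, ⟪L q r p, q⟫ = x3, ⟪L r p r, p⟫ = x4,
      ⟪L r p p, q⟫ = x5, ⟪L p q p, q⟫ = x6, ⟪L r p q, r⟫ = x7, ⟪L p q q, r⟫ = x8,
      ⟪L p q r, p⟫ = x9, cr c d = v, cr a b = u
    simp [inn]
    ring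

theorem rRK : SRK := by
  intro B hs hp h
  have nz : ∀ w : V, ‖w‖ = 1 → ∃ u : V, ‖u‖ = 1 ∧ ⟪w, u⟫ = 0 ∧ B u = 0 := fun w hw => by
    obtain ⟨e, e0, e1, e2⟩ := h w hw
    exact ⟨‖e‖⁻¹ • e, norm_smul_inv_norm e0, by rw [inner_smul_right, e1, mul_zero],
      by rw [map_smul, ROP.ker B hs hp e2, smul_zero]⟩
  obtain ⟨w, hw, -⟩ := ex_perp 0
  obtain ⟨u, u1, -, u2⟩ := nz w hw
  obtain ⟨v, v1, v0, v2⟩ := nz u u1
  have hz := perp_eq (v := B (cr u v)) u1 v1 v0 (by rw [← hs, u2, inner_zero_left])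
    (by rw [← hs, v2, inner_zero_left])
  refine ⟨cr u v, ⟪cr u v, B (cr u v)⟫, (cr_norm u1 v0).trans v1, ?_, fun a => ?_⟩
  · rw [← hs]
    exact hp _
  · have e := congrArg B (expand u1 v1 v0 a)
    rw [map_add, map_add, map_smul, map_smul, map_smul, u2, v2, smul_zero, smul_zero, zero_add,
      zero_add] at e
    rw [e, mul_comm, mul_smul, ← hz]

end Pool.Agent.MP_3ee8cb_gt.D3RH
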