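import Pool.Agent.MP_3ee8cb_gt.D3RH.Kit

/-! The side of a geodesic inside a level. -/

namespace Pool.Agent.MP_3ee8cb_gt.D3RH

open Set Filter Topology D3 D3RK D3WI
open scoped RealInnerProductSpace

namespace RSID

theorem pos {k j j' : ℝ → ℝ} (h : So k j j') (hk : ∀ t, 0 ≤ k t) (h0 : j 0 = 0) (h1 : j' 0 = 1) :
    0 < j 1 := by
  have dg : ∀ t, HasDerivAt (fun t => j t * j' t) (j' t * j' t + j t * (k t * j t)) t :=
    fun t => (h t).1.mul (h t).2
  have mg : Monotone fun t => j t * j' t := monotone_of_hasDerivAt_nonneg dg fun t => by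
    have := mul_nonneg (hk t) (mul_self_nonneg (j t))
    simp only [Pi.zero_apply]
    nlinarith [mul_self_nonneg (j' t)]
  have dq : ∀ t, HasDerivAt (fun t => j t * j t) (j' t * j t + j t * j' t) t :=
    fun t => (h t).1.mul (h t).1
  have mq : MonotoneOn (fun t => j t * j t) (Ici 0) :=
    monotoneOn_of_hasDerivWithinAt_nonneg (convex_Ici 0)
      (fun t _ => (dq t).continuousAt.continuousWithinAt) (fun t _ => (dq t).hasDerivWithinAt)
      fun t ht => by
        have := mg (interior_subset ht : (0 : ℝ) ≤ t)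
        simp only [h0, zero_mul] at this
        linarith
  have sl := (h 0).1.tendsto_slope_zero_right
  rw [h1] at sl
  obtain ⟨t, h2, h3⟩ := ((sl.eventually (lt_mem_nhds one_pos)).and
    (Ioo_mem_nhdsGT one_pos : ∀ᶠ t in 𝓝[>] (0 : ℝ), t ∈ Ioo 0 1)).exists
  rw [zero_add, h0, sub_zero, smul_eq_mul] at h2
  have h4 : 0 < j t := (mul_pos_iff_of_pos_left (inv_pos.2 h3.1)).1 h2
  by_contra hc
  obtain ⟨r, hr, e⟩ := intermediate_value_Icc' h3.2.le
    (fun s _ => (h s).1.continuousAt.continuousWithinAt) 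
    (⟨not_lt.1 hc, h4.le⟩ : (0 : ℝ) ∈ Icc (j 1) (j t))
  have := mq h3.1.le (h3.1.le.trans hr.1) hr.1
  simp only [e, mul_zero] at this
  nlinarith

variable {m : MF} {lg : V × V → V}

theorem jt (ex : SEX) (sj : SJT) (ho : m.OK) (hj : m.Jac) (w : V × V) (s : ℝ) (P : ℝ → V)
    (k : ℝ → ℝ) (ck : Continuous k) (k0 : ∀ t, 0 ≤ k t)
    (hP : ∀ t, HasDerivAt P (-m.w w t (P t)) t)
    (hK : ∀ t, m.K (m.Z t w).1 (P t) (m.Z t w).2 (m.Z t w).2 = -k t • P t) :
    ∃ a : ℝ, 0 < a ∧ m.J (w.1, s • w.2) (0, P 0) 1 = a • P s := by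
  obtain ⟨j, j', hs, h0, h1⟩ := (ex (fun t => s ^ 2 * k (s * t)) (by fun_prop)).1 0 0 1
  have sc : ∀ t, m.Z t (w.1, s • w.2) = ((m.Z (s * t) w).1, s • (m.Z (s * t) w).2) :=
    fun t => hj.scale t s w.1 w.2
  have k1 := (sj m ho hj (w.1, s • w.2) (0, P 0) (fun t => P (s * t)) _ j j' (fun t => by
    have d := (hP (s * t)).scomp t (hasDerivAt_const_mul s)
    refine d.congr_deriv ?_
    simp only [MF.w, sc, map_smul, smul_apply, smul_neg]) (fun t => by
    obtain ⟨L, hL⟩ := hj.lK (m.Z (s * t) w).1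
    have e := hK (s * t)
    rw [hL] at e
    simp only [sc, hL, map_smul, smul_apply, e, smul_smul]
    congr 1
    ring) hs (by simp [MF.hor, h0]) (by simp [MF.ver, h1]) 1).1
  rw [mul_one] at k1
  exact ⟨j 1, pos hs (fun t => mul_nonneg (sq_nonneg _) (k0 _)) h0 h1, k1⟩

theorem dlg (ho : m.OK) (hl : m.Had lg) (n x b e : V) :
    fderiv ℝ (fun y => ⟪n, lg (x, y)⟫) (m.Z 1 (x, b)).1
      (m.R (m.Z 1 (x, b)).1 (m.J (x, b) (0, e) 1)) = ⟪n, e⟫ := by
  have d0 : DifferentiableAt ℝ (fun y => ⟪n, lg (x, y)⟫) (m.Z 1 (x, b)).1 :=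
    (differentiableAt_const n).inner ℝ ((hl.c1.differentiable one_ne_zero _).comp _
      ((differentiableAt_const x).prodMk differentiableAt_id))
  have d1 : HasDerivAt (fun r : ℝ => (x, b + r • e)) (0, e) 0 :=
    (hasDerivAt_const _ x).prodMk
      (by simpa using ((hasDerivAt_id (0 : ℝ)).smul_const e).const_add b)
  have d2 : HasDerivAt (fun r : ℝ => (m.Z 1 (x, b + r • e)).1)
      (fderiv ℝ (m.Z 1) (x, b) (0, e)).1 0 :=
    ((Z_diff ho 1 (x, b)).hasFDerivAt.comp_hasDerivAt_of_eq 0 d1 (by simp)).fst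
  have d3 := d0.hasFDerivAt.comp_hasDerivAt_of_eq 0 d2 (by simp)
  have d4 : HasDerivAt (fun r : ℝ => ⟪n, b⟫ + r * ⟪n, e⟫) ⟪n, e⟫ 0 := by
    simpa using ((hasDerivAt_id (0 : ℝ)).mul_const ⟪n, e⟫).const_add ⟪n, b⟫
  have e1 : m.R (m.Z 1 (x, b)).1 (m.J (x, b) (0, e) 1) = (fderiv ℝ (m.Z 1) (x, b) (0, e)).1 :=
    ho.RS _ _
  rw [e1]
  refine d3.unique (d4.congr_of_eventuallyEq (.of_forall fun r => ?_))
  simp only [Function.comp, hl.xe, inner_add_right, inner_smul_right]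

end RSID

open RSID

theorem rSID : R_SID := by
  intro ex sj _ m lg H S hS w hw
  have ho := H.ok
  have hj := H.jac
  have hl := H.had
  have n0 : ⟪S.n w, w.2⟫ = 0 := by rw [real_inner_comm]; exact cr_right _ _
  refine ⟨fun y h1 h2 => ?_, fun s => ⟨?_, ?_⟩⟩
  · have h3 := hS.o1.ht 1 (w.1, lg (w.1, y))
    rw [hl.ex, h1, one_mul, left_eq_add] at h3
    have e := expand (hS.o1.unit w.1) hw.1 hw.2 (lg (w.1, y))
    rw [show ⟪S.ζ w.1, lg (w.1, y)⟫ = 0 from h3, show ⟪cr (S.ζ w.1) w.2, lg (w.1, y)⟫ = 0 from h2,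
      zero_smul, zero_smul, zero_add, add_zero] at e
    have e2 := one_smul' hj ⟪w.2, lg (w.1, y)⟫ w
    rw [← e] at e2
    have e3 := hl.ex w.1 y
    rw [e2] at e3
    exact e3.symm
  · rw [lg_ray hj hl, inner_smul_right, n0, mul_zero]
  · obtain ⟨a, pa, ea⟩ := jt ex sj ho hj w s (fun t => (m.Z t w).2) (fun _ => 0) continuous_const
      (fun _ => le_rfl) (d_vel ho w) fun t => by
        have := hj.aK (m.Z t w).1 (m.Z t w).2 (m.Z t w).2 (m.Z t w).2
        rw [neg_zero, zero_smul]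
        exact (smul_eq_zero_iff_right (two_ne_zero' ℝ)).1
          ((two_smul ℝ _).trans (eq_neg_iff_add_eq_zero.1 this))
    obtain ⟨b, pb, eb⟩ := jt ex sj ho hj w s (fun t => S.n (m.Z t w)) (fun t => S.k (m.Z t w).1)
      (hS.o3.ck.comp (continuous_iff_continuousAt.2 fun t => (d_foot ho w t).continuousAt))
      (fun _ => hS.o3.k0 _) (d_n ho hS.o2 w) fun t => K_n hS.o1 hS.o3 (H_fl hj hS.o1 hw t)
    have da := dlg ho hl (S.n w) w.1 (s • w.2) (m.Z 0 w).2
    have db := dlg ho hl (S.n w) w.1 (s • w.2) (S.n (m.Z 0 w))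
    rw [ea, one_smul' hj, ho.zero, n0, map_smul, map_smul, smul_eq_mul] at da
    rw [eb, one_smul' hj, ho.zero, real_inner_self_eq_norm_sq, n_unit hS.o1 hw, one_pow,
      map_smul, map_smul, smul_eq_mul] at db
    refine ⟨b⁻¹, inv_pos.2 pb, fun u hu => ?_⟩
    have hs := H_fl hj hS.o1 hw s
    have e := expand (hS.o1.unit (m.Z s w).1) hs.1 hs.2 (m.S (m.Z s w).1 u)
    rw [hu, zero_smul, zero_add] at e
    have e2 := congrArg (m.R (m.Z s w).1) e
    rw [ho.RS, map_add, map_smul, map_smul] at e2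
    have d1 := (mul_eq_zero.1 da).resolve_left pa.ne'
    have d2 := eq_inv_of_mul_eq_one_right db
    conv_lhs => rw [e2]
    rw [map_add, map_smul, map_smul, d1, smul_zero, zero_add, smul_eq_mul, mul_comm]
    exact congrArg (· * _) d2

end Pool.Agent.MP_3ee8cb_gt.D3RH
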