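import Pool.Agent.MP_3ee8cb_gt.D3RK.RSpec

/-! Higher rank in dimension three: definitions and statements. -/

namespace Pool.Agent.MP_3ee8cb_gt.D3RH

open Set Filter Topology D3 D3RK
open D3.SI (ac)
open CR (FdP)
open scoped RealInnerProductSpace

noncomputable section

/-- The cross product. -/
def cr (a b : V) : V := !₂[a 1 * b 2 - a 2 * b 1, a 2 * b 0 - a 0 * b 2, a 0 * b 1 - a 1 * b 0]

/-- Geodesics at bounded distance. -/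
def Par (m : MF) (lg : V × V → V) (z w : V × V) : Prop := ∃ D, ∀ t, ds m lg t z t w ≤ D

/-- Every point lies on a parallel to `w`. -/
def Full (m : MF) (lg : V × V → V) (w : V × V) : Prop := ∀ x, ∃ a, ‖a‖ = 1 ∧ Par m lg (x, a) w

/-- All sectional curvatures vanish. -/
def Flat (m : MF) : Prop := ∀ y a b, ⟪m.K y a b b, a⟫ = 0

/-- A parallel unit field `ζ`, its height `h`, the curvature `-k` of the levels and the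
derivative `P` of the translations. -/
structure Sp where
  ζ : V → V
  h : V → ℝ
  k : V → ℝ
  P : ℝ → V → V ≃ₗᵢ[ℝ] V

namespace Sp

variable (S : Sp)

/-- The translation by `r`. -/
def T (m : MF) (r : ℝ) (x : V) : V := (m.Z r (x, S.ζ x)).1

/-- The slope. -/
def s (z : V × V) : ℝ := ⟪S.ζ z.1, z.2⟫

/-- The horizontal normal. -/
def n (z : V × V) : V := cr (S.ζ z.1) z.2

/-- The horizontal unit vectors. -/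
def H : Set (V × V) := {z | ‖z.2‖ = 1 ∧ S.s z = 0}

/-- The translation on vectors. -/
def Tv (m : MF) (r : ℝ) (z : V × V) : V × V := (S.T m r z.1, S.P r z.1 z.2)

/-- The horizontal direction. -/
def hd (z : V × V) : V × V := (z.1, ‖z.2 - S.s z • S.ζ z.1‖⁻¹ • (z.2 - S.s z • S.ζ z.1))

/-- The geodesic meets the curved part. -/
def Rg (m : MF) (z : V × V) : Prop := ∃ t, S.k (m.Z t z).1 ≠ 0

/-- The geodesic of `w` is a translate of that of `z`. -/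
def Sh (m : MF) (r c : ℝ) (z w : V × V) : Prop := ∀ t, (m.Z t w).1 = S.T m r (m.Z (t + c) z).1

/-- `ξ` is tangent to the unit tangent bundle of a level. -/
def Tan (m : MF) (z ξ : V × V) : Prop :=
  ⟪S.ζ z.1, m.hor z ξ⟫ = 0 ∧ ⟪S.ζ z.1, m.ver z ξ⟫ = 0 ∧ ⟪z.2, m.ver z ξ⟫ = 0

/-- The metric part of the splitting. -/
structure OK1 (m : MF) (lg : V × V → V) : Prop where
  unit : ∀ x, ‖S.ζ x‖ = 1
  cont : Continuous S.ζ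
  fl : ∀ r x, (m.Z r (x, S.ζ x)).2 = S.ζ (S.T m r x)
  uq : ∀ z ∈ U, ∀ x, Par m lg z (x, S.ζ x) → z.2 = S.ζ z.1
  iso : ∀ r x y, ‖lg (S.T m r x, S.T m r y)‖ = ‖lg (x, y)‖
  sl : ∀ t z, S.s (m.Z t z) = S.s z
  ht : ∀ t z, S.h (m.Z t z).1 = S.h z.1 + t * S.s z
  py : ∀ r x y, ‖lg (x, S.T m r y)‖ ^ 2 = ‖lg (x, y)‖ ^ 2 + 2 * r * (S.h y - S.h x) + r ^ 2

/-- The field is parallel. -/
structure OK2 (m : MF) : Prop where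
  c1 : ContDiff ℝ 1 S.ζ
  ch : ContDiff ℝ 1 S.h
  dh : ∀ x u, fderiv ℝ S.h x u = ⟪S.ζ x, m.S x u⟫
  par : ∀ x u, fderiv ℝ S.ζ x u = -m.om x u (S.ζ x)
  K0 : ∀ x a, m.K x a (S.ζ x) (S.ζ x) = 0

/-- The curvature. -/
structure OK3 (m : MF) : Prop where
  ck : Continuous S.k
  k0 : ∀ x, 0 ≤ S.k x
  KK : ∀ x a b c, m.K x a b c = (S.k x * ⟪S.ζ x, cr a b⟫) • cr (S.ζ x) c

/-- The translations. -/
structure OK4 (m : MF) : Prop where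
  Pz : ∀ r x, S.P r x (S.ζ x) = S.ζ (S.T m r x)
  dT : ∀ r x u, m.S (S.T m r x) (fderiv ℝ (S.T m r) x u) = S.P r x (m.S x u)
  geo : ∀ r t z, m.Z t (S.Tv m r z) = S.Tv m r (m.Z t z)
  dec : ∀ (t c : ℝ) x u, ⟪S.ζ x, u⟫ = 0 → m.Z t (x, u + c • S.ζ x) =
    (S.T m (c * t) (m.Z t (x, u)).1,
      (S.Tv m (c * t) (m.Z t (x, u))).2 + c • S.ζ (S.T m (c * t) (m.Z t (x, u)).1))

structure OK (m : MF) (lg : V × V → V) : Prop where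
  o1 : S.OK1 m lg
  o2 : S.OK2 m
  o3 : S.OK3 m
  o4 : S.OK4 m
  kT : ∀ r x, S.k (S.T m r x) = S.k x

end Sp

/-- A space with its group. -/
structure Sd where
  m : MF
  lg : V × V → V
  G : Type
  [grp : Group G]
  [act : MulAction G V]
  O : G → V → V ≃ₗᵢ[ℝ] V

instance (X : Sd) : Group X.G := X.grp

instance (X : Sd) : MulAction X.G V := X.act

structure Sd.OK (X : Sd) : Prop where
  hd : Hd X.m X.lg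
  act : Act X.m X.G X.O
  fd : FdP 3 X.G

/-- One direction of a conjugacy. -/
structure CH (m m' : MF) (φ : V × V → V × V) : Prop where
  c1 : ContDiffOn ℝ 1 φ {z | z.2 ≠ 0}
  norm : ∀ z, z.2 ≠ 0 → ‖(φ z).2‖ = ‖z.2‖
  flow : ∀ t z, z.2 ≠ 0 → φ (m.Z t z) = m'.Z t (φ z)
  bdd : ∃ C : ℝ, ∀ z ∈ U, ∀ ξ, ‖m'.hor (φ z) (fderiv ℝ φ z ξ)‖ + ‖m'.ver (φ z) (fderiv ℝ φ z ξ)‖ ≤
    C * (‖m.hor z ξ‖ + ‖m.ver z ξ‖)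

/-- The data of a conjugacy. -/
structure Cj (X Y : Sd) where
  ρ : X.G ≃* Y.G
  φ : V × V → V × V
  ψ : V × V → V × V

/-- The inverse conjugacy. -/
def Cj.symm {X Y : Sd} (c : Cj X Y) : Cj Y X := ⟨c.ρ.symm, c.ψ, c.φ⟩

structure Cj.OK {X Y : Sd} (c : Cj X Y) : Prop where
  x : X.OK
  y : Y.OK
  h : CH X.m Y.m c.φ
  h' : CH Y.m X.m c.ψ
  li : ∀ z, z.2 ≠ 0 → c.ψ (c.φ z) = z
  ri : ∀ z, z.2 ≠ 0 → c.φ (c.ψ z) = z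
  eq : Eqv c.ρ X.O Y.O c.φ
  eq' : Eqv c.ρ.symm Y.O X.O c.ψ

theorem Cj.OK.symm {X Y : Sd} {c : Cj X Y} (h : c.OK) : c.symm.OK :=
  ⟨h.y, h.x, h.h', h.h, h.ri, h.li, h.eq', h.eq⟩

/-- An equivariant bijection that keeps the distance. -/
def Iso0 {X Y : Sd} (c : Cj X Y) : Prop := ∃ F : V → V, Function.Bijective F ∧
  (∀ x y, ‖Y.lg (F x, F y)‖ = ‖X.lg (x, y)‖) ∧ ∀ (γ : X.G) x, F (γ • x) = c.ρ γ • F x

/-! ### Algebra and analysis -/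

/-- The curvature operator. -/
def SOP : Prop := ∀ m : MF, m.Jac → ∀ y, ∃ B : V →L[ℝ] V, (∀ a b, ⟪B a, b⟫ = ⟪a, B b⟫) ∧
  ∀ a b c d, ⟪m.K y a b c, d⟫ = ⟪B (cr a b), cr c d⟫

/-- A nonnegative form whose cone meets every plane has rank at most one. -/
def SRK : Prop := ∀ B : V →L[ℝ] V, (∀ a b, ⟪B a, b⟫ = ⟪a, B b⟫) → (∀ a, 0 ≤ ⟪B a, a⟫) →
  (∀ w : V, ‖w‖ = 1 → ∃ e, e ≠ 0 ∧ ⟪w, e⟫ = 0 ∧ ⟪B e, e⟫ = 0) →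
  ∃ (z : V) (k : ℝ), ‖z‖ = 1 ∧ 0 ≤ k ∧ ∀ a, B a = (k * ⟪z, a⟫) • z

/-- `j` solves `j'' = k j`. -/
def So (k j j' : ℝ → ℝ) : Prop := ∀ t, HasDerivAt j (j' t) t ∧ HasDerivAt j' (k t * j t) t

def SEX : Prop := ∀ k : ℝ → ℝ, Continuous k →
  (∀ s a b : ℝ, ∃ j j', So k j j' ∧ j s = a ∧ j' s = b) ∧
  ∀ j j' (s : ℝ), So k j j' → j s = 0 → j' s = 0 → ∀ t, j t = 0 ∧ j' t = 0

/-- A bounded linear first integral vanishes. -/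
def SEL : Prop := ∀ (k p q : ℝ → ℝ) (C : ℝ), Continuous k → (∀ t, 0 ≤ k t) → (∃ t, k t ≠ 0) →
  (∀ j j', So k j j' → ∀ t, p t * j t + q t * j' t = p 0 * j 0 + q 0 * j' 0) →
  (∀ t, |p t| ≤ C ∧ |q t| ≤ C) → p 0 = 0 ∧ q 0 = 0

/-- The conjugacy along one orbit. -/
structure Or1 (C : ℝ) (k k' hh hv vh vv : ℝ → ℝ) : Prop where
  ck : Continuous k
  ck' : Continuous k'
  k0 : ∀ t, 0 ≤ k t
  k0' : ∀ t, 0 ≤ k' t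
  map : ∀ j j', So k j j' →
    So k' (fun t => hh t * j t + hv t * j' t) fun t => vh t * j t + vv t * j' t
  det : ∀ t, hh t * vv t - hv t * vh t = 1
  up : ∀ t, |hh t| ≤ C ∧ |hv t| ≤ C ∧ |vh t| ≤ C ∧ |vv t| ≤ C

/-- The focal time on one orbit. -/
def SOD1 : Prop := ∀ C : ℝ, ∃ T : ℝ, ∀ k k' hh hv vh vv, Or1 C k k' hh hv vh vv →
  ∀ A A' : ℝ → ℝ → ℝ, (∀ s, So k' (A s) (A' s) ∧ A s s = hv s ∧ A' s s = vv s) →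
  ∃ τ : ℝ → ℝ, ∀ s, |τ s - s| ≤ T ∧ (∀ t, A s t = 0 ↔ t = τ s) ∧
    (∀ t, 0 < |A' s (τ s)| ∧ |A' s (τ s)| ≤ |A' s t|) ∧ HasDerivAt τ ((A' s (τ s))⁻¹ ^ 2) s

/-- A global implicit function. -/
def SCRS : Prop := ∀ (g : ℝ × ℝ → ℝ) (a b : ℝ), ContDiff ℝ 1 g →
  (∀ θ ∈ Ioo a b, ∀ t, g (θ, t) = 0 → fderiv ℝ g (θ, t) (0, 1) ≠ 0) →
  (∀ θ ∈ Ioo a b, ∀ t t', g (θ, t) = 0 → g (θ, t') = 0 → t = t') →
  (∀ θ ∈ Ioo a b, ∃ M, ∀ᶠ θ' in 𝓝 θ, ∀ t, g (θ', t) = 0 → |t| ≤ M) →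
  (∃ θ ∈ Ioo a b, ∃ t, g (θ, t) = 0) →
  ∃ τ : ℝ → ℝ, ∀ θ ∈ Ioo a b, g (θ, τ θ) = 0 ∧ DifferentiableAt ℝ τ θ

/-- Rigidity in Euclidean space. -/
def SEUC : Prop := ∀ (Γ : Type) [Group Γ] (α β : Γ →* (V ≃ᵢ V)) (F : V → V) (D : ℝ),
  (∀ x a, ‖a‖ = 1 → ∃ b, ‖b‖ = 1 ∧ ∀ t : ℝ, ‖F (x + t • a) - F x - t • b‖ ≤ D) →
  (∀ x y, ‖F x - F y‖ ≤ ‖x - y‖ + D) → (∀ γ x, ‖F (α γ x) - β γ (F x)‖ ≤ D) →
  ∃ I : V ≃ᵢ V, ∀ γ x, I (α γ x) = β γ (I x)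

/-- The integral over the sphere of a function with nonpositive means on the circles. -/
def SRT : Prop := ∀ (ζ : V) (G : V → ℝ), ‖ζ‖ = 1 → ContinuousOn G {a | ‖a‖ = 1} →
  (∀ a, ‖a‖ = 1 → ∫ θ in (0 : ℝ)..2 * Real.pi,
    G (⟪ζ, a⟫ • ζ + Real.cos θ • (a - ⟪ζ, a⟫ • ζ) + Real.sin θ • cr ζ a) ≤ 0) → sph G ≤ 0

/-! ### One space -/

/-- Jacobi fields along a parallel eigenfield. -/
def SJT : Prop := ∀ m : MF, m.OK → m.Jac → ∀ (z ξ : V × V) (P : ℝ → V) (k j j' : ℝ → ℝ),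
  (∀ t, HasDerivAt P (-m.w z t (P t)) t) →
  (∀ t, m.K (m.Z t z).1 (P t) (m.Z t z).2 (m.Z t z).2 = -k t • P t) → So k j j' →
  m.hor z ξ = j 0 • P 0 → m.ver z ξ = j' 0 • P 0 →
  ∀ t, m.J z ξ t = j t • P t ∧ m.J' z ξ t = j' t • P t

/-- The distance is at most the length. -/
def SLEN : Prop := OnH fun m lg => ∀ (c c' : ℝ → V) (M : ℝ), ContinuousOn c (Icc 0 1) →
  (∀ s ∈ Ioo (0 : ℝ) 1, HasDerivAt c (c' s) s ∧ ‖m.S (c s) (c' s)‖ ≤ M) → ‖lg (c 0, c 1)‖ ≤ M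

/-- Flat planes through `(y, z)` give parallels. -/
def SPLN : Prop := OnH fun m lg => ∀ y z : V, ‖z‖ = 1 →
  (∀ w : V, ‖w‖ = 1 → ∀ t, ‖m.J (y, w) (0, z - ⟪w, z⟫ • w) t‖ ≤ |t| * ‖z - ⟪w, z⟫ • w‖) →
  Full m lg (y, z)

def SFUL : Prop := OnH fun m lg => (∀ z ∈ U, ¬Reg m z) → ∃ w ∈ U, Full m lg w

/-- The exponential map of a flat space. -/
def SFL0 : Prop := OnH fun m lg => Flat m → (∀ w ∈ U, Full m lg w) ∧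
  ∀ o a b, ‖lg ((m.Z 1 (o, a)).1, (m.Z 1 (o, b)).1)‖ = ‖a - b‖

/-- The strip between two parallels. -/
def SSTP : Prop := OnH fun m lg => ∀ z ∈ U, ∀ w ∈ U, Par m lg z w →
  (∀ t, ds m lg t z t w = ‖lg (z.1, w.1)‖) ∧
  (∀ q ∈ Icc (0 : ℝ) 1, ∃ u ∈ U, ∀ t, (m.Z t u).1 =
    (m.Z q ((m.Z t z).1, lg ((m.Z t z).1, (m.Z t w).1))).1) ∧
  ∃ η, ∀ t, m.J z η t = lg ((m.Z t z).1, (m.Z t w).1) ∧ m.J' z η t = 0

/-- A net of parallels is enough. -/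
def SNET : Prop := OnH fun m lg => ∀ v ∈ U, ∀ D : ℝ,
  (∀ x, ∃ z ∈ U, Par m lg z v ∧ ‖lg (x, z.1)‖ ≤ D) → Full m lg v

def SS1 : Prop := OnH fun m lg => ∀ v ∈ U, Full m lg v → ∃ (ζ : V → V) (h : V → ℝ),
  ζ v.1 = v.2 ∧ ∀ k P, (Sp.mk ζ h k P).OK1 m lg

def SS2 : Prop := OnH fun m lg => ∀ S : Sp, S.OK1 m lg → S.OK2 m

def SS3 : Prop := OnH fun m _ => ∀ (ζ : V → V), Continuous ζ → (∀ x, ‖ζ x‖ = 1) →
  (∀ x a, m.K x a (ζ x) (ζ x) = 0) → ∃ k, ∀ h P, (Sp.mk ζ h k P).OK3 m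

def SS4 : Prop := OnH fun m lg => ∀ S : Sp, S.OK1 m lg → S.OK2 m → S.OK3 m →
  ∃ P, (Sp.mk S.ζ S.h S.k P).OK4 m

def SS5 : Prop := OnH fun m lg => ∀ S : Sp, S.OK1 m lg → S.OK2 m → S.OK3 m → S.OK4 m →
  ∀ r x, S.k (S.T m r x) = S.k x

def SSPL : Prop := OnH fun m lg => ∀ v ∈ U, Full m lg v → ∃ S : Sp, S.OK m lg ∧ S.ζ v.1 = v.2

/-- A statement about a split space. -/
def OnS (P : MF → (V × V → V) → Sp → Prop) : Prop :=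
  OnH fun m lg => ∀ S : Sp, S.OK m lg → P m lg S

/-- The normal component of a Jacobi field. -/
def SNF : Prop := OnS fun m _ S => ∀ z ∈ S.H, ∀ ξ, (∀ t, m.Z t z ∈ S.H) ∧
  So (fun t => S.k (m.Z t z).1) (fun t => ⟪S.n (m.Z t z), m.J z ξ t⟫)
    (fun t => ⟪S.n (m.Z t z), m.J' z ξ t⟫) ∧
  ∀ t, ⟪S.ζ (m.Z t z).1, m.J z ξ t⟫ = ⟪S.ζ z.1, m.hor z ξ⟫ + t * ⟪S.ζ z.1, m.ver z ξ⟫ ∧
    ⟪S.ζ (m.Z t z).1, m.J' z ξ t⟫ = ⟪S.ζ z.1, m.ver z ξ⟫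

/-- Parallels to a geodesic that meets the curved part. -/
def SST2 : Prop := OnS fun m lg S => ∀ z ∈ U, S.Rg m z → ∀ w ∈ U, Par m lg z w →
  ⟪S.n z, lg (z.1, w.1)⟫ = 0 ∧ (z ∈ S.H → ∃ r c, S.Sh m r c z w)

/-- Two curves of horizontal vectors with parallel geodesics. -/
def SCST : Prop := OnS fun m _ S => ∀ (σ σ' ξ ξ' : ℝ → V × V) (r c : ℝ → ℝ),
  (∀ θ, σ θ ∈ S.H ∧ σ' θ ∈ S.H ∧ HasDerivAt σ (ξ θ) θ ∧ HasDerivAt σ' (ξ' θ) θ ∧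
    S.Tan m (σ θ) (ξ θ) ∧ S.Tan m (σ' θ) (ξ' θ) ∧ ⟪(σ θ).2, m.hor (σ θ) (ξ θ)⟫ = 0 ∧
    ⟪(σ' θ).2, m.hor (σ' θ) (ξ' θ)⟫ = 0 ∧ S.Sh m (r θ) (c θ) (σ θ) (σ' θ)) →
  ∀ θ, c θ = c 0 ∧ ∀ t, ‖m.J (σ' θ) (ξ' θ) t‖ = ‖m.J (σ θ) (ξ θ) (t + c 0)‖

/-- The angle at the crossing with a fixed geodesic. -/
def SANG : Prop := OnS fun m _ S => ∀ (σ ξ : ℝ → V × V) (w : V × V) (τ s μ : ℝ → ℝ) (a b : ℝ),
  a < b → w ∈ S.H → ContDiff ℝ 1 σ → ContinuousOn μ (Icc a b) →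
  (∀ θ ∈ Ioo a b, σ θ ∈ S.H ∧ HasDerivAt σ (ξ θ) θ ∧ S.Tan m (σ θ) (ξ θ) ∧
    DifferentiableAt ℝ τ θ ∧ DifferentiableAt ℝ s θ ∧ (m.Z (τ θ) (σ θ)).1 = (m.Z (s θ) w).1 ∧
    ⟪S.n (m.Z (s θ) w), (m.Z (τ θ) (σ θ)).2⟫ ≠ 0 ∧ 0 < μ θ ∧
    ∀ t, μ θ ≤ |⟪S.n (m.Z t (σ θ)), m.J' (σ θ) (ξ θ) t⟫|) → ∫ θ in a..b, μ θ ≤ Real.pi

/-- The side of a geodesic inside a level. -/
def SSID : Prop := OnS fun m lg S => ∀ w ∈ S.H,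
  (∀ y, S.h y = S.h w.1 → ⟪S.n w, lg (w.1, y)⟫ = 0 → y = (m.Z ⟪w.2, lg (w.1, y)⟫ w).1) ∧
  ∀ s, ⟪S.n w, lg (w.1, (m.Z s w).1)⟫ = 0 ∧ ∃ ρ : ℝ, 0 < ρ ∧ ∀ u,
    ⟪S.ζ (m.Z s w).1, m.S (m.Z s w).1 u⟫ = 0 →
    fderiv ℝ (fun y => ⟪S.n w, lg (w.1, y)⟫) (m.Z s w).1 u =
      ρ * ⟪S.n (m.Z s w), m.S (m.Z s w).1 u⟫

/-! ### One split space with its group -/

/-- The group keeps the splitting. -/
structure Dk (X : Sd) (S : Sp) (ε τ : X.G → ℝ) : Prop where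
  sg : ∀ γ, ε γ = 1 ∨ ε γ = -1
  ze : ∀ γ x, X.O γ x (S.ζ x) = ε γ • S.ζ (γ • x)
  he : ∀ γ x, S.h (γ • x) = ε γ * S.h x + τ γ
  ke : ∀ (γ : X.G) x, S.k (γ • x) = S.k x
  Te : ∀ γ r x, γ • S.T X.m r x = S.T X.m (ε γ * r) (γ • x)

/-- The curvature is invariant. -/
def SKI : Prop := OnG fun m _ Λ _ _ O => ∀ (γ : Λ) y a b,
  ⟪m.K (γ • y) (O γ y a) (O γ y b) (O γ y b), O γ y a⟫ = ⟪m.K y a b b, a⟫

def SDK : Prop := ∀ (X : Sd) (S : Sp), X.OK → S.OK X.m X.lg → (∃ x, S.k x ≠ 0) →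
  ∃ ε τ, Dk X S ε τ

/-- Density in every horizontal circle. -/
def SDEN : Prop := ∀ (X : Sd) (S : Sp) ε τ, X.OK → S.OK X.m X.lg → (∃ x, S.k x ≠ 0) →
  Dk X S ε τ → ∀ z ∈ S.H, z ∈ closure {w | w ∈ S.H ∧ S.Rg X.m w}

/-- North south dynamics among vectors of one slope. -/
def SNS2 : Prop := ∀ (X : Sd) (S : Sp) ε τ E, X.OK → S.OK X.m X.lg → Dk X S ε τ →
  Asy X.m X.lg E → ∀ u ∈ U, S.Rg X.m u → S.s u ≠ 0 → Rec X.m X.O atTop u → Rec X.m X.O atBot u →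
  ∀ a, ‖a‖ = 1 → S.s (u.1, a) = S.s u → (S.s u) ^ 2 - (1 - S.s u ^ 2) < ⟪u.2, a⟫ →
  ∃ γ : ℕ → X.G, Tendsto (fun n => E u.1 (ac X.O (γ n) (u.1, a))) atTop (𝓝 u.2)

/-- An odd invariant function vanishes. -/
def SODD : Prop := ∀ (X : Sd) (S : Sp) ε τ (θ : V × V → ℝ), X.OK → S.OK X.m X.lg →
  (∃ x, S.k x ≠ 0) → Dk X S ε τ → ContinuousOn θ S.H →
  (∀ z ∈ S.H, (∀ t, θ (X.m.Z t z) = θ z) ∧ (∀ r, θ (S.Tv X.m r z) = θ z) ∧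
    (∀ γ, θ (ac X.O γ z) = θ z) ∧ θ (z.1, -z.2) = -θ z) → ∀ z ∈ S.H, θ z = 0

/-- Averaging over the horizontal vectors. -/
def SAVG : Prop := ∀ (X : Sd) (S : Sp) ε τ₀ (τ μ : V × V → ℝ) (M : ℝ), X.OK → S.OK X.m X.lg →
  Dk X S ε τ₀ → ContinuousOn μ S.H →
  (∀ z ∈ S.H, 0 < μ z ∧ |τ z| ≤ M ∧ (∀ r, μ (S.Tv X.m r z) = μ z) ∧
    (∀ γ, μ (ac X.O γ z) = μ z) ∧
    (∀ s, HasDerivAt (fun s => τ (X.m.Z s z)) ((μ (X.m.Z s z))⁻¹ ^ 2 - 1) s) ∧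
    ∫ θ in (0 : ℝ)..2 * Real.pi, μ (z.1, Real.cos θ • z.2 + Real.sin θ • S.n z) ≤ 2 * Real.pi) →
  ∀ z ∈ S.H, μ z = 1

/-! ### Two spaces -/

/-- A statement about a conjugacy. -/
def OnJ (P : ∀ X Y : Sd, Cj X Y → Prop) : Prop := ∀ (X Y : Sd) (c : Cj X Y), c.OK → P X Y c

/-- The conjugacy is coarsely distance non-increasing. -/
def Di {X Y : Sd} (c : Cj X Y) (D : ℝ) : Prop :=
  ∀ z ∈ U, ∀ w ∈ U, ‖Y.lg ((c.φ z).1, (c.φ w).1)‖ ≤ ‖X.lg (z.1, w.1)‖ + D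

def SDI : Prop := OnJ fun _ _ c => ∃ D, Di c D

def STRF : Prop := OnJ fun X Y c => ∀ v ∈ U, Full X.m X.lg v → Full Y.m Y.lg (c.φ v)

def SFLT : Prop := OnJ fun X Y c => Flat X.m → Flat Y.m → Iso0 c

/-- The curved case. -/
structure NF {X Y : Sd} (c : Cj X Y) (S S' : Sp) (ε τ : X.G → ℝ) (ε' τ' : Y.G → ℝ) (D : ℝ) :
    Prop where
  ok : c.OK
  s : S.OK X.m X.lg
  s' : S'.OK Y.m Y.lg
  nf : ∃ x, S.k x ≠ 0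
  nf' : ∃ y, S'.k y ≠ 0
  dk : Dk X S ε τ
  dk' : Dk Y S' ε' τ'
  di : Di c D
  di' : Di c.symm D
  lz : ∀ x, (c.φ (x, S.ζ x)).2 = S'.ζ (c.φ (x, S.ζ x)).1

/-- A statement in the curved case. -/
def OnN (P : ∀ X Y : Sd, Cj X Y → Sp → Sp → ℝ → Prop) : Prop :=
  ∀ (X Y : Sd) (c : Cj X Y) S S' ε τ ε' τ' D, NF c S S' ε τ ε' τ' D → P X Y c S S' D

section Two

variable {X Y : Sd} (c : Cj X Y) (S S' : Sp)

/-- Slopes and heights. -/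
structure Slp : Prop where
  sl : ∀ z ∈ U, S'.s (c.φ z) = S.s z
  ht : ∃ C, ∀ z ∈ U, |S'.h (c.φ z).1 - S.h z.1| ≤ C

/-- The heights are intertwined. -/
def Coc (p : ℝ) : Prop :=
  ∀ (γ : X.G) x y, S'.h y = S.h x + p → S'.h (c.ρ γ • y) = S.h (γ • x) + p

/-- The block form of the derivative. -/
def Blk : Prop := ∀ z ∈ S.H, ∀ ξ, S.Tan X.m z ξ → S'.Tan Y.m (c.φ z) (fderiv ℝ c.φ z ξ) ∧
  ⟪(c.φ z).2, Y.m.hor (c.φ z) (fderiv ℝ c.φ z ξ)⟫ = ⟪z.2, X.m.hor z ξ⟫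

/-- The determinant is one. -/
def Det : Prop := ∀ z ∈ S.H, ∀ ξ η, S.Tan X.m z ξ → S.Tan X.m z η →
  ⟪S'.n (c.φ z), Y.m.hor (c.φ z) (fderiv ℝ c.φ z ξ)⟫ *
      ⟪S'.n (c.φ z), Y.m.ver (c.φ z) (fderiv ℝ c.φ z η)⟫ -
    ⟪S'.n (c.φ z), Y.m.ver (c.φ z) (fderiv ℝ c.φ z ξ)⟫ *
      ⟪S'.n (c.φ z), Y.m.hor (c.φ z) (fderiv ℝ c.φ z η)⟫ =
  ⟪S.n z, X.m.hor z ξ⟫ * ⟪S.n z, X.m.ver z η⟫ - ⟪S.n z, X.m.ver z ξ⟫ * ⟪S.n z, X.m.hor z η⟫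

/-- The image of the vertical field. -/
def A (z : V × V) (t : ℝ) : ℝ :=
  ⟪S'.n (Y.m.Z t (c.φ z)), Y.m.J (c.φ z) (fderiv ℝ c.φ z (0, S.n z)) t⟫

/-- Its derivative. -/
def A' (z : V × V) (t : ℝ) : ℝ :=
  ⟪S'.n (Y.m.Z t (c.φ z)), Y.m.J' (c.φ z) (fderiv ℝ c.φ z (0, S.n z)) t⟫

/-- The focal time along orbits. -/
structure Fo1 (τ : V × V → ℝ) (M : ℝ) : Prop where
  bdd : ∀ z ∈ S.H, |τ z| ≤ M
  zero : ∀ z ∈ S.H, ∀ t, A c S S' z t = 0 ↔ t = τ z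
  min : ∀ z ∈ S.H, ∀ t, 0 < |A' c S S' z (τ z)| ∧ |A' c S S' z (τ z)| ≤ |A' c S S' z t|
  der : ∀ z ∈ S.H, ∀ s, HasDerivAt (fun s => τ (X.m.Z s z))
    (|A' c S S' (X.m.Z s z) (τ (X.m.Z s z))|⁻¹ ^ 2 - 1) s

/-- Continuity and invariance. -/
structure Fo2 (τ : V × V → ℝ) : Prop where
  ct : ContinuousOn τ S.H
  cm : ContinuousOn (fun z => |A' c S S' z (τ z)|) S.H
  gr : ∀ z ∈ S.H, ∀ γ, ac X.O γ z ∈ S.H ∧ τ (ac X.O γ z) = τ z ∧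
    |A' c S S' (ac X.O γ z) (τ z)| = |A' c S S' z (τ z)|

/-- Flips and translations move the image along its flat. -/
structure Sh1 : Prop where
  fp : ∀ z ∈ S.H, ∃ r b, S'.Sh Y.m r b (c.φ z) ((c.φ (z.1, -z.2)).1, -(c.φ (z.1, -z.2)).2)
  tr : ∀ r₀, ∀ z ∈ S.H, ∃ r b, S'.Sh Y.m r b (c.φ z) (c.φ (S.Tv X.m r₀ z))

/-- The shifts depend on the foot only. -/
structure Sh2 (τ : V × V → ℝ) : Prop where
  fp : ∀ x, ∃ b, ∀ a, (x, a) ∈ S.H → τ (x, -a) = b - τ (x, a)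
  tr : ∀ r₀ x, ∃ b, ∀ a, (x, a) ∈ S.H → τ (S.Tv X.m r₀ (x, a)) = τ (x, a) - b ∧
    |A' c S S' (S.Tv X.m r₀ (x, a)) (τ (S.Tv X.m r₀ (x, a)))| = |A' c S S' (x, a) (τ (x, a))| ∧
    ∃ r, S'.Sh Y.m r b (c.φ (x, a)) (c.φ (S.Tv X.m r₀ (x, a)))

end Two

def SSLP : Prop := OnN fun _ _ c S S' _ => Slp c S S'

def SCOC : Prop := OnN fun _ _ c S S' _ => Slp c S S' → ∃ p, Coc c S S' p

def SBLK : Prop := OnN fun _ _ c S S' _ => Slp c S S' → Blk c S S'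

def SDET : Prop := OnN fun _ _ c S S' _ => Slp c S S' → Blk c S S' → Det c S S'

def SFO1 : Prop := OnN fun _ _ c S S' _ => Slp c S S' → Blk c S S' → Det c S S' →
  ∃ τ M, Fo1 c S S' τ M

def SFO2 : Prop := OnN fun _ _ c S S' _ => Slp c S S' → ∀ τ M, Fo1 c S S' τ M → Fo2 c S S' τ

def SSH1 : Prop := OnN fun _ _ c S S' _ => Slp c S S' → Sh1 c S S'

def SSH2 : Prop := OnN fun _ _ c S S' _ => Slp c S S' → Blk c S S' → Sh1 c S S' →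
  ∀ τ M, Fo1 c S S' τ M → Sh2 c S S' τ

/-- The fibre inequality on a half circle. -/
def SFB : Prop := OnN fun _ _ c S S' _ => Slp c S S' → Blk c S S' → ∀ τ M, Fo1 c S S' τ M →
  Fo2 c S S' τ → ∀ z ∈ S.H, ∫ θ in (0 : ℝ)..Real.pi,
    |A' c S S' (z.1, Real.cos θ • z.2 + Real.sin θ • S.n z)
      (τ (z.1, Real.cos θ • z.2 + Real.sin θ • S.n z))| ≤ Real.pi

/-- The end of the curved case. -/
def SEN : Prop := OnN fun X _ c S S' _ => Slp c S S' → Blk c S S' → ∀ τ M p, Coc c S S' p →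
  Fo1 c S S' τ M → Fo2 c S S' τ → Sh2 c S S' τ → (∀ z ∈ S.H, ∀ t, τ (X.m.Z t z) = τ z) →
  (∀ x a b, (x, a) ∈ S.H → (x, b) ∈ S.H → τ (x, a) = τ (x, b)) → Iso0 c

def SNFC : Prop := OnN fun _ _ c _ _ _ => Iso0 c

def SHR0 : Prop := OnJ fun _ Y c => (∀ z ∈ U, ¬Reg Y.m z) → Iso0 c

/-! ### The link with metrics -/

def SCF0 : Prop := On2 fun g h C C' Γ Λ _ _ _ _ Φ Ψ ρ F => ∀ (m m' : MF) lg lg' O O', Hd m lg →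
  Hd m' lg' → Lk g C Φ m → Lk h C' Ψ m' → Act m Γ O → Act m' Λ O' → C1L F → C1L F.symm →
  ∃ φ ψ, (Cj.mk (X := ⟨m, lg, Γ, O⟩) (Y := ⟨m', lg', Λ, O'⟩) ρ φ ψ).OK

/-- A distance preserving bijection is smooth. -/
def SMS : Prop := ∀ (m m' : MF) lg lg' (F : V → V), Hd m lg → Hd m' lg' → Function.Bijective F →
  (∀ x y, ‖lg' (F x, F y)‖ = ‖lg (x, y)‖) → ContDiff ℝ 1 F ∧
    ∀ x u v, ⟪m'.S (F x) (fderiv ℝ F x u), m'.S (F x) (fderiv ℝ F x v)⟫ = ⟪m.S x u, m.S x v⟫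

/-- The theorem in higher rank. -/
def MainH : Prop := On2 fun g h C C' _ _ _ _ _ _ Φ Ψ ρ F => ∀ (m m' : MF) lg lg', Hd m lg →
  Hd m' lg' → Lk g C Φ m → Lk h C' Ψ m' → C1L F → C1L F.symm → (∀ z ∈ U, ¬Reg m' z) → Iso g h ρ

/-! ### Rows -/

def R_EL : Prop := SEX → SEL
def R_OD1 : Prop := SEX → SOD1
def R_PLN : Prop := SGEO → SLEN → SPLN
def R_FUL : Prop := SOP → SRK → SJT → SPLN → SFUL
def R_FL0 : Prop := SOP → SJT → SLEN → SPLN → SFL0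
def R_STP : Prop := SCV → SGEO → SSTP
def R_NET : Prop := SCV → SASY → SSTP → SNET
def R_S1 : Prop := SCV → SASY → SSTP → SS1
def R_S2 : Prop := SSTP → SS2
def R_S3 : Prop := SOP → SS3
def R_S4 : Prop := SGEO → SJT → SS4
def R_S5 : Prop := SEX → SJT → SS5
def R_ST2 : Prop := SSTP → SNF → SST2
def R_SID : Prop := SEX → SJT → SNF → SSID
def R_ANG : Prop := SNF → SANG
def R_DK : Prop := SLGA → SKI → SSPL → SDK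
def R_DEN : Prop := SLGA → SDEN
def R_NS2 : Prop := SCV → SGEO → SAQ → SST2 → SNS2
def R_ODD : Prop := SASY → SAQ → SLA → SNW → SBAI → SDEN → SNS2 → SODD
def R_AVG : Prop := D3NP.SINT2 → SRT → SAVG
def R_DI : Prop := SLGA → SDI
def R_TRF : Prop := SDI → SNET → STRF
def R_FLT : Prop := SLGA → SGEO → SDI → SFL0 → SEUC → SFLT
def R_BLK : Prop := SEL → SJT → SNF → SDEN → SBLK
def R_FO1 : Prop := SEX → SJT → SNF → SOD1 → SFO1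
def R_SH1 : Prop := SDEN → SST2 → SSH1
def R_SH2 : Prop := SNF → SCST → SSH2
def R_FB : Prop := SCRS → SNF → SSID → SANG → SFB
def R_EN : Prop := SNF → SEN
def R_CST : Prop := SNF → SCST
def R_DET : Prop := SNF → SDET

end

end Pool.Agent.MP_3ee8cb_gt.D3RH
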